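import Pool.Agent.MP_369096_an.H89.NTb
import Pool.Agent.MP_369096_an.H89.Base3
import Pool.Agent.MP_369096_an.H89.Ent2

-- part MP_369096_an.H89.Base1
section

/-!
TASK Base1. Existence of the first map. Auxiliary lemmas go in namespace `H89.Base1`.

Let `a = 10^40`, `ω = 9 / (100 a)`, `ρ0 = a ω - 63 ω`; undeformed breakpoints `β = (-ρ0, -3ω, -ω, ω, 3ω, ρ0)`, slope jumps
`k = (-1, a - 21, -2a, 2a, 21 - a, 1)` (`∑ k = 0`, `∑ k β = 0`), so `22 x + ∑ k j max 0 (x - β j)` has slopes `22, 21, a, -a, a, 21, 22` and vanishes at `∓2ω`.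
For `(λ, t)` near `(1,1)` (say `|λ - 1| ≤ 10^-3`, `|t - 1| ≤ 10^-50`, or use `eventually`) put `b j = x0 + t (β j - x0)` for `j < 6`, `b 6 = b 0 + 1`,
`ψ x = λ ∑ k j max 0 (x - b j)` (zero outside `[b 0, b 5]`), `G x = 22 x + ψ (x - round x)`, `sl j = 22 + λ (s j - 22)`, `s = (21, a, -a, a, 21, 22)`.
On `[b j, b (j+1)] + i` the function `G x - y` is `((22,-1),0) + dfm λ t i g0` with `g0` the affine piece `((s j - 22, 0), ·)` of the undeformed sum
(for `j = 5`, `g0 = 0`); the lines are `lineAt (t * 0) (i + x0 + t (β j - x0), 0)`. Choose `λ`, then `t`, with `nt_lin`, `gen_Z`, `exists_notMem_Ioo`.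
The zeros `ξ0, ξ1` of the two laps of slope `sl 1 = sl 3` are within `ω/10` of `∓ 2ω`; take `w = ω`.
-/

set_option autoImplicit false

open Set Filter Topology

namespace Pool.Agent.MP_369096_an.H89

namespace Base1

noncomputable def om : ℝ := 9 / 10 ^ 42

noncomputable def be : ℕ → ℝ
  | 0 => -(9 / 100 - 63 * om)
  | 1 => -3 * om
  | 2 => -om
  | 3 => om
  | 4 => 3 * om
  | _ => 9 / 100 - 63 * om

noncomputable def kk : ℕ → ℝ
  | 0 => -1
  | 1 => 10 ^ 40 - 21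
  | 2 => -2 * 10 ^ 40
  | 3 => 2 * 10 ^ 40
  | 4 => 21 - 10 ^ 40
  | _ => 1

noncomputable def sig (j : ℕ) : ℝ := ∑ i ∈ Finset.range (j + 1), kk i
noncomputable def cc (j : ℕ) : ℝ := -∑ i ∈ Finset.range (j + 1), kk i * be i
noncomputable def bb (t : ℝ) (j : ℕ) : ℝ :=
  if j < 6 then x0 + t * (be j - x0) else x0 + t * (be 0 - x0) + 1
noncomputable def ps (l t x : ℝ) : ℝ := l * ∑ i ∈ Finset.range 6, kk i * max 0 (x - bb t i)
noncomputable def GG (l t x : ℝ) : ℝ := 22 * x + ps l t (x - ⌊x - bb t 0⌋)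

theorem sig0 : sig 0 = -1 := by simp [sig, kk]
theorem sig1 : sig 1 = 10 ^ 40 - 22 := by simp only [sig, Finset.sum_range_succ, kk]; norm_num
theorem sig2 : sig 2 = -10 ^ 40 - 22 := by simp only [sig, Finset.sum_range_succ, kk]; norm_num
theorem sig3 : sig 3 = 10 ^ 40 - 22 := by simp only [sig, Finset.sum_range_succ, kk]; norm_num
theorem sig4 : sig 4 = -1 := by simp only [sig, Finset.sum_range_succ, kk]; norm_num
theorem sig5 : sig 5 = 0 := by simp only [sig, Finset.sum_range_succ, kk]; norm_num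
theorem cc1 : cc 1 = 18 / 100 := by
  simp only [cc, Finset.sum_range_succ, kk, be, om]; norm_num
theorem cc3 : cc 3 = -(18 / 100) := by
  simp only [cc, Finset.sum_range_succ, kk, be, om]; norm_num
theorem cc5 : cc 5 = 0 := by
  simp only [cc, Finset.sum_range_succ, kk, be, om]; norm_num

theorem bb_lt {t : ℝ} {j : ℕ} (hj : j < 6) : bb t j = t * be j - x0 * (t - 1) := by
  rw [bb, if_pos hj]; ring

theorem bb6 (t : ℝ) : bb t 6 = bb t 0 + 1 := by
  simp [bb]

theorem x0_bounds : 1 < x0 ∧ x0 < 2 := by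
  constructor
  · exact Real.lt_sqrt_of_sq_lt (by norm_num)
  · exact (Real.sqrt_lt' (by norm_num)).2 (by norm_num)

theorem del_bounds {t : ℝ} (h1 : 1 < t) (h2 : t < 1 + 1 / 10 ^ 50) :
    0 < x0 * (t - 1) ∧ x0 * (t - 1) < 2 / 10 ^ 50 := by
  obtain ⟨a, b⟩ := x0_bounds
  constructor
  · exact mul_pos (by linarith) (by linarith)
  · have : x0 * (t - 1) < 2 * (t - 1) := mul_lt_mul_of_pos_right b (by linarith)
    linarith

theorem bb_inc {t : ℝ} (h1 : 1 < t) (h2 : t < 1 + 1 / 10 ^ 50) :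
    ∀ j < 6, bb t j < bb t (j + 1) := by
  intro j hj
  rcases Nat.lt_succ_iff_lt_or_eq.1 hj with hj' | rfl
  · rw [bb_lt hj, bb_lt (by omega)]
    interval_cases j
    all_goals
      simp only [be, om]
      linarith
  · rw [bb6, bb_lt (by norm_num), bb_lt (by norm_num)]
    simp only [be, om]
    linarith

theorem bb_mono {t : ℝ} (h1 : 1 < t) (h2 : t < 1 + 1 / 10 ^ 50) {i j : ℕ} (hij : i ≤ j)
    (hj : j ≤ 6) : bb t i ≤ bb t j := by
  induction j, hij using Nat.le_induction with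
  | base => exact le_rfl
  | succ j _ ih => exact (ih (by omega)).trans (bb_inc h1 h2 j (by omega)).le

theorem ps_piece {l t : ℝ} (h1 : 1 < t) (h2 : t < 1 + 1 / 10 ^ 50) {j : ℕ} (hj : j < 6) {x : ℝ}
    (hx : x ∈ Icc (bb t j) (bb t (j + 1))) :
    ps l t x = l * (sig j * (x - x0) + t * (sig j * x0 + cc j)) := by
  have e1 : ∑ i ∈ Finset.range 6, kk i * max 0 (x - bb t i)
      = ∑ i ∈ Finset.range (j + 1), kk i * max 0 (x - bb t i) := by
    refine (Finset.sum_subset (Finset.range_subset_range.2 (by omega)) fun i hi hi' => ?_).symm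
    rw [Finset.mem_range] at hi hi'
    have := bb_mono h1 h2 (i := j + 1) (j := i) (by omega) (by omega)
    rw [max_eq_left (by linarith [hx.2]), mul_zero]
  have e2 : ∑ i ∈ Finset.range (j + 1), kk i * max 0 (x - bb t i)
      = ∑ i ∈ Finset.range (j + 1), (kk i * (x - x0 + t * x0) - t * (kk i * be i)) := by
    refine Finset.sum_congr rfl fun i hi => ?_
    rw [Finset.mem_range] at hi
    have := bb_mono h1 h2 (i := i) (j := j) (by omega) (by omega)
    rw [max_eq_right (by linarith [hx.1]), bb_lt (by omega)]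
    ring
  rw [ps, e1, e2, Finset.sum_sub_distrib, ← Finset.sum_mul, ← Finset.mul_sum, sig, cc]
  ring

theorem GG_per (l t x : ℝ) (k : ℤ) : GG l t (x + k) = GG l t x + 22 * k := by
  have e : ⌊x + k - bb t 0⌋ = ⌊x - bb t 0⌋ + k := by
    rw [show x + k - bb t 0 = x - bb t 0 + k by ring, Int.floor_add_intCast]
  rw [GG, GG, e]
  push_cast
  rw [show x + k - (⌊x - bb t 0⌋ + k) = x - ⌊x - bb t 0⌋ by ring]
  ring

theorem GG_piece {l t : ℝ} (h1 : 1 < t) (h2 : t < 1 + 1 / 10 ^ 50) {j : ℕ} (hj : j < 6) {x : ℝ}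
    (hx : x ∈ Icc (bb t j) (bb t (j + 1))) :
    GG l t x = 22 * x + l * (sig j * (x - x0) + t * (sig j * x0 + cc j)) := by
  have a0 : bb t 0 ≤ x := (bb_mono h1 h2 (Nat.zero_le j) (by omega)).trans hx.1
  have a6 : x ≤ bb t 0 + 1 := by
    rw [← bb6]; exact hx.2.trans (bb_mono h1 h2 (by omega) le_rfl)
  rw [← ps_piece h1 h2 hj hx, GG]
  rcases a6.lt_or_eq with h | h
  · rw [Int.floor_eq_zero_iff.2 ⟨by linarith, by linarith⟩]
    simp
  · have e : ⌊x - bb t 0⌋ = 1 := by rw [h]; simp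
    have p0 : ps l t (x - 1) = 0 := by
      rw [ps, Finset.sum_eq_zero, mul_zero]
      intro i hi
      rw [Finset.mem_range] at hi
      have := bb_mono h1 h2 (Nat.zero_le i) (by omega)
      rw [max_eq_left (by linarith), mul_zero]
    have p1 : ps l t x = 0 := by
      rw [ps_piece h1 h2 (j := 5) (by norm_num)
        ⟨by rw [h, ← bb6]; exact bb_mono h1 h2 (by norm_num) le_rfl, by rw [h, ← bb6]⟩, sig5, cc5]
      ring
    rw [e, p1, Int.cast_one, p0]

theorem spec {l t : ℝ} (l1 : 1 < l) (l2 : l < 1 + 1 / 1000) (h1 : 1 < t)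
    (h2 : t < 1 + 1 / 10 ^ 50) : BaseSpec (GG l t) (bb t) (fun j => 22 + l * sig j) := by
  obtain ⟨d1, d2⟩ := del_bounds h1 h2
  have lt1 : l < l * t := by nlinarith
  have lt2 : l * t < l + 2 / 10 ^ 50 := by
    have : l * (t - 1) < 2 * (t - 1) := mul_lt_mul_of_pos_right (by linarith) (by linarith)
    linarith
  have ld1 : 0 < l * (x0 * (t - 1)) := mul_pos (by linarith) d1
  have ld2 : l * (x0 * (t - 1)) < 4 / 10 ^ 50 := by
    have : l * (x0 * (t - 1)) < 2 * (x0 * (t - 1)) := mul_lt_mul_of_pos_right (by linarith) d1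
    linarith
  refine ⟨GG_per l t, bb_inc h1 h2, bb6 t, ?_, ?_, fun j hj x hx => ?_, fun j hj => ?_,
    fun x hx => ?_, fun j hj => ?_, ?_⟩
  · rw [bb_lt (by norm_num)]; simp only [be, om]; linarith
  · rw [bb_lt (by norm_num)]; simp only [be, om]; linarith
  · rw [GG_piece h1 h2 hj hx, GG_piece h1 h2 hj ⟨le_rfl, (bb_inc h1 h2 j hj).le⟩]
    ring
  · interval_cases j
    · rw [sig0]; exact le_abs.2 (Or.inl (by linarith))
    · rw [sig1]; exact le_abs.2 (Or.inl (by linarith))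
    · rw [sig2]; exact le_abs.2 (Or.inr (by linarith))
    · rw [sig3]; exact le_abs.2 (Or.inl (by linarith))
    · rw [sig4]; exact le_abs.2 (Or.inl (by linarith))
    · rw [sig5]; exact le_abs.2 (Or.inl (by linarith))
  · rw [GG_piece h1 h2 (j := 5) (by norm_num) hx, sig5, cc5]; ring
  · interval_cases j
    · left; rw [sig0, abs_le]; constructor <;> linarith
    · right
      rw [sig1, abs_of_nonneg (by linarith), bb_lt (by norm_num), bb_lt (by norm_num)]
      simp only [be, om]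
      linarith
    · right
      rw [sig2, abs_of_nonpos (by linarith), bb_lt (by norm_num), bb_lt (by norm_num)]
      simp only [be, om]
      linarith
    · right
      rw [sig3, abs_of_nonneg (by linarith), bb_lt (by norm_num), bb_lt (by norm_num)]
      simp only [be, om]
      linarith
    · left; rw [sig4, abs_le]; constructor <;> linarith
    · left; rw [sig5, abs_le]; constructor <;> linarith
  · have ha : 0 < 22 + l * (10 ^ 40 - 22) := by linarith
    obtain ⟨ξ0, e0⟩ : ∃ ξ : ℝ, (22 + l * (10 ^ 40 - 22)) * ξ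
        = -((10 ^ 40 - 22) * (l * (x0 * (t - 1)))) - 18 / 100 * (l * t) :=
      ⟨_, mul_div_cancel₀ _ ha.ne'⟩
    obtain ⟨ξ1, e1⟩ : ∃ ξ : ℝ, (22 + l * (10 ^ 40 - 22)) * ξ
        = -((10 ^ 40 - 22) * (l * (x0 * (t - 1)))) + 18 / 100 * (l * t) :=
      ⟨_, mul_div_cancel₀ _ ha.ne'⟩
    have b0 : -(21 / 10 * om) ≤ ξ0 := le_of_mul_le_mul_left (by rw [e0, om]; linarith) ha
    have b0' : ξ0 ≤ -(19 / 10 * om) := le_of_mul_le_mul_left (by rw [e0, om]; linarith) ha
    have b1 : 19 / 10 * om ≤ ξ1 := le_of_mul_le_mul_left (by rw [e1, om]; linarith) ha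
    have b1' : ξ1 ≤ 21 / 10 * om := le_of_mul_le_mul_left (by rw [e1, om]; linarith) ha
    refine ⟨22 + l * (10 ^ 40 - 22), om, ξ0, ξ1, by linarith, by rw [om]; norm_num,
      by rw [om]; norm_num, abs_le.2 ⟨by linarith, by linarith⟩,
      abs_le.2 ⟨by linarith, by linarith⟩, fun x hx => ?_, fun x hx => ?_⟩
    · obtain ⟨x1, x2⟩ := abs_le.1 hx
      rw [GG_piece h1 h2 (j := 1) (by norm_num), sig1, cc1, mul_sub _ x ξ0, e0]
      · ring
      · rw [bb_lt (by norm_num), bb_lt (by norm_num)]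
        simp only [be, om] at *
        constructor <;> linarith
    · obtain ⟨x1, x2⟩ := abs_le.1 hx
      rw [GG_piece h1 h2 (j := 3) (by norm_num), sig3, cc3, mul_sub _ x ξ1, e1]
      · ring
      · rw [bb_lt (by norm_num), bb_lt (by norm_num)]
        simp only [be, om] at *
        constructor <;> linarith

end Base1

open Base1 in
theorem base_exists : ∃ G b sl, BaseSpec G b sl ∧ BaseGen G b sl := by
  have cL : {l : Af | ∃ i : ℤ, l = lineAt 0 (x0 + i, 0)}.Countable :=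
    (countable_range fun i : ℤ => lineAt 0 (x0 + i, 0)).mono (by
      rintro l ⟨i, hi⟩
      exact ⟨i, hi.symm⟩)
  obtain ⟨Ba, hBa, h⟩ := gen_Z (G0 := range fun j : ℕ => (((sig j, 0), cc j) : Af))
    (L0 := range fun j : ℕ => ((0, be j) : ℝ × ℝ)) (countable_singleton _) cL
    (countable_range _) (countable_range _) (fun i => ⟨i, rfl⟩) nt_lin
  obtain ⟨l, ⟨l1, l2⟩, hl⟩ := exists_notMem_Ioo hBa (a := 1) (b := 1 + 1 / 1000) (by norm_num)
  obtain ⟨Bt, hBt, h⟩ := h l hl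
  obtain ⟨t, ⟨h1, h2⟩, ht⟩ := exists_notMem_Ioo hBt (a := 1) (b := 1 + 1 / 10 ^ 50) (by norm_num)
  refine ⟨GG l t, bb t, fun j => 22 + l * sig j, spec l1 l2 h1 h2, _, _, ?_, ?_,
    fun j hj k => ?_, fun j hj k => ?_, fun k => ?_, h t ht⟩
  · refine (countable_range fun p : ℕ × ℤ =>
      (((22, -1), 0) : Af) + dfm l t p.2 ((sig p.1, 0), cc p.1)).mono ?_
    rintro g ⟨g1, rfl, g0, ⟨j, rfl⟩, i, rfl⟩
    exact ⟨(j, i), rfl⟩
  · refine cL.union ((countable_range fun p : ℕ × ℤ =>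
      lineAt (t * 0) (p.2 + x0 + t * (be p.1 - x0), 0)).mono ?_)
    rintro g ⟨c, ⟨j, rfl⟩, i, rfl⟩
    exact ⟨(j, i), rfl⟩
  · refine ⟨_, rfl, _, ⟨j, rfl⟩, k, ?_⟩
    rw [GG_per, GG_piece h1 h2 hj ⟨le_rfl, (bb_inc h1 h2 j hj).le⟩]
    refine Prod.ext (Prod.ext ?_ ?_) ?_
    · simp [dfm]
    · simp [dfm]
    · simp only [dfm, Prod.snd_add]
      ring
  · refine Or.inr ⟨_, ⟨j, rfl⟩, k, ?_⟩
    rw [bb, if_pos hj, mul_zero]
    congr 2
    ring
  · exact Or.inl ⟨k, rfl⟩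

end Pool.Agent.MP_369096_an.H89

end

-- part MP_369096_an.H89.Base4
section

/-!
TASK Base4. Entropy and horseshoe of the first map. Auxiliary lemmas go in namespace `H89.Base4`.
-/

set_option autoImplicit false

open Set Filter Topology

namespace Pool.Agent.MP_369096_an.H89

variable {G : ℝ → ℝ} {b sl : ℕ → ℝ}

namespace Base4

theorem ex_sol {a M : ℝ} (ha : 4 ≤ a) (ξ : ℤ → ℝ) (hξ : ∀ i, |ξ i| ≤ M) :
    ∃ Y : ℤ → ℝ, (∀ i, |Y i| ≤ 2 * M) ∧ ∀ i, Y i = ξ i + (Y (i + 1) + Y (i - 1)) / a := by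
  have ha0 : 0 < a := by linarith
  have hM : 0 ≤ M := (abs_nonneg _).trans (hξ 0)
  have key : ∀ (u v c : ℝ), |u| ≤ c → |v| ≤ c → |(u + v) / a| ≤ c / 2 := by
    intro u v c hu hv
    have hc : 0 ≤ c := (abs_nonneg _).trans hu
    rw [abs_div, abs_of_pos ha0, div_le_iff₀ ha0]
    have := abs_add_le u v
    nlinarith
  let Φ : (BoundedContinuousFunction ℤ ℝ) → (BoundedContinuousFunction ℤ ℝ) := fun y =>
    BoundedContinuousFunction.ofNormedAddCommGroupDiscrete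
      (fun i => ξ i + (y (i + 1) + y (i - 1)) / a) (M + ‖y‖ / 2) (fun i => by
        rw [Real.norm_eq_abs]
        refine (abs_add_le _ _).trans (add_le_add (hξ i) (key _ _ _ ?_ ?_))
        · exact y.norm_coe_le_norm _
        · exact y.norm_coe_le_norm _)
  have hΦ : ∀ y i, Φ y i = ξ i + (y (i + 1) + y (i - 1)) / a := fun y i => rfl
  have hc : ContractingWith (1 / 2) Φ := by
    refine ⟨by norm_num, LipschitzWith.of_dist_le_mul fun y y' => ?_⟩
    rw [BoundedContinuousFunction.dist_le (by positivity)]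
    intro i
    rw [hΦ, hΦ, Real.dist_eq]
    have h1 := y.dist_coe_le_dist (g := y') (i + 1)
    have h2 := y.dist_coe_le_dist (g := y') (i - 1)
    rw [Real.dist_eq] at h1 h2
    have := key _ _ _ h1 h2
    have e : ξ i + (y (i + 1) + y (i - 1)) / a - (ξ i + (y' (i + 1) + y' (i - 1)) / a) =
        (y (i + 1) - y' (i + 1) + (y (i - 1) - y' (i - 1))) / a := by ring
    rw [e]
    push_cast
    linarith
  obtain ⟨y, hy⟩ : ∃ y, Φ y = y := ⟨_, hc.fixedPoint_isFixedPt⟩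
  have h1 : ∀ i, y i = ξ i + (y (i + 1) + y (i - 1)) / a := fun i => by rw [← hΦ, hy]
  have h2 : ‖y‖ ≤ M + ‖y‖ / 2 := by
    rw [BoundedContinuousFunction.norm_le (by positivity)]
    intro i
    rw [h1, Real.norm_eq_abs]
    exact (abs_add_le _ _).trans (add_le_add (hξ i)
      (key _ _ _ (y.norm_coe_le_norm _) (y.norm_coe_le_norm _)))
  refine ⟨y, fun i => ?_, h1⟩
  have := y.norm_coe_le_norm i
  rw [Real.norm_eq_abs] at this
  linarith

theorem loc_sol {a B : ℝ} (ha : 4 ≤ a) {ξ ξ' Y Y' : ℤ → ℝ} (hY : ∀ i, |Y i| ≤ B)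
    (hY' : ∀ i, |Y' i| ≤ B) (h : ∀ i, Y i = ξ i + (Y (i + 1) + Y (i - 1)) / a)
    (h' : ∀ i, Y' i = ξ' i + (Y' (i + 1) + Y' (i - 1)) / a) (J : ℕ) :
    ∀ i : ℤ, (∀ j : ℤ, |j - i| ≤ (J : ℤ) → ξ j = ξ' j) → |Y i - Y' i| ≤ 2 * B * (1 / 2) ^ J := by
  have ha0 : 0 < a := by linarith
  induction J with
  | zero =>
    intro i _
    have := abs_sub (Y i) (Y' i)
    have := hY i
    have := hY' i
    simp only [pow_zero, mul_one]
    linarith
  | succ J ih =>
    intro i hi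
    have h1 := ih (i + 1) fun j hj => hi j (by
      rw [abs_le] at hj ⊢; push_cast; constructor <;> linarith [hj.1, hj.2])
    have h2 := ih (i - 1) fun j hj => hi j (by
      rw [abs_le] at hj ⊢; push_cast; constructor <;> linarith [hj.1, hj.2])
    have h3 := hi i (by simp only [sub_self, abs_zero]; positivity)
    have e : Y i - Y' i = (Y (i + 1) - Y' (i + 1) + (Y (i - 1) - Y' (i - 1))) / a := by
      rw [h i, h' i, h3]; ring
    rw [e, abs_div, abs_of_pos ha0, div_le_iff₀ ha0, pow_succ]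
    have h4 := abs_add_le (Y (i + 1) - Y' (i + 1)) (Y (i - 1) - Y' (i - 1))
    have h5 : 0 ≤ 2 * B * (1 / 2) ^ J := (abs_nonneg _).trans h1
    nlinarith

theorem exists_pow_le (B : ℝ) {η : ℝ} (hη : 0 < η) : ∃ J : ℕ, B * (1 / 2) ^ J ≤ η := by
  have h : Tendsto (fun J : ℕ => B * (1 / 2 : ℝ) ^ J) atTop (𝓝 (B * 0)) :=
    (tendsto_pow_atTop_nhds_zero_of_lt_one (by norm_num) (by norm_num)).const_mul B
  rw [mul_zero] at h
  exact (h.eventually_le_const hη).exists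

theorem ex_mu {a : ℝ} (ha : 4 ≤ a) : ∃ μ : ℝ, a - 1 ≤ μ ∧ μ * μ = a * μ - 1 := by
  have h0 : 0 ≤ a ^ 2 - 4 := by nlinarith
  have h1 := Real.sq_sqrt h0
  have h2 : a - 2 ≤ Real.sqrt (a ^ 2 - 4) := Real.le_sqrt_of_sq_le (by nlinarith)
  exact ⟨(a + Real.sqrt (a ^ 2 - 4)) / 2, by linarith, by nlinarith⟩

theorem eok {a μ : ℝ} (ha : 4 ≤ a) (h1 : a - 1 ≤ μ) (h2 : μ * μ = a * μ - 1) :
    EOK 1 (fun _ => a) (fun i => μ ^ i) (fun i => μ ^ (-i)) μ := by
  have hμ : 0 < μ := by linarith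
  have hne : μ ≠ 0 := hμ.ne'
  have h3 : μ = a - μ⁻¹ := by field_simp; linarith
  have h4 : μ⁻¹ < 1 / 2 := by rw [inv_lt_comm₀ hμ (by norm_num)]; norm_num; linarith
  have h5 : 0 < μ⁻¹ := inv_pos.mpr hμ
  refine ⟨one_pos, fun _ => rfl, fun i => ?_, fun i => ?_, by simp, by simp, fun i => ?_,
    fun i => ?_, ?_, ?_, ?_, by linarith⟩
  · rw [zpow_add_one₀ hne, zpow_sub_one₀ hne]
    linear_combination (μ ^ i) * h3
  · have e1 : -(i + 1) = -i - 1 := by ring
    have e2 : -(i - 1) = -i + 1 := by ring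
    rw [e1, e2, zpow_add_one₀ hne, zpow_sub_one₀ hne]
    linear_combination (μ ^ (-i)) * h3
  · rw [Nat.cast_one, zpow_add_one₀ hne, mul_comm]
  · have e1 : -(i + ((1 : ℕ) : ℤ)) = -i - 1 := by push_cast; ring
    rw [e1, zpow_sub_one₀ hne]
    field_simp
  · simp only [zpow_one, zpow_neg]
    linarith
  · simp only [zpow_neg, zpow_one]
    rw [abs_of_pos h5]; exact h4
  · simp only [zpow_neg, zpow_one]
    rw [abs_of_pos h5]; exact h4

theorem exists_lap {b : ℕ → ℝ} {x : ℝ} (n : ℕ) (h0 : b 0 ≤ x) (h1 : x ≤ b (n + 1)) :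
    ∃ j < n + 1, x ∈ Icc (b j) (b (j + 1)) := by
  induction n with
  | zero => exact ⟨0, by norm_num, h0, h1⟩
  | succ n ih =>
    by_cases h : x ≤ b (n + 1)
    · obtain ⟨j, hj, hx⟩ := ih h
      exact ⟨j, by omega, hx⟩
    · exact ⟨n + 1, by omega, (not_le.mp h).le, h1⟩

theorem exists_cell {x : ℝ} {n : ℕ} (hn : 0 < n) (h0 : 0 ≤ x) (h1 : x < 1) :
    ∃ i < n, x ∈ Icc ((i : ℝ) / n) (((i : ℝ) + 1) / n) := by
  have hn' : (0 : ℝ) < n := by exact_mod_cast hn
  refine ⟨⌊n * x⌋₊, ?_, ?_, ?_⟩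
  · rw [Nat.floor_lt (by positivity)]
    nlinarith
  · rw [div_le_iff₀ hn', mul_comm x]
    exact Nat.floor_le (by positivity)
  · rw [le_div_iff₀ hn', mul_comm x]
    exact (Nat.lt_floor_add_one _).le

theorem cov (h : BaseSpec G b sl) : Cov (Fb G) (AffOn (Fb G)) 1 1 1104 := by
  classical
  let Z : ℕ × ℕ × ℕ → Set E := fun c =>
    (Icc (b c.1) (b (c.1 + 1)) ∩ Icc (b 0 + (c.2.1 : ℝ) / 46) (b 0 + ((c.2.1 : ℝ) + 1) / 46)) ×ˢ
      Icc ((c.2.2 : ℝ) / 4) (((c.2.2 : ℝ) + 1) / 4)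
  refine ⟨(Finset.range 6 ×ˢ Finset.range 46 ×ˢ Finset.range 4).image Z, ?_, ?_, ?_⟩
  · have := Finset.card_image_le (s := Finset.range 6 ×ˢ Finset.range 46 ×ˢ Finset.range 4) (f := Z)
    simp only [Finset.card_product, Finset.card_range] at this
    exact_mod_cast this
  · intro A hA
    obtain ⟨⟨j, i, k⟩, hc, rfl⟩ := Finset.mem_image.mp hA
    have hj : j < 6 := by simpa using (Finset.mem_product.mp hc).1
    refine ⟨fun n hn z hz z' hz' => ?_, fun n hn => ?_⟩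
    · obtain ⟨⟨hz1, hz2⟩, hz3⟩ := hz
      obtain ⟨⟨hz1', hz2'⟩, hz3'⟩ := hz'
      simp only at hz1 hz2 hz3 hz1' hz2' hz3'
      have hx : |z.1 - z'.1| ≤ 1 / 46 := by
        rw [abs_le]; constructor <;> linarith [hz2.1, hz2.2, hz2'.1, hz2'.2]
      have hx' : |z.1 - z'.1| ≤ b (j + 1) - b j := by
        rw [abs_le]; constructor <;> linarith [hz1.1, hz1.2, hz1'.1, hz1'.2]
      have hy : |z.2 - z'.2| ≤ 1 / 4 := by
        rw [abs_le]; constructor <;> linarith [hz3.1, hz3.2, hz3'.1, hz3'.2]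
      interval_cases n
      · simp only [Function.iterate_zero, id_eq, Prod.norm_def, Prod.fst_sub, Prod.snd_sub,
          Real.norm_eq_abs]
        exact max_le (by linarith) (by linarith)
      · simp only [Function.iterate_one, T, Fb, Prod.norm_def, Prod.fst_sub, Prod.snd_sub,
          Real.norm_eq_abs]
        refine max_le ?_ (by linarith)
        have e : G z.1 - z.2 - (G z'.1 - z'.2) = sl j * (z.1 - z'.1) - (z.2 - z'.2) := by
          rw [h.aff j hj _ hz1, h.aff j hj _ hz1']; ring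
        have h1 : |sl j * (z.1 - z'.1)| ≤ 1 / 2 := by
          rw [abs_mul]
          rcases h.var j hj with hv | hv
          · have := mul_le_mul hv hx (abs_nonneg _) (by norm_num)
            linarith
          · have := mul_le_mul_of_nonneg_left hx' (abs_nonneg (sl j))
            linarith
        rw [e]
        have := abs_sub (sl j * (z.1 - z'.1)) (z.2 - z'.2)
        linarith
    · obtain rfl : n = 0 := by omega
      refine ⟨((sl j, -1), G (b j) - sl j * b j), ?_⟩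
      rintro p ⟨z, hz, rfl⟩
      simp only [Function.iterate_zero, id_eq, Fb, ev, lin]
      rw [h.aff j hj _ hz.1.1]; ring
  · intro z
    have hx0 := Int.fract_nonneg (z.1 - b 0)
    have hx1 := Int.fract_lt_one (z.1 - b 0)
    obtain ⟨j, hj, h1⟩ := exists_lap (b := b) (x := b 0 + Int.fract (z.1 - b 0)) 5 (by linarith)
      (by rw [h.wrap]; linarith)
    obtain ⟨i, hi, h2⟩ := exists_cell (n := 46) (by norm_num) hx0 hx1
    obtain ⟨k, hk, h3⟩ := exists_cell (n := 4) (by norm_num) (Int.fract_nonneg z.2)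
      (Int.fract_lt_one z.2)
    refine ⟨Z (j, i, k), Finset.mem_image_of_mem _ (by simp [hj, hi, hk]),
      (⌊z.1 - b 0⌋, ⌊z.2⌋), ?_⟩
    have e1 : (z - iv (⌊z.1 - b 0⌋, ⌊z.2⌋)).1 = b 0 + Int.fract (z.1 - b 0) := by
      simp only [iv, Prod.fst_sub, Int.fract]; ring
    have e2 : (z - iv (⌊z.1 - b 0⌋, ⌊z.2⌋)).2 = Int.fract z.2 := by
      simp only [iv, Prod.snd_sub, Int.fract]
    refine ⟨⟨e1 ▸ h1, ?_⟩, ?_⟩
    · rw [e1]
      push_cast at h2
      exact ⟨by linarith [h2.1], by linarith [h2.2]⟩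
    · rw [e2]
      push_cast at h3
      exact h3

end Base4

/-- `Cov (Fb G) (AffOn _) 1 1 1104` with the sets
`([b j, b (j+1)] ∩ [b 0 + i/46, b 0 + (i+1)/46]) ×ˢ [k/4, (k+1)/4]`, `j < 6`, `i < 46`, `k < 4` (`BaseSpec.var`); then
`entB_of_tubes` and `log (9 * 1104) ≤ 10`. -/
theorem BaseSpec.ent (h : BaseSpec G b sl) : EntB (Fb G) 10 := by
  obtain ⟨L, hL⟩ := h.adm
  refine (entB_of_tubes hL one_pos (Base4.cov h)).mono ?_
  rw [Nat.cast_one, div_one, Real.log_le_iff_le_exp (by norm_num)]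
  have h1 : Real.exp 10 = Real.exp 1 ^ 10 := by rw [← Real.exp_nat_mul]; norm_num
  have h2 : (2.7 : ℝ) ^ 10 ≤ Real.exp 1 ^ 10 :=
    pow_le_pow_left₀ (by norm_num) (by linarith [Real.exp_one_gt_d9]) _
  rw [h1]
  exact le_trans (by norm_num) h2

/-- `q = 1`, `m = 2`, `D i = range 2`, constant slope `a`, `μ + 1/μ = a`, `u i = μ^i`, `s i = μ^(-i)`, `ξ d = ξ0` for `d = 0` and `ξ1` otherwise,
`Y ω i = a / (μ - 1/μ) * ∑' j, μ^(-|i - j|) ξ (ω j)`, which solves `Y (i+1) = a (Y i - ξ (ω i)) - Y (i-1)` and satisfies `|Y ω i - ξ (ω i)| ≤ w/10`;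
`dl = w/4`, `sp = w`. Finally `log μ ≥ log (10^39 - 1) > 81`. -/
theorem BaseSpec.horseshoe (h : BaseSpec G b sl) :
    ∃ K : KD, KOK (Fb G) K ∧ K.q = 1 ∧ K.h ≤ 10 ∧ 81 < Real.log K.μ := by
  obtain ⟨a, w, ξ0, ξ1, ha, hw, hw1, h0, h1, l0, l1⟩ := h.laps
  have ha4 : 4 ≤ a := le_trans (by norm_num) ha
  have ha0 : 0 < a := by linarith
  obtain ⟨μ, hμ1, hμ2⟩ := Base4.ex_mu ha4
  let ξ : (ℤ → ℕ) → ℤ → ℝ := fun ω i => if ω i = 0 then ξ0 else ξ1
  rw [abs_le] at h0 h1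
  have hξ : ∀ ω i, |ξ ω i| ≤ 3 * w := fun ω i => by
    simp only [ξ]
    split_ifs <;> rw [abs_le] <;> constructor <;> linarith [h0.1, h0.2, h1.1, h1.2]
  choose Y hY1 hY2 using fun ω => Base4.ex_sol ha4 (ξ ω) (hξ ω)
  have hY3 : ∀ ω i, |Y ω i - ξ ω i| ≤ w / 10 := fun ω i => by
    have e : Y ω i - ξ ω i = (Y ω (i + 1) + Y ω (i - 1)) / a := by linarith [hY2 ω i]
    rw [e, abs_div, abs_of_pos ha0, div_le_iff₀ ha0]
    have h2 := abs_add_le (Y ω (i + 1)) (Y ω (i - 1))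
    have h3 := hY1 ω (i + 1)
    have h4 := hY1 ω (i - 1)
    have h5 : (120 : ℝ) ≤ a := le_trans (by norm_num) ha
    nlinarith
  have hG : ∀ ω i x, |x - ξ ω i| ≤ w / 2 → G x = a * (x - ξ ω i) := fun ω i x hx => by
    simp only [ξ] at hx ⊢
    split_ifs at hx ⊢
    · exact l0 x hx
    · exact l1 x hx
  refine ⟨⟨1, 2, fun _ => Finset.range 2, fun _ => a, Y, w / 4, w, fun i => μ ^ i,
    fun i => μ ^ (-i), μ⟩, ⟨Base4.eok ha4 hμ1 hμ2, le_rfl, rfl, fun _ => by simp, fun _ => rfl,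
    by simpa using hw, hw, ?_, ?_, ⟨2 * (3 * w), by linarith, fun ω _ i => hY1 ω i⟩, ?_, ?_⟩,
    rfl, ?_, ?_⟩
  · intro ω _ i z hz
    have h2 : |z.1 - Y ω i| ≤ w / 4 := le_trans (norm_fst_le (z - pt (Y ω) i)) hz
    have h3 : |z.1 - ξ ω i| ≤ w / 2 := by
      have := abs_sub_le z.1 (Y ω i) (ξ ω i)
      linarith [hY3 ω i]
    have h4 : a * Y ω i = a * ξ ω i + (Y ω (i + 1) + Y ω (i - 1)) := by
      rw [hY2 ω i]; field_simp
    simp only [Fb, KD.co, H89.lin, pt, Prod.fst_sub, Prod.snd_sub]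
    rw [hG ω i _ h3]
    linear_combination h4
  · intro ω _ i
    simp only [Nat.cast_one]
    have key : ∀ J : ℕ, |Y (fun j => ω (j + 1)) i - Y ω (i + 1)| ≤ 2 * (2 * (3 * w)) * (1 / 2) ^ J :=
      fun J => Base4.loc_sol (Y' := fun i => Y ω (i + 1)) (ξ' := fun i => ξ ω (i + 1)) ha4
        (hY1 _) (fun i => hY1 ω _) (hY2 _) (fun i => by
          have := hY2 ω (i + 1)
          rw [show i + 1 - 1 = i - 1 + 1 by ring] at this
          exact this) J i fun j _ => rfl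
    have : |Y (fun j => ω (j + 1)) i - Y ω (i + 1)| ≤ 0 := by
      refine le_of_forall_pos_le_add fun η hη => ?_
      obtain ⟨J, hJ⟩ := Base4.exists_pow_le (2 * (2 * (3 * w))) hη
      linarith [key J]
    exact sub_eq_zero.mp (abs_nonpos_iff.mp this)
  · intro ω hω ω' hω' i i' hd
    refine ⟨by simp, ?_⟩
    have h2 : |Y ω i - Y ω' i'| < w := lt_of_le_of_lt (norm_fst_le (pt (Y ω) i - pt (Y ω') i')) hd
    have h3 := hY3 ω i
    have h4 := hY3 ω' i'
    have h5 : ω i < 2 := Finset.mem_range.mp (hω i)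
    have h6 : ω' i' < 2 := Finset.mem_range.mp (hω' i')
    rw [abs_le] at h3 h4
    rw [abs_lt] at h2
    simp only [ξ] at h3 h4
    by_cases c1 : ω i = 0 <;> by_cases c2 : ω' i' = 0
    · omega
    · rw [if_pos c1] at h3; rw [if_neg c2] at h4
      linarith [h0.1, h0.2, h1.1, h1.2, h2.1, h2.2, h3.1, h3.2, h4.1, h4.2]
    · rw [if_neg c1] at h3; rw [if_pos c2] at h4
      linarith [h0.1, h0.2, h1.1, h1.2, h2.1, h2.2, h3.1, h3.2, h4.1, h4.2]
    · omega
  · intro η hη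
    obtain ⟨J, hJ⟩ := Base4.exists_pow_le (2 * (2 * (3 * w))) hη
    refine ⟨J, fun ω _ ω' _ i hi => le_trans (Base4.loc_sol ha4 (hY1 ω) (hY1 ω') (hY2 ω) (hY2 ω') J i
      fun j hj => ?_) hJ⟩
    simp only [ξ, hi j hj]
  · simp only [KD.h, lsum, Finset.sum_range_one, Finset.card_range, Nat.cast_one, div_one]
    have := Real.log_le_sub_one_of_pos (show (0 : ℝ) < ((2 : ℕ) : ℝ) by norm_num)
    push_cast at this ⊢
    linarith
  · change 81 < Real.log μ
    rw [Real.lt_log_iff_exp_lt (by linarith)]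
    have h2 : Real.exp 81 = Real.exp 1 ^ 81 := by rw [← Real.exp_nat_mul]; norm_num
    have h3 : Real.exp 1 ^ 81 ≤ (3 : ℝ) ^ 81 :=
      pow_le_pow_left₀ (Real.exp_pos _).le (by linarith [Real.exp_one_lt_d9]) _
    have h4 : (3 : ℝ) ^ 81 < 10 ^ 39 - 1 := by norm_num
    rw [h2]
    linarith

theorem base_invt : ∃ F K H, Invt F K H := by
  obtain ⟨G, b, sl, h, hg⟩ := base_exists
  obtain ⟨L, hL⟩ := h.adm
  obtain ⟨Ed, A, Ln, h1, h2, h3⟩ := h.edg hg
  obtain ⟨K, k1, k2, k3, k4⟩ := h.horseshoe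
  refine ⟨Fb G, K, 10, ⟨L, 1, 1 / 10, 1 / 4, 7, Ed, A, Ln, 3, 3, hL, by norm_num, h.linR,
    by norm_num, h.loc, h1, h2, h.hyp, by norm_num, h3, h.qp, by rw [h.rev]; exact h.qp⟩,
    h.ent, k1, k3, by norm_num, ?_⟩
  rw [k2]; norm_num; linarith

end Pool.Agent.MP_369096_an.H89

end
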