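import Pool.Agent.MP_369096_an.H89.ZStep
import Pool.Agent.MP_369096_an.Mg.H89_Base4
import Pool.Agent.MP_369096_an.H89.Lim2
import Pool.Agent.MP_369096_an.H89.Trans

/-!
TASK Lim1. The limit map. Auxiliary lemmas go in namespace `H89.Lim1`.
-/

set_option autoImplicit false

open Set Filter Topology

namespace Pool.Agent.MP_369096_an.H89

namespace Lim1

theorem lipB_mono {F : E → ℝ} {h z z' : E} {κ r r' : ℝ} (hb : LipB F h κ z r)
    (hr : ‖z' - z‖ + r' ≤ r) : LipB F h κ z' r' := by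
  intro p q hp hq
  have key : ∀ x : E, ‖x - z'‖ ≤ r' → ‖x - z‖ ≤ r := by
    intro x hx
    have : ‖x - z‖ ≤ ‖x - z'‖ + ‖z' - z‖ := by
      simpa using norm_add_le (x - z') (z' - z)
    linarith
  exact hb p q (key p hp) (key q hq)

theorem lipB_grad {F : E → ℝ} {h h' z : E} {κ κ' r : ℝ} (hr : 0 < r) (hb : LipB F h κ z r)
    (hb' : LipB F h' κ' z r) : ‖h - h'‖ ≤ κ + κ' := by
  have key : ∀ v : E, ‖v‖ = r → |lin h v - lin h' v| ≤ (κ + κ') * r := by
    intro v hv
    have e1 : ‖z + v - z‖ ≤ r := by simp [hv]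
    have e2 : ‖z - z‖ ≤ r := by simp [hr.le]
    have h1 := hb (z + v) z e1 e2
    have h2 := hb' (z + v) z e1 e2
    rw [add_sub_cancel_left, hv] at h1 h2
    rw [abs_le] at h1 h2 ⊢
    constructor <;> nlinarith [h1.1, h1.2, h2.1, h2.2]
  have k1 := key (r, 0) (by simp [Prod.norm_def, abs_of_pos hr, hr.le])
  have k2 := key (0, r) (by simp [Prod.norm_def, abs_of_pos hr, hr.le])
  simp only [lin, mul_zero, add_zero, zero_add] at k1 k2
  rw [← sub_mul, abs_mul, abs_of_pos hr] at k1 k2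
  rw [Prod.norm_def]
  exact max_le (le_of_mul_le_mul_right k1 hr) (le_of_mul_le_mul_right k2 hr)

theorem abs_lin_le (h v : E) : |lin h v| ≤ 2 * ‖h‖ * ‖v‖ := by
  have h1 : |h.1| ≤ ‖h‖ := norm_fst_le h
  have h2 : |h.2| ≤ ‖h‖ := norm_snd_le h
  have v1 : |v.1| ≤ ‖v‖ := norm_fst_le v
  have v2 : |v.2| ≤ ‖v‖ := norm_snd_le v
  have a1 := mul_le_mul h1 v1 (abs_nonneg _) (norm_nonneg _)
  have a2 := mul_le_mul h2 v2 (abs_nonneg _) (norm_nonneg _)
  calc |lin h v| ≤ |h.1 * v.1| + |h.2 * v.2| := abs_add_le _ _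
    _ = |h.1| * |v.1| + |h.2| * |v.2| := by rw [abs_mul, abs_mul]
    _ ≤ 2 * ‖h‖ * ‖v‖ := by linarith

/-- The continuous linear form with a given gradient. -/
noncomputable def linL (h : E) : E →L[ℝ] ℝ :=
  h.1 • ContinuousLinearMap.fst ℝ ℝ ℝ + h.2 • ContinuousLinearMap.snd ℝ ℝ ℝ

theorem linL_apply (h v : E) : linL h v = lin h v := by simp [linL, lin]

theorem continuous_linL : Continuous linL := by
  unfold linL
  fun_prop

theorem lin_sub (h h' v : E) : lin (h - h') v = lin h v - lin h' v := by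
  simp only [lin, Prod.fst_sub, Prod.snd_sub]; ring

end Lim1

/-- For `z` and `κ = 1/(k+1)` let `h k` be the gradient; they form a Cauchy sequence (two gradients on a common ball differ by at most the
sum of the constants), the limit is a strict derivative at `z`, and the derivatives at points of the open ball are within `κ` of `h k`;
`contDiff_one_iff_fderiv`. -/
theorem contDiff_of_dp {F : E → ℝ} (h : ∀ κ > 0, ∃ r > 0, DP F κ r) : ContDiff ℝ 1 F := by
  have hk : ∀ k : ℕ, (0 : ℝ) < 1 / ((k : ℝ) + 1) := fun k => Nat.one_div_pos_of_nat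
  choose r hr hd using fun k : ℕ => h _ (hk k)
  choose g hg using hd
  have hgg : ∀ (j k : ℕ) (z z' : E), ‖z' - z‖ < r k →
      ‖g j z' - g k z‖ ≤ 1 / ((j : ℝ) + 1) + 1 / ((k : ℝ) + 1) := by
    intro j k z z' hz
    have hρ : 0 < min (r j) (r k - ‖z' - z‖) := lt_min (hr j) (by linarith)
    refine Lim1.lipB_grad (z := z') hρ (Lim1.lipB_mono (hg j z') ?_) (Lim1.lipB_mono (hg k z) ?_)
    · simp
    · have := min_le_right (r j) (r k - ‖z' - z‖); linarith
  have hc : ∀ z, CauchySeq fun k => g k z := by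
    intro z
    refine cauchySeq_of_le_tendsto_0' (fun k : ℕ => 2 * (1 / ((k : ℝ) + 1))) ?_ ?_
    · intro n m hnm
      rw [dist_eq_norm]
      have h1 := hgg n m z z (by simpa using hr m)
      have h2 : 1 / ((m : ℝ) + 1) ≤ 1 / ((n : ℝ) + 1) := Nat.one_div_le_one_div hnm
      linarith
    · simpa using (tendsto_one_div_add_atTop_nhds_zero_nat (𝕜 := ℝ)).const_mul 2
  choose D hD using fun z => cauchySeq_tendsto_of_complete (hc z)
  have hDg : ∀ (k : ℕ) (z z' : E), ‖z' - z‖ < r k → ‖D z' - g k z‖ ≤ 1 / ((k : ℝ) + 1) := by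
    intro k z z' hz
    have t1 : Tendsto (fun j => ‖g j z' - g k z‖) atTop (𝓝 ‖D z' - g k z‖) :=
      ((hD z').sub_const _).norm
    have t2 : Tendsto (fun j : ℕ => 1 / ((j : ℝ) + 1) + 1 / ((k : ℝ) + 1)) atTop
        (𝓝 (0 + 1 / ((k : ℝ) + 1))) :=
      tendsto_one_div_add_atTop_nhds_zero_nat.add_const _
    simpa using le_of_tendsto_of_tendsto' t1 t2 fun j => hgg j k z z' hz
  have hder : ∀ z, HasFDerivAt F (Lim1.linL (D z)) z := by
    intro z
    rw [hasFDerivAt_iff_isLittleO, Asymptotics.isLittleO_iff]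
    intro c hc0
    obtain ⟨k, hk'⟩ := exists_nat_one_div_lt (show 0 < c / 3 by positivity)
    filter_upwards [Metric.closedBall_mem_nhds z (hr k)] with p hp
    rw [mem_closedBall_iff_norm] at hp
    have h1 := hg k z p z hp (by simpa using (hr k).le)
    have h2 := Lim1.abs_lin_le (D z - g k z) (p - z)
    have h3 := hDg k z z (by simpa using hr k)
    rw [Lim1.lin_sub] at h2
    rw [Lim1.linL_apply, Real.norm_eq_abs]
    have h4 : 2 * ‖D z - g k z‖ * ‖p - z‖ ≤ 2 * (c / 3) * ‖p - z‖ :=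
      mul_le_mul_of_nonneg_right (by linarith) (norm_nonneg _)
    have h5 : 1 / ((k : ℝ) + 1) * ‖p - z‖ ≤ c / 3 * ‖p - z‖ :=
      mul_le_mul_of_nonneg_right hk'.le (norm_nonneg _)
    rw [abs_le] at h1 h2 ⊢
    constructor <;> linarith [h1.1, h1.2, h2.1, h2.2]
  have hcont : Continuous D := by
    rw [Metric.continuous_iff]
    intro z c hc0
    obtain ⟨k, hk'⟩ := exists_nat_one_div_lt (show 0 < c / 2 by positivity)
    refine ⟨r k, hr k, fun z' hz => ?_⟩
    rw [dist_eq_norm] at hz ⊢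
    have h1 := hDg k z z' hz
    have h2 := hDg k z z (by simpa using hr k)
    have h3 : ‖D z' - D z‖ ≤ ‖D z' - g k z‖ + ‖D z - g k z‖ := by
      simpa using norm_sub_le (D z' - g k z) (D z - g k z)
    linarith
  rw [contDiff_one_iff_fderiv]
  refine ⟨fun z => (hder z).differentiableAt, ?_⟩
  have : fderiv ℝ F = fun z => Lim1.linL (D z) := funext fun z => (hder z).fderiv
  rw [this]
  exact Lim1.continuous_linL.comp hcont

/-- `LipB` passes to pointwise limits. -/
theorem lipB_limit {Fs : ℕ → E → ℝ} {F : E → ℝ} (hl : ∀ z, Tendsto (fun n => Fs n z) atTop (𝓝 (F z)))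
    {h z : E} {κ r : ℝ} (hb : ∀ᶠ n in atTop, LipB (Fs n) h κ z r) : LipB F h κ z r := by
  intro p q hp hq
  have t : Tendsto (fun n => |Fs n p - Fs n q - lin h (p - q)|) atTop
      (𝓝 |F p - F q - lin h (p - q)|) := (((hl p).sub (hl q)).sub_const _).abs
  exact le_of_tendsto t (hb.mono fun n hn => hn p q hp hq)

/-- Properties of every state that are stable under small uniform perturbations (`Core.tr`, `tr_robust`, `Cov.transfer`). -/
theorem Invt.robust {F : E → ℝ} {K : KD} {H : ℝ} (h : Invt F K H) {ε : ℝ} (hε : 0 < ε) :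
    ∃ η > 0, ∀ F' L', Adm F' L' 2 → Close F F' η → Tr F' ε ∧
      ∃ n : ℕ, 0 < n ∧ Cov F' (fun _ => True) ε n (Real.exp ((H + ε) * n) / 4) := by
  obtain ⟨L, κ, ρ, r, N, Ed, A, Ln, C, l, hc⟩ := h.core
  have ha : Adm F L 2 := hc.adm.mono le_rfl hc.kap.le
  obtain ⟨η1, h1, ht⟩ := tr_robust ha (fun ε hε => h.core.tr hε) hε
  have hε2 : 0 < ε / 2 := by positivity
  obtain ⟨n0, hn0⟩ := h.ent _ hε2 _ hε2
  obtain ⟨n1, hn1⟩ := exists_nat_ge (6 / ε)
  have hcov := hn0 (n0 + n1 + 1) (by omega)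
  obtain ⟨η2, h2, hc2⟩ := hcov.transfer ha hε2
  refine ⟨min η1 η2, lt_min h1 h2, fun F' L' ha' hcl =>
    ⟨ht F' L' ha' (hcl.mono (min_le_left _ _)), n0 + n1 + 1, by omega, ?_⟩⟩
  refine (hc2 F' (hcl.mono (min_le_right _ _))).mono (fun _ h => h) (by linarith) le_rfl ?_
  set n : ℝ := ((n0 + n1 + 1 : ℕ) : ℝ) with hn
  have hn2 : 6 / ε ≤ n := by
    rw [hn]; push_cast
    have : (0 : ℝ) ≤ n0 := Nat.cast_nonneg _
    linarith
  rw [div_le_iff₀ hε] at hn2
  have e1 : Real.exp ((H + ε) * n) = Real.exp ((H + ε / 2) * n) * Real.exp (ε / 2 * n) := by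
    rw [← Real.exp_add]; congr 1; ring
  have e2 : ε / 2 * n + 1 ≤ Real.exp (ε / 2 * n) := Real.add_one_le_exp _
  have e3 := Real.exp_pos ((H + ε / 2) * n)
  rw [e1, le_div_iff₀ (by norm_num)]
  exact mul_le_mul_of_nonneg_left (by linarith) e3.le

namespace Lim1

/-- States with a step size that is small enough for level `k`. -/
structure St (k : ℕ) (F : E → ℝ) (K : KD) (H η : ℝ) : Prop where
  inv : Invt F K H
  pos : 0 < η
  sp : 8 * η ≤ K.sp
  rob : ∀ F' L', Adm F' L' 2 → Close F F' (2 * η) → Tr F' (1 / ((k : ℝ) + 1)) ∧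
    ∃ n : ℕ, 0 < n ∧ Cov F' (fun _ => True) (1 / ((k : ℝ) + 1)) n
      (Real.exp ((H + 1 / ((k : ℝ) + 1)) * n) / 4)

theorem exists_st (k : ℕ) {F : E → ℝ} {K : KD} {H : ℝ} (h : Invt F K H) {b : ℝ} (hb : 0 < b) :
    ∃ η ≤ b, St k F K H η := by
  obtain ⟨η, h0, h1⟩ := h.robust (Nat.one_div_pos_of_nat (n := k))
  have hs := h.kok.spos
  have m1 := min_le_left b (min (η / 2) (K.sp / 8))
  have m2 := (min_le_right b (min (η / 2) (K.sp / 8))).trans (min_le_left _ _)
  have m3 := (min_le_right b (min (η / 2) (K.sp / 8))).trans (min_le_right _ _)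
  refine ⟨min b (min (η / 2) (K.sp / 8)), m1, h, by positivity, by linarith, ?_⟩
  intro F' L' ha hc
  exact h1 F' L' ha (hc.mono (by linarith))

theorem exists_seq : ∃ (F : ℕ → E → ℝ) (K : ℕ → KD) (H η : ℕ → ℝ),
    (∀ k, St k (F k) (K k) (H k) (η k)) ∧
    ∀ k, Stage (F k) (K k) (H k) (η k) (F (k + 1)) (K (k + 1)) (H (k + 1)) ∧
      2 * η (k + 1) ≤ η k ∧ DP (F (k + 1)) (η k) (4 * η (k + 1)) := by
  have step : ∀ (k : ℕ) (s : (E → ℝ) × KD × ℝ × ℝ), St k s.1 s.2.1 s.2.2.1 s.2.2.2 →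
      ∃ s' : (E → ℝ) × KD × ℝ × ℝ, St (k + 1) s'.1 s'.2.1 s'.2.2.1 s'.2.2.2 ∧
        Stage s.1 s.2.1 s.2.2.1 s.2.2.2 s'.1 s'.2.1 s'.2.2.1 ∧ 2 * s'.2.2.2 ≤ s.2.2.2 ∧
        DP s'.1 s.2.2.2 (4 * s'.2.2.2) := by
    intro k s hs
    obtain ⟨F', K', H', h1, r, hr, h2⟩ := stage hs.inv hs.pos
    have hp := hs.pos
    obtain ⟨η, h3, h4⟩ := exists_st (k + 1) h1.inv
      (show 0 < min (s.2.2.2 / 2) (r / 4) by positivity)
    have m1 := h3.trans (min_le_left _ _)
    have m2 := h3.trans (min_le_right _ _)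
    refine ⟨(F', K', H', η), h4, h1, by dsimp only; linarith, fun z => ?_⟩
    obtain ⟨g, hg⟩ := h2 z
    exact ⟨g, lipB_mono hg (by simp only [sub_self, norm_zero]; linarith)⟩
  choose f hf using step
  obtain ⟨F0, K0, H0, h0⟩ := base_invt
  obtain ⟨η0, -, h1⟩ := exists_st 0 h0 one_pos
  let g : ∀ k : ℕ, {s : (E → ℝ) × KD × ℝ × ℝ // St k s.1 s.2.1 s.2.2.1 s.2.2.2} := fun k =>
    Nat.rec ⟨(F0, K0, H0, η0), h1⟩ (fun k s => ⟨f k s.1 s.2, (hf k s.1 s.2).1⟩) k
  exact ⟨fun k => (g k).1.1, fun k => (g k).1.2.1, fun k => (g k).1.2.2.1,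
    fun k => (g k).1.2.2.2, fun k => (g k).2, fun k => (hf k (g k).1 (g k).2).2⟩

theorem close_refl (F : E → ℝ) : Close F F 0 := fun z => by simp

theorem tr_mono {F : E → ℝ} {ε ε' : ℝ} (h : Tr F ε) (hε : ε ≤ ε') : Tr F ε' := by
  intro z1 z2
  obtain ⟨z, n, m, h1, h2⟩ := h z1 z2
  exact ⟨z, n, m, h1.trans_le hε, h2.trans_le hε⟩

section Seq

variable {F : ℕ → E → ℝ} {K : ℕ → KD} {H η : ℕ → ℝ}

theorem eta_le (h2 : ∀ k, 2 * η (k + 1) ≤ η k) (k : ℕ) : η k ≤ η 0 * (1 / 2) ^ k := by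
  induction k with
  | zero => simp
  | succ k ih => rw [pow_succ]; linarith [h2 k]

theorem eta_summable (h0 : ∀ k, 0 < η k) (h2 : ∀ k, 2 * η (k + 1) ≤ η k) : Summable η :=
  Summable.of_nonneg_of_le (fun k => (h0 k).le) (eta_le h2) (summable_geometric_two.mul_left _)

theorem sum_eta (h0 : ∀ k, 0 < η k) (h2 : ∀ k, 2 * η (k + 1) ≤ η k) (j n : ℕ) :
    ∑ i ∈ Finset.Ico j n, η i ≤ 2 * η j := by
  rcases le_or_gt j n with hjn | hjn
  · have : ∑ i ∈ Finset.Ico j n, η i ≤ 2 * η j - 2 * η n := by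
      induction n, hjn using Nat.le_induction with
      | base => simp
      | succ n hn ih => rw [Finset.sum_Ico_succ_top hn]; linarith [h2 n]
    linarith [h0 n]
  · rw [Finset.Ico_eq_empty_of_le hjn.le]; simpa using (h0 j).le

theorem close_seq (h2 : ∀ k, 2 * η (k + 1) ≤ η k) (hc : ∀ k, Close (F k) (F (k + 1)) (η k))
    {j n : ℕ} (hjn : j ≤ n) : Close (F j) (F n) (2 * η j - 2 * η n) := by
  induction n, hjn using Nat.le_induction with
  | base => simpa using close_refl (F j)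
  | succ n hn ih => exact (ih.trans (hc n)).mono (by linarith [h2 n])

theorem near_seq (h2 : ∀ k, 2 * η (k + 1) ≤ η k) {e : ℕ → ℝ} (he : ∀ k, e (k + 1) ≤ η k)
    (hc : ∀ k, Near (F k) (F (k + 1)) (η k) (4 * e k)) {j n : ℕ} (hjn : j + 1 ≤ n) :
    Near (F j) (F n) (2 * η j - 2 * η n) (4 * e j + 8 * η j - 8 * η (n - 1)) := by
  induction n, hjn using Nat.le_induction with
  | base => exact (hc j).mono (by linarith [h2 j]) (by simp)
  | succ n hn ih =>
    obtain ⟨m, rfl⟩ : ∃ m, n = m + 1 := ⟨n - 1, by omega⟩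
    refine (ih.trans (hc (m + 1))).mono (by linarith [h2 (m + 1)]) ?_
    simp only [Nat.add_sub_cancel]
    linarith [h2 m, he m]

end Seq

end Lim1

/-- Build a sequence of states `(F k, K k, H k)` with radii `r k > 0` and steps `η k > 0` such that `Stage (F k) (K k) (H k) (η k) (F (k+1)) ...`,
`DP (F (k+1)) (η k) (r (k+1))`, `η (k+1) ≤ η k / 2`, `η k ≤ 2^(-k)`, and `2 η k ≤` the minimum of the radius from `Invt.robust` for `ε = 1/(k+1)`, of `(K k).sp / 4` and of
`r k / 2` (recursion on a subtype or `exists_seq`-style dependent choice: the state carries a bound for the next step). Then `∑_{i ≥ k} η i ≤ 2 η k`, the maps converge uniformly,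
`(K (k+1)).e ≤ η k`, `H k ≤ (K (k+1)).h ≤ H (k+1) ≤ H k + 2 η k`, `H (k+1) - (K (k+1)).h ≤ η k`, `2^k ≤ (K k).q`. `Near.trans`, `Near.mono` and `lipB_limit` give `DP F (η k + 4 ∑_{i>k} e i) (r (k+1) / 2)`
and, from `LipB (F 0) 0 (L+2) z r` for all `r`, the Lipschitz bound of the limit; `eqv`, `lo`, `hi` (with constant `2`) pass to the limit. `H = lim H k ≥ 1`. -/
theorem exists_final : ∃ F L H, Final F L H := by
  obtain ⟨F, K, H, η, hst, hs⟩ := Lim1.exists_seq
  have h0 : ∀ k, 0 < η k := fun k => (hst k).pos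
  have h2 : ∀ k, 2 * η (k + 1) ≤ η k := fun k => (hs k).2.1
  have hsum := Lim1.eta_summable h0 h2
  have hη0 : Tendsto η atTop (𝓝 0) := hsum.tendsto_atTop_zero
  have hadm : ∀ k, ∃ L, Adm (F k) L 2 := by
    intro k
    obtain ⟨L, κ, ρ, r, N, Ed, A, Ln, C, l, hc⟩ := (hst k).inv.core
    exact ⟨L, hc.adm.mono le_rfl hc.kap.le⟩
  have hcl : ∀ {j n : ℕ}, j ≤ n → Close (F j) (F n) (2 * η j) := fun {j n} hjn =>
    (Lim1.close_seq h2 (fun k => (hs k).1.close) hjn).mono (by linarith [h0 n])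
  have hnear : ∀ j, ∀ᶠ n in atTop, Near (F j) (F n) (2 * η j) (4 * (K j).e + 8 * η j) := by
    intro j
    filter_upwards [eventually_ge_atTop (j + 1)] with n hn
    exact (Lim1.near_seq h2 (e := fun k => (K k).e) (fun k => (hs k).1.esmall)
      (fun k => (hs k).1.near) hn).mono (by linarith [h0 n]) (by linarith [h0 (n - 1)])
  have hcau : ∀ z, CauchySeq fun k => F k z := by
    intro z
    refine cauchySeq_of_le_tendsto_0' (fun k => 2 * η k) (fun n m hnm => ?_) ?_
    · rw [dist_comm, Real.dist_eq]; exact hcl hnm z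
    · simpa using hη0.const_mul 2
  choose G hG using fun z => cauchySeq_tendsto_of_complete (hcau z)
  have hclG : ∀ j, Close (F j) G (2 * η j) := by
    intro j z
    refine le_of_tendsto ((hG z).sub_const (F j z)).abs ?_
    filter_upwards [eventually_ge_atTop j] with n hn using hcl hn z
  have hlipG : ∀ j h κ z r, LipB (F j) h κ z (r + 2 * η j) →
      LipB G h (κ + (4 * (K j).e + 8 * η j)) z r := by
    intro j h κ z r hb
    exact lipB_limit hG ((hnear j).mono fun n hn => hn h κ z r hb)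
  obtain ⟨L0, hL0⟩ := hadm 0
  have haG : Adm G (L0 + 2 + (4 * (K 0).e + 8 * η 0)) 2 := by
    refine ⟨fun z m => ?_, fun x x' y => ?_, fun x y y' hy => ?_, fun x y y' hy => ?_⟩
    · refine tendsto_nhds_unique (hG (z + iv m)) ?_
      have : (fun k => F k (z + iv m)) = fun k => F k z + 22 * (m.1 : ℝ) - (m.2 : ℝ) :=
        funext fun k => (hadm k).choose_spec.eqv z m
      rw [this]
      exact ((hG z).add_const _).sub_const _
    · have hb : LipB (F 0) 0 (L0 + 2) (x', y) (‖((x, y) : E) - (x', y)‖ + 2 * η 0) := by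
        intro p q _ _
        simpa [lin] using hL0.lip p q
      have := hlipG 0 _ _ _ _ hb (x, y) (x', y) le_rfl (by simp)
      simpa [lin, Prod.norm_def] using this
    · exact ge_of_tendsto' (((hG (x, y)).sub (hG (x, y'))).const_mul 2)
        fun k => (hadm k).choose_spec.lo x y y' hy
    · exact le_of_tendsto' ((hG (x, y)).sub (hG (x, y')))
        fun k => (hadm k).choose_spec.hi x y y' hy
  have hH1 : ∀ k, H k ≤ (K (k + 1)).h := fun k => (hs k).1.hge
  have hH2 : ∀ k, (K k).h ≤ H k := fun k => (hst k).inv.hle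
  have hH3 : ∀ k, H (k + 1) ≤ (K (k + 1)).h + η k := fun k => (hs k).1.Hle
  have hH4 : ∀ k, (K (k + 1)).h ≤ H k + η k := fun k => (hs k).1.hle
  have hmono : Monotone H := monotone_nat_of_le_succ fun k => (hH1 k).trans (hH2 (k + 1))
  have hbd : ∀ k, H k ≤ H 0 + 4 * η 0 - 4 * η k := by
    intro k
    induction k with
    | zero => simp
    | succ k ih => linarith [hH3 k, hH4 k, h2 k]
  have hbdd : BddAbove (range H) := ⟨H 0 + 4 * η 0, by
    rintro _ ⟨k, rfl⟩; linarith [hbd k, h0 k]⟩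
  have hHt : Tendsto H atTop (𝓝 (⨆ k, H k)) := tendsto_atTop_ciSup hmono hbdd
  have hHle : ∀ k, H k ≤ ⨆ k, H k := fun k => le_ciSup hbdd k
  have hq : ∀ k, (2 : ℝ) ^ k ≤ (K k).q := by
    intro k
    induction k with
    | zero =>
      have := (hst 0).inv.kok.eok.qpos
      simpa using (Nat.one_le_cast (α := ℝ)).2 this
    | succ k ih =>
      obtain ⟨Q, hQ, hq, -⟩ := (hs k).1.ext
      have hQ' : (2 : ℝ) ≤ Q := by exact_mod_cast hQ
      have : (0 : ℝ) ≤ (K k).q := Nat.cast_nonneg _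
      rw [hq, pow_succ]; push_cast
      nlinarith
  have hchain : Chain G (⨆ k, H k) F K η := by
    refine ⟨fun n => (hst n).inv.kok, fun ε hε => ?_, fun n => (hs n).1.ext, fun j n => ?_, ?_, ?_⟩
    · filter_upwards [hη0.eventually (eventually_le_nhds (show 0 < ε / 2 by positivity))] with n hn
      exact (hclG n).mono (by linarith)
    · linarith [Lim1.sum_eta h0 h2 j n, (hst j).sp]
    · rw [← tendsto_add_atTop_iff_nat 1]
      exact tendsto_of_tendsto_of_tendsto_of_le_of_le hHt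
        ((tendsto_add_atTop_iff_nat 1).2 hHt) hH1 fun k => hH2 (k + 1)
    · rw [← summable_nat_add_iff 2]
      refine Summable.of_nonneg_of_le (fun k => ?_) (fun k => ?_)
        (((hsum.mul_left 2).add summable_geometric_two).mul_left 2)
      · exact div_nonneg (Real.log_natCast_nonneg _) (Nat.cast_nonneg _)
      · have t := (hs (k + 1)).1.tail
        have q1 : 1 / ((K (k + 1)).q : ℝ) ≤ (1 / 2) ^ k := by
          rw [one_div_pow]
          refine one_div_le_one_div_of_le (by positivity) ?_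
          have := hq (k + 1)
          rw [pow_succ] at this
          have : (0 : ℝ) < 2 ^ k := by positivity
          linarith
        linarith [hH3 k, h2 k, h0 k]
  refine ⟨G, _, ⨆ k, H k, haG, ?_, fun ε hε => ?_, ?_, fun ε hε γ hγ => ?_, hchain.apx⟩
  · refine contDiff_of_dp fun κ hκ => ?_
    obtain ⟨k, hk⟩ :=
      (hη0.eventually (eventually_le_nhds (show 0 < κ / 9 by positivity))).exists
    refine ⟨2 * η (k + 1), by linarith [h0 (k + 1)], fun z => ?_⟩
    obtain ⟨g, hg⟩ := (hs k).2.2 z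
    refine ⟨g, fun p q hp hq => ?_⟩
    have := hlipG (k + 1) g (η k) z (2 * η (k + 1))
      (Lim1.lipB_mono hg (by simp only [sub_self, norm_zero]; linarith)) p q hp hq
    refine this.trans (mul_le_mul_of_nonneg_right ?_ (norm_nonneg _))
    linarith [(hs k).1.esmall, h2 k]
  · obtain ⟨k, hk⟩ := exists_nat_one_div_lt hε
    exact Lim1.tr_mono ((hst k).rob G _ haG (hclG k)).1 hk.le
  · linarith [hHle 0, (hst 0).inv.one]
  · obtain ⟨k, hk⟩ := exists_nat_one_div_lt (lt_min hε hγ)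
    obtain ⟨n, hn, hc⟩ := ((hst k).rob G _ haG (hclG k)).2
    refine ⟨n, hn, hc.mono (fun _ h => h) (hk.le.trans (min_le_left _ _)) le_rfl ?_⟩
    have := hk.le.trans (min_le_right _ _)
    have h3 := hHle k
    gcongr

end Pool.Agent.MP_369096_an.H89
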