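import Pool.Agent.MP_369096_an.Ent
import Pool.Agent.MP_369096_an.Defs
import Pool.Agent.MP_369096_an.H89.Defs

-- part MP_369096_an.Rate
section

/-!
Upper bounds for the entropy rate of a partition and for the entropy of a map.
-/

set_option autoImplicit false
set_option linter.unusedSectionVars false
set_option linter.unusedVariables false

open MeasureTheory Filter Set Topology Real

namespace Pool.Agent.MP_369096_an

variable {X : Type*} [MeasurableSpace X] {A B C : Type*}

/-- The join of the first `n` pull-backs. -/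
def J (ξ : X → A) (f : X → X) (n : ℕ) : X → (Fin n → A) := fun x i => ξ (f^[i] x)

omit [MeasurableSpace X] in
theorem J_eq_iff {ξ : X → A} {f : X → X} {n : ℕ} {x y : X} :
    J ξ f n x = J ξ f n y ↔ ∀ i < n, ξ (f^[i] x) = ξ (f^[i] y) := by
  constructor
  · intro h i hi; exact congrFun h ⟨i, hi⟩
  · intro h; funext i; exact h i i.2

theorem MP.J {ξ : X → A} (h : MP ξ) {f : X → X} (hf : Measurable f) (n : ℕ) : MP (J ξ f n) :=
  MP.pi (ξ := fun (i : Fin n) x => ξ (f^[i] x)) fun i => h.pull (hf.iterate i)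

/-- The entropy rate of `ξ` is at most `c`. -/
def RateLE (ν : Measure X) (f : X → X) (ξ : X → A) (c : ℝ) : Prop :=
  ∀ ε > 0, ∃ K : ℝ, ∀ n : ℕ, E ν (J ξ f n) ≤ (c + ε) * n + K

/-- The entropy of `f` is at most `c`. -/
def EntLE (ν : Measure X) (f : X → X) (c : ℝ) : Prop :=
  ∀ (k : ℕ) (ξ : X → Fin k), MP ξ → RateLE ν f ξ c

variable {ν : Measure X} [IsFiniteMeasure ν] [Finite A] [Finite B] [Finite C] {f : X → X}

theorem RateLE.mono {ξ : X → A} {c d : ℝ} (h : RateLE ν f ξ c) (hcd : c ≤ d) : RateLE ν f ξ d := by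
  intro ε hε
  obtain ⟨K, hK⟩ := h ε hε
  refine ⟨K, fun n => (hK n).trans ?_⟩
  have : (0 : ℝ) ≤ n := Nat.cast_nonneg n
  nlinarith

theorem RateLE.of_forall {ξ : X → A} {c : ℝ} (h : ∀ ε > 0, RateLE ν f ξ (c + ε)) :
    RateLE ν f ξ c := by
  intro ε hε
  obtain ⟨K, hK⟩ := h (ε / 2) (by linarith) (ε / 2) (by linarith)
  refine ⟨K, fun n => (hK n).trans (le_of_eq ?_)⟩
  ring

theorem RateLE.of_ref {ξ : X → A} {η : X → B} {c : ℝ} (h : RateLE ν f ξ c) (hξ : MP ξ)
    (hf : Measurable f) (hr : ∀ x y, ξ x = ξ y → η x = η y) : RateLE ν f η c := by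
  intro ε hε
  obtain ⟨K, hK⟩ := h ε hε
  refine ⟨K, fun n => le_trans ?_ (hK n)⟩
  refine E_le_of_ref ν (hξ.J hf n) fun x y hh => ?_
  rw [J_eq_iff] at hh ⊢
  exact fun i hi => hr _ _ (hh i hi)

theorem EntLE.rate {c : ℝ} (h : EntLE ν f c) (hf : Measurable f) {ξ : X → A} (hξ : MP ξ) :
    RateLE ν f ξ c := by
  obtain ⟨k, ⟨e⟩⟩ := Finite.exists_equiv_fin A
  exact (h k (fun x => e (ξ x)) (hξ.comp e)).of_ref (hξ.comp e) hf fun x y hh => e.injective hh

theorem EntLE.mono {c d : ℝ} (h : EntLE ν f c) (hcd : c ≤ d) : EntLE ν f d :=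
  fun k ξ hξ => (h k ξ hξ).mono hcd

theorem EntLE.of_forall {c : ℝ} (h : ∀ ε > 0, EntLE ν f (c + ε)) : EntLE ν f c :=
  fun k ξ hξ => RateLE.of_forall fun ε hε => h ε hε k ξ hξ

theorem E_J_zero (ξ : X → A) : E ν (J ξ f 0) ≤ 0 := by
  have h1 : E ν (J ξ f 0) ≤ E ν (fun _ : X => ()) :=
    E_le_of_ref ν (mp_const ()) fun x y _ => by rw [J_eq_iff]; intro i hi; omega
  have h2 := E_le_log ν (mp_const (X := X) ()) one_pos {()} (fun _ _ => by simp) (by simp)
  simp at h2
  linarith

theorem Ec_J_le (hf : MeasurePreserving f ν ν) {ξ : X → A} {η : X → B} (hξ : MP ξ) (hη : MP η)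
    {ζ : X → C} (hζ : MP ζ) (n : ℕ) (hr : ∀ x y, ζ x = ζ y → ∀ i < n, η (f^[i] x) = η (f^[i] y)) :
    Ec ν (J ξ f n) ζ ≤ n * Ec ν ξ η := by
  induction n with
  | zero =>
    have := Ec_le_E ν (hξ.J hf.measurable 0) hζ
    have := E_J_zero (ν := ν) (f := f) ξ
    simp; linarith
  | succ n ih =>
    have ih' := ih fun x y hh i hi => hr x y hh i (by omega)
    have hm := (hf.iterate n).measurable
    have k1 : Ec ν (J ξ f (n + 1)) ζ ≤ Ec ν (fun x => (J ξ f n x, ξ (f^[n] x))) ζ :=
      Ec_mono ν ((hξ.J hf.measurable n).pair (hξ.pull hm)) hζ fun x y hh _ => by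
        simp only [Prod.mk.injEq, J_eq_iff] at hh ⊢
        intro i hi
        rcases Nat.lt_succ_iff_lt_or_eq.1 hi with h | h
        · exact hh.1 i h
        · rw [h]; exact hh.2
    have k2 := Ec_pair_le ν (hξ.J hf.measurable n) (hξ.pull hm) hζ
    have k3 : Ec ν (fun x => ξ (f^[n] x)) ζ ≤
        Ec ν (fun x => ξ (f^[n] x)) (fun x => η (f^[n] x)) :=
      Ec_anti ν (hξ.pull hm) hζ (hη.pull hm) fun x y hh => hr x y hh n (by omega)
    rw [Ec_pull ν (hf.iterate n) hξ hη] at k3
    push_cast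
    linarith

theorem RateLE.of_cond (hf : MeasurePreserving f ν ν) {ξ : X → A} {η : X → B} (hξ : MP ξ)
    (hη : MP η) {c : ℝ} (h : RateLE ν f η c) : RateLE ν f ξ (c + Ec ν ξ η) := by
  intro ε hε
  obtain ⟨K, hK⟩ := h ε hε
  refine ⟨K, fun n => ?_⟩
  have k1 := Ec_J_le hf hξ hη (hη.J hf.measurable n) n fun x y hh => J_eq_iff.1 hh
  have k2 : E ν (J ξ f n) ≤ E ν (fun x => (J ξ f n x, J η f n x)) :=
    E_le_of_ref ν ((hξ.J hf.measurable n).pair (hη.J hf.measurable n)) fun x y hh =>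
      congrArg Prod.fst hh
  have k3 := hK n
  unfold Ec at k1
  unfold Ec
  nlinarith

theorem rateLE_const (hf : Measurable f) : RateLE ν f (fun _ : X => ()) 0 := by
  intro ε hε
  refine ⟨0, fun n => ?_⟩
  have h1 : E ν (J (fun _ : X => ()) f n) ≤ E ν (J (fun _ : X => ()) f 0) :=
    E_le_of_ref ν ((mp_const ()).J hf 0) fun x y _ => rfl
  have := E_J_zero (ν := ν) (f := f) (fun _ : X => ())
  have : (0 : ℝ) ≤ (0 + ε) * n := by positivity
  linarith

theorem rateLE_E (hf : MeasurePreserving f ν ν) {ξ : X → A} (hξ : MP ξ) :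
    RateLE ν f ξ (E ν ξ) := by
  have := RateLE.of_cond hf hξ (mp_const ()) (rateLE_const hf.measurable)
  exact this.mono (by have := Ec_le_E ν hξ (mp_const (X := X) ()); linarith)

theorem rateLE_next (hf : MeasurePreserving f ν ν) {ξ : X → A} (hξ : MP ξ) :
    RateLE ν f ξ (Ec ν (fun x => ξ (f x)) ξ) := by
  have key : ∀ n : ℕ, E ν (J ξ f (n + 1)) ≤ n * Ec ν (fun x => ξ (f x)) ξ + E ν ξ := by
    intro n
    induction n with
    | zero =>
      have : E ν (J ξ f (0 + 1)) ≤ E ν ξ := E_le_of_ref ν hξ fun x y hh => by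
        rw [J_eq_iff]; intro i hi
        obtain rfl : i = 0 := by omega
        exact hh
      simpa using this
    | succ n ih =>
      have hm := (hf.iterate n).measurable
      have hm1 := (hf.iterate (n + 1)).measurable
      have k1 : E ν (J ξ f (n + 1 + 1)) ≤ E ν (fun x => (ξ (f^[n + 1] x), J ξ f (n + 1) x)) :=
        E_le_of_ref ν ((hξ.pull hm1).pair (hξ.J hf.measurable _)) fun x y hh => by
          simp only [Prod.mk.injEq, J_eq_iff] at hh ⊢
          intro i hi
          rcases Nat.lt_succ_iff_lt_or_eq.1 hi with h | h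
          · exact hh.2 i h
          · rw [h]; exact hh.1
      have k3 : Ec ν (fun x => ξ (f^[n + 1] x)) (J ξ f (n + 1)) ≤
          Ec ν (fun x => ξ (f^[n + 1] x)) (fun x => ξ (f^[n] x)) :=
        Ec_anti ν (hξ.pull hm1) (hξ.J hf.measurable _) (hξ.pull hm) fun x y hh =>
          J_eq_iff.1 hh n (by omega)
      have k4 := Ec_pull ν (hf.iterate n) (hξ.pull hf.measurable) hξ
      simp only [← Function.iterate_succ_apply' f] at k4
      rw [k4] at k3
      unfold Ec at k3
      unfold Ec at ih ⊢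
      push_cast
      linarith
  intro ε hε
  refine ⟨E ν ξ, fun n => ?_⟩
  have k1 : E ν (J ξ f n) ≤ E ν (J ξ f (n + 1)) :=
    E_le_of_ref ν (hξ.J hf.measurable _) fun x y hh => by
      rw [J_eq_iff] at hh ⊢
      exact fun i hi => hh i (by omega)
  have := key n
  have : (0 : ℝ) ≤ ε * n := by positivity
  nlinarith

theorem RateLE.nonneg (hf : Measurable f) {ξ : X → A} (hξ : MP ξ) {c : ℝ} (h : RateLE ν f ξ c) :
    0 ≤ c := by
  by_contra hc
  push Not at hc
  obtain ⟨K, hK⟩ := h (-c / 2) (by linarith)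
  obtain ⟨n, hn⟩ := exists_nat_gt (K / (-c / 2))
  have h1 := hK n
  have h2 := E_nonneg ν (hξ.J hf n)
  rw [div_lt_iff₀ (by linarith)] at hn
  nlinarith

theorem RateLE.block (hf : Measurable f) {ξ : X → A} (hξ : MP ξ) {c : ℝ} (h : RateLE ν f ξ c)
    (k : ℕ) : RateLE ν f (J ξ f k) c := by
  intro ε hε
  obtain ⟨K, hK⟩ := h ε hε
  refine ⟨K + (c + ε) * k, fun n => ?_⟩
  have k1 : E ν (J (J ξ f k) f n) ≤ E ν (J ξ f (n + k)) :=
    E_le_of_ref ν (hξ.J hf _) fun x y hh => by
      simp only [J_eq_iff, ← Function.iterate_add_apply] at hh ⊢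
      exact fun i hi j hj => hh _ (by omega)
  have := hK (n + k)
  push_cast at this
  linarith

theorem RateLE.pull {g : X → X} (hg : MeasurePreserving g ν ν) (hf : Measurable f)
    (hfg : ∀ x, f (g x) = g (f x)) {ξ : X → A} (hξ : MP ξ) {c : ℝ} (h : RateLE ν f ξ c) :
    RateLE ν f (fun x => ξ (g x)) c := by
  intro ε hε
  obtain ⟨K, hK⟩ := h ε hε
  refine ⟨K, fun n => ?_⟩
  have hc : ∀ (i : ℕ) x, g (f^[i] x) = f^[i] (g x) := fun i x =>
    ((Function.Commute.iterate_left (f := f) (g := g) hfg i) x).symm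
  have : J (fun x => ξ (g x)) f n = fun x => J ξ f n (g x) := by
    funext x i
    simp only [J, hc]
  rw [this, E_pull ν hg (hξ.J hf n)]
  exact hK n

theorem RateLE.of_pow (hf : Measurable f) {ξ : X → A} (hξ : MP ξ) {m : ℕ} (hm : 0 < m) {c : ℝ}
    (h : RateLE ν f^[m] (J ξ f m) c) : RateLE ν f ξ (c / m) := by
  have hc := h.nonneg (hf.iterate m) (hξ.J hf m)
  have hm' : (0 : ℝ) < m := by exact_mod_cast hm
  intro ε hε
  obtain ⟨K, hK⟩ := h (ε * m) (by positivity)
  refine ⟨K + (c + ε * m), fun n => ?_⟩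
  have k1 : E ν (J ξ f n) ≤ E ν (J (J ξ f m) f^[m] (n / m + 1)) :=
    E_le_of_ref ν ((hξ.J hf _).J (hf.iterate m) _) fun x y hh => by
      simp only [J_eq_iff, ← Function.iterate_mul, ← Function.iterate_add_apply] at hh ⊢
      intro i hi
      have := hh (i / m) (Nat.lt_succ_of_le (Nat.div_le_div_right hi.le)) (i % m)
        (Nat.mod_lt _ hm)
      rwa [Nat.mod_add_div] at this
  have k2 := hK (n / m + 1)
  have k3 : ((n / m : ℕ) : ℝ) ≤ n / m := Nat.cast_div_le
  have k4 : (c + ε * m) * ((n / m : ℕ) : ℝ) ≤ (c + ε * m) * (n / m) :=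
    mul_le_mul_of_nonneg_left k3 (by positivity)
  have k5 : (c + ε * m) * (n / m) = (c / m + ε) * n := by field_simp
  push_cast at k2
  linarith

theorem EntLE.of_pow (hf : Measurable f) {m : ℕ} (hm : 0 < m) {c : ℝ} (h : EntLE ν f^[m] c) :
    EntLE ν f (c / m) :=
  fun k ξ hξ => RateLE.of_pow hf hξ hm (h.rate (hf.iterate m) (hξ.J hf m))

theorem EntLE.inv {g : X → X} (hf : MeasurePreserving f ν ν) (hg : Measurable g)
    (hgf : ∀ x, g (f x) = x) {c : ℝ} (h : EntLE ν g c) : EntLE ν f c := by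
  intro k ξ hξ ε hε
  obtain ⟨K, hK⟩ := h k ξ hξ ε hε
  refine ⟨K + |c + ε|, fun n => ?_⟩
  have h1 := hK (n + 1)
  rw [← E_pull ν (hf.iterate n) (hξ.J hg (n + 1))] at h1
  have hl : Function.LeftInverse g f := hgf
  have e : ∀ i ≤ n, ∀ x, g^[n - i] (f^[n] x) = f^[i] x := by
    intro i hi x
    conv_lhs => rw [show f^[n] x = f^[n - i] (f^[i] x) by
      rw [← Function.iterate_add_apply]; congr 1; omega]
    exact hl.iterate (n - i) _
  have k1 : E ν (J ξ f n) ≤ E ν (fun x => J ξ g (n + 1) (f^[n] x)) :=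
    E_le_of_ref ν ((hξ.J hg _).pull (hf.iterate n).measurable) fun x y hh => by
      rw [J_eq_iff] at hh ⊢
      intro i hi
      have := hh (n - i) (by omega)
      rwa [e i hi.le, e i hi.le] at this
  push_cast at h1
  have := le_abs_self (c + ε)
  linarith

theorem EntLE.add {ν' : Measure X} [IsFiniteMeasure ν'] {c d : ℝ} (h : EntLE ν f c)
    (h' : EntLE ν' f d) : EntLE (ν + ν') f (c + d) := by
  intro k ξ hξ ε hε
  obtain ⟨K, hK⟩ := h k ξ hξ (ε / 2) (by linarith)
  obtain ⟨K', hK'⟩ := h' k ξ hξ (ε / 2) (by linarith)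
  refine ⟨K + K' + (negMulLog (ν.real univ) + negMulLog (ν'.real univ) -
    negMulLog ((ν + ν').real univ)), fun n => ?_⟩
  have := E_add_le ν ν' (J ξ f n)
  have := hK n
  have := hK' n
  linarith

/-- Link with the definition of the Kolmogorov-Sinai entropy. -/
theorem ksEntropy_le_of_entLE {μ : Measure X} [IsProbabilityMeasure μ] {c : ℝ}
    (h : EntLE μ f c) : ksEntropy μ f ≤ c := by
  refine iSup_le fun k => iSup_le fun ξ => iSup_le fun hξ => ?_
  have hmp : MP ξ := fun a => hξ (measurableSet_singleton a)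
  have hE : ∀ n : ℕ, partEntropy μ (fun x (i : Fin n) => ξ (f^[i] x)) = E μ (J ξ f n) := by
    intro n
    rw [E_eq, partEntropy]
    simp
    rfl
  refine EReal.le_of_forall_lt_iff_le.1 fun d hd => ?_
  have hcd : c < d := by exact_mod_cast hd
  obtain ⟨K, hK⟩ := h k ξ hmp ((d - c) / 2) (by linarith)
  refine limsup_le_of_le (by isBoundedDefault) ?_
  have h1 : Tendsto (fun n : ℕ => (d - c) / 2 * n) atTop atTop :=
    tendsto_natCast_atTop_atTop.const_mul_atTop (by linarith)
  filter_upwards [h1.eventually_ge_atTop K, eventually_gt_atTop 0] with n hn hn0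
  have hn' : (0 : ℝ) < n := by exact_mod_cast hn0
  rw [hE, EReal.coe_le_coe_iff, div_le_iff₀ hn']
  have := hK n
  linarith

end Pool.Agent.MP_369096_an

end

-- part MP_369096_an.Top
section

/-!
Topological entropy bounds: the horseshoe lemma, approximation of partitions, Goodwyn's inequality.
-/

set_option autoImplicit false
set_option linter.unusedSectionVars false
set_option linter.unusedVariables false

open MeasureTheory Filter Set Topology Real

namespace Pool.Agent.MP_369096_an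

section Top

variable {X : Type*} [MetricSpace X] {f : X → X}

/-- The number of dynamical balls needed to cover the space grows at rate at most `h`. -/
def TopLE (f : X → X) (h : ℝ) : Prop :=
  ∀ δ > 0, ∀ ε > 0, ∃ K : ℝ, 0 < K ∧ ∀ n : ℕ, ∃ s : Finset X,
    (∀ x, ∃ y ∈ s, ∀ k < n, dist (f^[k] x) (f^[k] y) < δ) ∧ (s.card : ℝ) ≤ K * exp ((h + ε) * n)

theorem topLE_of_coverEntropy {h : ℝ} (hh : Dynamics.coverEntropy f univ ≤ h) : TopLE f h := by
  intro δ hδ ε hε
  have hU : {p : X × X | dist p.1 p.2 < δ} ∈ uniformity X := Metric.dist_mem_uniformity hδ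
  have h1 := (Dynamics.coverEntropyEntourage_le_coverEntropy f univ hU).trans hh
  have h2 : Dynamics.coverEntropyEntourage f univ {p : X × X | dist p.1 p.2 < δ} <
      ((h + ε : ℝ) : EReal) := h1.trans_lt (by exact_mod_cast (by linarith : h < h + ε))
  have h3 := ExpGrowth.eventually_le_exp h2
  obtain ⟨n0, hn0⟩ := eventually_atTop.1 h3
  have key : ∀ n ≥ n0, ∃ s : Finset X,
      (∀ x, ∃ y ∈ s, ∀ k < n, dist (f^[k] x) (f^[k] y) < δ) ∧
        (s.card : ℝ) ≤ exp ((h + ε) * n) := by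
    intro n hn
    have h4 := hn0 n hn
    have e : ((h + ε : ℝ) : EReal) * (n : EReal) = (((h + ε) * n : ℝ) : EReal) := by
      rw [EReal.coe_mul]; rfl
    rw [e, EReal.exp_coe] at h4
    have hfin : Dynamics.coverMincard f univ {p : X × X | dist p.1 p.2 < δ} n < ⊤ := by
      have := h4.trans_lt ENNReal.ofReal_lt_top
      simpa using this
    obtain ⟨s, hs1, hs2⟩ := (Dynamics.coverMincard_finite_iff _ _ _ _).1 hfin
    refine ⟨s, fun x => ?_, ?_⟩
    · obtain ⟨y, hy, hxy⟩ := hs1 (mem_univ x)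
      exact ⟨y, hy, fun k hk => Dynamics.mem_dynEntourage.1 hxy k hk⟩
    · rw [← hs2] at h4
      have h5 : ENNReal.ofReal (s.card : ℝ) ≤ ENNReal.ofReal (exp ((h + ε) * n)) := by
        simpa using h4
      exact (ENNReal.ofReal_le_ofReal_iff (exp_pos _).le).1 h5
  refine ⟨exp (|h + ε| * n0), exp_pos _, fun n => ?_⟩
  obtain ⟨s, hs1, hs2⟩ := key (max n n0) (le_max_right _ _)
  refine ⟨s, fun x => ?_, hs2.trans ?_⟩
  · obtain ⟨y, hy, hxy⟩ := hs1 x
    exact ⟨y, hy, fun k hk => hxy k (hk.trans_le (le_max_left _ _))⟩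
  · rw [← exp_add, exp_le_exp]
    rcases le_total n n0 with hn | hn
    · rw [max_eq_right hn]
      have h6 : (n : ℝ) ≤ n0 := by exact_mod_cast hn
      have h7 : (0 : ℝ) ≤ n := Nat.cast_nonneg n
      have h8 : (h + ε) * (n0 - n) ≤ |h + ε| * (n0 - n) :=
        mul_le_mul_of_nonneg_right (le_abs_self _) (by linarith)
      have := abs_nonneg (h + ε)
      nlinarith
    · rw [max_eq_left hn]
      have : 0 ≤ |h + ε| * n0 := by positivity
      linarith

theorem exists_sep {I : Type*} [Finite I] (K : I → Set X) (hK : ∀ i, IsCompact (K i))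
    (hd : ∀ i j, i ≠ j → Disjoint (K i) (K j)) :
    ∃ δ > 0, ∀ i j, ∀ x ∈ K i, ∀ y ∈ K j, dist x y < δ → i = j := by
  have h1 : ∀ i j, ∀ᶠ δ in 𝓝[>] (0 : ℝ), ∀ x ∈ K i, ∀ y ∈ K j, dist x y < δ → i = j := by
    intro i j
    by_cases hij : i = j
    · exact Eventually.of_forall fun _ _ _ _ _ _ => hij
    · obtain ⟨δ, hδ, hdis⟩ := (hd i j hij).exists_thickenings (hK i) (hK j).isClosed
      filter_upwards [Ioo_mem_nhdsGT hδ] with r hr x hx y hy hxy
      exfalso
      refine (Set.disjoint_left.1 hdis) (a := y) ?_ (Metric.self_subset_thickening hδ _ hy)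
      exact Metric.mem_thickening_iff.2 ⟨x, hx, by rw [dist_comm]; exact hxy.trans hr.2⟩
  have h2 : ∀ᶠ δ in 𝓝[>] (0 : ℝ), ∀ i j, ∀ x ∈ K i, ∀ y ∈ K j, dist x y < δ → i = j :=
    eventually_all.2 fun i => eventually_all.2 fun j => h1 i j
  obtain ⟨δ, hδ1, hδ2⟩ := (h2.and self_mem_nhdsWithin).exists
  exact ⟨δ, hδ2, hδ1⟩

/-- Horseshoe lemma. -/
theorem card_le_exp {h : ℝ} (hT : TopLE f h) {I : Type*} [Fintype I] (K : I → Set X)
    (hK : ∀ i, IsCompact (K i)) (hd : ∀ i j, i ≠ j → Disjoint (K i) (K j)) {m : ℕ} (hm : 0 < m)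
    (hw : ∀ (k : ℕ) (w : ℕ → I), ∃ y, ∀ i < k, f^[i * m] y ∈ K (w i)) :
    (Fintype.card I : ℝ) ≤ exp (h * m) := by
  classical
  rcases isEmpty_or_nonempty I with hI | ⟨⟨i0⟩⟩
  · simp [(exp_pos _).le]
  obtain ⟨δ, hδ, hsep⟩ := exists_sep K hK hd
  have hc : (0 : ℝ) < Fintype.card I := by
    exact_mod_cast Fintype.card_pos_iff.2 ⟨i0⟩
  have hm' : (0 : ℝ) < m := by exact_mod_cast hm
  rw [← log_le_iff_le_exp hc]
  by_contra hcon
  push Not at hcon
  set ε := (log (Fintype.card I) - h * m) / (2 * m) with hε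
  have hε0 : 0 < ε := div_pos (by linarith) (by positivity)
  obtain ⟨C, hC, hs⟩ := hT (δ / 2) (by linarith) ε hε0
  have key : ∀ k : ℕ, (Fintype.card I : ℝ) ^ k ≤ C * exp ((h + ε) * (k * m : ℕ)) := by
    intro k
    obtain ⟨s, hs1, hs2⟩ := hs (k * m)
    refine le_trans ?_ hs2
    choose y hy using fun w : Fin k → I =>
      hw k (fun i => if hi : i < k then w ⟨i, hi⟩ else i0)
    choose z hz1 hz2 using fun w : Fin k → I => hs1 (y w)
    have hinj : Function.Injective fun w : Fin k → I => (⟨z w, hz1 w⟩ : s) := by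
      intro w w' hww
      have hzz : z w = z w' := congrArg Subtype.val hww
      funext i
      have h1 := hy w i i.2
      have h2 := hy w' i i.2
      simp only [i.2, dif_pos] at h1 h2
      have hlt : i * m < k * m := Nat.mul_lt_mul_of_pos_right i.2 hm
      have h3 := hz2 w _ hlt
      have h4 := hz2 w' _ hlt
      rw [hzz] at h3
      refine hsep _ _ _ h1 _ h2 ?_
      have := dist_triangle_right (f^[i * m] (y w)) (f^[i * m] (y w')) (f^[i * m] (z w'))
      linarith
    have := Fintype.card_le_of_injective _ hinj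
    simp only [Fintype.card_pi, Finset.prod_const, Finset.card_univ, Fintype.card_fin,
      Fintype.card_coe] at this
    exact_mod_cast this
  obtain ⟨k, hk⟩ := exists_nat_gt (log C / (ε * m))
  have h1 := log_le_log (pow_pos hc k) (key k)
  rw [log_pow, log_mul hC.ne' (exp_pos _).ne', log_exp] at h1
  rw [div_lt_iff₀ (by positivity)] at hk
  have h2 : log (Fintype.card I) = h * m + 2 * m * ε := by
    rw [hε]; field_simp; ring
  rw [h2] at h1
  push_cast at h1
  nlinarith

end Top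

section Meas

variable {X : Type*} [MeasurableSpace X] {A B : Type*} [Finite A] [Finite B]
  (ν : Measure X) [IsFiniteMeasure ν]

theorem Ec_le_bad {ξ : X → A} {η : X → B} (hξ : MP ξ) (hη : MP η) {T S : Set X}
    (hT : MeasurableSet T) (hS : ∀ᵐ x ∂ν, x ∈ S) {N : ℝ} (hN : 1 ≤ N) (hAN : (Nat.card A : ℝ) ≤ N)
    (hr : ∀ x ∈ S, ∀ y ∈ S, x ∉ T → y ∉ T → η x = η y → ξ x = ξ y) :
    Ec ν ξ (fun x => (η x, x ∈ T)) ≤ ν.real T * log N := by
  classical
  cases nonempty_fintype A
  cases nonempty_fintype B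
  have k := Ec_le_count ν hξ (hη.pair (mp_prop hT)) (fun b => if b.2 then N else 1)
    (fun b => by split_ifs <;> linarith) hS (fun b => ?_)
  · refine k.trans (le_of_eq ?_)
    rw [Fintype.sum_prod_type, ← sum_fiber ν hη T, Finset.sum_mul]
    refine Finset.sum_congr rfl fun b _ => ?_
    rw [Fintype.univ_Prop, Finset.sum_pair (by simp)]
    simp only [if_true, if_false, log_one, mul_zero, add_zero]
    congr 2
    ext x; simp
  · by_cases hb : b.2
    · refine ⟨Finset.univ, fun _ _ _ => Finset.mem_univ _, ?_⟩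
      rw [if_pos hb, Finset.card_univ, ← Nat.card_eq_fintype_card]
      exact hAN
    · rw [if_neg hb]
      by_cases hex : ∃ x ∈ S, (η x, x ∈ T) = b
      · obtain ⟨x0, hx0, hb0⟩ := hex
        refine ⟨{ξ x0}, fun x hx hxb => ?_, by simp⟩
        rw [Finset.mem_singleton]
        refine hr x hx x0 hx0 ?_ ?_ ?_
        · rw [← hxb] at hb; exact hb
        · rw [← hb0] at hb; exact hb
        · exact congrArg Prod.fst (hxb.trans hb0.symm)
      · exact ⟨∅, fun x hx hxb => absurd ⟨x, hx, hxb⟩ hex, by simp⟩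

theorem tendsto_real_of_ae {T : ℕ → Set X} (hT : ∀ k, MeasurableSet (T k))
    (h : ∀ᵐ x ∂ν, ∀ᶠ k in atTop, x ∉ T k) : Tendsto (fun k => ν.real (T k)) atTop (𝓝 0) := by
  let U : ℕ → Set X := fun k => ⋃ j, ⋃ (_ : k ≤ j), T j
  have hU : ∀ k, MeasurableSet (U k) := fun k =>
    MeasurableSet.iUnion fun j => MeasurableSet.iUnion fun _ => hT j
  have hanti : Antitone U := fun k l hkl x hx => by
    simp only [U, mem_iUnion] at hx ⊢
    obtain ⟨j, hj, hx⟩ := hx
    exact ⟨j, hkl.trans hj, hx⟩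
  have h1 := tendsto_measure_iInter_atTop (μ := ν) (fun k => (hU k).nullMeasurableSet) hanti
    ⟨0, measure_ne_top _ _⟩
  have h2 : ν (⋂ k, U k) = 0 := by
    refine measure_mono_null ?_ (ae_iff.1 h)
    intro x hx hev
    obtain ⟨k, hk⟩ := eventually_atTop.1 hev
    have := mem_iInter.1 hx k
    simp only [U, mem_iUnion] at this
    obtain ⟨j, hj, hx⟩ := this
    exact hk j hj hx
  rw [h2] at h1
  have h3 := (ENNReal.tendsto_toReal ENNReal.zero_ne_top).comp h1
  refine squeeze_zero (fun _ => measureReal_nonneg) (fun k => ?_) h3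
  refine measureReal_mono (s₂ := U k) (fun x hx => ?_) (measure_ne_top _ _)
  simp only [U, mem_iUnion]
  exact ⟨k, le_rfl, hx⟩

end Meas

variable {X : Type*} [MetricSpace X] [CompactSpace X] [MeasurableSpace X] [BorelSpace X]
  {A : Type*} [Finite A] (ν : Measure X) [IsFiniteMeasure ν] {f : X → X}

theorem exists_cpt {ξ : X → A} (hξ : MP ξ) {ε : ℝ} (hε : 0 < ε) :
    ∃ K : A → Set X, (∀ a, IsCompact (K a)) ∧ (∀ a, ∀ x ∈ K a, ξ x = a) ∧
      ν.real (⋃ a, K a)ᶜ ≤ ε := by
  cases nonempty_fintype A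
  have hc : (0 : ℝ) < Fintype.card A + 1 := by positivity
  have h1 := fun a => (hξ a).exists_isClosed_sdiff_lt (μ := ν) (measure_ne_top _ _)
    (ε := ENNReal.ofReal (ε / (Fintype.card A + 1)))
    (by simpa using div_pos hε hc)
  choose K hK1 hK2 hK3 using h1
  refine ⟨K, fun a => (hK2 a).isCompact, fun a x hx => hK1 a hx, ?_⟩
  have h2 : (⋃ a, K a)ᶜ ⊆ ⋃ a, (ξ ⁻¹' {a} \ K a) := fun x hx => by
    simp only [mem_compl_iff, mem_iUnion, not_exists] at hx
    exact mem_iUnion.2 ⟨ξ x, rfl, hx _⟩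
  refine (measureReal_mono h2).trans ((measureReal_iUnion_fintype_le _).trans ?_)
  have h3 : ∀ a, ν.real (ξ ⁻¹' {a} \ K a) ≤ ε / (Fintype.card A + 1) := fun a =>
    ENNReal.toReal_le_of_le_ofReal (div_pos hε hc).le (hK3 a).le
  refine (Finset.sum_le_sum fun a _ => h3 a).trans ?_
  rw [Finset.sum_const, Finset.card_univ, nsmul_eq_mul, ← mul_div_assoc, div_le_iff₀ hc]
  nlinarith

/-- Partitions whose atoms shrink to points almost everywhere determine any finite partition. -/
theorem exists_Ec_le {D : ℕ → Type*} [∀ k, Finite (D k)] (η : ∀ k, X → D k) (hη : ∀ k, MP (η k))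
    {S : Set X} (hS : ∀ᵐ x ∂ν, x ∈ S)
    (hd : ∀ᵐ x ∂ν, ∀ δ > 0, ∀ᶠ k in atTop, ∀ y ∈ S, η k y = η k x → dist y x < δ)
    {ξ : X → A} (hξ : MP ξ) {ε : ℝ} (hε : 0 < ε) : ∃ k, Ec ν ξ (η k) ≤ ε := by
  set N : ℝ := Nat.card A + 1 with hN
  have hN1 : 1 ≤ N := by rw [hN]; have : (0 : ℝ) ≤ Nat.card A := Nat.cast_nonneg _; linarith
  have hlog : 0 ≤ log N := log_nonneg hN1
  obtain ⟨δ1, hδ1, h1⟩ := E_prop_small ν (half_pos hε)
  set δ2 := min δ1 (ε / 2 / (log N + 1)) with hδ2
  have hδ2p : 0 < δ2 := lt_min hδ1 (by positivity)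
  obtain ⟨K, hK1, hK2, hK3⟩ := exists_cpt ν hξ (ε := δ2 / 3) (by positivity)
  obtain ⟨δ, hδ, hsep⟩ := exists_sep K hK1 fun a b hab =>
    Set.disjoint_left.2 fun x hx hx' => hab ((hK2 a x hx).symm.trans (hK2 b x hx'))
  let T : ℕ → Set X := fun k =>
    η k ⁻¹' {d | ∃ y ∈ S, ∃ z ∈ S, η k y = d ∧ η k z = d ∧ δ ≤ dist y z}
  have hT : ∀ k, MeasurableSet (T k) := fun k => (hη k).preimage _
  have hlim := tendsto_real_of_ae ν hT (by
    filter_upwards [hd] with x hx
    filter_upwards [hx (δ / 2) (by linarith)] with k hk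
    rintro ⟨y, hy, z, hz, h1, h2, h3⟩
    have := hk y hy h1
    have := hk z hz h2
    have := dist_triangle_right y z x
    linarith)
  obtain ⟨k, hk⟩ := (hlim.eventually_lt_const (u := δ2 / 3) (by positivity)).exists
  refine ⟨k, ?_⟩
  have hKm : MeasurableSet (⋃ a, K a)ᶜ :=
    (MeasurableSet.iUnion fun a => (hK1 a).isClosed.measurableSet).compl
  have hW : MeasurableSet (T k ∪ (⋃ a, K a)ᶜ) := (hT k).union hKm
  have hWm : ν.real (T k ∪ (⋃ a, K a)ᶜ) < δ2 := by
    have := measureReal_union_le (μ := ν) (T k) (⋃ a, K a)ᶜ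
    linarith
  have k1 := Ec_le_add ν hξ (hη k) (mp_prop hW)
  have k2 := h1 _ hW (hWm.trans_le (min_le_left _ _))
  have k3 := Ec_le_bad ν hξ (hη k) hW hS hN1 (by rw [hN]; linarith) (by
    intro x hx y hy hxW hyW hxy
    simp only [mem_union, mem_compl_iff, not_or, not_not, mem_iUnion] at hxW hyW
    obtain ⟨hxT, a, ha⟩ := hxW
    obtain ⟨hyT, b, hb⟩ := hyW
    rw [hK2 a x ha, hK2 b y hb]
    refine hsep a b x ha y hb ?_
    by_contra hcon
    exact hxT ⟨x, hx, y, hy, rfl, hxy.symm, not_lt.1 hcon⟩)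
  have k4 : ν.real (T k ∪ (⋃ a, K a)ᶜ) * log N ≤ ε / 2 := by
    have := hWm.le.trans (min_le_right _ _)
    rw [le_div_iff₀ (by positivity)] at this
    have h0 : 0 ≤ ν.real (T k ∪ (⋃ a, K a)ᶜ) := measureReal_nonneg
    nlinarith
  linarith

theorem entLE_of_shrink (hf : MeasurePreserving f ν ν) {D : ℕ → Type*} [∀ k, Finite (D k)]
    (η : ∀ k, X → D k) (hη : ∀ k, MP (η k)) {S : Set X} (hS : ∀ᵐ x ∂ν, x ∈ S)
    (hd : ∀ᵐ x ∂ν, ∀ δ > 0, ∀ᶠ k in atTop, ∀ y ∈ S, η k y = η k x → dist y x < δ)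
    {c : ℝ} (hc : ∀ᶠ k in atTop, RateLE ν f (η k) c) : EntLE ν f c := by
  obtain ⟨k0, hk0⟩ := eventually_atTop.1 hc
  intro l ξ hξ
  refine RateLE.of_forall fun ε hε => ?_
  obtain ⟨k, hk⟩ := exists_Ec_le ν (fun k => η (k + k0)) (fun k => hη _) hS (by
    filter_upwards [hd] with x hx δ hδ
    exact (tendsto_add_atTop_nat k0).eventually (hx δ hδ)) hξ hε
  exact (RateLE.of_cond hf hξ (hη _) (hk0 _ (Nat.le_add_left _ _))).mono (by linarith)

theorem goodwyn_aux {h : ℝ} (hT : TopLE f h) {p : ℕ} (hp : 0 < p)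
    (hf : MeasurePreserving f^[p] ν ν) :
    EntLE ν f^[p] (ν.real univ * (h * p + log 2) + 1) := by
  classical
  intro k ξ hξ
  set N : ℝ := Nat.card (Fin k) + 1 with hN
  have hN1 : 1 ≤ N := by rw [hN]; have : (0 : ℝ) ≤ Nat.card (Fin k) := Nat.cast_nonneg _; linarith
  have hlog : 0 ≤ log N := log_nonneg hN1
  obtain ⟨K, hK1, hK2, hK3⟩ := exists_cpt ν hξ (ε := 1 / (log N + 1)) (by positivity)
  obtain ⟨δ, hδ, hsep⟩ := exists_sep K hK1 fun a b hab =>
    Set.disjoint_left.2 fun x hx hx' => hab ((hK2 a x hx).symm.trans (hK2 b x hx'))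
  have hKm : MeasurableSet (⋃ a, K a)ᶜ :=
    (MeasurableSet.iUnion fun a => (hK1 a).isClosed.measurableSet).compl
  let β : X → Option (Fin k) := fun x => if x ∈ (⋃ a, K a)ᶜ then none else some (ξ x)
  have hβ : MP β := by
    convert (hξ.pair (mp_prop hKm)).comp
      (fun q : Fin k × Prop => if q.2 then none else some q.1) using 2
    simp only [β]
  have k1 : Ec ν ξ β ≤ 1 := by
    have k2 := Ec_le_bad ν hξ hβ hKm (S := univ) (Eventually.of_forall fun _ => trivial) hN1
      (by rw [hN]; linarith) (by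
        intro x _ y _ hx hy hxy
        simp only [β, if_neg hx, if_neg hy] at hxy
        exact Option.some_injective _ hxy)
    have k3 : Ec ν ξ β ≤ Ec ν ξ (fun x => (β x, x ∈ (⋃ a, K a)ᶜ)) :=
      Ec_anti ν hξ hβ (hβ.pair (mp_prop hKm)) fun x y hxy => by
        simp only [Prod.mk.injEq, eq_iff_iff]
        refine ⟨hxy, ?_⟩
        simp only [β] at hxy
        split_ifs at hxy with h1 h2 h2
        · exact ⟨fun _ => h2, fun _ => h1⟩
        · exact ⟨fun h => absurd h h1, fun h => absurd h h2⟩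
    rw [le_div_iff₀ (by positivity)] at hK3
    have h0 : 0 ≤ ν.real (⋃ a, K a)ᶜ := measureReal_nonneg
    nlinarith
  have k4 : RateLE ν f^[p] β (ν.real univ * (h * p + log 2)) := by
    intro ε hε
    set w := ν.real univ with hw
    have hw0 : 0 ≤ w := measureReal_nonneg
    set ε' := ε / (w * p + 1) with hε'
    have hε'0 : 0 < ε' := by positivity
    obtain ⟨C, hC, hs⟩ := hT (δ / 2) (by linarith) ε' hε'0
    refine ⟨w * log C, fun n => ?_⟩
    obtain ⟨s, hs1, hs2⟩ := hs (p * n)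
    let opt : X → Option (Fin k) := fun y =>
      if hy : ∃ a, ∃ z ∈ K a, dist z y < δ / 2 then some hy.choose else none
    let t : Finset (Fin n → Option (Fin k)) := s.biUnion fun y =>
      Fintype.piFinset fun i : Fin n => {none, opt (f^[p * i] y)}
    have ht : (t.card : ℝ) ≤ C * exp ((h + ε') * (p * n : ℕ)) * 2 ^ n := by
      have h1 : t.card ≤ s.card * 2 ^ n := by
        refine Finset.card_biUnion_le.trans ?_
        rw [← smul_eq_mul, ← Finset.sum_const]
        refine Finset.sum_le_sum fun y _ => ?_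
        rw [Fintype.card_piFinset]
        calc ∏ i : Fin n, ({none, opt (f^[p * i] y)} : Finset (Option (Fin k))).card
            ≤ ∏ i : Fin n, 2 := Finset.prod_le_prod' fun i _ => Finset.card_le_two
          _ = 2 ^ n := by simp
      have h2 : (t.card : ℝ) ≤ s.card * 2 ^ n := by exact_mod_cast h1
      exact h2.trans (mul_le_mul_of_nonneg_right hs2 (by positivity))
    have k5 := E_le_log ν (hβ.J hf.measurable n) (by positivity) t (fun a ha => ?_) ht
    · rw [log_mul (by positivity) (by positivity), log_mul hC.ne' (exp_pos _).ne', log_exp,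
        log_pow] at k5
      refine k5.trans ?_
      have h3 : w * p * ε' ≤ ε := by
        rw [hε', ← mul_div_assoc, div_le_iff₀ (by positivity)]
        nlinarith
      have h4 : (0 : ℝ) ≤ n := Nat.cast_nonneg n
      push_cast
      nlinarith
    · obtain ⟨x, hx⟩ := nonempty_of_measure_ne_zero ha
      obtain ⟨y, hy, hxy⟩ := hs1 x
      refine Finset.mem_biUnion.2 ⟨y, hy, Fintype.mem_piFinset.2 fun i => ?_⟩
      have hx' : J β f^[p] n x = a := hx
      rw [← hx']
      simp only [J, ← Function.iterate_mul, β]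
      split_ifs with h1
      · simp
      · simp only [mem_compl_iff, not_not, mem_iUnion] at h1
        obtain ⟨b, hb⟩ := h1
        have hd := hxy (p * i) (Nat.mul_lt_mul_of_pos_left i.2 hp)
        have hex : ∃ a, ∃ z ∈ K a, dist z (f^[p * i] y) < δ / 2 := ⟨b, _, hb, hd⟩
        simp only [opt, dif_pos hex, Finset.mem_insert, Finset.mem_singleton]
        right
        obtain ⟨z, hz1, hz2⟩ := hex.choose_spec
        rw [hK2 b _ hb]
        congr 1
        refine hsep _ _ _ hb _ hz1 ?_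
        have := dist_triangle_right (f^[p * i] x) z (f^[p * i] y)
        linarith
  exact (RateLE.of_cond hf hξ hβ k4).mono (by linarith)

/-- Goodwyn's inequality for the powers of `f`. -/
theorem goodwyn {h : ℝ} (hT : TopLE f h) {m : ℕ} (hm : 0 < m)
    (hf : MeasurePreserving f^[m] ν ν) : EntLE ν f^[m] (ν.real univ * (h * m)) := by
  refine EntLE.of_forall fun ε hε => ?_
  obtain ⟨l, hl⟩ := exists_nat_gt ((ν.real univ * log 2 + 1) / ε)
  have hl2 : 0 ≤ log 2 := log_nonneg (by norm_num)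
  have hw0 : 0 ≤ ν.real univ := measureReal_nonneg
  have hl0 : (0 : ℝ) < l := lt_of_le_of_lt (by positivity) hl
  have hl0' : 0 < l := by exact_mod_cast hl0
  have h1 := goodwyn_aux ν hT (p := m * l) (Nat.mul_pos hm hl0')
    (by rw [Function.iterate_mul]; exact hf.iterate l)
  rw [Function.iterate_mul] at h1
  refine (h1.of_pow hf.measurable hl0').mono ?_
  rw [div_lt_iff₀ hε] at hl
  rw [div_le_iff₀ hl0]
  push_cast
  nlinarith

end Pool.Agent.MP_369096_an

end

-- part MP_369096_an.H89.Meas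
section

/-!
TASK Meas. An invariant measure with large entropy from finite approximate orbits.
Auxiliary lemmas go in namespace `H89.Meas`.

Let `μ n` be the image of the uniform measure on `Fin (c n + 1)` under `y n`. `ProbabilityMeasure M` is compact (`Mathlib/MeasureTheory/Measure/Prokhorov.lean`); take a limit `μ` along an
ultrafilter `𝒰 ≤ atTop` (or along a subsequence; the space is metrizable). Invariance: for continuous `φ`, `∫ φ ∘ f dμ n - ∫ φ dμ n → 0` (uniform continuity of `φ`, `σ n` is a bijection);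
conclude with `ext_of_forall_integral_eq_of_IsFiniteMeasure` or the like. Support: portmanteau for closed sets.
Entropy: given `v < H` and the labels, let `A a` be the set of the points `y n x`, `n ≥ n0`, with label `a`; different `A a` are `δ`-separated. Let `U a` be the open `δ/3`-thickening and `C a` the closed
`δ/6`-thickening, `ξ x = a.succ` on `U a`, `0` elsewhere. Fix `N`. For `n` large `dist (f^[i] (y n x)) (y n ((σ n)^[i] x)) ≤ δ/6` for `i < N`, so for a word `w` the sets
`C w = ⋂ f^[i] ⁻¹' C (w i) ⊆ U w = ⋂ f^[i] ⁻¹' U (w i)` have the same `μ n`-measure, the frequency `p n w` of the label word. Portmanteau gives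
`limsup p n w ≤ μ (C w) ≤ μ (U w) ≤ liminf p n w`, so `p n w → μ (U w)` and `partEntropy μ (join of ξ) ≥ ∑_w negMulLog (μ (U w)) = lim empEnt ≥ N v` (the other cells contribute nonnegative terms).
So `v ≤ ksEntropy μ f` for all `v < H`.
-/

set_option autoImplicit false

open Set Filter Topology MeasureTheory

namespace Pool.Agent.MP_369096_an.H89

namespace Meas

open scoped ENNReal BoundedContinuousFunction

variable {M : Type} [MetricSpace M] [MeasurableSpace M] [BorelSpace M]

/-- the empirical measure -/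
noncomputable def emp {ι : Type} [Fintype ι] (y : ι → M) : Measure M :=
  (Fintype.card ι : ℝ≥0∞)⁻¹ • ∑ a, Measure.dirac (y a)

theorem emp_apply {ι : Type} [Fintype ι] (y : ι → M) {S : Set M} (T : Finset ι)
    (hT : ∀ a, a ∈ T ↔ y a ∈ S) : emp y S = (Fintype.card ι : ℝ≥0∞)⁻¹ * T.card := by
  classical
  have e : ∀ a, Measure.dirac (y a) S = if a ∈ T then 1 else 0 := fun a => by
    rw [Measure.dirac_apply, indicator_apply]
    by_cases h : y a ∈ S <;> simp [h, hT]
  rw [emp, Measure.smul_apply, Measure.finsetSum_apply, smul_eq_mul]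
  simp [e]

theorem emp_one {ι : Type} [Fintype ι] [Nonempty ι] (y : ι → M) {S : Set M} (h : ∀ a, y a ∈ S) :
    emp y S = 1 := by
  rw [emp_apply y Finset.univ (by simpa using h), Finset.card_univ]
  exact ENNReal.inv_mul_cancel (by simp) (by simp)

/-- the empirical measure as a probability measure -/
noncomputable def empP {ι : Type} [Fintype ι] [Nonempty ι] (y : ι → M) : ProbabilityMeasure M :=
  ⟨emp y, ⟨emp_one y fun _ => mem_univ _⟩⟩

theorem emp_real {ι : Type} [Fintype ι] (y : ι → M) {S : Set M} (T : Finset ι)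
    (hT : ∀ a, a ∈ T ↔ y a ∈ S) : (emp y S).toReal = (T.card : ℝ) / Fintype.card ι := by
  rw [emp_apply y T hT, ENNReal.toReal_mul, ENNReal.toReal_inv, div_eq_inv_mul]
  simp

theorem emp_integral {ι : Type} [Fintype ι] (y : ι → M) (φ : M → ℝ) :
    ∫ x, φ x ∂emp y = (Fintype.card ι : ℝ)⁻¹ * ∑ a, φ (y a) := by
  rw [emp, integral_smul_measure, integral_finsetSum_measure fun a _ => integrable_dirac (by simp)]
  simp

variable [CompactSpace M] {f : M → M} {c : ℕ → ℕ} {σ : ∀ n, Equiv.Perm (Fin (c n + 1))}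
  {y : ∀ n, Fin (c n + 1) → M}

omit [MeasurableSpace M] [BorelSpace M] in
theorem iter_close (hf : Continuous f)
    (h : ∀ ε > 0, ∀ᶠ n in atTop, ∀ a, dist (f (y n a)) (y n (σ n a)) ≤ ε) (i : ℕ) :
    ∀ ε > 0, ∀ᶠ n in atTop, ∀ a, dist (f^[i] (y n a)) (y n ((σ n)^[i] a)) ≤ ε := by
  induction i with
  | zero => intro ε hε; simp [hε.le]
  | succ i ih =>
    intro ε hε
    obtain ⟨δ, hδ, hu⟩ := Metric.uniformContinuous_iff.1
      (CompactSpace.uniformContinuous_of_continuous hf) (ε / 2) (half_pos hε)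
    filter_upwards [ih (δ / 2) (half_pos hδ), h (ε / 2) (half_pos hε)] with n h1 h2 a
    rw [Function.iterate_succ_apply', Function.iterate_succ_apply']
    have h3 := hu ((h1 a).trans_lt (half_lt_self hδ))
    linarith [dist_triangle (f (f^[i] (y n a))) (f (y n ((σ n)^[i] a))) (y n (σ n ((σ n)^[i] a))),
      h2 ((σ n)^[i] a)]

theorem invariant (hf : Continuous f)
    (h : ∀ ε > 0, ∀ᶠ n in atTop, ∀ a, dist (f (y n a)) (y n (σ n a)) ≤ ε) {l : Filter ℕ} [l.NeBot]
    (hl : l ≤ atTop) {μ : ProbabilityMeasure M} (hμ : Tendsto (fun n => empP (y n)) l (𝓝 μ)) :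
    MeasurePreserving f μ μ := by
  refine ⟨hf.measurable, ext_of_forall_integral_eq_of_IsFiniteMeasure fun φ => ?_⟩
  rw [integral_map hf.aemeasurable φ.continuous.aestronglyMeasurable]
  have h1 := ProbabilityMeasure.tendsto_iff_forall_integral_tendsto.1 hμ φ
  have h2 := ProbabilityMeasure.tendsto_iff_forall_integral_tendsto.1 hμ
    (φ.compContinuous ⟨f, hf⟩)
  refine eq_of_sub_eq_zero (tendsto_nhds_unique (h2.sub h1) (Tendsto.mono_left ?_ hl))
  refine Metric.tendsto_nhds.2 fun ε hε => ?_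
  obtain ⟨δ, hδ, hu⟩ := Metric.uniformContinuous_iff.1
    (CompactSpace.uniformContinuous_of_continuous φ.continuous) (ε / 2) (half_pos hε)
  filter_upwards [h (δ / 2) (half_pos hδ)] with n hn
  change dist (∫ x, φ (f x) ∂emp (y n) - ∫ x, φ x ∂emp (y n)) 0 < ε
  have hc : (0 : ℝ) < Fintype.card (Fin (c n + 1)) := by exact_mod_cast Fintype.card_pos
  rw [emp_integral, emp_integral, ← Equiv.sum_comp (σ n) fun a => φ (y n a), ← mul_sub,
    ← Finset.sum_sub_distrib, Real.dist_eq, sub_zero, abs_mul, abs_of_pos (inv_pos.2 hc),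
    inv_mul_lt_iff₀ hc]
  have h3 := Finset.sum_le_card_nsmul Finset.univ
    (fun a => |φ (f (y n a)) - φ (y n (σ n a))|) (ε / 2) fun a _ =>
      (hu ((hn a).trans_lt (half_lt_self hδ))).le
  rw [nsmul_eq_mul, Finset.card_univ] at h3
  refine ((Finset.abs_sum_le_sum_abs _ _).trans h3).trans_lt ?_
  exact mul_lt_mul_of_pos_left (half_lt_self hε) hc

omit [CompactSpace M] in
theorem tendsto_of_eq {l : Filter ℕ} {μs : ℕ → ProbabilityMeasure M} {μ : ProbabilityMeasure M}
    (hμ : Tendsto μs l (𝓝 μ)) {C U : Set M} (hC : IsClosed C) (hU : IsOpen U) (hCU : C ⊆ U)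
    (he : ∀ᶠ n in l, (μs n : Measure M) C = (μs n : Measure M) U) :
    Tendsto (fun n => ((μs n : Measure M) U).toReal) l (𝓝 ((μ : Measure M) U).toReal) := by
  refine (ENNReal.tendsto_toReal (measure_ne_top _ _)).comp
    (tendsto_of_le_liminf_of_limsup_le
      (ProbabilityMeasure.le_liminf_measure_open_of_tendsto hμ hU) ?_)
  rw [← limsup_congr he]
  exact (ProbabilityMeasure.limsup_measure_closed_le_of_tendsto hμ hC).trans (measure_mono hCU)

open Classical in
/-- the partition defined by disjoint sets -/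
noncomputable def lab {k : ℕ} (U : Fin k → Set M) (z : M) : Fin (k + 1) :=
  if h : ∃ a, z ∈ U a then h.choose.succ else 0

omit [MetricSpace M] [MeasurableSpace M] [BorelSpace M] [CompactSpace M] in
theorem lab_succ {k : ℕ} {U : Fin k → Set M} (hU : ∀ z a a', z ∈ U a → z ∈ U a' → a = a')
    (z : M) (a : Fin k) : lab U z = a.succ ↔ z ∈ U a := by
  unfold lab
  split_ifs with h
  · rw [Fin.succ_inj]
    exact ⟨fun e => e ▸ h.choose_spec, fun hz => hU z _ _ h.choose_spec hz⟩
  · exact ⟨fun e => absurd e.symm (Fin.succ_ne_zero a), fun hz => absurd ⟨a, hz⟩ h⟩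

omit [CompactSpace M] in
theorem lab_meas {k : ℕ} {U : Fin k → Set M} (hU : ∀ z a a', z ∈ U a → z ∈ U a' → a = a')
    (ho : ∀ a, IsOpen (U a)) : Measurable (lab U) := by
  refine measurable_to_countable' fun b => ?_
  refine Fin.cases ?_ (fun a => ?_) b
  · have : lab U ⁻¹' {0} = (⋃ a, U a)ᶜ := by
      ext z
      simp only [mem_preimage, mem_singleton_iff, mem_compl_iff, mem_iUnion, lab]
      split_ifs with h
      · simp [h]
      · simp [h]
    rw [this]
    exact (isOpen_iUnion ho).measurableSet.compl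
  · have : lab U ⁻¹' {a.succ} = U a := Set.ext fun z => lab_succ hU z a
    rw [this]
    exact (ho a).measurableSet

theorem ent_le (hf : Continuous f)
    (h : ∀ ε > 0, ∀ᶠ n in atTop, ∀ a, dist (f (y n a)) (y n (σ n a)) ≤ ε) {l : Filter ℕ} [l.NeBot]
    (hl : l ≤ atTop) {μ : ProbabilityMeasure M} (hμ : Tendsto (fun n => empP (y n)) l (𝓝 μ))
    {k : ℕ} {ρ : ∀ n, Fin (c n + 1) → Fin k} {δ v : ℝ} {n0 : ℕ} (hδ : 0 < δ)
    (hρ : ∀ n ≥ n0, ∀ n' ≥ n0, ∀ a a', dist (y n a) (y n' a') < δ → ρ n a = ρ n' a')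
    (hv : ∀ N : ℕ, ∀ᶠ n in atTop, N * v ≤ empEnt fun a (i : Fin N) => ρ n ((σ n)^[i] a)) :
    (v : EReal) ≤ ksEntropy (μ : Measure M) f := by
  classical
  let A : Fin k → Set M := fun a => {z | ∃ n ≥ n0, ∃ x, y n x = z ∧ ρ n x = a}
  let U : Fin k → Set M := fun a => Metric.thickening (δ / 3) (A a)
  let C : Fin k → Set M := fun a => Metric.cthickening (δ / 6) (A a)
  have hCU : ∀ a, C a ⊆ U a := fun a =>
    Metric.cthickening_subset_thickening' (by positivity) (by linarith) _
  have hU : ∀ z a a', z ∈ U a → z ∈ U a' → a = a' := by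
    intro z a a' h1 h2
    obtain ⟨_, ⟨n, hn, x, rfl, rfl⟩, h3⟩ := Metric.mem_thickening_iff.1 h1
    obtain ⟨_, ⟨n', hn', x', rfl, rfl⟩, h4⟩ := Metric.mem_thickening_iff.1 h2
    exact hρ n hn n' hn' x x' (by linarith [dist_triangle_left (y n x) (y n' x') z])
  have key : ∀ N : ℕ, N * v ≤
      partEntropy (μ : Measure M) fun x (i : Fin N) => lab U (f^[i] x) := by
    intro N
    let Uw : (Fin N → Fin k) → Set M := fun w => ⋂ i : Fin N, f^[i] ⁻¹' U (w i)
    let Cw : (Fin N → Fin k) → Set M := fun w => ⋂ i : Fin N, f^[i] ⁻¹' C (w i)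
    have ev : ∀ᶠ n in atTop, ∀ w x, (y n x ∈ Cw w ↔ (fun i : Fin N => ρ n ((σ n)^[i] x)) = w) ∧
        (y n x ∈ Uw w ↔ (fun i : Fin N => ρ n ((σ n)^[i] x)) = w) := by
      filter_upwards [eventually_ge_atTop n0, eventually_all.2 fun i : Fin N =>
        iter_close hf h i (δ / 6) (by positivity)] with n hn hc w x
      have h1 : ∀ i : Fin N, f^[i] (y n x) ∈ C (ρ n ((σ n)^[i] x)) := fun i =>
        Metric.mem_cthickening_of_dist_le _ _ _ _ ⟨n, hn, _, rfl, rfl⟩ (hc i x)
      have h2 : y n x ∈ Uw w → (fun i : Fin N => ρ n ((σ n)^[i] x)) = w := fun hw =>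
        funext fun i => hU _ _ _ (hCU _ (h1 i)) (mem_iInter.1 hw i)
      have h3 : (fun i : Fin N => ρ n ((σ n)^[i] x)) = w → y n x ∈ Cw w := by
        rintro rfl
        exact mem_iInter.2 h1
      have h4 : Cw w ⊆ Uw w := iInter_mono fun i => preimage_mono (hCU _)
      exact ⟨⟨fun hw => h2 (h4 hw), h3⟩, h2, fun hw => h4 (h3 hw)⟩
    have lim : ∀ w, Tendsto (fun n => (emp (y n) (Uw w)).toReal) l
        (𝓝 ((μ : Measure M) (Uw w)).toReal) := fun w => by
      refine tendsto_of_eq hμ (C := Cw w)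
        (isClosed_iInter fun i => Metric.isClosed_cthickening.preimage (hf.iterate i))
        (isOpen_iInter_of_finite fun i => Metric.isOpen_thickening.preimage (hf.iterate i))
        (iInter_mono fun i => preimage_mono (hCU _)) ((ev.filter_mono hl).mono fun n hn => ?_)
      change emp (y n) _ = emp (y n) _
      rw [emp_apply (y n) (Finset.univ.filter fun x => y n x ∈ Uw w) fun x => by
        simp [(hn w x).1, (hn w x).2], emp_apply (y n) (Finset.univ.filter fun x => y n x ∈ Uw w)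
          fun x => by simp]
    have h1 : N * v ≤ ∑ w, Real.negMulLog ((μ : Measure M) (Uw w)).toReal := by
      refine ge_of_tendsto (tendsto_finsetSum _ fun w _ =>
        (Real.continuous_negMulLog.tendsto _).comp (lim w)) ?_
      filter_upwards [ev.filter_mono hl, (hv N).filter_mono hl] with n hn hn'
      refine hn'.trans (le_of_eq (Finset.sum_congr (by ext; simp) fun w _ => ?_))
      rw [Function.comp_apply, emp_real (y n) _ fun x => ?_]
      rw [(hn w x).2]
      simp
    refine h1.trans ?_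
    have hinj : Function.Injective fun (w : Fin N → Fin k) (i : Fin N) => (w i).succ :=
      fun w w' e => funext fun i => Fin.succ_injective _ (congrFun e i)
    have e : ∀ w, Uw w = (fun x (i : Fin N) => lab U (f^[i] x)) ⁻¹' {fun i => (w i).succ} := by
      intro w
      ext x
      simp only [Uw, mem_iInter, mem_preimage, mem_singleton_iff, funext_iff, lab_succ hU]
    simp only [e]
    rw [partEntropy, ← Finset.sum_image (s := Finset.univ)
      (g := fun (w : Fin N → Fin k) (i : Fin N) => (w i).succ) (f := fun w' => Real.negMulLog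
        ((μ : Measure M) ((fun x (i : Fin N) => lab U (f^[i] x)) ⁻¹' {w'})).toReal) hinj.injOn]
    exact Finset.sum_le_sum_of_subset_of_nonneg (Finset.subset_univ _) fun w _ _ =>
      Real.negMulLog_nonneg measureReal_nonneg measureReal_le_one
  refine le_iSup_of_le (k + 1) (le_iSup₂_of_le (lab U)
    (lab_meas hU fun a => Metric.isOpen_thickening) ?_)
  refine le_limsup_of_frequently_le ((eventually_gt_atTop 0).mono fun N hN => ?_).frequently
  have hN' : (0 : ℝ) < N := by exact_mod_cast hN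
  exact EReal.coe_le_coe_iff.2 ((le_div_iff₀' hN').2 (key N))

end Meas

open Meas in
theorem exists_measure {M : Type} [MetricSpace M] [CompactSpace M] [MeasurableSpace M] [BorelSpace M]
    {f : M → M} (hf : Continuous f) {c : ℕ → ℕ} {σ : ∀ n, Equiv.Perm (Fin (c n + 1))}
    {y : ∀ n, Fin (c n + 1) → M} {H : ℝ} (h : Approx f c σ y H) :
    ∃ μ : Measure M, IsProbabilityMeasure μ ∧ MeasurePreserving f μ μ ∧
      (H : EReal) ≤ ksEntropy μ f ∧ ∀ C : Set M, IsClosed C → (∀ n a, y n a ∈ C) → μ C = 1 := by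
  obtain ⟨μ, -, hμ⟩ := isCompact_univ.ultrafilter_le_nhds
    ((Ultrafilter.of (atTop : Filter ℕ)).map fun n => empP (y n)) (by simp)
  have hl := Ultrafilter.of_le (atTop : Filter ℕ)
  have hμ' : Tendsto (fun n => empP (y n)) (Ultrafilter.of (atTop : Filter ℕ)) (𝓝 μ) := hμ
  refine ⟨μ, inferInstance, invariant hf h.1 hl hμ', EReal.ge_of_forall_gt_iff_ge.1 fun v hv => ?_,
    fun C hC hy => le_antisymm prob_le_one ?_⟩
  · obtain ⟨k, ρ, δ, n0, hδ, hρ, hN⟩ := h.2 v (EReal.coe_lt_coe_iff.1 hv)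
    exact ent_le hf h.1 hl hμ' hδ hρ hN
  · refine le_trans (le_of_eq ?_) (ProbabilityMeasure.limsup_measure_closed_le_of_tendsto hμ' hC)
    have e : ∀ n, ((empP (y n) : ProbabilityMeasure M) : Measure M) C = 1 := fun n =>
      emp_one (y n) (hy n)
    simp only [e, limsup_const]

end Pool.Agent.MP_369096_an.H89

end
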