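import Pool.Agent.MP_369096_an.Mg.Pesin
import Pool.Agent.Lib.Birkhoff.Pointwise

-- part MP_369096_an.Quad
section

/-!
Stable and unstable graphs of chains of branches, and small quadrilaterals bounded by them.
-/

set_option autoImplicit false
set_option linter.unusedSectionVars false
set_option linter.unusedVariables false

open Filter Set Topology Real Metric

namespace Pool.Agent.MP_369096_an

section Plane

variable {μ : ℝ} {σ υ : Bool → ℝ → ℝ}

/-- The open region between two horizontal and two vertical graphs. -/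
def Qo (σ υ : Bool → ℝ → ℝ) : Set V :=
  {w | (w.2 - σ false w.1) * (w.2 - σ true w.1) < 0 ∧ (w.1 - υ false w.2) * (w.1 - υ true w.2) < 0}

/-- The closed region. -/
def Qc (σ υ : Bool → ℝ → ℝ) : Set V :=
  {w | (w.2 - σ false w.1) * (w.2 - σ true w.1) ≤ 0 ∧ (w.1 - υ false w.2) * (w.1 - υ true w.2) ≤ 0}

theorem Qo_subset : Qo σ υ ⊆ Qc σ υ := fun _ h => ⟨h.1.le, h.2.le⟩

theorem continuous_of_lip {φ : ℝ → ℝ} {L : ℝ} (h : ∀ u u', |φ u - φ u'| ≤ L * |u - u'|) :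
    Continuous φ := by
  refine (LipschitzWith.of_dist_le' (K := L) fun u u' => ?_).continuous
  simpa only [Real.dist_eq] using h u u'

theorem abs_lt_of_between {a b v : ℝ} (ha : |a| < 1) (hb : |b| < 1) (h : (v - a) * (v - b) ≤ 0) :
    |v| < 1 := by
  rw [abs_lt] at *
  constructor <;> nlinarith

theorem abs_sub_le_of_between {a b v : ℝ} (h : (v - a) * (v - b) ≤ 0) : |v - a| ≤ |b - a| := by
  rw [← sq_le_sq₀ (abs_nonneg _) (abs_nonneg _), sq_abs, sq_abs]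
  nlinarith [sq_nonneg (v - b)]

theorem exists_inter {s u : ℝ → ℝ} (hs : Continuous s) (hu : Continuous u) (hb : ∀ v, |u v| ≤ 1) :
    ∃ w : V, w.2 = s w.1 ∧ w.1 = u w.2 := by
  have hc : ContinuousOn (fun t => t - u (s t)) (Icc (-1) 1) := by fun_prop
  obtain ⟨t, -, ht⟩ := intermediate_value_Icc (by norm_num) hc (show (0 : ℝ) ∈ Icc _ _ from
    ⟨by have := abs_le.1 (hb (s (-1))); linarith, by have := abs_le.1 (hb (s 1)); linarith⟩)
  exact ⟨(t, s t), rfl, by linarith⟩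

theorem close_of_graphs {s u : ℝ → ℝ} (hμ0 : 0 ≤ μ) (hμ : μ < 1)
    (hs : ∀ a b, |s a - s b| ≤ 1 * |a - b|) (hu : ∀ a b, |u a - u b| ≤ μ * |a - b|) {w p : V}
    {δ : ℝ} (p2 : p.2 = s p.1) (p1 : p.1 = u p.2) (w2 : |w.2 - s w.1| ≤ δ)
    (w1 : |w.1 - u w.2| ≤ δ) : ‖w - p‖ ≤ 3 * δ / (1 - μ) := by
  have hδ : 0 ≤ δ := (abs_nonneg _).trans w1
  have k1 : |w.2 - p.2| ≤ δ + |w.1 - p.1| := by
    have := abs_sub_le w.2 (s w.1) p.2
    have := hs w.1 p.1
    rw [← p2] at this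
    linarith
  have k2 : |w.1 - p.1| ≤ δ + μ * |w.2 - p.2| := by
    have := abs_sub_le w.1 (u w.2) p.1
    have := hu w.2 p.2
    rw [← p1] at this
    linarith
  have k3 : μ * |w.2 - p.2| ≤ μ * (δ + |w.1 - p.1|) := by gcongr
  rw [le_div_iff₀ (by linarith)]
  change max |w.1 - p.1| |w.2 - p.2| * _ ≤ _
  rw [max_mul_of_nonneg _ _ (by linarith), max_le_iff]
  constructor <;> nlinarith

/-- Two pairs of Lipschitz graphs inside the square. -/
structure Gr (μ : ℝ) (σ υ : Bool → ℝ → ℝ) : Prop where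
  lipσ : ∀ b a a', |σ b a - σ b a'| ≤ 1 * |a - a'|
  lipυ : ∀ b a a', |υ b a - υ b a'| ≤ μ * |a - a'|
  bσ : ∀ b a, |σ b a| < 1
  bυ : ∀ b a, |υ b a| < 1
  neσ : ∀ a, |a| ≤ 1 → σ false a ≠ σ true a
  neυ : ∀ a, |a| ≤ 1 → υ false a ≠ υ true a

theorem Gr.cσ (h : Gr μ σ υ) (b : Bool) : Continuous (σ b) := continuous_of_lip (h.lipσ b)

theorem Gr.cυ (h : Gr μ σ υ) (b : Bool) : Continuous (υ b) := continuous_of_lip (h.lipυ b)

theorem Gr.isOpen (h : Gr μ σ υ) : IsOpen (Qo σ υ) := by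
  have := h.cσ
  have := h.cυ
  have c1 : Continuous fun w : V => (w.2 - σ false w.1) * (w.2 - σ true w.1) := by fun_prop
  have c2 : Continuous fun w : V => (w.1 - υ false w.2) * (w.1 - υ true w.2) := by fun_prop
  exact IsOpen.inter (isOpen_lt c1 continuous_const) (isOpen_lt c2 continuous_const)

theorem Gr.isClosed (h : Gr μ σ υ) : IsClosed (Qc σ υ) := by
  have := h.cσ
  have := h.cυ
  have c1 : Continuous fun w : V => (w.2 - σ false w.1) * (w.2 - σ true w.1) := by fun_prop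
  have c2 : Continuous fun w : V => (w.1 - υ false w.2) * (w.1 - υ true w.2) := by fun_prop
  exact IsClosed.inter (isClosed_le c1 continuous_const) (isClosed_le c2 continuous_const)

theorem Gr.lt (h : Gr μ σ υ) {w : V} (hw : w ∈ Qc σ υ) : |w.1| < 1 ∧ |w.2| < 1 :=
  ⟨abs_lt_of_between (h.bυ _ _) (h.bυ _ _) hw.2, abs_lt_of_between (h.bσ _ _) (h.bσ _ _) hw.1⟩

theorem Gr.subset_Sq (h : Gr μ σ υ) : Qc σ υ ⊆ Sq := fun _ hw => ⟨(h.lt hw).1.le, (h.lt hw).2.le⟩

theorem Gr.sign (h : Gr μ σ υ) {a a' : ℝ} (ha : |a| ≤ 1) (ha' : |a'| ≤ 1) :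
    0 < (σ true a - σ false a) * (σ true a' - σ false a') := by
  have := h.cσ
  have hc : ContinuousOn (fun t => σ true t - σ false t) (uIcc a a') := by fun_prop
  by_contra hcon
  obtain ⟨t, ht, h0⟩ := intermediate_value_uIcc hc (show (0 : ℝ) ∈ uIcc _ _ by
    rw [mem_uIcc]
    push Not at hcon
    rcases mul_nonpos_iff.1 hcon with h1 | h1
    · exact Or.inr ⟨h1.2, h1.1⟩
    · exact Or.inl h1)
  refine h.neσ t ?_ (by linarith)
  rw [abs_le] at *
  rw [mem_uIcc] at ht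
  rcases ht with ht | ht <;> constructor <;> linarith

theorem Gr.path (h : Gr μ σ υ) (hμ0 : 0 ≤ μ) (hμ : μ < 1) {s t : ℝ} (hs : s ∈ Ioo (0 : ℝ) 1)
    (ht : t ∈ Ioo (0 : ℝ) 1) : ∃ ζ : ℝ → V, ContinuousOn ζ (Icc 0 1) ∧
      (∀ τ ∈ Ioc (0 : ℝ) 1, ζ τ ∈ Qo σ υ) ∧ ∀ τ ∈ Icc (0 : ℝ) 1, ∀ w : V,
        w.2 = σ false w.1 + τ * s * (σ true w.1 - σ false w.1) →
        w.1 = υ false w.2 + τ * t * (υ true w.2 - υ false w.2) → w = ζ τ := by
  let S : ℝ → ℝ → ℝ := fun τ a => σ false a + τ * s * (σ true a - σ false a)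
  let U : ℝ → ℝ → ℝ := fun τ a => υ false a + τ * t * (υ true a - υ false a)
  have comb : ∀ {θ x y L : ℝ}, 0 ≤ θ → θ ≤ 1 → |x| ≤ L → |y| ≤ L → |x + θ * (y - x)| ≤ L := by
    intro θ x y L h0 h1 hx hy
    rw [abs_le] at *
    constructor <;> nlinarith
  have hm : ∀ {τ r : ℝ}, τ ∈ Icc (0 : ℝ) 1 → r ∈ Ioo (0 : ℝ) 1 → 0 ≤ τ * r ∧ τ * r < 1 :=
    fun hτ hr => ⟨mul_nonneg hτ.1 hr.1.le, by nlinarith [hτ.1, hτ.2, hr.1, hr.2]⟩
  have lS : ∀ τ ∈ Icc (0 : ℝ) 1, ∀ a a', |S τ a - S τ a'| ≤ 1 * |a - a'| := fun τ hτ a a' => by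
    have := comb (hm hτ hs).1 (hm hτ hs).2.le (h.lipσ false a a') (h.lipσ true a a')
    convert this using 2
    simp only [S]; ring
  have lU : ∀ τ ∈ Icc (0 : ℝ) 1, ∀ a a', |U τ a - U τ a'| ≤ μ * |a - a'| := fun τ hτ a a' => by
    have := comb (hm hτ ht).1 (hm hτ ht).2.le (h.lipυ false a a') (h.lipυ true a a')
    convert this using 2
    simp only [U]; ring
  have bS : ∀ τ ∈ Icc (0 : ℝ) 1, ∀ a, |S τ a| ≤ 1 := fun τ hτ a =>
    comb (hm hτ hs).1 (hm hτ hs).2.le (h.bσ _ _).le (h.bσ _ _).le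
  have bU : ∀ τ ∈ Icc (0 : ℝ) 1, ∀ a, |U τ a| ≤ 1 := fun τ hτ a =>
    comb (hm hτ ht).1 (hm hτ ht).2.le (h.bυ _ _).le (h.bυ _ _).le
  have hex : ∀ τ, ∃ w : V, τ ∈ Icc (0 : ℝ) 1 → w.2 = S τ w.1 ∧ w.1 = U τ w.2 := fun τ => by
    by_cases hτ : τ ∈ Icc (0 : ℝ) 1
    · obtain ⟨w, hw⟩ := exists_inter (continuous_of_lip (lS τ hτ)) (continuous_of_lip (lU τ hτ))
        (bU τ hτ)
      exact ⟨w, fun _ => hw⟩
    · exact ⟨0, fun h => absurd h hτ⟩
  choose ζ hζ using hex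
  have diff : ∀ {r x y τ τ' : ℝ}, r ∈ Ioo (0 : ℝ) 1 → |x| < 1 → |y| < 1 →
      |x + τ * r * (y - x) - (x + τ' * r * (y - x))| ≤ 2 * |τ - τ'| := by
    intro r x y τ τ' hr hx hy
    rw [show x + τ * r * (y - x) - (x + τ' * r * (y - x)) = (τ - τ') * (r * (y - x)) by ring,
      abs_mul, mul_comm]
    refine mul_le_mul_of_nonneg_right ?_ (abs_nonneg _)
    rw [abs_lt] at hx hy
    rw [abs_le]
    constructor <;> nlinarith [hr.1, hr.2]
  refine ⟨ζ, ?_, fun τ hτ => ?_, fun τ hτ w h1 h2 => ?_⟩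
  · refine (LipschitzOnWith.of_dist_le' (K := 6 / (1 - μ)) fun τ hτ τ' hτ' => ?_).continuousOn
    have := close_of_graphs hμ0 hμ (lS τ' hτ') (lU τ' hτ') (hζ τ' hτ').1 (hζ τ' hτ').2
      (w := ζ τ) (δ := 2 * |τ - τ'|)
      (by rw [(hζ τ hτ).1]; exact diff hs (h.bσ _ _) (h.bσ _ _))
      (by rw [(hζ τ hτ).2]; exact diff ht (h.bυ _ _) (h.bυ _ _))
    rw [dist_eq_norm, Real.dist_eq]
    refine this.trans (le_of_eq ?_)
    ring
  · have hτ' : τ ∈ Icc (0 : ℝ) 1 := Ioc_subset_Icc_self hτ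
    obtain ⟨k1, k2⟩ := hζ τ hτ'
    have a1 : |(ζ τ).1| ≤ 1 := by rw [k2]; exact bU τ hτ' _
    have a2 : |(ζ τ).2| ≤ 1 := by rw [k1]; exact bS τ hτ' _
    have key : ∀ {θ x y : ℝ}, 0 < θ → θ < 1 → x ≠ y →
        (x + θ * (y - x) - x) * (x + θ * (y - x) - y) < 0 := by
      intro θ x y h0 h1 hxy
      have : 0 < (y - x) ^ 2 := by
        have : y - x ≠ 0 := sub_ne_zero.2 hxy.symm
        positivity
      have h2 : 0 < θ * (1 - θ) := mul_pos h0 (by linarith)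
      nlinarith [mul_pos h2 this]
    constructor
    · have := key (mul_pos hτ.1 hs.1) (hm hτ' hs).2 (h.neσ _ a1)
      rwa [show σ false (ζ τ).1 + τ * s * (σ true (ζ τ).1 - σ false (ζ τ).1) = (ζ τ).2
        from k1.symm] at this
    · have := key (mul_pos hτ.1 ht.1) (hm hτ' ht).2 (h.neυ _ a2)
      rwa [show υ false (ζ τ).2 + τ * t * (υ true (ζ τ).2 - υ false (ζ τ).2) = (ζ τ).1
        from k2.symm] at this
  · have := close_of_graphs hμ0 hμ (lS τ hτ) (lU τ hτ) (hζ τ hτ).1 (hζ τ hτ).2 (w := w) (δ := 0)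
      (by rw [show S τ w.1 = w.2 from h1.symm]; simp) (by rw [show U τ w.2 = w.1 from h2.symm]; simp)
    rw [mul_zero, zero_div, norm_le_zero_iff, sub_eq_zero] at this
    exact this

theorem Gr.nonempty (h : Gr μ σ υ) (hμ0 : 0 ≤ μ) (hμ : μ < 1) : (Qo σ υ).Nonempty := by
  obtain ⟨ζ, -, h2, -⟩ := h.path hμ0 hμ (s := 1 / 2) (t := 1 / 2) (by norm_num) (by norm_num)
  exact ⟨_, h2 1 (by norm_num)⟩

theorem exists_param {x y v : ℝ} (h : (v - x) * (v - y) < 0) :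
    ∃ s ∈ Ioo (0 : ℝ) 1, v = x + 1 * s * (y - x) := by
  have hxy : y - x ≠ 0 := by
    intro h0
    have : y = x := by linarith
    rw [this] at h
    nlinarith [sq_nonneg (v - x)]
  refine ⟨(v - x) / (y - x), ?_, by field_simp; ring⟩
  rcases lt_or_gt_of_ne hxy with h1 | h1
  · exact ⟨div_pos_of_neg_of_neg (by nlinarith) h1, (div_lt_one_of_neg h1).2 (by nlinarith)⟩
  · exact ⟨div_pos (by nlinarith) h1, (div_lt_one h1).2 (by nlinarith)⟩

theorem Gr.isPreconnected (h : Gr μ σ υ) (hμ0 : 0 ≤ μ) (hμ : μ < 1) {p : V}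
    (p2 : p.2 = σ false p.1) (p1 : p.1 = υ false p.2) : IsPreconnected (insert p (Qo σ υ)) := by
  refine isPreconnected_of_forall p fun w hw => ?_
  rcases hw with rfl | hw
  · exact ⟨{w}, by simp, rfl, rfl, isPreconnected_singleton⟩
  · obtain ⟨s, hs, e1⟩ := exists_param hw.1
    obtain ⟨t, ht, e2⟩ := exists_param hw.2
    obtain ⟨ζ, h1, h2, h3⟩ := h.path hμ0 hμ hs ht
    have z0 : p = ζ 0 := h3 0 (by simp) p (by simpa using p2) (by simpa using p1)
    have z1 : w = ζ 1 := h3 1 (by simp) w e1 e2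
    refine ⟨ζ '' Icc 0 1, ?_, ⟨0, by simp, z0.symm⟩, ⟨1, by simp, z1.symm⟩,
      isPreconnected_Icc.image _ h1⟩
    rintro _ ⟨τ, hτ, rfl⟩
    rcases hτ.1.eq_or_lt with h0 | h0
    · rw [← h0, ← z0]; exact mem_insert _ _
    · exact mem_insert_of_mem _ (h2 τ ⟨h0, hτ.2⟩)

end Plane

variable {X : Type*} [MetricSpace X] {f g : X → X} {μ : ℝ} {e : OpenPartialHomeomorph X V}
  {m : ℕ} {w : ℕ → Set X}

/-- Points that follow the chain up to index `k`. -/
def Hs (f : X → X) (m : ℕ) (w : ℕ → Set X) (k : ℕ) : Set X := {y | ∀ i ≤ k, f^[i * m] y ∈ w i}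

/-- Points that follow the whole chain. -/
def Ws (f : X → X) (m : ℕ) (w : ℕ → Set X) : Set X := {y | ∀ i, f^[i * m] y ∈ w i}

/-- Points whose past follows the chain up to index `k`. -/
def Hu (g : X → X) (m : ℕ) (w : ℕ → Set X) (k : ℕ) : Set X :=
  {y | ∀ i ≤ k, g^[(i + 1) * m] y ∈ w i}

/-- Points whose past follows the whole chain. -/
def Wu (g : X → X) (m : ℕ) (w : ℕ → Set X) : Set X := {y | ∀ i, g^[(i + 1) * m] y ∈ w i}

theorem Hs_branch (hf : Continuous f) (hμ0 : 0 ≤ μ) (hμ : μ < 1)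
    (hw : ∀ i, Branch f μ e e m (w i)) (k : ℕ) : Branch f μ e e ((k + 1) * m) (Hs f m w k) := by
  induction k with
  | zero =>
    have : Hs f m w 0 = w 0 := by ext y; simp [Hs]
    rw [this, zero_add, one_mul]; exact hw 0
  | succ k ih =>
    have : Hs f m w (k + 1) = Hs f m w k ∩ f^[(k + 1) * m] ⁻¹' w (k + 1) := by
      ext y
      simp only [Hs, mem_ofPred_eq, mem_inter_iff, mem_preimage]
      refine ⟨fun h => ⟨fun i hi => h i (by omega), h _ le_rfl⟩, fun h i hi => ?_⟩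
      rcases Nat.le_succ_iff.1 hi with h1 | rfl
      · exact h.1 i h1
      · exact h.2
    rw [this, Nat.succ_mul (k + 1)]
    exact ih.comp hf hμ0 hμ (hw _)

theorem iter_sub (fg : ∀ x, f (g x) = x) {a b : ℕ} (h : a ≤ b) (y : X) :
    f^[a] (g^[b] y) = g^[b - a] y := by
  obtain ⟨c, rfl⟩ := Nat.exists_eq_add_of_le h
  rw [Function.iterate_add_apply, Function.LeftInverse.iterate fg a, Nat.add_sub_cancel_left]

theorem mem_Hu_iff (fg : ∀ x, f (g x) = x) {k : ℕ} {y : X} :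
    y ∈ Hu g m w k ↔ g^[(k + 1) * m] y ∈ Hs f m (fun i => w (k - i)) k := by
  have e : ∀ i ≤ k, f^[i * m] (g^[(k + 1) * m] y) = g^[(k - i + 1) * m] y := fun i hi => by
    rw [iter_sub fg (Nat.mul_le_mul_right m (by omega)), ← Nat.sub_mul]
    congr 2; omega
  constructor
  · intro h i hi
    rw [e i hi]; exact h _ (Nat.sub_le _ _)
  · intro h i hi
    have := h (k - i) (Nat.sub_le _ _)
    rw [e _ (Nat.sub_le _ _)] at this
    simpa only [Nat.sub_sub_self hi] using this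

theorem pow_mul_le (hμ0 : 0 ≤ μ) (hμ : μ < 1) (hm : 0 < m) (k : ℕ) : μ ^ (k * m) ≤ μ ^ k :=
  pow_le_pow_of_le_one hμ0 hμ.le (Nat.le_mul_of_pos_right k hm)

theorem le_zero_of_le_pow (hμ0 : 0 ≤ μ) (hμ : μ < 1) {x : ℝ} (h : ∀ k : ℕ, x ≤ 2 * μ ^ (k + 1)) :
    x ≤ 0 := by
  have h1 := ((tendsto_pow_atTop_nhds_zero_of_lt_one hμ0 hμ).comp
    (tendsto_add_atTop_nat 1)).const_mul 2
  rw [mul_zero] at h1
  exact ge_of_tendsto' h1 h

theorem Hs_vert (hf : Continuous f) (hμ0 : 0 ≤ μ) (hμ : μ < 1) (hw : ∀ i, Branch f μ e e m (w i))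
    {k : ℕ} {y z : X} (hy : y ∈ Hs f m w k) (hz : z ∈ Hs f m w k)
    (hc : |(e y).1 - (e z).1| ≤ |(e y).2 - (e z).2|) : |(e y).2 - (e z).2| ≤ 2 * μ ^ (k + 1) := by
  have hb := Hs_branch hf hμ0 hμ hw k
  have k1 := (hb.vert y hy z hz hc).2
  have k2 := Sq.sub_snd (hb.img y hy).1.2 (hb.img z hz).1.2
  have k3 := pow_mul_le hμ0 hμ (hw 0).pos (k + 1)
  have := mul_le_mul k3 k2 (abs_nonneg _) (pow_nonneg hμ0 _)
  linarith

theorem Hu_Bx (fg : ∀ x, f (g x) = x) (hw : ∀ i, Branch f μ e e m (w i)) {k : ℕ} {y : X}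
    (hy : y ∈ Hu g m w k) : y ∈ Bx e ∧ |(e y).1| < 1 := by
  have := (hw 0).img _ (hy 0 (Nat.zero_le k))
  rwa [zero_add, one_mul, Function.LeftInverse.iterate fg m] at this

theorem Hu_horiz (hf : Continuous f) (fg : ∀ x, f (g x) = x) (hμ0 : 0 ≤ μ) (hμ : μ < 1)
    (hw : ∀ i, Branch f μ e e m (w i)) {k : ℕ} {y z : X} (hy : y ∈ Hu g m w k)
    (hz : z ∈ Hu g m w k) (hc : |(e y).2 - (e z).2| ≤ |(e y).1 - (e z).1|) :
    |(e y).1 - (e z).1| ≤ 2 * μ ^ (k + 1) := by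
  have hb := Hs_branch hf hμ0 hμ (w := fun i => w (k - i)) (fun i => hw _) k
  rw [mem_Hu_iff fg] at hy hz
  have k1 := hb.horiz _ hy _ hz
  rw [Function.LeftInverse.iterate fg, Function.LeftInverse.iterate fg] at k1
  have k2 := Sq.sub_fst (hb.src _ hy).1.2 (hb.src _ hz).1.2
  have k3 := pow_mul_le hμ0 hμ (hw 0).pos (k + 1)
  have := mul_le_mul k3 k2 (abs_nonneg _) (pow_nonneg hμ0 _)
  linarith [k1 hc]

theorem Ws_cone (hf : Continuous f) (hμ0 : 0 ≤ μ) (hμ : μ < 1) (hw : ∀ i, Branch f μ e e m (w i))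
    {y z : X} (hy : y ∈ Ws f m w) (hz : z ∈ Ws f m w) :
    |(e y).2 - (e z).2| ≤ |(e y).1 - (e z).1| := by
  refine (le_total _ _).elim id fun hc => ?_
  exact (le_zero_of_le_pow hμ0 hμ fun k =>
    Hs_vert hf hμ0 hμ hw (fun i _ => hy i) (fun i _ => hz i) hc).trans (abs_nonneg _)

theorem Wu_cone0 (hf : Continuous f) (fg : ∀ x, f (g x) = x) (hμ0 : 0 ≤ μ) (hμ : μ < 1)
    (hw : ∀ i, Branch f μ e e m (w i)) {y z : X} (hy : y ∈ Wu g m w) (hz : z ∈ Wu g m w) :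
    |(e y).1 - (e z).1| ≤ |(e y).2 - (e z).2| := by
  refine (le_total _ _).elim id fun hc => ?_
  exact (le_zero_of_le_pow hμ0 hμ fun k =>
    Hu_horiz hf fg hμ0 hμ hw (fun i _ => hy i) (fun i _ => hz i) hc).trans (abs_nonneg _)

theorem Wu_shift {y : X} (hy : y ∈ Wu g m w) (k : ℕ) :
    g^[k * m] y ∈ Wu g m (fun i => w (i + k)) := fun i => by
  rw [← Function.iterate_add_apply, ← Nat.add_mul, Nat.add_right_comm]
  exact hy _

theorem Ws_shift {y : X} (hy : y ∈ Ws f m w) (k : ℕ) :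
    f^[k * m] y ∈ Ws f m (fun i => w (i + k)) := fun i => by
  rw [← Function.iterate_add_apply, ← Nat.add_mul]
  exact hy _

theorem Wu_cone (hf : Continuous f) (fg : ∀ x, f (g x) = x) (hμ0 : 0 ≤ μ) (hμ : μ < 1)
    (hw : ∀ i, Branch f μ e e m (w i)) {y z : X} (hy : y ∈ Wu g m w) (hz : z ∈ Wu g m w) :
    |(e y).1 - (e z).1| ≤ μ * |(e y).2 - (e z).2| := by
  have k1 := Wu_cone0 hf fg hμ0 hμ (w := fun i => w (i + 1)) (fun i => hw _) (Wu_shift hy 1)
    (Wu_shift hz 1)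
  have hy0 := hy 0
  have hz0 := hz 0
  rw [one_mul] at k1
  rw [zero_add, one_mul] at hy0 hz0
  have := ((hw 0).vert _ hy0 _ hz0 k1).1
  rwa [Function.LeftInverse.iterate fg, Function.LeftInverse.iterate fg] at this

theorem abs_projIcc (a a' : ℝ) :
    |(projIcc (-1 : ℝ) 1 (by norm_num) a : ℝ) - projIcc (-1 : ℝ) 1 (by norm_num) a'| ≤ |a - a'| :=
  abs_projIcc_sub_projIcc _

theorem exists_stable (hf : Continuous f) (hμ0 : 0 ≤ μ) (hμ : μ < 1)
    (hw : ∀ i, Branch f μ e e m (w i)) : ∃ σ : ℝ → ℝ, (∀ a a', |σ a - σ a'| ≤ 1 * |a - a'|) ∧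
      (∀ a, |σ a| < 1) ∧ (∀ a, |a| ≤ 1 → e.symm (a, σ a) ∈ Ws f m w) ∧
      ∀ k, ∀ y ∈ Hs f m w k, |(e y).2 - σ (e y).1| ≤ 2 * μ ^ (k + 1) := by
  have hb := Hs_branch hf hμ0 hμ hw
  have hex : ∀ a : Icc (-1 : ℝ) 1, ∃ y ∈ Ws f m w, (e y).1 = a := fun a => by
    have hcl : ∀ k, IsClosed (Hs f m w k ∩ (fun y => (e y).1) ⁻¹' {(a : ℝ)}) := fun k =>
      (continuousOn_Bx.mono fun y hy => ((hb k).src y hy).1).fst.preimage_isClosed_of_isClosed
        (hb k).closed isClosed_singleton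
    obtain ⟨y, hy⟩ := IsCompact.nonempty_iInter_of_sequence_nonempty_isCompact_isClosed
      (fun k => Hs f m w k ∩ (fun y => (e y).1) ⁻¹' {(a : ℝ)})
      (fun k y hy => ⟨fun i hi => hy.1 i (by omega), hy.2⟩)
      (fun k => by
        obtain ⟨y, h1, h2, -⟩ := (hb k).exists_point hf (abs_le.2 a.2) (v := 0) (by simp)
        exact ⟨y, h1, h2⟩)
      ((hb 0).isCompact.of_isClosed_subset (hcl 0) inter_subset_left) hcl
    rw [mem_iInter] at hy
    exact ⟨y, fun i => (hy i).1 i le_rfl, (hy 0).2⟩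
  choose y hy1 hy2 using hex
  have hsrc : ∀ a, y a ∈ Bx e ∧ |(e (y a)).2| < 1 := fun a => (hw 0).src _ (by simpa using hy1 a 0)
  have hp : ∀ a : ℝ, |a| ≤ 1 → (e (y (projIcc (-1) 1 (by norm_num) a))).1 = a := fun a ha => by
    rw [hy2, projIcc_of_mem _ (abs_le.1 ha)]
  refine ⟨fun a => (e (y (projIcc (-1) 1 (by norm_num) a))).2, fun a a' => ?_,
    fun a => (hsrc _).2, fun a ha => ?_, fun k z hz => ?_⟩
  · refine (Ws_cone hf hμ0 hμ hw (hy1 _) (hy1 _)).trans ?_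
    rw [hy2, hy2, one_mul]
    exact abs_projIcc a a'
  · rw [show ((a, (e (y (projIcc (-1) 1 (by norm_num) a))).2) : V) =
      e (y (projIcc (-1) 1 (by norm_num) a)) from Prod.ext (hp a ha).symm rfl,
      e.left_inv (hsrc _).1.1]
    exact hy1 _
  · refine Hs_vert hf hμ0 hμ hw hz (fun i _ => hy1 _ i) ?_
    rw [hp _ ((hb k).src z hz).1.2.1, sub_self, abs_zero]
    exact abs_nonneg _

theorem exists_unstable (hf : Continuous f) (hg : Continuous g) (gf : ∀ x, g (f x) = x)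
    (fg : ∀ x, f (g x) = x) (hμ0 : 0 ≤ μ) (hμ : μ < 1) (hw : ∀ i, Branch f μ e e m (w i)) :
    ∃ υ : ℝ → ℝ, (∀ a a', |υ a - υ a'| ≤ μ * |a - a'|) ∧
      (∀ a, |υ a| < 1) ∧ (∀ a, |a| ≤ 1 → e.symm (υ a, a) ∈ Wu g m w) ∧
      ∀ k, ∀ y ∈ Hu g m w k, |(e y).1 - υ (e y).2| ≤ 2 * μ ^ (k + 1) := by
  have hcl0 : ∀ k, IsClosed (Hu g m w k) := fun k => by
    have : Hu g m w k = ⋂ i, ⋂ (_ : i ≤ k), g^[(i + 1) * m] ⁻¹' w i := by ext y; simp [Hu]
    rw [this]
    exact isClosed_iInter fun i => isClosed_iInter fun _ => (hw i).closed.preimage (hg.iterate _)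
  have hex : ∀ a : Icc (-1 : ℝ) 1, ∃ y ∈ Wu g m w, (e y).2 = a := fun a => by
    have hcl : ∀ k, IsClosed (Hu g m w k ∩ (fun y => (e y).2) ⁻¹' {(a : ℝ)}) := fun k =>
      (continuousOn_Bx.mono fun y hy => (Hu_Bx fg hw hy).1).snd.preimage_isClosed_of_isClosed
        (hcl0 k) isClosed_singleton
    obtain ⟨y, hy⟩ := IsCompact.nonempty_iInter_of_sequence_nonempty_isCompact_isClosed
      (fun k => Hu g m w k ∩ (fun y => (e y).2) ⁻¹' {(a : ℝ)})
      (fun k y hy => ⟨fun i hi => hy.1 i (by omega), hy.2⟩)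
      (fun k => by
        obtain ⟨y, h1, -, h2⟩ := (Hs_branch hf hμ0 hμ (w := fun i => w (k - i)) (fun i => hw _)
          k).exists_point hf (u := 0) (by simp) (abs_le.2 a.2)
        refine ⟨_, ?_, h2⟩
        rw [mem_Hu_iff fg, Function.LeftInverse.iterate gf]
        exact h1)
      ((isCompact_Bx (hw 0).tgt).of_isClosed_subset (hcl 0) fun y hy => (Hu_Bx fg hw hy.1).1) hcl
    rw [mem_iInter] at hy
    exact ⟨y, fun i => (hy i).1 i le_rfl, (hy 0).2⟩
  choose y hy1 hy2 using hex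
  have hsrc : ∀ a, y a ∈ Bx e ∧ |(e (y a)).1| < 1 := fun a =>
    Hu_Bx fg hw (k := 0) fun i _ => hy1 a i
  have hp : ∀ a : ℝ, |a| ≤ 1 → (e (y (projIcc (-1) 1 (by norm_num) a))).2 = a := fun a ha => by
    rw [hy2, projIcc_of_mem _ (abs_le.1 ha)]
  refine ⟨fun a => (e (y (projIcc (-1) 1 (by norm_num) a))).1, fun a a' => ?_,
    fun a => (hsrc _).2, fun a ha => ?_, fun k z hz => ?_⟩
  · refine (Wu_cone hf fg hμ0 hμ hw (hy1 _) (hy1 _)).trans ?_
    rw [hy2, hy2]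
    exact mul_le_mul_of_nonneg_left (abs_projIcc a a') hμ0
  · rw [show (((e (y (projIcc (-1) 1 (by norm_num) a))).1, a) : V) =
      e (y (projIcc (-1) 1 (by norm_num) a)) from Prod.ext rfl (hp a ha).symm,
      e.left_inv (hsrc _).1.1]
    exact hy1 _
  · refine Hu_horiz hf fg hμ0 hμ hw hz (fun i _ => hy1 _ i) ?_
    rw [hp _ (Hu_Bx fg hw hz).1.2.2, sub_self, abs_zero]
    exact abs_nonneg _

end Pool.Agent.MP_369096_an

end

-- part MP_369096_an.Link
section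

/-!
Transitivity links any two boxes that carry two disjoint branches each.
-/

set_option autoImplicit false
set_option linter.unusedSectionVars false
set_option linter.unusedVariables false

open Filter Set Topology Real Metric

namespace Pool.Agent.MP_369096_an

variable {X : Type*} [MetricSpace X] [CompactSpace X] {f g : X → X} {μ : ℝ}

/-- The forward orbit of a point. -/
def Orb (f : X → X) (p : X) : Set X := range fun j : ℕ => f^[j] p

theorem orb_finite {p : X} {m : ℕ} (hm : 0 < m) (hp : f^[m] p = p) : (Orb f p).Finite := by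
  refine ((finite_lt_nat m).image fun j => f^[j] p).subset ?_
  rintro _ ⟨j, rfl⟩
  refine ⟨j % m, Nat.mod_lt _ hm, ?_⟩
  exact Function.IsPeriodicPt.iterate_mod_apply hp j

theorem back_mem_orb (gf : ∀ x, g (f x) = x) {p : X} {m : ℕ} (hm : 0 < m) (hp : f^[m] p = p)
    (n : ℕ) : g^[n] p ∈ Orb f p := by
  have h1 : f^[n * m] p = p := by
    rw [Nat.mul_comm]; exact Function.IsPeriodicPt.mul_const hp n
  obtain ⟨c, hc⟩ := Nat.exists_eq_add_of_le (Nat.le_mul_of_pos_right n hm)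
  refine ⟨c, ?_⟩
  conv_rhs => rw [← h1, hc, Function.iterate_add_apply, Function.LeftInverse.iterate gf]

theorem mem_orb_of_inter {p q : X} {m : ℕ} (hm : 0 < m) (hq : f^[m] q = q)
    (h : (Orb f p ∩ Orb f q).Nonempty) : q ∈ Orb f p := by
  obtain ⟨_, ⟨i, rfl⟩, j, hj⟩ := h
  have h1 : f^[j * m] q = q := by
    rw [Nat.mul_comm]; exact Function.IsPeriodicPt.mul_const hq j
  obtain ⟨c, hc⟩ := Nat.exists_eq_add_of_le' (Nat.le_mul_of_pos_right j hm)
  refine ⟨c + i, ?_⟩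
  dsimp only at hj ⊢
  rw [Function.iterate_add_apply, ← hj, ← Function.iterate_add_apply, ← hc, h1]

theorem exists_unif (hf : Continuous f) (m : ℕ) {η : ℝ} (hη : 0 < η) :
    ∃ δ > 0, ∀ j < m, ∀ x y, dist x y < δ → dist (f^[j] x) (f^[j] y) < η := by
  have h1 : ∀ j : Fin m, ∀ᶠ δ in 𝓝[>] (0 : ℝ), ∀ x y, dist x y < δ →
      dist (f^[j] x) (f^[j] y) < η := fun j => by
    obtain ⟨δ, hδ, h⟩ := Metric.uniformContinuous_iff.1
      (CompactSpace.uniformContinuous_of_continuous (hf.iterate j)) η hη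
    filter_upwards [Ioo_mem_nhdsGT hδ] with r hr x y hxy
    exact h (hxy.trans hr.2)
  obtain ⟨δ, h2, h3⟩ := ((eventually_all.2 h1).and self_mem_nhdsWithin).exists
  exact ⟨δ, h3, fun j hj => h2 ⟨j, hj⟩⟩

theorem exists_unif_box {e : OpenPartialHomeomorph X V} (h : Sq ⊆ e.target) {η : ℝ} (hη : 0 < η) :
    ∃ δ > 0, ∀ y ∈ Bx e, ∀ z ∈ Bx e, ‖e y - e z‖ < δ → dist y z < η := by
  obtain ⟨δ, hδ, h1⟩ := Metric.uniformContinuousOn_iff.1
    (isCompact_Sq.uniformContinuousOn_of_continuous (e.continuousOn_symm.mono h)) η hη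
  refine ⟨δ, hδ, fun y hy z hz hyz => ?_⟩
  have := h1 _ hy.2 _ hz.2 (by rwa [dist_eq_norm])
  rwa [e.left_inv hy.1, e.left_inv hz.1] at this

theorem eventually_pow_lt (hμ0 : 0 ≤ μ) (hμ : μ < 1) {δ : ℝ} (hδ : 0 < δ) :
    ∀ᶠ k : ℕ in atTop, 2 * μ ^ k < δ := by
  have h1 := (tendsto_pow_atTop_nhds_zero_of_lt_one hμ0 hμ).const_mul 2
  rw [mul_zero] at h1
  exact h1.eventually_lt_const hδ

/-- A quadrilateral at a periodic point, bounded by stable and unstable graphs of chains. -/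
structure Quad (f g : X → X) (μ : ℝ) (e : OpenPartialHomeomorph X V) (m : ℕ) (p : X)
    (σ υ : Bool → ℝ → ℝ) (w : Bool → ℕ → Set X) : Prop where
  gr : Gr μ σ υ
  br : ∀ b i, Branch f μ e e m (w b i)
  memσ : ∀ b a, |a| ≤ 1 → e.symm (a, σ b a) ∈ Ws f m (w b)
  memυ : ∀ b a, |a| ≤ 1 → e.symm (υ b a, a) ∈ Wu g m (w b)
  stripσ : ∀ b k, ∀ y ∈ Hs f m (w b) k, |(e y).2 - σ b (e y).1| ≤ 2 * μ ^ (k + 1)
  stripυ : ∀ b k, ∀ y ∈ Hu g m (w b) k, |(e y).1 - υ b (e y).2| ≤ 2 * μ ^ (k + 1)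
  pB : p ∈ Bx e
  pσ : (e p).2 = σ false (e p).1
  pυ : (e p).1 = υ false (e p).2
  fix : f^[m] p = p
  convs : ∀ η > 0, ∀ᶠ n in atTop, ∀ b, ∀ y ∈ Ws f m (w b), ∃ z ∈ Orb f p, dist (f^[n] y) z < η
  convu : ∀ η > 0, ∀ᶠ n in atTop, ∀ b, ∀ y ∈ Wu g m (w b), ∃ z ∈ Orb f p, dist (g^[n] y) z < η

theorem exists_quad (hf : Continuous f) (hg : Continuous g) (gf : ∀ x, g (f x) = x)
    (fg : ∀ x, f (g x) = x) (hμ0 : 0 ≤ μ) (hμ : μ < 1) {e : OpenPartialHomeomorph X V} {m : ℕ}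
    {a a' : Set X} (ha : Branch f μ e e m a) (ha' : Branch f μ e e m a') (hd : Disjoint a a') :
    ∃ p ∈ a, f^[m] p = p ∧ ∀ N ∈ 𝓝 p, ∃ σ υ w, Quad f g μ e m p σ υ w ∧
      ∀ q ∈ Qc σ υ, e.symm q ∈ N := by
  classical
  have hm := ha.pos
  obtain ⟨σ0, s1, s2, s3, s4⟩ := exists_stable hf hμ0 hμ (w := fun _ => a) fun _ => ha
  obtain ⟨υ0, u1, u2, u3, u4⟩ := exists_unstable hf hg gf fg hμ0 hμ (w := fun _ => a) fun _ => ha
  obtain ⟨q, q2, q1⟩ := exists_inter (continuous_of_lip s1) (continuous_of_lip u1)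
    fun v => (u2 v).le
  have hq : q ∈ Sq := ⟨q1 ▸ (u2 _).le, q2 ▸ (s2 _).le⟩
  have hpB : e.symm q ∈ Bx e := symm_mem_Bx ha.tgt hq
  have hep : e (e.symm q) = q := e.right_inv (ha.tgt hq)
  have hps : e.symm q ∈ Ws f m fun _ => a := by
    have := s3 _ hq.1
    rwa [← q2] at this
  have hpu : e.symm q ∈ Wu g m fun _ => a := by
    have := u3 _ hq.2
    rwa [← q1] at this
  set p := e.symm q with hp
  have hpa : p ∈ a := by simpa using hps 0
  have hfix : f^[m] p = p := by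
    have k1 : f^[m] p ∈ Ws f m fun _ => a := by simpa using Ws_shift hps 1
    have k2 : f^[m] p ∈ Wu g m fun _ => a := fun i => by
      rw [Nat.succ_mul, Function.iterate_add_apply, Function.LeftInverse.iterate gf]
      cases i with
      | zero => simpa using hpa
      | succ i => exact hpu i
    have k3 := Ws_cone hf hμ0 hμ (fun _ => ha) k1 hps
    have k4 := Wu_cone hf fg hμ0 hμ (fun _ => ha) k2 hpu
    have a1 := abs_nonneg ((e (f^[m] p)).1 - (e p).1)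
    have a2 := abs_nonneg ((e (f^[m] p)).2 - (e p).2)
    have k5 : |(e (f^[m] p)).1 - (e p).1| = 0 := by nlinarith
    have k6 : |(e (f^[m] p)).2 - (e p).2| = 0 := by linarith
    rw [abs_eq_zero, sub_eq_zero] at k5 k6
    exact Bx_ext (ha.img p hpa).1 hpB (Prod.ext k5 k6)
  have hfixn : ∀ j, f^[j * m] p = p := fun j => by
    rw [Nat.mul_comm]; exact Function.IsPeriodicPt.mul_const hfix j
  have hgfixn : ∀ j, g^[j * m] p = p := fun j => by
    conv_lhs => rw [← hfixn j, Function.LeftInverse.iterate gf]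
  have cs0 : ∀ η > 0, ∀ᶠ n in atTop, ∀ y ∈ Ws f m fun _ => a,
      ∃ z ∈ Orb f p, dist (f^[n] y) z < η := by
    intro η hη
    obtain ⟨δ1, hδ1, h1⟩ := exists_unif hf m hη
    obtain ⟨δ2, hδ2, h2⟩ := exists_unif_box ha.tgt hδ1
    obtain ⟨k, hk⟩ := eventually_atTop.1 (eventually_pow_lt hμ0 hμ hδ2)
    filter_upwards [eventually_ge_atTop ((k + 1) * m)] with n hn y hy
    obtain ⟨j, hj⟩ : ∃ j, n / m = j + 1 ∧ k ≤ j := by
      have : k + 1 ≤ n / m := (Nat.le_div_iff_mul_le hm).2 hn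
      exact ⟨n / m - 1, by omega, by omega⟩
    refine ⟨_, ⟨n % m, rfl⟩, ?_⟩
    conv_lhs => enter [1]; rw [← Nat.mod_add_div' n m, Function.iterate_add_apply, hj.1]
    have hb := Hs_branch hf hμ0 hμ (w := fun _ => a) (fun _ => ha) j
    have k1 : f^[(j + 1) * m] y ∈ Ws f m fun _ => a := Ws_shift hy _
    have k2 := Ws_cone hf hμ0 hμ (fun _ => ha) k1 hps
    have k3 := hb.horiz y (fun i _ => hy i) p (fun i _ => hps i) (by rwa [hfixn])
    rw [hfixn] at k3
    have k4 := Sq.sub_fst (hb.src y fun i _ => hy i).1.2 hpB.2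
    have k5 := mul_le_mul (pow_mul_le hμ0 hμ hm (j + 1)) k4 (abs_nonneg _) (pow_nonneg hμ0 _)
    refine h1 _ (Nat.mod_lt _ hm) _ _ (h2 _ (hb.img y fun i _ => hy i).1 _ hpB ?_)
    change max |(e (f^[(j + 1) * m] y)).1 - (e p).1| |(e (f^[(j + 1) * m] y)).2 - (e p).2| < _
    rw [max_eq_left k2]
    have := hk (j + 1) (by omega)
    linarith
  have cu0 : ∀ η > 0, ∀ᶠ n in atTop, ∀ y ∈ Wu g m fun _ => a,
      ∃ z ∈ Orb f p, dist (g^[n] y) z < η := by
    intro η hη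
    obtain ⟨δ1, hδ1, h1⟩ := exists_unif hg m hη
    obtain ⟨δ2, hδ2, h2⟩ := exists_unif_box ha.tgt hδ1
    obtain ⟨k, hk⟩ := eventually_atTop.1 (eventually_pow_lt hμ0 hμ hδ2)
    filter_upwards [eventually_ge_atTop ((k + 1) * m)] with n hn y hy
    obtain ⟨j, hj⟩ : ∃ j, n / m = j + 1 ∧ k ≤ j := by
      have : k + 1 ≤ n / m := (Nat.le_div_iff_mul_le hm).2 hn
      exact ⟨n / m - 1, by omega, by omega⟩
    refine ⟨_, back_mem_orb gf hm hfix (n % m), ?_⟩
    conv_lhs => enter [1]; rw [← Nat.mod_add_div' n m, Function.iterate_add_apply, hj.1]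
    have k1 : g^[(j + 1) * m] y ∈ Wu g m fun _ => a := Wu_shift hy _
    have k2 := Wu_cone0 hf fg hμ0 hμ (fun _ => ha) k1 hpu
    have k0 : g^[(j + 1) * m] y ∈ Hs f m (fun _ => a) j :=
      (mem_Hu_iff (w := fun _ => a) fg).1 fun i _ => hy i
    have k3 := Hs_vert hf hμ0 hμ (fun _ => ha) k0 (fun i _ => hps i) k2
    refine h1 _ (Nat.mod_lt _ hm) _ _
      (h2 _ (Hu_Bx fg (fun _ => ha) (k := 0) fun i _ => k1 i).1 _ hpB ?_)
    change max |(e (g^[(j + 1) * m] y)).1 - (e p).1| |(e (g^[(j + 1) * m] y)).2 - (e p).2| < _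
    rw [max_eq_right k2]
    have := hk (j + 1) (by omega)
    linarith
  refine ⟨p, hpa, hfix, fun N hN => ?_⟩
  obtain ⟨r, hr, hrN⟩ := Metric.mem_nhds_iff.1 ((e.continuousAt_symm (ha.tgt hq)) hN)
  obtain ⟨k, hk⟩ := eventually_atTop.1
    (eventually_pow_lt hμ0 hμ (δ := r * (1 - μ) / 3) (by have : 0 < 1 - μ := by linarith
                                                         positivity))
  let w1 : ℕ → Set X := fun i => if i = k + 1 then a' else a
  have hw1 : ∀ i, Branch f μ e e m (w1 i) := fun i => by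
    simp only [w1]; split_ifs; exacts [ha', ha]
  have hw1a : ∀ i ≤ k, w1 i = a := fun i hi => if_neg (by omega)
  have hw1b : (fun i => w1 (i + (k + 2))) = fun _ => a := funext fun i => if_neg (by omega)
  obtain ⟨σ1, t1, t2, t3, t4⟩ := exists_stable hf hμ0 hμ hw1
  obtain ⟨υ1, v1, v2, v3, v4⟩ := exists_unstable hf hg gf fg hμ0 hμ hw1
  refine ⟨fun b => cond b σ1 σ0, fun b => cond b υ1 υ0, fun b => cond b w1 fun _ => a,
    ⟨⟨?_, ?_, ?_, ?_, fun x hx hxx => ?_, fun x hx hxx => ?_⟩, ?_, ?_, ?_, ?_, ?_, hpB,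
      by rw [hep]; exact q2, by rw [hep]; exact q1, hfix, fun η hη => ?_, fun η hη => ?_⟩,
    fun z hz => hrN ?_⟩
  · rintro (_ | _); exacts [s1, t1]
  · rintro (_ | _); exacts [u1, v1]
  · rintro (_ | _); exacts [s2, t2]
  · rintro (_ | _); exacts [u2, v2]
  · have k1 := s3 x hx (k + 1)
    have k2 := t3 x hx (k + 1)
    simp only [cond_false, cond_true] at hxx
    rw [← hxx] at k2
    simp only [w1, if_true] at k2
    exact Set.disjoint_left.1 hd k1 k2
  · have k1 := u3 x hx (k + 1)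
    have k2 := v3 x hx (k + 1)
    simp only [cond_false, cond_true] at hxx
    rw [← hxx] at k2
    simp only [w1, if_true] at k2
    exact Set.disjoint_left.1 hd k1 k2
  · rintro (_ | _); exacts [fun _ => ha, hw1]
  · rintro (_ | _); exacts [s3, t3]
  · rintro (_ | _); exacts [u3, v3]
  · rintro (_ | _); exacts [s4, t4]
  · rintro (_ | _); exacts [u4, v4]
  · obtain ⟨n0, hn0⟩ := eventually_atTop.1 (cs0 η hη)
    filter_upwards [eventually_ge_atTop (n0 + (k + 2) * m)] with n hn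
    rintro (_ | _) y hy
    · exact hn0 n (by omega) y hy
    · have := Ws_shift (w := w1) hy (k + 2)
      rw [hw1b] at this
      have := hn0 (n - (k + 2) * m) (by omega) _ this
      rwa [← Function.iterate_add_apply, Nat.sub_add_cancel (by omega)] at this
  · obtain ⟨n0, hn0⟩ := eventually_atTop.1 (cu0 η hη)
    filter_upwards [eventually_ge_atTop (n0 + (k + 2) * m)] with n hn
    rintro (_ | _) y hy
    · exact hn0 n (by omega) y hy
    · have := Wu_shift (w := w1) hy (k + 2)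
      rw [hw1b] at this
      have := hn0 (n - (k + 2) * m) (by omega) _ this
      rwa [← Function.iterate_add_apply, Nat.sub_add_cancel (by omega)] at this
  · have z1 := abs_lt_of_between (u2 _) (v2 _) hz.2
    have z2 := abs_lt_of_between (s2 _) (t2 _) hz.1
    have k1 := s4 k _ (fun i hi => hw1a i hi ▸ t3 _ z1.le i)
    have k2 := u4 k _ (fun i hi => hw1a i hi ▸ v3 _ z2.le i)
    rw [e.right_inv (ha.tgt (show ((z.1, σ1 z.1) : V) ∈ Sq from ⟨z1.le, (t2 _).le⟩))] at k1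
    rw [e.right_inv (ha.tgt (show ((υ1 z.2, z.2) : V) ∈ Sq from ⟨(v2 _).le, z2.le⟩))] at k2
    have k3 := close_of_graphs hμ0 hμ s1 u1 q2 q1 ((abs_sub_le_of_between hz.1).trans k1)
      ((abs_sub_le_of_between hz.2).trans k2)
    rw [mem_ball, dist_eq_norm]
    refine k3.trans_lt ?_
    rw [div_lt_iff₀ (by linarith)]
    have := hk (k + 1) (by omega)
    linarith

theorem exists_between_interval {φ : ℝ → ℝ} {s t a b : ℝ} (hst : s ≤ t)
    (hc : ContinuousOn φ (Icc s t)) (hab : a < b) (h1 : φ s ≤ a) (h2 : b ≤ φ t) :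
    ∃ s' t', s ≤ s' ∧ s' ≤ t' ∧ t' ≤ t ∧ φ s' = a ∧ φ t' = b ∧ ∀ τ ∈ Icc s' t', φ τ ∈ Icc a b := by
  have k1 : IsCompact (Icc s t ∩ φ ⁻¹' Iic a) :=
    isCompact_Icc.of_isClosed_subset
      (hc.preimage_isClosed_of_isClosed isClosed_Icc isClosed_Iic) inter_subset_left
  obtain ⟨s', hs', hs1⟩ := k1.exists_isGreatest ⟨s, left_mem_Icc.2 hst, h1⟩
  have k2 : IsCompact (Icc s' t ∩ φ ⁻¹' Ici b) :=
    isCompact_Icc.of_isClosed_subset
      ((hc.mono (Icc_subset_Icc_left hs'.1.1)).preimage_isClosed_of_isClosed isClosed_Icc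
        isClosed_Ici) inter_subset_left
  obtain ⟨t', ht', ht1⟩ := k2.exists_isLeast ⟨t, right_mem_Icc.2 hs'.1.2, h2⟩
  have e1 : φ s' ≤ a := hs'.2
  have e2 : b ≤ φ t' := ht'.2
  have hlt : s' < t' := lt_of_le_of_ne ht'.1.1 (by rintro rfl; linarith)
  have hsub : Icc s' t' ⊆ Icc s t := Icc_subset_Icc hs'.1.1 ht'.1.2
  have hcl : IsClosed (Icc s' t' ∩ φ ⁻¹' Icc a b) :=
    (hc.mono hsub).preimage_isClosed_of_isClosed isClosed_Icc isClosed_Icc
  have : closure (Ioo s' t') ⊆ Icc s' t' ∩ φ ⁻¹' Icc a b := hcl.closure_subset_iff.2 fun τ hτ => by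
    have hm := hsub (Ioo_subset_Icc_self hτ)
    refine ⟨Ioo_subset_Icc_self hτ, not_lt.1 fun h => ?_, not_lt.1 fun h => ?_⟩
    · exact absurd (hs1 ⟨hm, h.le⟩) (not_le.2 hτ.1)
    · exact absurd (ht1 ⟨⟨hτ.1.le, hm.2⟩, h.le⟩) (not_le.2 hτ.2)
  rw [closure_Ioo hlt.ne] at this
  exact ⟨s', t', hs'.1.1, hlt.le, ht'.1.2, le_antisymm e1 (this (left_mem_Icc.2 hlt.le)).2.1,
    le_antisymm (this (right_mem_Icc.2 hlt.le)).2.2 e2, fun τ hτ => (this hτ).2⟩

theorem Cross.exists_sub {e : OpenPartialHomeomorph X V} {γ : ℝ → X} {s t α β : ℝ}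
    (h : Cross e γ s t) (hα : |α| ≤ 1) (hβ : |β| ≤ 1) (hαβ : α ≠ β) :
    ∃ s' t', s ≤ s' ∧ s' ≤ t' ∧ t' ≤ t ∧ (∀ τ ∈ Icc s' t', (e (γ τ)).2 ∈ uIcc α β) ∧
      (((e (γ s')).2 = α ∧ (e (γ t')).2 = β) ∨ ((e (γ s')).2 = β ∧ (e (γ t')).2 = α)) := by
  wlog hlt : α < β generalizing α β
  · obtain ⟨s', t', a1, a2, a3, a4, a5⟩ := this hβ hα hαβ.symm
      (lt_of_le_of_ne (not_lt.1 hlt) hαβ.symm)
    exact ⟨s', t', a1, a2, a3, by rwa [uIcc_comm], a5.symm⟩
  obtain ⟨h1, h2, h3, h4, h5⟩ := h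
  have hc : ContinuousOn (fun τ => (e (γ τ)).2) (Icc s t) := (continuousOn_Bx.comp h2 h3).snd
  rw [abs_le] at hα hβ
  rw [uIcc_of_le hlt.le]
  rcases (abs_eq zero_le_one).1 h4 with h6 | h6
  · obtain ⟨s', t', a1, a2, a3, a4, a5, a6⟩ := exists_between_interval
      (φ := fun τ => -(e (γ τ)).2) h1 hc.neg (neg_lt_neg hlt) (by linarith) (by linarith)
    exact ⟨s', t', a1, a2, a3, fun τ hτ => ⟨by linarith [(a6 τ hτ).2], by linarith [(a6 τ hτ).1]⟩,
      Or.inr ⟨neg_injective a4, neg_injective a5⟩⟩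
  · obtain ⟨s', t', a1, a2, a3, a4, a5, a6⟩ := exists_between_interval h1 hc hlt
      (by linarith) (by linarith)
    exact ⟨s', t', a1, a2, a3, a6, Or.inl ⟨a4, a5⟩⟩

section Link

variable {e e1 e2 : OpenPartialHomeomorph X V} {m m1 m2 : ℕ} {p p1 p2 : X}
  {σ υ σ1 υ1 σ2 υ2 : Bool → ℝ → ℝ} {w w1 w2 : Bool → ℕ → Set X}

theorem Quad.tgt (h : Quad f g μ e m p σ υ w) : Sq ⊆ e.target := (h.br false 0).tgt

theorem Quad.isOpen (h : Quad f g μ e m p σ υ w) : IsOpen (e.source ∩ e ⁻¹' Qo σ υ) :=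
  e.isOpen_inter_preimage h.gr.isOpen

theorem Quad.isCompact (h : Quad f g μ e m p σ υ w) : IsCompact (e.source ∩ e ⁻¹' Qc σ υ) := by
  have : e.source ∩ e ⁻¹' Qc σ υ = Bx e ∩ e ⁻¹' Qc σ υ := by
    ext y
    exact ⟨fun hy => ⟨⟨hy.1, h.gr.subset_Sq hy.2⟩, hy.2⟩, fun hy => ⟨hy.1.1, hy.2⟩⟩
  rw [this]
  exact (isCompact_Bx h.tgt).of_isClosed_subset
    (continuousOn_Bx.preimage_isClosed_of_isClosed (isCompact_Bx h.tgt).isClosed h.gr.isClosed)
    inter_subset_left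

theorem Quad.ws (h : Quad f g μ e m p σ υ w) {y : X} (hy : y ∈ Bx e) {b : Bool}
    (hb : (e y).2 = σ b (e y).1) : y ∈ Ws f m (w b) := by
  have := h.memσ b _ hy.2.1
  rwa [← hb, Prod.mk.eta, e.left_inv hy.1] at this

theorem Quad.wu (h : Quad f g μ e m p σ υ w) {y : X} (hy : y ∈ Bx e) {b : Bool}
    (hb : (e y).1 = υ b (e y).2) : y ∈ Wu g m (w b) := by
  have := h.memυ b _ hy.2.2
  rwa [← hb, Prod.mk.eta, e.left_inv hy.1] at this

theorem exists_dist_pos {K L : Set X} (hK : IsCompact K) (hL : IsClosed L) (hd : Disjoint K L) :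
    ∃ η > 0, ∀ x ∈ K, ∀ y ∈ L, η ≤ dist x y := by
  obtain ⟨δ, hδ, hdis⟩ := hd.exists_thickenings hK hL
  refine ⟨δ, hδ, fun x hx y hy => not_lt.1 fun h => ?_⟩
  refine (Set.disjoint_left.1 hdis) (a := y) ?_ (Metric.self_subset_thickening hδ _ hy)
  exact Metric.mem_thickening_iff.2 ⟨x, hx, by rwa [dist_comm]⟩

/-- A curve entering the quadrilateral away from its vertical sides crosses a horizontal side. -/
theorem Quad.enter (h : Quad f g μ e m p σ υ w) {γ : ℝ → X} (hγ : ContinuousOn γ (Icc 0 1))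
    (h0 : γ 0 ∉ e.source ∩ e ⁻¹' Qc σ υ) (h1 : γ 1 ∈ e.source ∩ e ⁻¹' Qo σ υ)
    (hu : ∀ r ∈ Icc (0 : ℝ) 1, ∀ b, γ r ∉ Wu g m (w b)) :
    ∃ r ∈ Icc (0 : ℝ) 1, ∃ b, γ r ∉ e.source ∩ e ⁻¹' Qc σ υ ∧
      (∀ t ∈ Icc r 1, γ t ∈ e.source ∧ |(e (γ t)).1| < 1 ∧ |(e (γ t)).2| < 1) ∧
      ((e (γ r)).2 - σ b (e (γ r)).1) * ((e (γ 1)).2 - σ b (e (γ 1)).1) < 0 := by
  set K := e.source ∩ e ⁻¹' Qc σ υ with hK
  let T := Icc (0 : ℝ) 1 ∩ γ ⁻¹' Kᶜ
  have hTne : T.Nonempty := ⟨0, by simp, h0⟩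
  have hTb : BddAbove T := ⟨1, fun r hr => hr.1.2⟩
  set r0 := sSup T with hr0
  have hr0m : r0 ∈ Icc (0 : ℝ) 1 :=
    ⟨le_csSup hTb ⟨by simp, h0⟩, csSup_le hTne fun r hr => hr.1.2⟩
  have hgt : ∀ t ∈ Icc (0 : ℝ) 1, r0 < t → γ t ∈ K := fun t ht hlt => by
    by_contra hcon
    exact absurd (le_csSup hTb ⟨ht, hcon⟩) (not_le.2 hlt)
  have hcl : r0 ∈ closure T := csSup_mem_closure hTne hTb
  have hcw : ContinuousWithinAt γ (Icc 0 1) r0 := hγ r0 hr0m
  have hK0 : γ r0 ∈ K := by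
    rcases hr0m.2.eq_or_lt with h2 | h2
    · rw [h2]; exact ⟨h1.1, Qo_subset h1.2⟩
    · have h3 : r0 ∈ closure (Ioc r0 1) := by rw [closure_Ioc h2.ne]; exact left_mem_Icc.2 h2.le
      have hs : Ioc r0 1 ⊆ Icc 0 1 := fun t ht => ⟨hr0m.1.trans ht.1.le, ht.2⟩
      have := (hcw.mono hs).mem_closure_image h3
      refine h.isCompact.isClosed.closure_subset_iff.2 ?_ this
      rintro _ ⟨t, ht, rfl⟩
      exact hgt t (hs ht) ht.1
  have near : ∀ W ∈ 𝓝 (γ r0), ∃ r ∈ T, ∀ t ∈ Icc r r0, γ t ∈ W := by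
    intro W hW
    obtain ⟨ε, hε, hsub⟩ := Metric.mem_nhdsWithin_iff.1 (hcw hW)
    obtain ⟨r, hr, hd⟩ := Metric.mem_closure_iff.1 hcl ε hε
    refine ⟨r, hr, fun t ht => hsub ⟨?_, hr.1.1.trans ht.1, ht.2.trans hr0m.2⟩⟩
    rw [Real.dist_eq, abs_lt] at hd
    rw [mem_ball, Real.dist_eq, abs_lt]
    constructor <;> linarith [ht.1, ht.2]
  have hnU : γ r0 ∉ e.source ∩ e ⁻¹' Qo σ υ := fun hU => by
    obtain ⟨r, hr, h2⟩ := near _ (h.isOpen.mem_nhds hU)
    have := h2 r (left_mem_Icc.2 (le_csSup hTb hr))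
    exact hr.2 ⟨this.1, Qo_subset this.2⟩
  have hB0 : γ r0 ∈ Bx e := ⟨hK0.1, h.gr.subset_Sq hK0.2⟩
  set q := e (γ r0) with hq
  have hqυ : (q.1 - υ false q.2) * (q.1 - υ true q.2) < 0 :=
    lt_of_le_of_ne hK0.2.2 fun h2 => by
      rcases mul_eq_zero.1 h2 with h3 | h3
      · exact hu r0 hr0m false (h.wu hB0 (sub_eq_zero.1 h3))
      · exact hu r0 hr0m true (h.wu hB0 (sub_eq_zero.1 h3))
  have hqσ : (q.2 - σ false q.1) * (q.2 - σ true q.1) = 0 :=
    le_antisymm hK0.2.1 (not_lt.1 fun h2 => hnU ⟨hK0.1, h2, hqυ⟩)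
  obtain ⟨b, b', hb, hsym, hsign⟩ : ∃ b b', q.2 = σ b q.1 ∧
      (∀ u v, (v - σ false u) * (v - σ true u) = (v - σ b u) * (v - σ b' u)) ∧
      ∀ a a', |a| ≤ 1 → |a'| ≤ 1 → 0 < (σ b a - σ b' a) * (σ b a' - σ b' a') := by
    rcases mul_eq_zero.1 hqσ with h3 | h3
    · refine ⟨false, true, sub_eq_zero.1 h3, fun _ _ => rfl, fun a a' ha ha' => ?_⟩
      have := h.gr.sign ha ha'
      linarith
    · exact ⟨true, false, sub_eq_zero.1 h3, fun _ _ => mul_comm _ _,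
        fun a a' ha ha' => h.gr.sign ha ha'⟩
  have hq1 := h.gr.lt hK0.2
  have cσ := h.gr.cσ
  have cυ := h.gr.cυ
  let W0 : Set V := {z | |z.1| < 1 ∧ |z.2| < 1 ∧ (z.1 - υ false z.2) * (z.1 - υ true z.2) < 0 ∧
    0 < (z.2 - σ b' z.1) * (σ b z.1 - σ b' z.1)}
  have hW0 : IsOpen W0 := by
    have c1 : Continuous fun z : V => (z.1 - υ false z.2) * (z.1 - υ true z.2) := by fun_prop
    have c2 : Continuous fun z : V => (z.2 - σ b' z.1) * (σ b z.1 - σ b' z.1) := by fun_prop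
    exact (isOpen_lt continuous_fst.abs continuous_const).inter
      ((isOpen_lt continuous_snd.abs continuous_const).inter
        ((isOpen_lt c1 continuous_const).inter (isOpen_lt continuous_const c2)))
  obtain ⟨r, hr, h2⟩ := near _ ((e.isOpen_inter_preimage hW0).mem_nhds ⟨hK0.1, hq1.1, hq1.2, hqυ, by
    change 0 < (q.2 - σ b' q.1) * _
    rw [hb]; exact hsign _ _ hq1.1.le hq1.1.le⟩)
  have hrr : r ≤ r0 := le_csSup hTb hr
  refine ⟨r, hr.1, b, hr.2, fun t ht => ?_, ?_⟩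
  · rcases le_or_gt t r0 with h3 | h3
    · have := h2 t ⟨ht.1, h3⟩
      exact ⟨this.1, this.2.1, this.2.2.1⟩
    · have := hgt t ⟨hr.1.1.trans ht.1, ht.2⟩ h3
      exact ⟨this.1, h.gr.lt this.2⟩
  · obtain ⟨k0, k1, k2, k3, k4⟩ := h2 r (left_mem_Icc.2 hrr)
    have k5 : 0 < ((e (γ r)).2 - σ b (e (γ r)).1) * ((e (γ r)).2 - σ b' (e (γ r)).1) := by
      rw [← hsym]
      exact not_le.1 fun h3 => hr.2 ⟨k0, h3, k3.le⟩
    have k6 := h1.2.1
    rw [hsym] at k6
    have k7 := hsign _ _ k1.le (h.gr.lt (Qo_subset h1.2)).1.le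
    set A := (e (γ r)).2 - σ b (e (γ r)).1
    set B := (e (γ r)).2 - σ b' (e (γ r)).1
    set D := σ b (e (γ r)).1 - σ b' (e (γ r)).1
    set A1 := (e (γ 1)).2 - σ b (e (γ 1)).1 with hA1
    set B1 := (e (γ 1)).2 - σ b' (e (γ 1)).1 with hB1
    set D1 := σ b (e (γ 1)).1 - σ b' (e (γ 1)).1 with hD1
    have k8 : A1 * D1 < 0 := by
      have : D1 = B1 - A1 := by rw [hA1, hB1, hD1]; ring
      rw [this]; nlinarith [sq_nonneg A1]
    have k9 : 0 < A * D := by
      by_contra hcon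
      push Not at hcon
      nlinarith [mul_pos k5 k4, mul_self_nonneg B]
    by_contra hcon
    push Not at hcon
    nlinarith [mul_pos k9 (neg_pos.2 k8), mul_nonneg hcon k7.le]

theorem Quad.out (hμ0 : 0 ≤ μ) (h : Quad f g μ e m p σ υ w) (b : Bool) (k : ℕ) {y : X}
    (hy : y ∈ Bx e) {c : ℝ} (hc : |c| = 1)
    (hgap : 2 * μ ^ (k + 1) < c * ((e y).2 - σ b (e y).1)) :
    Out e (Hs f m (w b) k) (e y) c := by
  intro v hv hH
  have hv1 : |v| ≤ 1 := by
    have := abs_le.1 hy.2.2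
    have := abs_le.1 hc.le
    rw [mem_uIcc] at hv
    rw [abs_le]
    rcases hv with hv | hv <;> constructor <;> linarith
  have k1 := h.stripσ b k _ hH
  rw [e.right_inv (h.tgt (show (((e y).1, v) : V) ∈ Sq from ⟨hy.2.1, hv1⟩)), abs_le] at k1
  have k2 := abs_le.1 hy.2.2
  rw [mem_uIcc] at hv
  dsimp only at k1
  rcases (abs_eq zero_le_one).1 hc with rfl | rfl <;> rcases hv with hv | hv <;> linarith

theorem link (hf : Continuous f) (hg : Continuous g) (gf : ∀ x, g (f x) = x)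
    (fg : ∀ x, f (g x) = x) (hμ0 : 0 ≤ μ) (hμ : μ < 1) (Q1 : Quad f g μ e1 m1 p1 σ1 υ1 w1)
    (Q2 : Quad f g μ e2 m2 p2 σ2 υ2 w2) (h12 : ∀ q ∈ Qc σ1 υ1, e1.symm q ∉ Orb f p2)
    (h21 : ∀ q ∈ Qc σ2 υ2, e2.symm q ∉ Orb f p1)
    (htr : ∀ U W : Set X, IsOpen U → IsOpen W → U.Nonempty → W.Nonempty →
      ∃ᶠ n in atTop, (U ∩ f^[n] ⁻¹' W).Nonempty) : ∃ L, Covers f e1 e2 L univ := by
  have hm1 := (Q1.br false 0).pos
  have hm2 := (Q2.br false 0).pos
  set K1 := e1.source ∩ e1 ⁻¹' Qc σ1 υ1 with hK1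
  set K2 := e2.source ∩ e2 ⁻¹' Qc σ2 υ2 with hK2
  set U1 := e1.source ∩ e1 ⁻¹' Qo σ1 υ1 with hU1
  set U2 := e2.source ∩ e2 ⁻¹' Qo σ2 υ2 with hU2
  have hUK1 : U1 ⊆ K1 := fun y hy => ⟨hy.1, Qo_subset hy.2⟩
  have hUK2 : U2 ⊆ K2 := fun y hy => ⟨hy.1, Qo_subset hy.2⟩
  have d12 : ∀ y ∈ K1, y ∉ Orb f p2 := fun y hy => by
    have := h12 _ hy.2
    rwa [e1.left_inv hy.1] at this
  have d21 : ∀ y ∈ K2, y ∉ Orb f p1 := fun y hy => by
    have := h21 _ hy.2
    rwa [e2.left_inv hy.1] at this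
  have hp2 : p2 ∈ K2 := ⟨Q2.pB.1, by rw [← Q2.pσ]; simp, by rw [← Q2.pυ]; simp⟩
  have O1 := orb_finite hm1 Q1.fix
  have O2 := orb_finite hm2 Q2.fix
  obtain ⟨η1, hη1, s1⟩ := exists_dist_pos Q2.isCompact O1.isClosed (Set.disjoint_left.2 d21)
  obtain ⟨η2, hη2, s2⟩ := exists_dist_pos O1.isCompact O2.isClosed (by
    by_contra hcon
    exact d21 p2 hp2 (mem_orb_of_inter hm2 Q2.fix (Set.not_disjoint_iff_nonempty_inter.1 hcon)))
  have ne1 : U1.Nonempty := by
    obtain ⟨q, hq⟩ := Q1.gr.nonempty hμ0 hμ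
    have hqt := Q1.tgt (Q1.gr.subset_Sq (Qo_subset hq))
    exact ⟨e1.symm q, e1.map_target hqt, by rw [mem_preimage, e1.right_inv hqt]; exact hq⟩
  have ne2 : U2.Nonempty := by
    obtain ⟨q, hq⟩ := Q2.gr.nonempty hμ0 hμ
    have hqt := Q2.tgt (Q2.gr.subset_Sq (Qo_subset hq))
    exact ⟨e2.symm q, e2.map_target hqt, by rw [mem_preimage, e2.right_inv hqt]; exact hq⟩
  obtain ⟨n, ⟨y0, hy0, hy0'⟩, hn⟩ :=
    ((htr U1 U2 Q1.isOpen Q2.isOpen ne1 ne2).and_eventually (Q1.convs η1 hη1)).exists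
  have hns : ∀ b, ∀ y ∈ Ws f m1 (w1 b), f^[n] y ∉ K2 := fun b y hy hK => by
    obtain ⟨z, hz, hd⟩ := hn b y hy
    exact absurd (s1 _ hK z hz) (not_le.2 hd)
  have hnu : ∀ b b', ∀ y ∈ Wu g m1 (w1 b), f^[n] y ∉ Wu g m2 (w2 b') := fun b b' y hy hy' => by
    obtain ⟨j, hj1, hj2⟩ := ((Q1.convu (η2 / 2) (by linarith)).and
      ((tendsto_add_atTop_nat n).eventually (Q2.convu (η2 / 2) (by linarith)))).exists
    obtain ⟨z1, hz1, a1⟩ := hj1 b y hy
    obtain ⟨z2, hz2, a2⟩ := hj2 b' _ hy'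
    rw [Function.iterate_add_apply, Function.LeftInverse.iterate gf] at a2
    have := s2 z1 hz1 z2 hz2
    have := dist_triangle_left z1 z2 (g^[j] y)
    linarith
  -- a point of the vertical boundary of the first quadrilateral is mapped into the second one
  obtain ⟨x, hxK, hxU, hx2⟩ : ∃ x ∈ K1, x ∉ U1 ∧ f^[n] x ∈ U2 := by
    have hsub : insert (e2 p2) (Qo σ2 υ2) ⊆ e2.target := fun q hq => by
      rcases hq with rfl | hq
      · exact e2.map_source Q2.pB.1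
      · exact Q2.tgt (Q2.gr.subset_Sq (Qo_subset hq))
    have hP := (Q2.gr.isPreconnected hμ0 hμ Q2.pσ Q2.pυ).image _ (e2.continuousOn_symm.mono hsub)
    by_contra hcon
    push Not at hcon
    have hp2' : g^[n] p2 ∉ K1 := fun hK => d12 _ hK (back_mem_orb gf hm2 Q2.fix n)
    obtain ⟨z, -, hz1, hz2⟩ := hP (g^[n] ⁻¹' U1) (g^[n] ⁻¹' K1ᶜ)
      (Q1.isOpen.preimage (hg.iterate n))
      (Q1.isCompact.isClosed.isOpen_compl.preimage (hg.iterate n))
      (by
        rintro _ ⟨q, hq, rfl⟩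
        by_cases hK : g^[n] (e2.symm q) ∈ K1
        · left
          by_contra hU
          refine hcon _ hK hU ?_
          rw [Function.LeftInverse.iterate fg]
          rcases hq with rfl | hq'
          · rw [e2.left_inv Q2.pB.1] at hK
            exact absurd hK hp2'
          · exact ⟨e2.map_target (hsub (Or.inr hq')), by
              rw [mem_preimage, e2.right_inv (hsub (Or.inr hq'))]; exact hq'⟩
        · exact Or.inr hK)
      ⟨f^[n] y0, ⟨e2 (f^[n] y0), Or.inr hy0'.2, e2.left_inv hy0'.1⟩, by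
        rw [mem_preimage, Function.LeftInverse.iterate gf]; exact hy0⟩
      ⟨p2, ⟨e2 p2, Or.inl rfl, e2.left_inv Q2.pB.1⟩, hp2'⟩
    exact hz2 (hUK1 hz1)
  have hxB : x ∈ Bx e1 := ⟨hxK.1, Q1.gr.subset_Sq hxK.2⟩
  obtain ⟨b, hb⟩ : ∃ b, (e1 x).1 = υ1 b (e1 x).2 := by
    have k1 : ((e1 x).2 - σ1 false (e1 x).1) * ((e1 x).2 - σ1 true (e1 x).1) < 0 :=
      lt_of_le_of_ne hxK.2.1 fun h2 => by
        rcases mul_eq_zero.1 h2 with h3 | h3
        · exact hns false x (Q1.ws hxB (sub_eq_zero.1 h3)) (hUK2 hx2)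
        · exact hns true x (Q1.ws hxB (sub_eq_zero.1 h3)) (hUK2 hx2)
    have k2 : ((e1 x).1 - υ1 false (e1 x).2) * ((e1 x).1 - υ1 true (e1 x).2) = 0 :=
      le_antisymm hxK.2.2 (not_lt.1 fun h2 => hxU ⟨hxK.1, k1, h2⟩)
    rcases mul_eq_zero.1 k2 with h3 | h3
    · exact ⟨false, sub_eq_zero.1 h3⟩
    · exact ⟨true, sub_eq_zero.1 h3⟩
  obtain ⟨c, c2, c1⟩ := exists_inter (Q1.gr.cσ false) (Q1.gr.cυ b) fun v => (Q1.gr.bυ b v).le
  have hc : c ∈ Sq := ⟨c1 ▸ (Q1.gr.bυ _ _).le, c2 ▸ (Q1.gr.bσ _ _).le⟩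
  let τ : ℝ → ℝ := fun r => c.2 + r * ((e1 x).2 - c.2)
  have hτ : ∀ r ∈ Icc (0 : ℝ) 1, |τ r| ≤ 1 := fun r hr => by
    have := abs_le.1 hc.2
    have := abs_le.1 hxB.2.2
    rw [abs_le]
    simp only [τ]
    constructor <;> nlinarith [hr.1, hr.2]
  have hτ0 : τ 0 = c.2 := by simp [τ]
  have hτ1 : τ 1 = (e1 x).2 := by simp [τ]
  let Λ : ℝ × ℝ → X := fun z => f^[n] (e1.symm (υ1 b z.2 + z.1, z.2))
  have cυ := Q1.gr.cυ b
  have hΛ : ∀ t, |t| ≤ 1 → ContinuousAt Λ (0, t) := fun t ht => by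
    have c0 : Continuous fun z : ℝ × ℝ => ((υ1 b z.2 + z.1, z.2) : V) := by fun_prop
    refine (hf.iterate n).continuousAt.comp (ContinuousAt.comp ?_ c0.continuousAt)
    exact e1.continuousAt_symm (Q1.tgt ⟨by simpa using (Q1.gr.bυ b t).le, ht⟩)
  have hΛ0 : ∀ t, Λ (0, t) = f^[n] (e1.symm (υ1 b t, t)) := fun t => by simp [Λ]
  obtain ⟨r, hr, b', k0, k1, k2⟩ := Q2.enter (γ := fun r => Λ (0, τ r))
    (fun r hr => ((hΛ _ (hτ r hr)).comp (f := fun r => ((0 : ℝ), τ r))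
      (by simp only [τ]; fun_prop)).continuousWithinAt)
    (by
      rw [hΛ0, hτ0, ← c1]
      refine hns false _ (Q1.ws (symm_mem_Bx Q1.tgt hc) ?_)
      rw [e1.right_inv (Q1.tgt hc)]; exact c2)
    (by rw [hΛ0, hτ1, ← hb, Prod.mk.eta, e1.left_inv hxB.1]; exact hx2)
    (fun r hr b' => by rw [hΛ0]; exact hnu b b' _ (Q1.memυ b _ (hτ r hr)))
  let gap : X → ℝ := fun y => (e2 y).2 - σ2 b' (e2 y).1
  obtain ⟨c0, hc0, g1, g2⟩ : ∃ c0 : ℝ, |c0| = 1 ∧ 0 < c0 * gap (Λ (0, τ r)) ∧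
      0 < -c0 * gap (Λ (0, τ 1)) := by
    rcases mul_neg_iff.1 k2 with h3 | h3
    · exact ⟨1, by simp, by simpa [gap] using h3.1, by simpa [gap] using h3.2⟩
    · exact ⟨-1, by simp, by simpa [gap] using h3.1, by simpa [gap] using h3.2⟩
  obtain ⟨k, hk⟩ := eventually_atTop.1 (eventually_pow_lt hμ0 hμ (lt_min g1 g2))
  have hk1 := (hk (k + 1) (by omega)).trans_le (min_le_left _ _)
  have hk2 := (hk (k + 1) (by omega)).trans_le (min_le_right _ _)
  have hαβ : τ r ≠ τ 1 := fun h3 => k0 (by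
    rw [h3, hΛ0, hτ1, ← hb, Prod.mk.eta, e1.left_inv hxB.1]; exact hUK2 hx2)
  have hsurj : ∀ t ∈ uIcc (τ r) (τ 1), ∃ r' ∈ Icc r 1, τ r' = t := fun t ht => by
    have := intermediate_value_uIcc (f := τ) (a := r) (b := 1) (by simp only [τ]; fun_prop) ht
    rwa [uIcc_of_le hr.2] at this
  have hgapc : ∀ r' ∈ Icc r 1, ContinuousAt (fun θ => gap (Λ (θ, τ r'))) 0 := fun r' hr' => by
    have cσ := Q2.gr.cσ b'
    have c3 : Continuous fun z : V => z.2 - σ2 b' z.1 := by fun_prop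
    have c4 : ContinuousAt (fun θ : ℝ => Λ (θ, τ r')) 0 :=
      (hΛ _ (hτ r' ⟨hr.1.trans hr'.1, hr'.2⟩)).comp (f := fun θ : ℝ => (θ, τ r')) (by fun_prop)
    exact c3.continuousAt.comp ((e2.continuousAt (k1 r' hr').1).comp
      (f := fun θ : ℝ => Λ (θ, τ r')) c4)
  have ev1 : ∀ᶠ θ in 𝓝 (0 : ℝ), ∀ t ∈ uIcc (τ r) (τ 1), Λ (θ, t) ∈ Bx e2 :=
    isCompact_uIcc.eventually_forall_of_forall_eventually fun t ht => by
      obtain ⟨r', hr', rfl⟩ := hsurj t ht
      exact hΛ _ (hτ r' ⟨hr.1.trans hr'.1, hr'.2⟩)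
        (Bx_mem_nhds (k1 r' hr').1 (k1 r' hr').2.1 (k1 r' hr').2.2)
  have ev2 : ∀ᶠ θ in 𝓝 (0 : ℝ), 2 * μ ^ (k + 1) < c0 * gap (Λ (θ, τ r)) :=
    ((hgapc r (left_mem_Icc.2 hr.2)).const_mul c0).eventually_const_lt hk1
  have ev3 : ∀ᶠ θ in 𝓝 (0 : ℝ), 2 * μ ^ (k + 1) < -c0 * gap (Λ (θ, τ 1)) :=
    ((hgapc 1 (right_mem_Icc.2 hr.2)).const_mul (-c0)).eventually_const_lt hk2
  obtain ⟨θ0, hθ0, hθ⟩ := Metric.eventually_nhds_iff.1 (ev1.and (ev2.and ev3))
  obtain ⟨j, hj⟩ := eventually_atTop.1 (eventually_pow_lt hμ0 hμ hθ0)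
  have hB1 := Hs_branch hf hμ0 hμ (w := fun i => w1 b (j - i)) (fun i => Q1.br b _) j
  have hB2 := Hs_branch hf hμ0 hμ (Q2.br b') k
  refine ⟨(j + 1) * m1 + n + (k + 1) * m2, fun γ s t hγ => ?_⟩
  obtain ⟨s1, t1, a1, a2, a3, a4⟩ := hB1.covers hf γ s t hγ
  obtain ⟨s2, t2, b1, b2, b3, b4, b5⟩ := a4.exists_sub (hτ r hr) (hτ 1 (by simp)) hαβ
  have hsub : Icc s2 t2 ⊆ Icc s1 t1 := Icc_subset_Icc b1 b3
  have hrep : ∀ ρ ∈ Icc s2 t2, ∃ θ, dist θ 0 < θ0 ∧ f^[n] (f^[(j + 1) * m1] (γ ρ)) =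
      Λ (θ, (e1 (f^[(j + 1) * m1] (γ ρ))).2) := fun ρ hρ => by
    have hH : f^[(j + 1) * m1] (γ ρ) ∈ Hu g m1 (w1 b) j := by
      rw [mem_Hu_iff fg, Function.LeftInverse.iterate gf]
      exact a3 ρ (hsub hρ)
    refine ⟨(e1 (f^[(j + 1) * m1] (γ ρ))).1 - υ1 b (e1 (f^[(j + 1) * m1] (γ ρ))).2, ?_, ?_⟩
    · rw [Real.dist_eq, sub_zero]
      exact (Q1.stripυ b j _ hH).trans_lt (hj (j + 1) (by omega))
    · simp only [Λ, add_sub_cancel, Prod.mk.eta]
      rw [e1.left_inv (a4.2.2.1 ρ (hsub hρ)).1]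
  have hin : ∀ ρ ∈ Icc s2 t2, f^[n] (f^[(j + 1) * m1] (γ ρ)) ∈ Bx e2 := fun ρ hρ => by
    obtain ⟨θ, h1, h2⟩ := hrep ρ hρ
    rw [h2]
    exact (hθ h1).1 _ (b4 ρ hρ)
  have o1 : ∀ ρ ∈ Icc s2 t2, (e1 (f^[(j + 1) * m1] (γ ρ))).2 = τ r →
      Out e2 (Hs f m2 (w2 b') k) (e2 (f^[n] (f^[(j + 1) * m1] (γ ρ)))) c0 := fun ρ hρ h3 => by
    obtain ⟨θ, h1, h2⟩ := hrep ρ hρ
    refine Q2.out hμ0 b' k (hin ρ hρ) hc0 ?_
    rw [h2, h3]
    exact (hθ h1).2.1
  have o2 : ∀ ρ ∈ Icc s2 t2, (e1 (f^[(j + 1) * m1] (γ ρ))).2 = τ 1 →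
      Out e2 (Hs f m2 (w2 b') k) (e2 (f^[n] (f^[(j + 1) * m1] (γ ρ)))) (-c0) := fun ρ hρ h3 => by
    obtain ⟨θ, h1, h2⟩ := hrep ρ hρ
    refine Q2.out hμ0 b' k (hin ρ hρ) (by rw [abs_neg, hc0]) ?_
    rw [h2, h3]
    exact (hθ h1).2.2
  have hcont : ContinuousOn (fun ρ => f^[n] (f^[(j + 1) * m1] (γ ρ))) (Icc s2 t2) :=
    (hf.iterate n).comp_continuousOn (a4.2.1.mono hsub)
  obtain ⟨s3, t3, d1, d2, -, d4⟩ : ∃ s' t', s2 ≤ s' ∧ t' ≤ t2 ∧
      (∀ ρ ∈ Icc s' t', f^[n] (f^[(j + 1) * m1] (γ ρ)) ∈ Hs f m2 (w2 b') k) ∧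
      Cross e2 (fun ρ => f^[(k + 1) * m2] (f^[n] (f^[(j + 1) * m1] (γ ρ)))) s' t' := by
    rcases b5 with ⟨h3, h4⟩ | ⟨h3, h4⟩
    · exact hB2.cross_of hf b2 hcont hin hc0 (o1 _ (left_mem_Icc.2 b2) h3)
        (o2 _ (right_mem_Icc.2 b2) h4)
    · exact hB2.cross_of hf b2 hcont hin (c := -c0) (by rw [abs_neg, hc0])
        (o2 _ (left_mem_Icc.2 b2) h3) (by rw [neg_neg]; exact o1 _ (right_mem_Icc.2 b2) h4)
  refine ⟨s3, t3, a1.trans (b1.trans d1), d2.trans (b3.trans a2), fun _ _ => trivial, ?_⟩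
  convert d4 using 2
  rw [← Function.iterate_add_apply, ← Function.iterate_add_apply]
  congr 1
  omega

end Link

/-- Two boxes with two disjoint branches each, whose periodic orbits differ, are linked. -/
theorem exists_link (hf : Continuous f) (hg : Continuous g) (gf : ∀ x, g (f x) = x)
    (fg : ∀ x, f (g x) = x) (hμ0 : 0 ≤ μ) (hμ : μ < 1) {e1 e2 : OpenPartialHomeomorph X V}
    {m1 m2 : ℕ} {a1 a1' a2 a2' : Set X} (h1 : Branch f μ e1 e1 m1 a1)
    (h1' : Branch f μ e1 e1 m1 a1') (d1 : Disjoint a1 a1') (h2 : Branch f μ e2 e2 m2 a2)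
    (h2' : Branch f μ e2 e2 m2 a2') (d2 : Disjoint a2 a2')
    (hne : ∀ p1 ∈ a1, ∀ p2 ∈ a2, f^[m1] p1 = p1 → f^[m2] p2 = p2 → p2 ∉ Orb f p1)
    (htr : ∀ U W : Set X, IsOpen U → IsOpen W → U.Nonempty → W.Nonempty →
      ∃ᶠ n in atTop, (U ∩ f^[n] ⁻¹' W).Nonempty) :
    ∃ L L', Covers f e1 e2 L univ ∧ Covers f e2 e1 L' univ := by
  obtain ⟨p1, hp1, f1, q1⟩ := exists_quad hf hg gf fg hμ0 hμ h1 h1' d1
  obtain ⟨p2, hp2, f2, q2⟩ := exists_quad hf hg gf fg hμ0 hμ h2 h2' d2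
  have n21 := hne p1 hp1 p2 hp2 f1 f2
  have n12 : p1 ∉ Orb f p2 := fun h => n21 (mem_orb_of_inter h2.pos f2 ⟨p1, ⟨0, rfl⟩, h⟩)
  obtain ⟨σ1, υ1, w1, Q1, k1⟩ := q1 _ ((orb_finite h2.pos f2).isClosed.isOpen_compl.mem_nhds n12)
  obtain ⟨σ2, υ2, w2, Q2, k2⟩ := q2 _ ((orb_finite h1.pos f1).isClosed.isOpen_compl.mem_nhds n21)
  obtain ⟨L, hL⟩ := link hf hg gf fg hμ0 hμ Q1 Q2 k1 k2 htr
  obtain ⟨L', hL'⟩ := link hf hg gf fg hμ0 hμ Q2 Q1 k2 k1 htr
  exact ⟨L, L', hL, hL'⟩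

end Pool.Agent.MP_369096_an

end

-- part MP_369096_an.Count
section

/-!
Sharp counting of branches for a measure of maximal entropy.
-/

set_option autoImplicit false
set_option linter.unusedSectionVars false
set_option linter.unusedVariables false

open MeasureTheory Filter Set Topology Real Metric

namespace Pool.Agent.MP_369096_an

section Ret

variable {Y : Type*} {F G : Y → Y} {P : Set Y}

open Classical in
/-- The first return time to `P` when it is at most `k`, and zero otherwise. -/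
noncomputable def ret (F : Y → Y) (P : Set Y) (k : ℕ) (x : Y) : ℕ :=
  if h : x ∈ P ∧ ∃ j, 0 < j ∧ j ≤ k ∧ F^[j] x ∈ P then Nat.find h.2 else 0

theorem ret_spec {k : ℕ} {x : Y} (h : ret F P k x ≠ 0) : x ∈ P ∧ ret F P k x ≤ k ∧
    F^[ret F P k x] x ∈ P ∧ ∀ i, 0 < i → i < ret F P k x → F^[i] x ∉ P := by
  classical
  unfold ret at h ⊢
  split_ifs at h ⊢ with h1
  · have h2 := Nat.find_spec h1.2
    exact ⟨h1.1, h2.2.1, h2.2.2, fun i hi hlt hP =>
      Nat.find_min h1.2 hlt ⟨hi, hlt.le.trans h2.2.1, hP⟩⟩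
  · exact absurd rfl h

theorem ret_le (k : ℕ) (x : Y) : ret F P k x ≤ k := by
  by_cases h : ret F P k x = 0
  · omega
  · exact (ret_spec h).2.1

theorem ret_pos {k d : ℕ} {x : Y} (hx : x ∈ P) (hd : 0 < d) (hdk : d ≤ k) (hP : F^[d] x ∈ P) :
    ret F P k x ≠ 0 ∧ ret F P k x ≤ d := by
  classical
  have h1 : x ∈ P ∧ ∃ j, 0 < j ∧ j ≤ k ∧ F^[j] x ∈ P := ⟨hx, d, hd, hdk, hP⟩
  unfold ret
  rw [dif_pos h1]
  exact ⟨(Nat.find_spec h1.2).1.ne', Nat.find_min' h1.2 ⟨hd, hdk, hP⟩⟩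

theorem ret_congr {k : ℕ} {x y : Y} (h : ∀ i < k + 1, (F^[i] x ∈ P) = (F^[i] y ∈ P)) :
    ret F P k x = ret F P k y := by
  have key : ∀ x y : Y, (∀ i < k + 1, (F^[i] x ∈ P) = (F^[i] y ∈ P)) → ret F P k x ≠ 0 →
      ret F P k y ≠ 0 ∧ ret F P k y ≤ ret F P k x := fun x y h h0 => by
    obtain ⟨a1, a2, a3, -⟩ := ret_spec h0
    exact ret_pos (h 0 (by omega) ▸ a1) (Nat.pos_of_ne_zero h0) a2
      (h _ (Nat.lt_succ_of_le a2) ▸ a3)
  have h' : ∀ i < k + 1, (F^[i] y ∈ P) = (F^[i] x ∈ P) := fun i hi => (h i hi).symm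
  by_cases hx : ret F P k x = 0
  · by_cases hy : ret F P k y = 0
    · rw [hx, hy]
    · exact absurd hx (key y x h' hy).1
  · have h1 := key x y h hx
    exact le_antisymm (key y x h' h1.1).2 h1.2

theorem mp_of_ref [MeasurableSpace Y] {A B : Type*} [Finite A] {ξ : Y → A} {η : Y → B} (h : MP ξ)
    (hr : ∀ x y, ξ x = ξ y → η x = η y) : MP η := fun b => by
  have : η ⁻¹' {b} = ξ ⁻¹' {a | ∃ x, ξ x = a ∧ η x = b} := by
    ext x
    exact ⟨fun hx => ⟨x, rfl, hx⟩, fun ⟨y, h1, h2⟩ => (hr x y h1.symm).trans h2⟩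
  rw [this]; exact h.preimage _

theorem mp_ret [MeasurableSpace Y] (hF : Measurable F) (hP : MeasurableSet P) (k : ℕ) :
    MP (ret F P k) :=
  mp_of_ref ((mp_prop hP).J hF (k + 1)) fun x y h => ret_congr (J_eq_iff.1 h)

theorem mp_rf [MeasurableSpace Y] {A : Type*} {ξ : Y → A} (h : MP ξ) :
    MP (Set.rangeFactorization ξ) := fun a => by
  convert h a.1 using 1
  ext x
  simp [Subtype.ext_iff]

theorem kac [MeasurableSpace Y] {ν : Measure Y} [IsFiniteMeasure ν] (hF : Measurable F)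
    (hG : MeasurePreserving G ν ν) (FG : ∀ x, F (G x) = x) (hP : MeasurableSet P) (k : ℕ) :
    ∫ x, (ret F P k x : ℝ) ∂ν ≤ ν.real univ := by
  classical
  have hm : ∀ i, MeasurableSet {x | i < ret F P k x} := fun i => by
    have : {x | i < ret F P k x} = ⋃ j, ⋃ (_ : i < j), ret F P k ⁻¹' {j} := by ext x; simp
    rw [this]
    exact MeasurableSet.iUnion fun j => MeasurableSet.iUnion fun _ => mp_ret hF hP k j
  let b : ℕ → Y → ℝ := fun i => {x | i < ret F P k x}.indicator 1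
  have hb : ∀ i, Measurable (b i) := fun i => measurable_const.indicator (hm i)
  have hbi : ∀ i, Integrable (b i) ν := fun i => (integrable_const 1).indicator (hm i)
  have e1 : ∀ x, (ret F P k x : ℝ) = ∑ i ∈ Finset.range k, b i x := fun x => by
    simp only [b, indicator_apply, mem_ofPred_eq, Pi.one_apply]
    rw [Finset.sum_boole]
    congr 1
    have : (Finset.range k).filter (fun i => i < ret F P k x) = Finset.range (ret F P k x) := by
      ext i
      have := ret_le (F := F) (P := P) k x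
      simp only [Finset.mem_filter, Finset.mem_range]
      omega
    rw [this, Finset.card_range]
  simp only [e1]
  rw [integral_finsetSum _ fun i _ => hbi i]
  have e2 : ∀ i, ∫ x, b i x ∂ν = ∫ x, b i (G^[i] x) ∂ν := fun i =>
    (integral_comp_mp (hG.iterate i) (hb i)).symm
  simp only [e2]
  rw [← integral_finsetSum (f := fun i x => b i (G^[i] x)) _
    fun i _ => (hG.iterate i).integrable_comp_of_integrable (hbi i)]
  have e3 : ν.real univ = ∫ _x, (1 : ℝ) ∂ν := by simp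
  rw [e3]
  refine integral_mono (integrable_finsetSum (f := fun i x => b i (G^[i] x)) _
    fun i _ => (hG.iterate i).integrable_comp_of_integrable (hbi i)) (integrable_const _)
    fun x => ?_
  simp only [b, indicator_apply, mem_ofPred_eq, Pi.one_apply]
  rw [Finset.sum_boole]
  have key : ∀ i j, i < j → i < ret F P k (G^[i] x) → j < ret F P k (G^[j] x) → False := by
    intro i j hij hi hj
    refine (ret_spec (by omega : ret F P k (G^[j] x) ≠ 0)).2.2.2 (j - i) (by omega) (by omega) ?_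
    obtain ⟨c, rfl⟩ := Nat.exists_eq_add_of_le' hij.le
    rw [Nat.add_sub_cancel, Function.iterate_add_apply, Function.LeftInverse.iterate FG]
    exact (ret_spec (by omega : ret F P k (G^[i] x) ≠ 0)).1
  have : ((Finset.range k).filter fun i => i < ret F P k (G^[i] x)).card ≤ 1 :=
    Finset.card_le_one.2 fun i hi j hj => by
      rw [Finset.mem_filter] at hi hj
      rcases lt_trichotomy i j with h | h | h
      · exact (key i j h hi.2 hj.2).elim
      · exact h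
      · exact (key j i h hj.2 hi.2).elim
  exact_mod_cast this

theorem measurableSet_freq [MeasurableSpace Y] (hF : Measurable F) (hP : MeasurableSet P) :
    MeasurableSet {x | ∃ᶠ j in atTop, F^[j] x ∈ P} := by
  have : {x | ∃ᶠ j in atTop, F^[j] x ∈ P} = ⋂ a, ⋃ b, ⋃ (_ : a ≤ b), F^[b] ⁻¹' P := by
    ext x; simp [frequently_atTop]
  rw [this]
  exact MeasurableSet.iInter fun a => MeasurableSet.iUnion fun b =>
    MeasurableSet.iUnion fun _ => hF.iterate b hP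

theorem preimage_freq :
    F ⁻¹' {x | ∃ᶠ j in atTop, F^[j] x ∈ P} = {x | ∃ᶠ j in atTop, F^[j] x ∈ P} := by
  ext x
  simp only [mem_preimage, mem_ofPred_eq]
  conv_rhs => rw [← map_add_atTop_eq_nat 1, frequently_map]
  rfl

end Ret

variable {X : Type*} [MetricSpace X] [CompactSpace X] [MeasurableSpace X] [BorelSpace X]
  {f g : X → X} {lam eps h : ℝ} {S P : Set X} {bx : X → OpenPartialHomeomorph X V}
  {e0 : OpenPartialHomeomorph X V}

theorem card_covers_le (hT : TopLE f h) {e : OpenPartialHomeomorph X V} (he : Sq ⊆ e.target)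
    {I : Type*} [Fintype I] (K : I → Set X) (hK : ∀ i, IsCompact (K i))
    (hd : ∀ i j, i ≠ j → Disjoint (K i) (K j)) {m : ℕ} (hm : 0 < m)
    (hc : ∀ i, Covers f e e m (K i)) : (Fintype.card I : ℝ) ≤ exp (h * m) :=
  card_le_exp hT K hK hd hm (covers_words he K hc)

theorem card_branches_le (hf : Continuous f) (hT : TopLE f h) {μ : ℝ}
    {e : OpenPartialHomeomorph X V} {m : ℕ} (t : Finset (Set X))
    (ht : ∀ H ∈ t, Branch f μ e e m H) : (t.card : ℝ) ≤ exp (h * m) := by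
  rcases t.eq_empty_or_nonempty with rfl | ⟨H, hH⟩
  · simp [(exp_pos _).le]
  have := card_covers_le hT (ht H hH).tgt (fun i : t => (i : Set X))
    (fun i => (ht _ i.2).isCompact)
    (fun i j hij => (ht _ i.2).eq_or_disjoint hf (ht _ j.2) fun h => hij (Subtype.ext h))
    (ht H hH).pos fun i => (ht _ i.2).covers hf
  simpa using this

/-- The points that follow the boxes along the orbit of `x` up to time `m`. -/
def Hx (f : X → X) (bx : X → OpenPartialHomeomorph X V) (x : X) (m : ℕ) : Set X :=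
  {y | ∀ i ≤ m, f^[i] y ∈ Bx (bx (f^[i] x))}

theorem Hx_add (x : X) (m m' : ℕ) :
    Hx f bx x (m + m') = Hx f bx x m ∩ f^[m] ⁻¹' Hx f bx (f^[m] x) m' := by
  ext y
  simp only [Hx, mem_ofPred_eq, mem_inter_iff, mem_preimage, ← Function.iterate_add_apply]
  refine ⟨fun h => ⟨fun i hi => h i (by omega), fun i hi => h _ (by omega)⟩, fun h i hi => ?_⟩
  rcases le_total i m with h1 | h1
  · exact h.1 i h1
  · obtain ⟨c, rfl⟩ := Nat.exists_eq_add_of_le' h1
    exact h.2 c (by omega)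

/-- The standing hypotheses. -/
structure Ctx (f g : X → X) (lam eps h : ℝ) : Prop where
  hf : Continuous f
  hg : Continuous g
  gf : ∀ x, g (f x) = x
  fg : ∀ x, f (g x) = x
  hl : 0 < lam
  he : 0 ≤ eps
  hle : lam + 2 * eps < 1
  top : TopLE f h
  h0 : 0 ≤ h

theorem Ctx.μ0 (c : Ctx f g lam eps h) : 0 ≤ lam + 2 * eps := by linarith [c.hl, c.he]

theorem Boxes.iter (b : Boxes f lam eps S P bx e0) {x : X} (hx : x ∈ S) (n : ℕ) : f^[n] x ∈ S := by
  induction n with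
  | zero => exact hx
  | succ n ih => rw [Function.iterate_succ_apply', ← mem_preimage, b.inv]; exact ih

theorem Boxes.mem_Hx (b : Boxes f lam eps S P bx e0) {x : X} (hx : x ∈ S) (m : ℕ) :
    x ∈ Hx f bx x m := fun i _ => b.mem _ (b.iter hx i)

theorem Boxes.branch (c : Ctx f g lam eps h) (b : Boxes f lam eps S P bx e0) {x : X} (hx : x ∈ S)
    {m : ℕ} (hm : 0 < m) : Branch f (lam + 2 * eps) (bx x) (bx (f^[m] x)) m (Hx f bx x m) := by
  have h1 : ∀ x ∈ S, Branch f (lam + 2 * eps) (bx x) (bx (f x)) 1 (Hx f bx x 1) := fun x hx => by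
    have : Hx f bx x 1 = Bx (bx x) ∩ f ⁻¹' Bx (bx (f x)) := by
      ext y
      refine ⟨fun h => ⟨h 0 (by omega), h 1 le_rfl⟩, fun h i hi => ?_⟩
      rcases Nat.le_one_iff_eq_zero_or_eq_one.1 hi with rfl | rfl
      · exact h.1
      · exact h.2
    rw [this]
    exact (b.step x hx).branch c.hf c.hl c.he c.hle
  obtain ⟨m, rfl⟩ : ∃ k, m = k + 1 := ⟨m - 1, by omega⟩
  induction m with
  | zero => exact h1 x hx
  | succ m ih =>
    rw [Hx_add, Function.iterate_succ_apply' f (m + 1)]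
    exact (ih (by omega)).comp c.hf c.μ0 c.hle (h1 _ (b.iter hx _))

theorem Boxes.branch0 (c : Ctx f g lam eps h) (b : Boxes f lam eps S P bx e0) {x : X} (hx : x ∈ P)
    {m : ℕ} (hm : 0 < m) (hx' : f^[m] x ∈ P) :
    Branch f (lam + 2 * eps) e0 e0 m (Hx f bx x m) := by
  have := b.branch c (b.sub hx) hm
  rwa [b.eq x hx, b.eq _ hx'] at this

theorem Boxes.finite (c : Ctx f g lam eps h) (b : Boxes f lam eps S P bx e0) {m : ℕ} (hm : 0 < m)
    (G : Set X) : ∃ t : Finset (Set X),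
      (∀ H, H ∈ t ↔ ∃ x ∈ P ∩ G, f^[m] x ∈ P ∧ H = Hx f bx x m) ∧ (t.card : ℝ) ≤ exp (h * m) := by
  have hfin : {H | ∃ x ∈ P ∩ G, f^[m] x ∈ P ∧ H = Hx f bx x m}.Finite := by
    by_contra hinf
    obtain ⟨N, hN⟩ := exists_nat_gt (exp (h * m))
    obtain ⟨t, ht1, ht2⟩ := Set.Infinite.exists_subset_card_eq hinf N
    have := card_branches_le c.hf c.top t fun H hH => by
      obtain ⟨x, hx, hx', rfl⟩ := ht1 hH
      exact b.branch0 c hx.1 hm hx'
    rw [ht2] at this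
    linarith
  refine ⟨hfin.toFinset, fun H => hfin.mem_toFinset, card_branches_le c.hf c.top
    (μ := lam + 2 * eps) (e := e0) _ fun H hH => ?_⟩
  obtain ⟨x, hx, hx', rfl⟩ := hfin.mem_toFinset.1 hH
  exact b.branch0 c hx.1 hm hx'

open Classical in
/-- The label of a point: membership in `P`, return time and branch. -/
noncomputable def lab (f : X → X) (bx : X → OpenPartialHomeomorph X V) (P : Set X) (n k : ℕ)
    (x : X) : Prop × ℕ × Set X :=
  (x ∈ P, ret f^[n] P k x, if ret f^[n] P k x = 0 then ∅ else Hx f bx x (n * ret f^[n] P k x))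

theorem Boxes.finite_lab (c : Ctx f g lam eps h) (b : Boxes f lam eps S P bx e0) {n : ℕ}
    (hn : 0 < n) (k : ℕ) : (range (lab f bx P n k)).Finite := by
  classical
  choose t ht _ using fun j : ℕ => b.finite c (Nat.mul_pos hn (Nat.succ_pos j)) univ
  refine ((finite_univ (α := Prop)).prod ((finite_le_nat k).prod
    (insert ∅ ((Finset.range k).biUnion t)).finite_toSet)).subset ?_
  rintro _ ⟨x, rfl⟩
  refine ⟨trivial, ret_le k x, ?_⟩
  simp only [lab, Finset.coe_insert, Finset.coe_biUnion, mem_insert_iff, mem_iUnion,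
    Finset.mem_coe, Finset.mem_range]
  split_ifs with h0
  · exact Or.inl rfl
  · obtain ⟨a1, a2, a3, -⟩ := ret_spec h0
    obtain ⟨j, hj⟩ := Nat.exists_eq_succ_of_ne_zero h0
    rw [hj] at a2 a3 ⊢
    exact Or.inr ⟨j, a2, (ht j _).2 ⟨x, ⟨a1, trivial⟩, by rwa [Function.iterate_mul], rfl⟩⟩

theorem Boxes.mp_lab (c : Ctx f g lam eps h) (b : Boxes f lam eps S P bx e0) {n : ℕ}
    (hn : 0 < n) (k : ℕ) : MP (lab f bx P n k) := by
  classical
  have hr := mp_ret (c.hf.measurable.iterate n) b.mP k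
  refine (mp_prop b.mP).pair (hr.pair fun H => ?_)
  have : (fun x => if ret f^[n] P k x = 0 then ∅ else Hx f bx x (n * ret f^[n] P k x)) ⁻¹' {H} =
      (ret f^[n] P k ⁻¹' {0} ∩ {_x | H = ∅}) ∪ ⋃ j, ⋃ (_ : j ≠ 0), (ret f^[n] P k ⁻¹' {j} ∩
        {_x | ∃ y ∈ P, f^[n * j] y ∈ P ∧ H = Hx f bx y (n * j)} ∩ closure H) := by
    ext x
    simp only [mem_preimage, mem_singleton_iff, mem_union, mem_inter_iff, mem_ofPred_eq,
      mem_iUnion, exists_prop]
    split_ifs with h0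
    · constructor
      · exact fun hH => Or.inl ⟨h0, hH.symm⟩
      · rintro (h1 | ⟨j, hj, ⟨h1, -⟩, -⟩)
        · exact h1.2.symm
        · exact absurd (h1.symm.trans h0) hj
    · obtain ⟨a1, a2, a3, -⟩ := ret_spec h0
      rw [← Function.iterate_mul] at a3
      constructor
      · rintro rfl
        exact Or.inr ⟨_, h0, ⟨rfl, x, a1, a3, rfl⟩, subset_closure (b.mem_Hx (b.sub a1) _)⟩
      · rintro (h1 | ⟨j, hj, ⟨rfl, y, hy, hy', rfl⟩, h2⟩)
        · exact absurd h1.1 h0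
        · have hp := Nat.mul_pos hn (Nat.pos_of_ne_zero h0)
          rw [(b.branch0 c hy hp hy').closed.closure_eq] at h2
          by_contra hne
          exact Set.disjoint_left.1 ((b.branch0 c a1 hp a3).eq_or_disjoint c.hf
            (b.branch0 c hy hp hy') hne) (b.mem_Hx (b.sub a1) _) h2
  rw [this]
  exact ((hr 0).inter (MeasurableSet.const _)).union (MeasurableSet.iUnion fun j =>
    MeasurableSet.iUnion fun _ => ((hr j).inter (MeasurableSet.const _)).inter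
      isClosed_closure.measurableSet)

theorem Boxes.concat (c : Ctx f g lam eps h) (b : Boxes f lam eps S P bx e0) {n : ℕ} (hn : 0 < n)
    (k d : ℕ) : ∀ u v, 0 < d → d ≤ k → u ∈ P → (f^[n])^[d] u ∈ P →
      (∀ i < d, lab f bx P n k ((f^[n])^[i] u) = lab f bx P n k ((f^[n])^[i] v)) →
      ∃ H, Branch f (lam + 2 * eps) e0 e0 (n * d) H ∧ u ∈ H ∧ v ∈ H := by
  induction d using Nat.strong_induction_on with
  | _ d ih =>
    intro u v hd hdk hu hu' hl
    obtain ⟨r0, r1⟩ := ret_pos hu hd hdk hu'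
    obtain ⟨a1, a2, a3, -⟩ := ret_spec r0
    have l0 := hl 0 hd
    simp only [Function.iterate_zero, id, lab, Prod.mk.injEq] at l0
    obtain ⟨l1, l2, l3⟩ := l0
    rw [← l2, if_neg r0, if_neg r0] at l3
    have hv : v ∈ P := l1 ▸ hu
    set j := ret f^[n] P k u with hj
    have B1 := b.branch0 c hu (Nat.mul_pos hn (Nat.pos_of_ne_zero r0))
      (by rwa [Function.iterate_mul])
    have hu1 := b.mem_Hx (b.sub hu) (n * j)
    have hv1 : v ∈ Hx f bx u (n * j) := l3 ▸ b.mem_Hx (b.sub hv) (n * j)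
    rcases r1.eq_or_lt with h1 | h1
    · exact ⟨_, h1 ▸ B1, hu1, hv1⟩
    · obtain ⟨d', rfl⟩ := Nat.exists_eq_add_of_le' r1
      obtain ⟨H, B2, h2, h3⟩ := ih d' (by omega) ((f^[n])^[j] u) ((f^[n])^[j] v) (by omega) (by omega)
        a3 (by rwa [← Function.iterate_add_apply]) fun i hi => by
          rw [← Function.iterate_add_apply, ← Function.iterate_add_apply]
          exact hl _ (by omega)
      refine ⟨Hx f bx u (n * j) ∩ f^[n * j] ⁻¹' H, by
        rw [Nat.add_comm, Nat.mul_add]; exact B1.comp c.hf c.μ0 c.hle B2, ⟨hu1, ?_⟩, hv1, ?_⟩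
      · rwa [mem_preimage, Function.iterate_mul]
      · rwa [mem_preimage, Function.iterate_mul]

theorem Boxes.shrink (c : Ctx f g lam eps h) (b : Boxes f lam eps S P bx e0) {n : ℕ} (hn : 0 < n)
    {x : X} (h1 : ∃ᶠ j in atTop, (f^[n])^[j] x ∈ P) (h2 : ∃ᶠ j in atTop, (g^[n])^[j] x ∈ P) {δ : ℝ}
    (hδ : 0 < δ) : ∀ᶠ k in atTop, ∀ y, (∀ i < 2 * k + 1,
      lab f bx P n k ((f^[n])^[i] ((g^[n])^[k] y)) = lab f bx P n k ((f^[n])^[i] ((g^[n])^[k] x))) →
      dist y x < δ := by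
  have FG : ∀ x, f^[n] (g^[n] x) = x := Function.LeftInverse.iterate c.fg n
  have GF : ∀ x, g^[n] (f^[n] x) = x := Function.LeftInverse.iterate c.gf n
  obtain ⟨t, ht⟩ := h1.exists
  obtain ⟨δ1, hδ1, k1⟩ := Metric.continuousAt_iff.1
    (((c.hg.iterate n).iterate t).continuousAt (x := (f^[n])^[t] x)) δ hδ
  have htgt : Sq ⊆ e0.target := b.eq _ ht ▸ (b.step _ (b.sub ht)).tgt
  obtain ⟨δ2, hδ2, k2⟩ := exists_unif_box htgt hδ1
  obtain ⟨l, hl⟩ := eventually_atTop.1 (eventually_pow_lt c.μ0 c.hle hδ2)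
  obtain ⟨a, ha, ha'⟩ := frequently_atTop.1 h2 (l + 1)
  obtain ⟨s, hs, hs'⟩ := frequently_atTop.1 h1 (t + l + 1)
  obtain ⟨d, rfl⟩ : ∃ d, s = d + t := ⟨s - t, by omega⟩
  filter_upwards [eventually_ge_atTop (a + t + d)] with k hk y hy
  have e1 : ∀ z i, (f^[n])^[i] ((g^[n])^[a] z) = (f^[n])^[i + (k - a)] ((g^[n])^[k] z) := fun z i => by
    rw [Function.iterate_add_apply, iter_sub FG (Nat.sub_le k a), Nat.sub_sub_self (by omega)]
  have e2 : ∀ z, (f^[n])^[t + a] ((g^[n])^[a] z) = (f^[n])^[t] z := fun z => by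
    rw [Function.iterate_add_apply, Function.LeftInverse.iterate FG]
  obtain ⟨H1, B1, u1, v1⟩ := b.concat c hn k (t + a) ((g^[n])^[a] x) ((g^[n])^[a] y) (by omega)
    (by omega) ha' (by rwa [e2]) fun i hi => by
      rw [e1, e1]; exact (hy _ (by omega)).symm
  obtain ⟨H2, B2, u2, v2⟩ := b.concat c hn k d ((f^[n])^[t] x) ((f^[n])^[t] y) (by omega)
    (by omega) ht (by rwa [← Function.iterate_add_apply]) fun i hi => by
      rw [← e2 x, ← e2 y, ← Function.iterate_add_apply, ← Function.iterate_add_apply, e1, e1]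
      exact (hy _ (by omega)).symm
  have k3 := B1.mid_close c.μ0 B2 v1 u1 (by rwa [Function.iterate_mul, e2])
    (by rwa [Function.iterate_mul, e2])
  rw [Function.iterate_mul, e2, e2] at k3
  have k4 := k1 (k2 _ (B2.src _ v2).1 _ (B2.src _ u2).1 (k3.trans_lt (by
    rw [mul_max_of_nonneg _ _ (by norm_num), max_lt_iff]
    exact ⟨hl _ (le_trans (by omega) (Nat.le_mul_of_pos_left _ hn)),
      hl _ (le_trans (by omega) (Nat.le_mul_of_pos_left _ hn))⟩)))
  rwa [Function.LeftInverse.iterate GF, Function.LeftInverse.iterate GF] at k4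

theorem Boxes.rate (c : Ctx f g lam eps h) (b : Boxes f lam eps S P bx e0) {n : ℕ} (hn : 0 < n)
    {ν : Measure X} [IsFiniteMeasure ν] (hν : MeasurePreserving f^[n] ν ν) {G : Set X}
    (hG : MeasurableSet G) {t : Finset (Set X)}
    (ht : ∀ x ∈ P ∩ G, f^[n] x ∈ P → Hx f bx x n ∈ t) {k : ℕ} (hk : 1 ≤ k)
    [Finite (range (lab f bx P n k))] :
    RateLE ν f^[n] (Set.rangeFactorization (lab f bx P n k))
      (ν.real univ * (2 * log 2 + h * n) -
        ν.real (P ∩ f^[n] ⁻¹' P ∩ G) * (h * n - log (max 1 t.card))) := by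
  classical
  have hF := hν.measurable
  have hW := mp_rf (b.mp_lab c hn k)
  have hZ := (mp_prop b.mP).J hF (k + 1)
  have r1 : RateLE ν f^[n] (J (fun x => x ∈ P) f^[n] (k + 1)) (ν.real univ * log 2) :=
    ((rateLE_E hν (mp_prop b.mP)).mono (E_prop_le ν b.mP)).block hF (mp_prop b.mP) _
  refine (RateLE.of_cond hν hW hZ r1).mono ?_
  have k1 := Ec_le_add ν hW hZ (mp_prop hG)
  have k2 := E_prop_le ν hG
  set Q := P ∩ f^[n] ⁻¹' P ∩ G with hQ
  have hQm : MeasurableSet Q := (b.mP.inter (hF b.mP)).inter hG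
  have hret : ∀ x, x ∈ P → f^[n] x ∈ P → ret f^[n] P k x = 1 := fun x h1 h2 => by
    have := ret_pos (F := f^[n]) h1 one_pos hk h2
    omega
  have hrm : Measurable fun x => (ret f^[n] P k x : ℝ) :=
    measurable_from_top.comp (measurable_to_countable' (mp_ret hF b.mP k))
  have hri : Integrable (fun x => (ret f^[n] P k x : ℝ)) ν :=
    Integrable.of_bound hrm.aestronglyMeasurable k (Eventually.of_forall fun x => by
      rw [Real.norm_natCast]; exact_mod_cast ret_le k x)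
  let N : X → ℝ := fun x => if x ∈ Q then max 1 t.card else exp (h * n * ret f^[n] P k x)
  have hh := c.h0
  have e1 : ∀ x, log (N x) = h * n * ret f^[n] P k x -
      Q.indicator (fun _ => h * n - log (max 1 t.card)) x := fun x => by
    simp only [N, indicator_apply]
    split_ifs with hx
    · rw [hret x hx.1.1 hx.1.2]; simp
    · simp
  have hI : Integrable (Q.indicator fun _ => h * n - log (max 1 t.card)) ν :=
    (integrable_const _).indicator hQm
  choose u hu1 hu2 using fun j : ℕ => b.finite c (Nat.mul_pos hn (Nat.succ_pos j)) univ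
  have k3 := Ec_le_integral ν hW (hZ.pair (mp_prop hG)) (S := univ)
    (Eventually.of_forall fun _ => trivial) (N := N)
    (fun x => by
      simp only [N]
      split_ifs
      · exact le_max_left _ _
      · exact one_le_exp (by positivity))
    (by simp only [e1]; exact (hri.const_mul _).sub hI) Subtype.val Subtype.val_injective
    (fun x _ => by
      have key : ∀ y, (J (fun x => x ∈ P) f^[n] (k + 1) y, y ∈ G) =
          (J (fun x => x ∈ P) f^[n] (k + 1) x, x ∈ G) → (y ∈ P) = (x ∈ P) ∧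
          (f^[n] y ∈ P) = (f^[n] x ∈ P) ∧ (y ∈ G) = (x ∈ G) ∧
          ret f^[n] P k y = ret f^[n] P k x := fun y hy => by
        simp only [Prod.mk.injEq, J_eq_iff] at hy
        exact ⟨hy.1 0 (by omega), hy.1 1 (by omega), hy.2, ret_congr hy.1⟩
      by_cases hx : x ∈ Q
      · refine ⟨t.image fun H => (x ∈ P, 1, H), fun y _ hy => ?_, ?_⟩
        · obtain ⟨a1, a2, a3, a4⟩ := key y hy
          rw [hret x hx.1.1 hx.1.2] at a4
          refine Finset.mem_image.2 ⟨_, ht y ⟨a1 ▸ hx.1.1, a3 ▸ hx.2⟩ (a2 ▸ hx.1.2), ?_⟩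
          simp [lab, a1, a4]
        · simp only [N, if_pos hx]
          exact le_trans (by exact_mod_cast Finset.card_image_le) (le_max_right _ _)
      · simp only [N, if_neg hx]
        by_cases h0 : ret f^[n] P k x = 0
        · refine ⟨{(x ∈ P, 0, ∅)}, fun y _ hy => ?_, by simp [h0]⟩
          obtain ⟨a1, a2, a3, a4⟩ := key y hy
          simp [lab, a1, a4, h0]
        · obtain ⟨j, hj⟩ := Nat.exists_eq_succ_of_ne_zero h0
          refine ⟨(u j).image fun H => (x ∈ P, j + 1, H), fun y _ hy => ?_, ?_⟩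
          · obtain ⟨a1, a2, a3, a4⟩ := key y hy
            rw [hj] at a4
            obtain ⟨b1, -, b3, -⟩ := ret_spec (by omega : ret f^[n] P k y ≠ 0)
            rw [a4, ← Function.iterate_mul] at b3
            refine Finset.mem_image.2 ⟨_, (hu1 j _).2 ⟨y, ⟨b1, trivial⟩, b3, rfl⟩, ?_⟩
            simp [lab, a1, a4]
          · refine le_trans (by exact_mod_cast Finset.card_image_le) ((hu2 j).trans (le_of_eq ?_))
            rw [hj]
            push_cast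
            ring_nf)
  simp only [e1] at k3
  rw [integral_sub (hri.const_mul _) hI, integral_const_mul, integral_indicator_const _ hQm,
    smul_eq_mul] at k3
  have k4 := kac hF (measurePreserving_inv hν (c.hg.measurable.iterate n)
    (Function.LeftInverse.iterate c.gf n)) (Function.LeftInverse.iterate c.fg n) b.mP k
  have k5 : h * n * ∫ x, (ret f^[n] P k x : ℝ) ∂ν ≤ h * n * ν.real univ :=
    mul_le_mul_of_nonneg_left k4 (by positivity)
  linarith

/-- The sharp lower bound for the number of branches through a set of returning points. -/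
theorem Boxes.count (c : Ctx f g lam eps h) (b : Boxes f lam eps S P bx e0) {n : ℕ} (hn : 0 < n)
    {ν : Measure X} [IsFiniteMeasure ν] (hν : MeasurePreserving f ν ν)
    (hmax : ∀ d < ν.real univ * h, ¬ EntLE ν f d) {G : Set X} (hG : MeasurableSet G) :
    ∃ t : Finset (Set X), (∀ H ∈ t, ∃ x ∈ P ∩ G, f^[n] x ∈ P ∧ H = Hx f bx x n) ∧
      ν.real (P ∩ f^[n] ⁻¹' P ∩ G) * (h * n - log (max 1 t.card)) ≤ ν.real univ * (2 * log 2) := by
  obtain ⟨t, ht, -⟩ := b.finite c hn G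
  refine ⟨t, fun H hH => (ht H).1 hH, ?_⟩
  have FG : ∀ x, f^[n] (g^[n] x) = x := Function.LeftInverse.iterate c.fg n
  have GF : ∀ x, g^[n] (f^[n] x) = x := Function.LeftInverse.iterate c.gf n
  have hF := hν.iterate n
  have mG := c.hg.measurable.iterate n
  have hG' := measurePreserving_inv hF mG GF
  set Z := {x | ∃ᶠ j in atTop, (f^[n])^[j] x ∈ P} ∩ {x | ∃ᶠ j in atTop, (g^[n])^[j] x ∈ P} with hZ
  have hZm : MeasurableSet Z :=
    (measurableSet_freq hF.measurable b.mP).inter (measurableSet_freq mG b.mP)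
  have hZi : f^[n] ⁻¹' Z = Z := by
    rw [hZ, preimage_inter, preimage_freq, preimage_inv FG GF preimage_freq]
  have h1 := MeasurePreserving.restrict_inv hF hZm hZi
  have h2 := MeasurePreserving.restrict_inv hF hZm.compl (by rw [preimage_compl, hZi])
  have h1' := measurePreserving_inv h1 mG GF
  have : ∀ k, Finite (range (lab f bx P n k)) := fun k => (b.finite_lab c hn k).to_subtype
  have hW := fun k => mp_rf (b.mp_lab c hn k)
  have E1 := entLE_of_shrink (ν.restrict Z) h1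
    (fun k x => J (Set.rangeFactorization (lab f bx P n k)) f^[n] (2 * k + 1) ((g^[n])^[k] x))
    (fun k => ((hW k).J hF.measurable _).pull (mG.iterate k)) (S := univ)
    (Eventually.of_forall fun _ => trivial)
    (by
      filter_upwards [ae_restrict_mem hZm] with x hx δ hδ
      filter_upwards [b.shrink c hn hx.1 hx.2 hδ] with k hk y _ hy
      exact hk y fun i hi => congrArg Subtype.val (J_eq_iff.1 hy i hi))
    (by
      filter_upwards [eventually_ge_atTop 1] with k hk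
      refine RateLE.pull (h1'.iterate k) hF.measurable (fun x => ?_) ((hW k).J hF.measurable _)
        ((b.rate c hn h1 hG (fun x hx hx' => (ht _).2 ⟨x, hx, hx', rfl⟩) hk).block
          hF.measurable (hW k) _)
      exact ((Function.Commute.iterate_left (f := g^[n]) (g := f^[n])
        (fun x => by rw [FG, GF]) k) x).symm)
  have E2 := goodwyn (ν.restrict Zᶜ) c.top hn h2
  have E3 := E1.add E2
  rw [Measure.restrict_add_restrict_compl hZm] at E3
  have E4 := not_lt.1 fun hlt => hmax _ hlt (E3.of_pow hν.measurable hn)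
  have hn' : (0 : ℝ) < n := by exact_mod_cast hn
  rw [le_div_iff₀ hn'] at E4
  have e1 : (ν.restrict Z).real (P ∩ f^[n] ⁻¹' P ∩ G) = ν.real (P ∩ f^[n] ⁻¹' P ∩ G) := by
    rw [measureReal_restrict_apply ((b.mP.inter (hF.measurable b.mP)).inter hG)]
    refine measureReal_congr (inter_eventuallyEq_left.2 ?_)
    filter_upwards [hF.conservative.ae_mem_imp_frequently_image_mem b.mP.nullMeasurableSet,
      hG'.conservative.ae_mem_imp_frequently_image_mem b.mP.nullMeasurableSet] with x a1 a2 hx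
    exact ⟨a1 hx.1.1, a2 hx.1.1⟩
  have e2 : (ν.restrict Z).real univ + (ν.restrict Zᶜ).real univ = ν.real univ := by
    simp only [measureReal_restrict_apply_univ]
    exact measureReal_add_measureReal_compl hZm
  have e3 : 0 ≤ (ν.restrict Zᶜ).real univ := measureReal_nonneg
  have e4 : 0 ≤ log 2 := log_nonneg (by norm_num)
  rw [e1] at E4
  rw [← e2] at E4 ⊢
  nlinarith

end Pool.Agent.MP_369096_an

end

-- part MP_369096_an.Main
section

/-!
Uniqueness of the measure of maximal entropy in the local model.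
-/

set_option autoImplicit false
set_option linter.unusedSectionVars false
set_option linter.unusedVariables false

open MeasureTheory Filter Set Topology Real Metric
open Pool.Agent.Lib.Birkhoff

namespace Pool.Agent.MP_369096_an

theorem sq_sum_le (b : ℕ → ℝ) (hb : ∀ i, 0 ≤ b i) (T : ℕ) :
    (∑ i ∈ Finset.range T, b i) ^ 2 ≤
      2 * ∑ i ∈ Finset.range T, b i * ∑ n ∈ Finset.range T, b (n + i) := by
  have h1 : ∀ T, 2 * ∑ i ∈ Finset.range T, b i * ∑ j ∈ Finset.range i, b j ≤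
      (∑ i ∈ Finset.range T, b i) ^ 2 := fun T => by
    induction T with
    | zero => simp
    | succ T ih =>
      rw [Finset.sum_range_succ, Finset.sum_range_succ]
      nlinarith [sq_nonneg (b T)]
  have h2 : ∀ i, ∑ j ∈ Finset.range T, b j - ∑ j ∈ Finset.range i, b j ≤
      ∑ n ∈ Finset.range T, b (n + i) := fun i => by
    have k1 := Finset.sum_range_add b i T
    have k2 : ∑ j ∈ Finset.range T, b j ≤ ∑ j ∈ Finset.range (i + T), b j :=
      Finset.sum_le_sum_of_subset_of_nonneg (Finset.range_mono (by omega)) fun j _ _ => hb j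
    simp only [Nat.add_comm i] at k1 k2
    linarith
  have h3 := Finset.sum_le_sum (s := Finset.range T) fun i _ =>
    mul_le_mul_of_nonneg_left (h2 i) (hb i)
  simp only [mul_sub, Finset.sum_sub_distrib, ← Finset.sum_mul] at h3
  have := h1 T
  nlinarith

theorem density {Y : Type*} [MeasurableSpace Y] {ν : Measure Y} [IsFiniteMeasure ν] {f : Y → Y}
    (hf : MeasurePreserving f ν ν) {P : Set Y} (hP : MeasurableSet P) (hp : 0 < ν.real P) (T : ℕ) :
    T * ν.real P ^ 2 ≤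
      2 * ν.real univ * ∑ n ∈ Finset.range T, ν.real (P ∩ f^[n] ⁻¹' P) := by
  rcases Nat.eq_zero_or_pos T with rfl | hT
  · simp
  have hT' : (0 : ℝ) < T := by exact_mod_cast hT
  have hm : 0 < ν.real univ := hp.trans_le (measureReal_mono (subset_univ _))
  set m := ν.real univ with hmdef
  set p := ν.real P with hpdef
  let b : Y → ℝ := P.indicator 1
  have hbm : Measurable b := measurable_const.indicator hP
  have hbi : Integrable b ν := (integrable_const 1).indicator hP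
  have hb0 : ∀ x, 0 ≤ b x := fun x => indicator_nonneg (fun _ _ => zero_le_one) x
  let v : Y → ℝ := fun x => ∑ n ∈ Finset.range T, (P ∩ f^[n] ⁻¹' P).indicator 1 x
  have hPn : ∀ n, MeasurableSet (P ∩ f^[n] ⁻¹' P) := fun n => hP.inter (hf.measurable.iterate n hP)
  have hvm : Measurable v := Finset.measurable_sum _ fun n _ => measurable_const.indicator (hPn n)
  have hvi : Integrable v ν :=
    integrable_finsetSum _ fun n _ => (integrable_const 1).indicator (hPn n)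
  have hv : ∫ x, v x ∂ν = ∑ n ∈ Finset.range T, ν.real (P ∩ f^[n] ⁻¹' P) := by
    rw [integral_finsetSum _ fun n _ => (integrable_const 1).indicator (hPn n)]
    exact Finset.sum_congr rfl fun n _ => integral_indicator_one (hPn n)
  have key : ∀ x, 2 * m * (T * p) * birkhoffSum f b T x - (T * p) ^ 2 ≤
      2 * m ^ 2 * birkhoffSum f v T x := fun x => by
    have k1 := sq_sum_le (fun i => b (f^[i] x)) (fun i => hb0 _) T
    have k2 : ∑ i ∈ Finset.range T, b (f^[i] x) * ∑ n ∈ Finset.range T, b (f^[n + i] x) =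
        birkhoffSum f v T x := by
      refine Finset.sum_congr rfl fun i _ => ?_
      rw [Finset.mul_sum]
      refine Finset.sum_congr rfl fun n _ => ?_
      rw [inter_indicator_one, Function.iterate_add_apply]
      rfl
    rw [k2] at k1
    change birkhoffSum f b T x ^ 2 ≤ _ at k1
    nlinarith [sq_nonneg (m * birkhoffSum f b T x - T * p), sq_nonneg m]
  have k3 := integral_mono (((integrable_bS hf hbi T).const_mul (2 * m * (T * p))).sub
    (integrable_const ((T * p) ^ 2))) ((integrable_bS hf hvi T).const_mul (2 * m ^ 2)) key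
  rw [integral_sub' ((integrable_bS hf hbi T).const_mul _) (integrable_const _), integral_const_mul,
    integral_const_mul, integral_bS hf hbm hbi, integral_bS hf hvm hvi, hv, integral_const,
    integral_indicator_one hP, smul_eq_mul, ← hmdef, ← hpdef] at k3
  refine le_of_mul_le_mul_left ?_ (mul_pos hm hT')
  nlinarith

variable {X : Type*} [MetricSpace X] [CompactSpace X] [MeasurableSpace X] [BorelSpace X]
  {f g : X → X} {lam eps h : ℝ} {S P : Set X} {bx : X → OpenPartialHomeomorph X V}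
  {e0 : OpenPartialHomeomorph X V}

/-- For a positive density set of times there is a definite proportion of the maximal possible
number of branches, all inside prescribed sets. -/
def Rich (f : X → X) (μ h : ℝ) (e : OpenPartialHomeomorph X V) (Q : ℕ → Set X) : Prop :=
  ∃ c > 0, ∃ d > 0, ∃ (N : ℕ → Finset ℕ) (t : ℕ → Finset (Set X)),
    (∀ T : ℕ, d * T - 1 ≤ ((N T).card : ℝ)) ∧ ∀ T, ∀ n ∈ N T, n < T ∧
      (∀ H ∈ t n, Branch f μ e e n H ∧ H ⊆ Q n) ∧ c * exp (h * n) ≤ ((t n).card : ℝ)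

theorem Boxes.rich (c : Ctx f g lam eps h) (b : Boxes f lam eps S P bx e0) {ν : Measure X}
    [IsFiniteMeasure ν] (hν : MeasurePreserving f ν ν)
    (hmax : ∀ d < ν.real univ * h, ¬ EntLE ν f d) (hP : ν P ≠ 0) :
    ∃ η > 0, ∀ G Q : ℕ → Set X, (∀ n, MeasurableSet (G n)) → (∀ n, ν.real (G n)ᶜ ≤ η) →
      (∀ n, ∀ x ∈ S ∩ G n, Hx f bx x n ⊆ Q n) → Rich f (lam + 2 * eps) h e0 Q := by
  classical
  have hp : 0 < ν.real P := ENNReal.toReal_pos hP (measure_ne_top _ _)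
  have hm : 0 < ν.real univ := hp.trans_le (measureReal_mono (subset_univ _))
  set m := ν.real univ with hmdef
  set p := ν.real P with hpdef
  set w := p ^ 2 / (8 * m) with hw
  have hw0 : 0 < w := by positivity
  refine ⟨w, hw0, fun G Q hG hGη hQ => ?_⟩
  have key : ∀ n, ∃ t : Finset (Set X), 0 < n → 2 * w ≤ ν.real (P ∩ f^[n] ⁻¹' P) →
      (∀ H ∈ t, Branch f (lam + 2 * eps) e0 e0 n H ∧ H ⊆ Q n) ∧
        exp (-(m * (2 * log 2) / w)) * exp (h * n) ≤ (t.card : ℝ) := fun n => by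
    by_cases hn : 0 < n ∧ 2 * w ≤ ν.real (P ∩ f^[n] ⁻¹' P)
    swap
    · exact ⟨∅, fun h1 h2 => absurd ⟨h1, h2⟩ hn⟩
    obtain ⟨t, ht1, ht2⟩ := b.count c hn.1 hν hmax (hG n)
    have k1 : w ≤ ν.real (P ∩ f^[n] ⁻¹' P ∩ G n) := by
      have a1 : ν.real (P ∩ f^[n] ⁻¹' P) ≤ ν.real (P ∩ f^[n] ⁻¹' P ∩ G n ∪ (G n)ᶜ) :=
        measureReal_mono fun x hx => by
          by_cases hx' : x ∈ G n
          · exact Or.inl ⟨hx, hx'⟩
          · exact Or.inr hx'
      have a2 := measureReal_union_le (μ := ν) (P ∩ f^[n] ⁻¹' P ∩ G n) (G n)ᶜ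
      linarith [hGη n, hn.2]
    obtain ⟨x, hx⟩ : (P ∩ f^[n] ⁻¹' P ∩ G n).Nonempty := by
      rw [nonempty_iff_ne_empty]
      intro h0
      rw [h0, measureReal_empty] at k1
      linarith
    refine ⟨insert (Hx f bx x n) t, fun _ _ => ⟨fun H hH => ?_, ?_⟩⟩
    · rcases Finset.mem_insert.1 hH with rfl | hH
      · exact ⟨b.branch0 c hx.1.1 hn.1 hx.1.2, hQ n x ⟨b.sub hx.1.1, hx.2⟩⟩
      · obtain ⟨y, hy, hy', rfl⟩ := ht1 H hH
        exact ⟨b.branch0 c hy.1 hn.1 hy', hQ n y ⟨b.sub hy.1, hy.2⟩⟩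
    · have k2 : max 1 (t.card : ℝ) ≤ (insert (Hx f bx x n) t).card := max_le
        (by exact_mod_cast Finset.card_pos.2 (Finset.insert_nonempty _ _))
        (by exact_mod_cast Finset.card_le_card (Finset.subset_insert _ _))
      refine le_trans ?_ k2
      rw [← exp_add, ← le_log_iff_exp_le (by positivity)]
      have k3 : h * n - log (max 1 t.card) ≤ m * (2 * log 2) / w := by
        rw [le_div_iff₀ hw0]
        have : 0 ≤ m * (2 * log 2) := by have := log_nonneg (x := 2) (by norm_num); positivity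
        rcases le_total 0 (h * n - log (max 1 t.card)) with k4 | k4
        · nlinarith
        · nlinarith
      linarith
  choose t ht using key
  refine ⟨exp (-(m * (2 * log 2) / w)), exp_pos _, p / (4 * m), by positivity,
    fun T => (Finset.range T).filter fun n => 0 < n ∧ 2 * w ≤ ν.real (P ∩ f^[n] ⁻¹' P), t,
    fun T => ?_, fun T n hn => ?_⟩
  · have k1 := density hν b.mP hp T
    have k2 : ∑ n ∈ Finset.range T, ν.real (P ∩ f^[n] ⁻¹' P) ≤ ∑ n ∈ Finset.range T,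
        (2 * w + (p * if 0 < n ∧ 2 * w ≤ ν.real (P ∩ f^[n] ⁻¹' P) then 1 else 0) +
          p * if n = 0 then 1 else 0) := Finset.sum_le_sum fun n _ => by
      have : ν.real (P ∩ f^[n] ⁻¹' P) ≤ p := measureReal_mono inter_subset_left
      split_ifs with a1 a2 a2
      · linarith
      · linarith
      · linarith
      · have := not_le.1 fun a3 => a1 ⟨Nat.pos_of_ne_zero a2, a3⟩
        linarith
    simp only [Finset.sum_add_distrib, ← Finset.mul_sum, Finset.sum_const, Finset.card_range,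
      nsmul_eq_mul, Finset.sum_boole] at k2
    have k3 : (((Finset.range T).filter fun n => n = 0).card : ℝ) ≤ 1 := by
      exact_mod_cast Finset.card_le_one.2 fun i hi j hj => by
        rw [(Finset.mem_filter.1 hi).2, (Finset.mem_filter.1 hj).2]
    rw [← hmdef, ← hpdef] at k1
    have k4 : m * w = p ^ 2 / 8 := by rw [hw]; field_simp
    rw [div_mul_eq_mul_div, sub_le_iff_le_add, div_le_iff₀ (by positivity)]
    refine le_of_mul_le_mul_left ?_ hp
    have k5 := mul_le_mul_of_nonneg_left k2 (by positivity : 0 ≤ 2 * m)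
    have k6 := mul_le_mul_of_nonneg_left k3 (by positivity : 0 ≤ 2 * m * p)
    have k7 : T * (m * w) = T * (p ^ 2 / 8) := by rw [k4]
    nlinarith
  · rw [Finset.mem_filter, Finset.mem_range] at hn
    exact ⟨hn.1, ht n hn.2.1 hn.2.2⟩

theorem Rich.two {μ : ℝ} {Q : ℕ → Set X} (hf : Continuous f) (hh : 0 < h) (r : Rich f μ h e0 Q)
    (T1 : ℕ) : ∃ n ≥ T1, ∃ a a', Branch f μ e0 e0 n a ∧ Branch f μ e0 e0 n a' ∧ Disjoint a a' ∧
      a ⊆ Q n := by
  obtain ⟨c, hc, d, hd, N, t, hN, ht⟩ := r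
  obtain ⟨n0, hn0⟩ := eventually_atTop.1 (((tendsto_exp_atTop.comp
    (tendsto_natCast_atTop_atTop.const_mul_atTop hh)).const_mul_atTop hc).eventually_gt_atTop 1)
  obtain ⟨T, hT⟩ := ((tendsto_natCast_atTop_atTop.const_mul_atTop hd).eventually_gt_atTop
    ((n0 + T1 : ℕ) + 1)).exists
  obtain ⟨n, hn, hn'⟩ := Finset.exists_mem_notMem_of_card_lt_card
    (s := Finset.range (n0 + T1)) (t := N T) (by
      rw [Finset.card_range]
      have := hN T
      exact_mod_cast (by linarith : ((n0 + T1 : ℕ) : ℝ) < (N T).card))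
  rw [Finset.mem_range] at hn'
  obtain ⟨-, k1, k2⟩ := ht T n hn
  have k3 : 1 < (t n).card := by exact_mod_cast (hn0 n (by omega)).trans_le k2
  obtain ⟨a, ha, a', ha', hne⟩ := Finset.one_lt_card.1 k3
  exact ⟨n, by omega, a, a', (k1 a ha).1, (k1 a' ha').1,
    (k1 a ha).1.eq_or_disjoint hf (k1 a' ha').1 hne, (k1 a ha).2⟩

theorem Rich.false (c : Ctx f g lam eps h) (hh : 0 < h) {e1 e2 : OpenPartialHomeomorph X V}
    {Q1 Q2 : ℕ → Set X} (r1 : Rich f (lam + 2 * eps) h e1 Q1)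
    (r2 : Rich f (lam + 2 * eps) h e2 Q2) {T1 : ℕ}
    (sep : ∀ n1 n2 s y, y ∈ Q1 n1 → f^[s] y ∈ Q2 n2 → s + T1 ≤ n1 → n1 ≤ s + n2 → False)
    (per : ∀ n1 ≥ T1, ∀ n2 ≥ T1, ∀ p1 ∈ Q1 n1, ∀ p2 ∈ Q2 n2, f^[n1] p1 = p1 → f^[n2] p2 = p2 →
      p2 ∉ Orb f p1)
    (htr : ∀ U W : Set X, IsOpen U → IsOpen W → U.Nonempty → W.Nonempty →
      ∃ᶠ n in atTop, (U ∩ f^[n] ⁻¹' W).Nonempty) : False := by
  classical
  obtain ⟨m1, hm1, b1, b1', B1, B1', D1, s1⟩ := r1.two c.hf hh T1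
  obtain ⟨m2, hm2, b2, b2', B2, B2', D2, s2⟩ := r2.two c.hf hh T1
  obtain ⟨L, L', hL, hL'⟩ := exists_link c.hf c.hg c.gf c.fg c.μ0 c.hle B1 B1' D1 B2 B2' D2
    (fun p1 h1 p2 h2 => per m1 hm1 m2 hm2 p1 (s1 h1) p2 (s2 h2)) htr
  obtain ⟨c1, hc1, d1, hd1, N1, t1, hN1, ht1⟩ := r1
  obtain ⟨c2, hc2, d2, hd2, N2, t2, hN2, ht2⟩ := r2
  obtain ⟨J, hJ⟩ := exists_nat_gt (exp (h * (L + L')) / (c1 * c2))
  rw [div_lt_iff₀ (by positivity)] at hJ
  set R := T1 + L + 1 with hR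
  obtain ⟨T, hT1, hT2⟩ := (((tendsto_natCast_atTop_atTop.const_mul_atTop hd1).eventually_gt_atTop
    2).and ((tendsto_natCast_atTop_atTop.const_mul_atTop hd2).eventually_gt_atTop
      (4 * R * J / d1 + 1))).exists
  obtain ⟨⟨M, ρ⟩, -, hM⟩ := Finset.exists_lt_card_fiber_of_mul_lt_card_of_maps_to
    (s := N1 T ×ˢ N2 T) (t := Finset.range (2 * T) ×ˢ Finset.range R)
    (f := fun p => (p.1 + p.2, p.1 % R)) (n := J)
    (fun p hp => by
      rw [Finset.mem_product] at hp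
      have a1 := (ht1 T _ hp.1).1
      have a2 := (ht2 T _ hp.2).1
      simp only [Finset.mem_product, Finset.mem_range]
      exact ⟨by omega, Nat.mod_lt _ (by omega)⟩)
    (by
      simp only [Finset.card_product, Finset.card_range]
      have a1 := hN1 T
      have a2 := hN2 T
      have a3 : 4 * R * J / d1 < (N2 T).card := by linarith
      rw [div_lt_iff₀ hd1] at a3
      have a4 : d1 * T / 2 ≤ (N1 T).card := by linarith
      have a5 : (0 : ℝ) < T := pos_of_mul_pos_left (by linarith : 0 < T * d1) hd1.le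
      have a6 := mul_le_mul_of_nonneg_right a4 (Nat.cast_nonneg (α := ℝ) (N2 T).card)
      have a7 := mul_lt_mul_of_pos_right a3 a5
      exact_mod_cast (by nlinarith : (2 * T * R * J : ℝ) < (N1 T).card * (N2 T).card))
  set F := (N1 T ×ˢ N2 T).filter fun p => (p.1 + p.2, p.1 % R) = (M, ρ) with hF
  have hFm : ∀ p ∈ F, p.1 ∈ N1 T ∧ p.2 ∈ N2 T ∧ p.1 + p.2 = M ∧ p.1 % R = ρ := fun p hp => by
    simpa [hF, and_assoc] using hp
  let s := F.sigma fun p => t1 p.1 ×ˢ t2 p.2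
  have hs : ∀ i : s, (Branch f (lam + 2 * eps) e1 e1 i.1.1.1 i.1.2.1 ∧ i.1.2.1 ⊆ Q1 i.1.1.1) ∧
      (Branch f (lam + 2 * eps) e2 e2 i.1.1.2 i.1.2.2 ∧ i.1.2.2 ⊆ Q2 i.1.1.2) ∧
      i.1.1.1 + i.1.1.2 = M ∧ i.1.1.1 % R = ρ := fun i => by
    have a1 := Finset.mem_sigma.1 i.2
    have a2 := hFm _ a1.1
    have a3 := Finset.mem_product.1 a1.2
    exact ⟨(ht1 T _ a2.1).2.1 _ a3.1, (ht2 T _ a2.2.1).2.1 _ a3.2, a2.2.2⟩
  have hlt : ∀ i j : s, i.1.1.1 < j.1.1.1 → Disjoint (i.1.2.1 ∩ f^[i.1.1.1 + L] ⁻¹' i.1.2.2)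
      (j.1.2.1 ∩ f^[j.1.1.1 + L] ⁻¹' j.1.2.2) := fun i j hij => by
    refine Set.disjoint_left.2 fun y hy hy' => ?_
    obtain ⟨-, a2, a3, a4⟩ := hs i
    obtain ⟨a5, -, a6, a7⟩ := hs j
    have a8 : R ≤ j.1.1.1 - i.1.1.1 := Nat.le_of_dvd (by omega)
      ((Nat.modEq_iff_dvd' hij.le).1 (a4.trans a7.symm))
    exact sep _ _ _ y (a5.2 hy'.1) (a2.2 hy.2) (by omega) (by omega)
  obtain ⟨p0, hp0⟩ : F.Nonempty := Finset.card_pos.1 (by omega)
  have hM0 : 0 < M := by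
    obtain ⟨a1, -, a2, -⟩ := hFm p0 hp0
    obtain ⟨-, a3, a4⟩ := ht1 T _ a1
    obtain ⟨H, hH⟩ : (t1 p0.1).Nonempty := Finset.card_pos.1 (by
      have : (0 : ℝ) < (t1 p0.1).card := lt_of_lt_of_le (by positivity) a4
      exact_mod_cast this)
    have := (a3 H hH).1.pos
    omega
  have k1 := card_covers_le c.top B1.tgt (fun i : s => i.1.2.1 ∩ f^[i.1.1.1 + L] ⁻¹' i.1.2.2)
    (fun i => (hs i).1.1.isCompact.inter_right ((hs i).2.1.1.closed.preimage (c.hf.iterate _)))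
    (fun i j hij => by
      rcases lt_trichotomy i.1.1.1 j.1.1.1 with h1 | h1 | h1
      · exact hlt i j h1
      · obtain ⟨a1, a2, a3, -⟩ := hs i
        obtain ⟨a4, a5, a6, -⟩ := hs j
        obtain ⟨⟨⟨n1, n2⟩, u1, u2⟩, hi⟩ := i
        obtain ⟨⟨⟨n1', n2'⟩, u1', u2'⟩, hj⟩ := j
        dsimp only at h1 a1 a2 a3 a4 a5 a6 ⊢
        subst h1
        obtain rfl : n2 = n2' := by omega
        by_cases h2 : u1 = u1'
        · have h3 : u2 ≠ u2' := fun h3 => hij (by subst h2 h3; rfl)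
          exact ((a2.1.eq_or_disjoint c.hf a5.1 h3).preimage _).mono inter_subset_right
            inter_subset_right
        · exact (a1.1.eq_or_disjoint c.hf a4.1 h2).mono inter_subset_left inter_subset_left
      · exact (hlt j i h1).symm)
    (m := M + L + L') (by omega) (fun i => by
      obtain ⟨a1, a2, a3, -⟩ := hs i
      have := (((a1.1.covers c.hf).comp hL).comp (a2.1.covers c.hf)).comp hL'
      rw [show i.1.1.1 + L + i.1.1.2 = M + L by omega] at this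
      exact this.mono fun y hy => ⟨hy.1.1.1, hy.1.2⟩)
  rw [Fintype.card_coe, Finset.card_sigma] at k1
  have k2 : F.card • (c1 * c2 * exp (h * M)) ≤
      ∑ p ∈ F, (((t1 p.1 ×ˢ t2 p.2).card : ℕ) : ℝ) := Finset.card_nsmul_le_sum _ _ _ fun p hp => by
    obtain ⟨a1, a2, a3, -⟩ := hFm p hp
    have := mul_le_mul (ht1 T _ a1).2.2 (ht2 T _ a2).2.2 (by positivity) (Nat.cast_nonneg _)
    rw [Finset.card_product, ← a3]
    push_cast
    rw [mul_add, exp_add]
    linarith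
  push_cast at k1
  rw [nsmul_eq_mul] at k2
  have k3 : (J : ℝ) ≤ F.card := by exact_mod_cast hM.le
  rw [add_assoc, mul_add, exp_add] at k1
  have k4 := mul_lt_mul_of_pos_right hJ (exp_pos (h * M))
  have k5 := mul_le_mul_of_nonneg_right k3 (by positivity : 0 ≤ c1 * c2 * exp (h * M))
  nlinarith

theorem Boxes.shadow (c : Ctx f g lam eps h) (b : Boxes f lam eps S P bx e0) {η : ℝ} (hη : 0 < η) :
    ∃ l : ℕ, ∀ x ∈ S, ∀ n, ∀ y ∈ Hx f bx x n, ∀ i, l ≤ i → i + l ≤ n →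
      dist (f^[i] y) (f^[i] x) < η := by
  obtain ⟨δ, hδ, k1⟩ := b.uc η hη
  obtain ⟨l, hl⟩ := eventually_atTop.1 (eventually_pow_lt c.μ0 c.hle hδ)
  refine ⟨l + 1, fun x hx n y hy i h1 h2 => ?_⟩
  obtain ⟨j, rfl⟩ := Nat.exists_eq_add_of_le (by omega : i ≤ n)
  have hx' := b.mem_Hx hx (i + j)
  rw [Hx_add] at hy hx'
  have k3 := (b.branch c hx (m := i) (by omega)).mid_close c.μ0
    (b.branch c (b.iter hx i) (m := j) (by omega)) hy.1 hx'.1 hy.2 hx'.2
  refine k1 _ (b.iter hx i) _ (hy.1 i le_rfl) (k3.trans_lt ?_)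
  rw [mul_max_of_nonneg _ _ (by norm_num), max_lt_iff]
  exact ⟨hl _ (by omega), hl _ (by omega)⟩

theorem Boxes.window (c : Ctx f g lam eps h) (b : Boxes f lam eps S P bx e0) {φ : X → ℝ}
    (hφ : Continuous φ) {ε : ℝ} (hε : 0 < ε) : ∃ K : ℝ, ∀ x ∈ S, ∀ n, ∀ y ∈ Hx f bx x n, ∀ s k,
      s + k ≤ n + 1 → birkhoffSum f φ k (f^[s] y) ≤ birkhoffSum f φ k (f^[s] x) + ε * k + K := by
  obtain ⟨δ, hδ, k1⟩ := Metric.uniformContinuous_iff.1
    (CompactSpace.uniformContinuous_of_continuous hφ) ε hε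
  obtain ⟨l, hl⟩ := b.shadow c hδ
  obtain ⟨C, hC⟩ := isCompact_univ.exists_bound_of_continuousOn hφ.continuousOn
  refine ⟨2 * C * l + 2 * C * l, fun x hx n y hy s k hk => ?_⟩
  have hC0 : 0 ≤ C := (norm_nonneg _).trans (hC x trivial)
  have k2 : birkhoffSum f φ k (f^[s] y) ≤ ∑ i ∈ Finset.range k, (φ (f^[i] (f^[s] x)) + ε +
      ((2 * C * if i < l then 1 else 0) + 2 * C * if n < i + s + l then 1 else 0)) :=
    Finset.sum_le_sum fun i _ => by
      simp only [← Function.iterate_add_apply]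
      have a1 := abs_le.1 (hC (f^[i + s] y) trivial)
      have a2 := abs_le.1 (hC (f^[i + s] x) trivial)
      split_ifs with h1 h2 h2
      · linarith
      · linarith
      · linarith
      · have := k1 (hl x hx n y hy (i + s) (by omega) (by omega))
        rw [Real.dist_eq, abs_lt] at this
        linarith
  simp only [Finset.sum_add_distrib, ← Finset.mul_sum, Finset.sum_const, Finset.card_range,
    nsmul_eq_mul, Finset.sum_boole] at k2
  have k3 : (((Finset.range k).filter fun i => i < l).card : ℝ) ≤ l := by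
    exact_mod_cast (Finset.card_le_card (t := Finset.range l) fun i hi => by
      simpa using (Finset.mem_filter.1 hi).2).trans (Finset.card_range l).le
  have k4 : (((Finset.range k).filter fun i => n < i + s + l).card : ℝ) ≤ l := by
    exact_mod_cast (Finset.card_le_card (t := Finset.Ico (k - l) k) fun i hi => by
      simp only [Finset.mem_filter, Finset.mem_range, Finset.mem_Ico] at hi ⊢
      omega).trans (by rw [Nat.card_Ico]; omega)
  have k5 := mul_le_mul_of_nonneg_left k3 (by positivity : 0 ≤ 2 * C)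
  have k6 := mul_le_mul_of_nonneg_left k4 (by positivity : 0 ≤ 2 * C)
  change _ ≤ birkhoffSum f φ k (f^[s] x) + _ + _ at k2
  linarith

theorem hmax_of_max (c : Ctx f g lam eps h) {μ : Measure X} [IsProbabilityMeasure μ]
    (hμ : MeasurePreserving f μ μ) (hmax : ∀ d < h, ¬ EntLE μ f d) : HMax μ f h := by
  intro T hT hinv d hd hE
  have h2 := MeasurePreserving.restrict_inv hμ hT.compl (by rw [preimage_compl, hinv])
  have E3 := hE.add (goodwyn (μ.restrict Tᶜ) c.top one_pos h2)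
  rw [Measure.restrict_add_restrict_compl hT] at E3
  refine hmax _ ?_ E3
  have e2 : μ.real T + μ.real Tᶜ = 1 := by rw [measureReal_add_measureReal_compl hT]; simp
  rw [measureReal_restrict_apply_univ]
  push_cast
  have : μ.real T * h + μ.real Tᶜ * h = h := by rw [← add_mul, e2, one_mul]
  linarith

theorem exists_rich (c : Ctx f g lam eps h) {μ : Measure X} [IsProbabilityMeasure μ]
    (hμ : MeasurePreserving f μ μ) (hm : HMax μ f h) (hS : ∀ᵐ x ∂μ, x ∈ S)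
    (hb : ∀ ν : Measure X, ν S ≠ 0 → ∃ P bx e0, ν P ≠ 0 ∧ Boxes f lam eps S P bx e0)
    {F : X → X} (hF : MeasurePreserving F μ μ) (hFf : ∀ Z : Set X, F ⁻¹' Z = Z → f ⁻¹' Z = Z)
    {φ : X → ℝ} (hφ : Continuous φ) {α : ℝ} (hα : ∫ x, φ x ∂μ < α) (τ : ℕ → ℕ) (σ : ℕ → ℕ → ℕ)
    (hσ : ∀ n k, k ≤ n + 1 → σ n k + k ≤ n + 1 ∧
      ∀ x, birkhoffSum F φ k (f^[τ n] x) = birkhoffSum f φ k (f^[σ n k] x)) :
    ∃ e T1, Rich f (lam + 2 * eps) h e
      fun n => {y | ∀ k ≤ n + 1, T1 ≤ k → birkhoffSum f φ k (f^[σ n k] y) < α * k} := by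
  obtain ⟨a1, h1, h2⟩ := exists_between hα
  obtain ⟨a2, h3, h4⟩ := exists_rat_btwn h2
  obtain ⟨a3, h5, h6⟩ := exists_between h4
  obtain ⟨C, hC⟩ := isCompact_univ.exists_bound_of_continuousOn hφ.continuousOn
  have hφi : Integrable φ μ := Integrable.of_bound hφ.aestronglyMeasurable C
    (Eventually.of_forall fun x => hC x trivial)
  have hU := measurableSet_Up hF.measurable hφ.measurable a1
  set Z := (Up F φ a1)ᶜ with hZ
  have hZi : f ⁻¹' Z = Z := hFf _ (by rw [hZ, preimage_compl, preimage_Up])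
  have hZ0 : μ Z ≠ 0 := fun h0 => by
    have k1 := le_setIntegral_of_subset_Up hF hφ.measurable hφi hU (preimage_Up _ _) subset_rfl
    have k2 : Up F φ a1 =ᵐ[μ] univ := ae_eq_univ.2 h0
    rw [measureReal_congr k2, setIntegral_congr_set k2, Measure.restrict_univ] at k1
    simp only [probReal_univ, mul_one] at k1
    linarith
  have hν := MeasurePreserving.restrict_inv hμ hU.compl hZi
  obtain ⟨P, bx, e0, hP, b⟩ := hb (μ.restrict Z) fun h0 => hZ0 (by
    have k1 : ∀ᵐ x ∂μ.restrict Z, x ∉ S := measure_eq_zero_iff_ae_notMem.1 h0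
    have k2 : ∀ᵐ x ∂μ.restrict Z, False := by
      filter_upwards [k1, ae_restrict_of_ae hS] with x a b using a b
    simpa using k2)
  obtain ⟨η, hη, hr⟩ := b.rich c hν
    (fun d hd => hm Z hU.compl hZi d (by rwa [measureReal_restrict_apply_univ] at hd)) hP
  let B : ℕ → Set X := fun T => {x | ∀ k, T ≤ k → birkhoffSum F φ k x ≤ a2 * k}
  have hB : ∀ T, MeasurableSet (B T) := fun T => by
    have : B T = ⋂ k, ⋂ (_ : T ≤ k), {x | birkhoffSum F φ k x ≤ a2 * k} := by ext x; simp [B]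
    rw [this]
    exact MeasurableSet.iInter fun k => MeasurableSet.iInter fun _ =>
      measurableSet_le (measurable_bS hF.measurable hφ.measurable k) measurable_const
  obtain ⟨T0, hT0⟩ := ((tendsto_real_of_ae (μ.restrict Z) (T := fun T => (B T)ᶜ)
    (fun T => (hB T).compl) (by
      filter_upwards [ae_restrict_mem hU.compl] with x hx
      have k1 : ∀ᶠ n : ℕ in atTop, ¬ (a2 : ℝ) * n < birkhoffSum F φ n x :=
        not_frequently.1 fun k => hx ⟨a2, h3, k⟩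
      obtain ⟨T, hT⟩ := eventually_atTop.1 k1
      filter_upwards [eventually_ge_atTop T] with T' hT'
      exact not_not.2 fun k hk => not_lt.1 (hT k (hT'.trans hk)))).eventually_lt_const hη).exists
  obtain ⟨K, hK⟩ := b.window c hφ (sub_pos.2 h5)
  obtain ⟨T1, hT1⟩ := eventually_atTop.1 (eventually_mul_le h6 (K + 1))
  refine ⟨e0, T0 + T1, hr (fun n => f^[τ n] ⁻¹' B T0) _
    (fun n => hμ.measurable.iterate _ (hB T0)) (fun n => ?_) fun n x hx y hy k hk hk' => ?_⟩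
  · rw [← preimage_compl,
      (hν.iterate (τ n)).measureReal_preimage (hB T0).compl.nullMeasurableSet]
    exact hT0.le
  · have k1 := hK x hx.1 n y hy _ k (hσ n k hk).1
    have k2 := hx.2 k (by omega)
    rw [(hσ n k hk).2] at k2
    have k3 := hT1 k (by omega)
    linarith

theorem bS_back (gf : ∀ x, g (f x) = x) (φ : X → ℝ) {n k : ℕ} (hk : k ≤ n + 1) (x : X) :
    birkhoffSum g φ k (f^[n] x) = birkhoffSum f φ k (f^[n + 1 - k] x) := by
  unfold birkhoffSum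
  rw [← Finset.sum_range_reflect]
  refine Finset.sum_congr rfl fun i hi => ?_
  rw [Finset.mem_range] at hi
  rw [← Function.iterate_add_apply,
    show n = (k - 1 - i) + (i + (n + 1 - k)) by omega, Function.iterate_add_apply,
    Function.LeftInverse.iterate gf]
  congr 2
  omega

theorem bS_mul {p : X} {n : ℕ} (hp : f^[n] p = p) (φ : X → ℝ) (k : ℕ) :
    birkhoffSum f φ (n * k) p = k * birkhoffSum f φ n p := by
  induction k with
  | zero => simp
  | succ k ih =>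
    rw [Nat.mul_succ, birkhoffSum_add, ih, Function.IsPeriodicPt.mul_const hp k]
    push_cast
    ring

theorem bS_shift {p : X} {n : ℕ} (hp : f^[n] p = p) (φ : X → ℝ) (j : ℕ) :
    birkhoffSum f φ n (f^[j] p) = birkhoffSum f φ n p := by
  have h1 := birkhoffSum_add f φ j n p
  have h2 := birkhoffSum_add f φ n j p
  rw [hp, Nat.add_comm] at h2
  linarith

/-- Uniqueness in the local model. -/
theorem unique_model {T : Atlas X} {C β : ℝ} {A B : X → V →L[ℝ] V} (hA : Sm T f C β A)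
    (hB : Sm T g C β B) (hf : Continuous f) (hg : Continuous g) (gf : ∀ x, g (f x) = x)
    (fg : ∀ x, f (g x) = x) (hT : TopLE f h) (hh : 0 < h)
    (htr : ∀ U W : Set X, IsOpen U → IsOpen W → U.Nonempty → W.Nonempty →
      ∃ᶠ n in atTop, (U ∩ f^[n] ⁻¹' W).Nonempty)
    {μ ν : Measure X} [IsProbabilityMeasure μ] [IsProbabilityMeasure ν]
    (hμ : MeasurePreserving f μ μ) (hν : MeasurePreserving f ν ν)
    (mμ : ∀ d < h, ¬ EntLE μ f d) (mν : ∀ d < h, ¬ EntLE ν f d) : μ = ν := by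
  have hχ : 0 < h / 4 := by linarith
  have hl : exp (-(h / 4 / 2)) < 1 := exp_lt_one_iff.2 (by linarith)
  have c : Ctx f g (exp (-(h / 4 / 2))) ((1 - exp (-(h / 4 / 2))) / 3) h :=
    ⟨hf, hg, gf, fg, exp_pos _, by linarith, by linarith, hT, hh.le⟩
  have co := hA.coc hB hf.measurable hg.measurable gf fg
  obtain ⟨S, hS, hb⟩ := exists_boxes hA co hχ (eps := (1 - exp (-(h / 4 / 2))) / 3) (by linarith)
  have hS' : ∀ (μ : Measure X) [IsProbabilityMeasure μ], MeasurePreserving f μ μ → HMax μ f h →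
      ∀ᵐ x ∂μ, x ∈ S := fun μ _ hμ hm => by
    filter_upwards [hS μ hμ, ae_hasSt co hB hμ hm hχ.le (by linarith),
      ae_hasSt co.symm hA (measurePreserving_inv hμ hg.measurable gf)
        (hm.symm hμ hg.measurable gf fg) hχ.le (by linarith), ae_not_biSt co hμ hχ] with x a1 a2 a3 a4
    exact a1 ⟨⟨a2, a3⟩, a4⟩
  have key : ∀ (μ ν : Measure X) [IsProbabilityMeasure μ] [IsProbabilityMeasure ν],
      MeasurePreserving f μ μ → MeasurePreserving f ν ν → (∀ d < h, ¬ EntLE μ f d) →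
      (∀ d < h, ¬ EntLE ν f d) → ∀ φ : X → ℝ, Continuous φ → ∫ x, φ x ∂ν ≤ ∫ x, φ x ∂μ := by
    intro μ ν _ _ hμ hν mμ mν φ hφ
    by_contra hcon
    obtain ⟨α, h1, h2⟩ := exists_between (not_le.1 hcon)
    have m1 := hmax_of_max c hμ mμ
    have m2 := hmax_of_max c hν mν
    obtain ⟨e1, T1, r1⟩ := exists_rich c hμ m1 (hS' μ hμ m1) hb
      (measurePreserving_inv hμ hg.measurable gf) (fun Z => preimage_inv fg gf) hφ h1 id
      (fun n k => n + 1 - k) fun n k hk => ⟨by omega, bS_back gf φ hk⟩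
    obtain ⟨e2, T2, r2⟩ := exists_rich c hν m2 (hS' ν hν m2) hb hν (fun Z => id) hφ.neg
      (α := -α) (by rw [integral_neg']; linarith) (fun _ => 0) (fun _ _ => 0)
      fun n k hk => ⟨by omega, fun x => rfl⟩
    have hneg : ∀ k x, birkhoffSum f (-φ) k x = -birkhoffSum f φ k x := fun k x => by
      simp [birkhoffSum]
    refine r1.false c hh r2 (T1 := T1 + T2 + 1) (fun n1 n2 s y a1 a2 a3 a4 => ?_)
      (fun n1 b1 n2 b2 p1 a1 p2 a2 a3 a4 => ?_) htr
    · have k1 := a1 (n1 + 1 - s) (by omega) (by omega)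
      have k2 := a2 (n1 + 1 - s) (by omega) (by omega)
      rw [show n1 + 1 - (n1 + 1 - s) = s by omega] at k1
      rw [hneg, Function.iterate_zero, id] at k2
      linarith
    · rintro ⟨j, rfl⟩
      dsimp only at a2 a4
      have k1 := a1 n1 (by omega) (by omega)
      have k2 := a2 n2 (by omega) (by omega)
      rw [bS_shift a3] at k1
      rw [hneg, Function.iterate_zero, id] at k2
      have k3 := bS_mul a3 φ n2
      have k4 := bS_mul a4 φ n1
      rw [Nat.mul_comm, bS_shift (Function.IsPeriodicPt.mul_const a3 n2), k3] at k4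
      have k5 : (0 : ℝ) < n1 := by exact_mod_cast (by omega : 0 < n1)
      have k6 : (0 : ℝ) < n2 := by exact_mod_cast (by omega : 0 < n2)
      nlinarith
  exact ext_of_forall_integral_eq_of_IsFiniteMeasure fun φ =>
    le_antisymm (key ν μ hν hμ mν mμ φ φ.continuous) (key μ ν hμ hν mμ mν φ φ.continuous)

end Pool.Agent.MP_369096_an

end

-- part MP_369096_an.Mfd
section

/-!
From a compact surface with a `C^r` diffeomorphism to the local model.
-/

set_option autoImplicit false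
set_option linter.unusedSectionVars false
set_option linter.unusedVariables false

open MeasureTheory Filter Set Topology Real Metric
open scoped Manifold ContDiff

namespace Pool.Agent.MP_369096_an

section Hol

variable {E₁ E₂ E₃ : Type*} [NormedAddCommGroup E₁] [NormedSpace ℝ E₁] [NormedAddCommGroup E₂]
  [NormedSpace ℝ E₂] [NormedAddCommGroup E₃] [NormedSpace ℝ E₃] {β : ℝ}

/-- Continuously differentiable near `w` with Hölder derivative. -/
def Hol (β : ℝ) (F : E₁ → E₂) (w : E₁) : Prop :=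
  ContDiffAt ℝ 1 F w ∧ ∃ K : ℝ, 0 ≤ K ∧ ∃ U ∈ 𝓝 w, ∀ y ∈ U, ∀ z ∈ U,
    ‖fderiv ℝ F y - fderiv ℝ F z‖ ≤ K * ‖y - z‖ ^ β

theorem Hol.congr {F G : E₁ → E₂} {w : E₁} (h : Hol β F w) (e : G =ᶠ[𝓝 w] F) : Hol β G w := by
  obtain ⟨h1, K, hK, U, hU, h2⟩ := h
  refine ⟨h1.congr_of_eventuallyEq e, K, hK, _, inter_mem hU (e.fderiv (𝕜 := ℝ)), fun y hy z hz => ?_⟩
  rw [show fderiv ℝ G y = fderiv ℝ F y from hy.2, show fderiv ℝ G z = fderiv ℝ F z from hz.2]
  exact h2 y hy.1 z hz.1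

theorem Hol.near {F : E₁ → E₂} {w : E₁} (h : Hol β F w) :
    ∃ M : ℝ, 0 ≤ M ∧ ∀ᶠ y in 𝓝 w, DifferentiableAt ℝ F y ∧ ‖fderiv ℝ F y‖ ≤ M := by
  have h1 : ContinuousAt (fderiv ℝ F) w := (h.1.fderiv_right (m := 0) le_rfl).continuousAt
  refine ⟨‖fderiv ℝ F w‖ + 1, by positivity, ?_⟩
  filter_upwards [h.1.eventually (by simp), h1.norm.eventually_lt_const (lt_add_one _)] with y a b
  exact ⟨a.differentiableAt one_ne_zero, b.le⟩

theorem hol_of_two (hβ : 0 < β) (hβ1 : β ≤ 1) {F : E₁ → E₂} {w : E₁} (h : ContDiffAt ℝ 2 F w) :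
    Hol β F w := by
  obtain ⟨K, t, ht, hK⟩ := (h.fderiv_right (m := 1) le_rfl).exists_lipschitzOnWith
  refine ⟨h.of_le one_le_two, K, K.2, _, inter_mem ht (ball_mem_nhds w (by norm_num : (0 : ℝ) < 1 / 2)),
    fun y hy z hz => ?_⟩
  have h1 := hK.dist_le_mul y hy.1 z hz.1
  have h2 : ‖y - z‖ ≤ 1 := by
    have := dist_triangle_right y z w
    have a1 : dist y w < 1 / 2 := hy.2
    have a2 : dist z w < 1 / 2 := hz.2
    rw [← dist_eq_norm]
    linarith
  rw [dist_eq_norm, dist_eq_norm] at h1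
  exact h1.trans (mul_le_mul_of_nonneg_left (self_le_rpow_of_le_one (norm_nonneg _) h2 hβ1) K.2)

theorem Hol.comp (hβ : 0 < β) {F : E₁ → E₂} {G : E₂ → E₃} {w : E₁} (hG : Hol β G (F w))
    (hF : Hol β F w) : Hol β (G ∘ F) w := by
  obtain ⟨M1, hM1, n1⟩ := hF.near
  obtain ⟨M2, hM2, n2⟩ := hG.near
  obtain ⟨L, t, ht, hL⟩ := hF.1.exists_lipschitzOnWith
  have hc := hF.1.continuousAt
  obtain ⟨h1, K1, hK1, U1, hU1, k1⟩ := hF
  obtain ⟨h2, K2, hK2, U2, hU2, k2⟩ := hG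
  refine ⟨h2.comp w h1, M2 * K1 + K2 * L ^ β * M1, by positivity, _,
    inter_mem (inter_mem hU1 ht) (inter_mem n1 (hc (inter_mem hU2 n2))), fun y hy z hz => ?_⟩
  obtain ⟨⟨a1, a2⟩, a3, a4, a5⟩ := hy
  obtain ⟨⟨b1, b2⟩, b3, b4, b5⟩ := hz
  rw [fderiv_comp y a5.1 a3.1, fderiv_comp z b5.1 b3.1]
  have e : (fderiv ℝ G (F y)).comp (fderiv ℝ F y) - (fderiv ℝ G (F z)).comp (fderiv ℝ F z) =
      (fderiv ℝ G (F y)).comp (fderiv ℝ F y - fderiv ℝ F z) +
        (fderiv ℝ G (F y) - fderiv ℝ G (F z)).comp (fderiv ℝ F z) := by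
    ext v; simp
  have c1 := hL.dist_le_mul y a2 z b2
  rw [dist_eq_norm, dist_eq_norm] at c1
  have c2 := rpow_le_rpow (norm_nonneg _) c1 hβ.le
  rw [mul_rpow L.coe_nonneg (norm_nonneg _)] at c2
  have c3 := (k2 _ a4 _ b4).trans (mul_le_mul_of_nonneg_left c2 hK2)
  have c4 := mul_le_mul a5.2 (k1 y a1 z b1) (norm_nonneg _) hM2
  have c5 := mul_le_mul c3 b3.2 (norm_nonneg _) (by positivity)
  rw [e]
  refine (norm_add_le _ _).trans ((add_le_add (ContinuousLinearMap.opNorm_comp_le _ _)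
    (ContinuousLinearMap.opNorm_comp_le _ _)).trans ?_)
  change _ ≤ K2 * (L ^ β * _) * _ at c5
  linarith

end Hol

theorem IsCrNear.hol {r : ℝ} (hr : 1 < r) {F : EuclideanSpace ℝ (Fin 2) → EuclideanSpace ℝ (Fin 2)}
    {w : EuclideanSpace ℝ (Fin 2)} (h : IsCrNear r F w) : Hol (min (r - 1) 1) F w := by
  obtain ⟨U, hU, hw, h1, C, hC⟩ := h
  have h2 := h1.contDiffAt (hU.mem_nhds hw)
  rcases lt_or_ge r 2 with h3 | h3
  · have h4 : ⌊r⌋₊ = 1 := (Nat.floor_eq_iff (by linarith)).2 ⟨by simpa using hr.le, by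
      push_cast; linarith⟩
    rw [h4] at h2 hC
    rw [min_eq_left (by linarith)]
    refine ⟨by simpa using h2, max C 0, le_max_right _ _, U, hU.mem_nhds hw, fun y hy z hz => ?_⟩
    have h5 := hC y hy z hz
    rw [Nat.cast_one] at h5
    refine le_trans ?_ (h5.trans (mul_le_mul_of_nonneg_right (le_max_left _ _) (by positivity)))
    refine ContinuousLinearMap.opNorm_le_bound _ (norm_nonneg _) fun v => ?_
    have := (iteratedFDeriv ℝ 1 F y - iteratedFDeriv ℝ 1 F z).le_opNorm fun _ => v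
    simpa using this
  · refine hol_of_two (lt_min (by linarith) one_pos) (min_le_right _ _) (h2.of_le ?_)
    exact_mod_cast (Nat.le_floor (by simpa using h3) : 2 ≤ ⌊r⌋₊)

variable {X : Type*} [MetricSpace X]

/-- Uniform estimates for `f` in a pair of charts. -/
def Unif (c c' : OpenPartialHomeomorph X V) (f : X → X) (β C : ℝ) (x : X) : Prop :=
  ‖fderiv ℝ (c' ∘ f ∘ c.symm) (c x)‖ ≤ C ∧ ∀ w, dist w (c x) ≤ C⁻¹ → w ∈ c.target ∧
    f (c.symm w) ∈ c'.source ∧ DifferentiableAt ℝ (c' ∘ f ∘ c.symm) w ∧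
    ‖fderiv ℝ (c' ∘ f ∘ c.symm) w - fderiv ℝ (c' ∘ f ∘ c.symm) (c x)‖ ≤ C * ‖w - c x‖ ^ β

theorem near_chart {c : OpenPartialHomeomorph X V} {x : X} (hx : x ∈ c.source) {W : Set V}
    (hW : W ∈ 𝓝 (c x)) :
    ∀ᶠ p : ℝ × X in atTop ×ˢ 𝓝 x, c p.2 ∈ W ∧ ∀ w, dist w (c p.2) ≤ p.1⁻¹ → w ∈ W := by
  obtain ⟨ε, hε, h⟩ := Metric.mem_nhds_iff.1 hW
  filter_upwards [prod_mem_prod (tendsto_inv_atTop_zero.eventually_lt_const (half_pos hε))
    (c.continuousAt hx (ball_mem_nhds _ (half_pos hε)))] with p hp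
  have a1 : p.1⁻¹ < ε / 2 := hp.1
  have a2 : dist (c p.2) (c x) < ε / 2 := hp.2
  refine ⟨h (by rw [mem_ball]; linarith), fun w hw => h ?_⟩
  have := dist_triangle w (c p.2) (c x)
  rw [mem_ball]
  linarith

theorem eventually_unif {c c' : OpenPartialHomeomorph X V} {f : X → X} (hf : Continuous f) {β : ℝ}
    {x : X} (hx : x ∈ c.source) (hx' : f x ∈ c'.source) (h : Hol β (c' ∘ f ∘ c.symm) (c x)) :
    ∀ᶠ p : ℝ × X in atTop ×ˢ 𝓝 x, Unif c c' f β p.1 p.2 := by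
  obtain ⟨M, hM, n1⟩ := h.near
  obtain ⟨-, K, hK, U, hU, k1⟩ := h
  have n2 : ∀ᶠ w in 𝓝 (c x), f (c.symm w) ∈ c'.source :=
    (hf.tendsto x).comp (c.tendsto_symm hx) (c'.open_source.mem_nhds hx')
  filter_upwards [near_chart hx (inter_mem (inter_mem hU n1)
    (inter_mem n2 (c.open_target.mem_nhds (c.map_source hx)))),
    (eventually_ge_atTop M).prod_inl _, (eventually_ge_atTop K).prod_inl _] with p a1 a2 a3
  refine ⟨a1.1.1.2.2.trans a2, fun w hw => ?_⟩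
  obtain ⟨⟨b1, b2⟩, b3, b4⟩ := a1.2 w hw
  exact ⟨b4, b3, b2.1, (k1 _ b1 _ a1.1.1.1).trans (mul_le_mul_of_nonneg_right a3 (by positivity))⟩

theorem eventually_forall_cpt {K : Set X} (hK : IsCompact K) {p : ℝ → X → Prop}
    (h : ∀ x ∈ K, ∀ᶠ q : ℝ × X in atTop ×ˢ 𝓝 x, p q.1 q.2) : ∀ᶠ C in atTop, ∀ x ∈ K, p C x := by
  obtain ⟨A, hA, B, hB, hAB⟩ := mem_prod_iff.1 (hK.mem_prod_nhdsSet_of_forall h)
  filter_upwards [hA] with C hC x hx
  exact hAB (mk_mem_prod hC (subset_of_mem_nhdsSet hB hx))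

variable [CompactSpace X] [MeasurableSpace X] [BorelSpace X]

theorem sm_of_unif (T : Atlas X) {f : X → X} (hf : Continuous f) {β C : ℝ} (hβ : 0 < β)
    (hC : 1 ≤ C) (hρ : T.ρ = C⁻¹) (h : ∀ x, Unif (T.c (T.ι x)) (T.c (T.ι (f x))) f β C x) :
    Sm T f C β fun x => fderiv ℝ (T.c (T.ι (f x)) ∘ f ∘ (T.c (T.ι x)).symm) (T.pos x) := by
  refine ⟨hC, hβ, fun v s hs => ?_, fun x v => (ContinuousLinearMap.le_opNorm _ _).trans
    (mul_le_mul_of_nonneg_right (h x).1 (norm_nonneg _)),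
    fun x w hw => ((h x).2 w (hρ ▸ hw)).2.1, fun x r w w' hr hw hw' => ?_⟩
  · have : (fun x => fderiv ℝ (T.c (T.ι (f x)) ∘ f ∘ (T.c (T.ι x)).symm) (T.pos x) v) ⁻¹' s =
        ⋃ i, ⋃ j, T.ι ⁻¹' {i} ∩ f ⁻¹' (T.ι ⁻¹' {j}) ∩
          T.pos ⁻¹' ((fun w => fderiv ℝ (T.c j ∘ f ∘ (T.c i).symm) w v) ⁻¹' s) := by
      ext x
      simp only [mem_preimage, mem_iUnion, mem_inter_iff, mem_singleton_iff]
      exact ⟨fun h => ⟨_, _, ⟨rfl, rfl⟩, h⟩, by rintro ⟨_, _, ⟨rfl, rfl⟩, h⟩; exact h⟩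
    rw [this]
    exact MeasurableSet.iUnion fun i => MeasurableSet.iUnion fun j =>
      ((T.ι_mp i).inter (hf.measurable (T.ι_mp j))).inter
        (T.measurable_pos (measurable_fderiv_apply_const ℝ _ v hs))
  · have k := fun u (hu : u ∈ closedBall (T.pos x) r) => (h x).2 u (hρ ▸ le_trans hu hr)
    exact (convex_closedBall (T.pos x) r).norm_image_sub_le_of_norm_fderiv_le'
      (fun u hu => (k u hu).2.2.1) (fun u hu => (k u hu).2.2.2.trans
        (mul_le_mul_of_nonneg_left (rpow_le_rpow (norm_nonneg _) (mem_closedBall_iff_norm.1 hu) hβ.le)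
          (by linarith))) hw' hw

theorem exists_model (c : X → OpenPartialHomeomorph X V) (hc : ∀ x, x ∈ (c x).source)
    {f g : X → X} (hf : Continuous f) (hg : Continuous g) {β : ℝ} (hβ : 0 < β)
    (Hf : ∀ p q x, x ∈ (c p).source → f x ∈ (c q).source → Hol β (c q ∘ f ∘ (c p).symm) (c p x))
    (Hg : ∀ p q x, x ∈ (c p).source → g x ∈ (c q).source → Hol β (c q ∘ g ∘ (c p).symm) (c p x)) :
    ∃ (T : Atlas X) (C : ℝ) (A B : X → V →L[ℝ] V), Sm T f C β A ∧ Sm T g C β B := by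
  classical
  choose K hK1 hK2 hK3 using fun x => exists_compact_subset (c x).open_source (hc x)
  obtain ⟨t, -, ht⟩ := isCompact_univ.elim_nhds_subcover K
    fun x _ => mem_interior_iff_mem_nhds.1 (hK2 x)
  let p : Fin t.card → X := fun i => t.equivFin.symm i
  have hex : ∀ x, ∃ i, x ∈ K (p i) := fun x => by
    obtain ⟨y, hy, hx⟩ := mem_iUnion₂.1 (ht (mem_univ x))
    exact ⟨t.equivFin ⟨y, hy⟩, by simpa [p] using hx⟩
  let ι : X → Fin t.card := fun x => Fin.find _ (hex x)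
  have hι : ∀ x, x ∈ K (p (ι x)) := fun x => Fin.find_spec (hex x)
  have key : ∀ f : X → X, Continuous f → (∀ p q x, x ∈ (c p).source → f x ∈ (c q).source →
      Hol β (c q ∘ f ∘ (c p).symm) (c p x)) →
      ∀ᶠ C in atTop, ∀ x, Unif (c (p (ι x))) (c (p (ι (f x)))) f β C x := fun f hf Hf => by
    have : ∀ᶠ C in atTop, ∀ i j, ∀ x ∈ K (p i) ∩ f ⁻¹' K (p j), Unif (c (p i)) (c (p j)) f β C x :=
      eventually_all.2 fun i => eventually_all.2 fun j => eventually_forall_cpt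
        ((hK1 _).inter_right ((hK1 _).isClosed.preimage hf)) fun x hx =>
          eventually_unif hf (hK3 _ hx.1) (hK3 _ hx.2) (Hf _ _ x (hK3 _ hx.1) (hK3 _ hx.2))
    filter_upwards [this] with C hC x using hC _ _ x ⟨hι x, hι _⟩
  obtain ⟨C, ⟨h1, h2⟩, h3⟩ := (((key f hf Hf).and (key g hg Hg)).and (eventually_ge_atTop 1)).exists
  let T : Atlas X :=
    { n := t.card
      c := fun i => c (p i)
      ι := ι
      ι_mp := fun i => by
        have : ι ⁻¹' {i} = K (p i) ∩ ⋂ j, ⋂ (_ : j < i), (K (p j))ᶜ := by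
          ext x
          simp [ι, Fin.find_eq_iff]
        rw [this]
        exact (hK1 _).measurableSet.inter (MeasurableSet.iInter fun j =>
          MeasurableSet.iInter fun _ => (hK1 _).measurableSet.compl)
      ρ := C⁻¹
      ρ_pos := by positivity
      mem := fun x => hK3 _ (hι x)
      ball := fun x w hw => ((h1 x).2 w hw).1
      bdd := by
        choose R hR using fun i => (hK1 (p i)).exists_bound_of_continuousOn
          ((c (p i)).continuousOn.mono (hK3 _))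
        obtain ⟨R', hR'⟩ := (finite_range R).bddAbove
        exact ⟨R', fun x => (hR _ x (hι x)).trans (hR' ⟨_, rfl⟩)⟩
      uc := fun η hη => by
        have : ∀ᶠ C in atTop, ∀ i, ∀ x ∈ K (p i), ∀ w, dist w (c (p i) x) ≤ C⁻¹ →
            dist ((c (p i)).symm w) x < η :=
          eventually_all.2 fun i => eventually_forall_cpt (hK1 _) fun x hx => by
            filter_upwards [near_chart (hK3 _ hx)
              ((c (p i)).tendsto_symm (hK3 _ hx) (ball_mem_nhds _ (half_pos hη))),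
              (show ∀ᶠ y in 𝓝 x, dist y x < η / 2 from ball_mem_nhds _ (half_pos hη)).prod_inr _]
              with q a1 a2 w hw
            have a3 : dist ((c (p i)).symm w) x < η / 2 := a1.2 w hw
            have := dist_triangle_right ((c (p i)).symm w) q.2 x
            linarith
        obtain ⟨D, hD, hD0⟩ := (this.and (eventually_gt_atTop 0)).exists
        exact ⟨D⁻¹, by positivity, fun x w hw => hD _ x (hι x) w hw.le⟩ }
  exact ⟨T, C, _, _, sm_of_unif T hf hβ h3 rfl h1, sm_of_unif T hg hβ h3 rfl h2⟩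

theorem forward_trans (f : X ≃ₜ X) (hinf : ∀ U : Set X, IsOpen U → U.Nonempty → U.Infinite)
    (htr : ∀ U W : Set X, IsOpen U → IsOpen W → U.Nonempty → W.Nonempty →
      ∃ n : ℤ, ((f ^ n : X ≃ₜ X) '' U ∩ W).Nonempty)
    (U W : Set X) (hU : IsOpen U) (hW : IsOpen W) (hU' : U.Nonempty) (hW' : W.Nonempty) :
    ∃ᶠ n in atTop, (U ∩ f^[n] ⁻¹' W).Nonempty := by
  have it : ∀ (n : ℕ) x, (f ^ (n : ℤ) : X ≃ₜ X) x = f^[n] x := fun n x => by
    rw [zpow_natCast]
    induction n with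
    | zero => rfl
    | succ n ih => rw [pow_succ', Function.iterate_succ_apply', ← ih]; rfl
  have ad : ∀ (m n : ℤ) x, (f ^ (m + n) : X ≃ₜ X) x = (f ^ m : X ≃ₜ X) ((f ^ n : X ≃ₜ X) x) :=
    fun m n x => by rw [zpow_add]; rfl
  have key : ∀ (O : Set X) (N : ℕ), IsOpen O → O.Nonempty →
      ∃ m : ℤ, N ≤ m ∧ ∃ z ∈ O, (f ^ m : X ≃ₜ X) z ∈ O := fun O N hO hO' => by
    obtain ⟨x, hx⟩ := hO'
    obtain ⟨y, hy, hy'⟩ := (hinf O hO ⟨x, hx⟩).exists_notMem_finite
      ((finite_Ioo (-N : ℤ) N).image fun n => (f ^ n : X ≃ₜ X) x)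
    have h1 : ∀ᶠ q : X × X in 𝓝 (x, y), ∀ n ∈ Ioo (-N : ℤ) N, (f ^ n : X ≃ₜ X) q.1 ≠ q.2 :=
      (eventually_all_finite (finite_Ioo _ _)).2 fun n hn =>
        (isOpen_ne_fun ((f ^ n : X ≃ₜ X).continuous.comp continuous_fst) continuous_snd).mem_nhds
          fun h => hy' ⟨n, hn, h⟩
    obtain ⟨U1, U2, a1, a2, a3, a4, a5⟩ := mem_nhds_prod_iff'.1 h1
    obtain ⟨n, _, ⟨u, hu, rfl⟩, hu'⟩ := htr (U1 ∩ O) (U2 ∩ O) (a1.inter hO) (a3.inter hO)
      ⟨x, a2, hx⟩ ⟨y, a4, hy⟩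
    have h2 : n ∉ Ioo (-N : ℤ) N := fun hn => a5 (mk_mem_prod hu.1 hu'.1) n hn rfl
    rcases le_total 0 n with h3 | h3
    · exact ⟨n, by simp only [mem_Ioo] at h2; omega, u, hu.2, hu'.2⟩
    · refine ⟨-n, by simp only [mem_Ioo] at h2; omega, _, hu'.2, ?_⟩
      rw [← ad, neg_add_cancel, zpow_zero]
      exact hu.2
  obtain ⟨n, hn⟩ := htr U W hU hW hU' hW'
  rw [frequently_atTop]
  intro N
  obtain ⟨m, hm, _, ⟨⟨u, hu, rfl⟩, -⟩, -, h2⟩ := key _ (N + n.natAbs)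
    (((f ^ n : X ≃ₜ X).isOpenMap U hU).inter hW) hn
  refine ⟨(m + n).toNat, by omega, u, hu, ?_⟩
  rw [mem_preimage, ← it, Int.toNat_of_nonneg (by omega), ad]
  exact h2

theorem Atlas.infinite (T : Atlas X) {U : Set X} (hU : IsOpen U) (hU' : U.Nonempty) :
    U.Infinite := by
  obtain ⟨x, hx⟩ := hU'
  exact Set.Infinite.of_image (T.c (T.ι x))
    (infinite_of_mem_nhds _ ((T.c _).image_mem_nhds (T.mem x) (hU.mem_nhds hx)))

section Mfd

variable [ChartedSpace (EuclideanSpace ℝ (Fin 2)) X] [IsManifold (𝓡 2) ∞ X]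

theorem contDiffAt_trans (p q : X) {x : X} (hp : x ∈ (chartAt (EuclideanSpace ℝ (Fin 2)) p).source)
    (hq : x ∈ (chartAt (EuclideanSpace ℝ (Fin 2)) q).source) :
    ContDiffAt ℝ 2 (chartAt (EuclideanSpace ℝ (Fin 2)) q ∘ (chartAt (EuclideanSpace ℝ (Fin 2)) p).symm)
      (chartAt (EuclideanSpace ℝ (Fin 2)) p x) := by
  have := contDiffWithinAt_ext_coord_change (I := 𝓡 2) (n := ∞) q p
    (y := chartAt (EuclideanSpace ℝ (Fin 2)) p x) (by simp [hp, hq])
  simp only [modelWithCornersSelf_coe, range_id, contDiffWithinAt_univ] at this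
  exact this.of_le (WithTop.coe_le_coe.2 (le_top : (2 : ℕ∞) ≤ ⊤))

theorem IsCr.hol {r : ℝ} (hr : 1 < r) {f : X → X} (hf : IsCr r f)
    (L : EuclideanSpace ℝ (Fin 2) ≃L[ℝ] V) (p q x : X)
    (hp : x ∈ (chartAt (EuclideanSpace ℝ (Fin 2)) p).source)
    (hq : f x ∈ (chartAt (EuclideanSpace ℝ (Fin 2)) q).source) :
    Hol (min (r - 1) 1) ((chartAt (EuclideanSpace ℝ (Fin 2)) q).transHomeomorph L.toHomeomorph ∘ f ∘
      ((chartAt (EuclideanSpace ℝ (Fin 2)) p).transHomeomorph L.toHomeomorph).symm)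
      ((chartAt (EuclideanSpace ℝ (Fin 2)) p).transHomeomorph L.toHomeomorph x) := by
  have hβ : 0 < min (r - 1) 1 := lt_min (by linarith) one_pos
  have hβ1 := min_le_right (r - 1) 1
  set cp := chartAt (EuclideanSpace ℝ (Fin 2)) p
  set cq := chartAt (EuclideanSpace ℝ (Fin 2)) q
  set cx := chartAt (EuclideanSpace ℝ (Fin 2)) x
  set cy := chartAt (EuclideanSpace ℝ (Fin 2)) (f x)
  have hx : x ∈ cx.source := mem_chart_source _ x
  have hy : f x ∈ cy.source := mem_chart_source _ (f x)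
  have h1 : Hol _ (cx ∘ cp.symm) (cp x) := hol_of_two hβ hβ1 (contDiffAt_trans p x hp hx)
  have h2 : Hol _ (cq ∘ cy.symm) (cy (f x)) := hol_of_two hβ hβ1 (contDiffAt_trans (f x) q hy hq)
  have h3 : Hol _ (cy ∘ f ∘ cx.symm) (cx x) := (hf.2 x).hol hr
  have h4 : Hol _ ((cy ∘ f ∘ cx.symm) ∘ (cx ∘ cp.symm)) (cp x) :=
    Hol.comp hβ (by simpa [hp] using h3) h1
  have h5 : Hol _ ((cq ∘ cy.symm) ∘ (cy ∘ f ∘ cx.symm) ∘ (cx ∘ cp.symm)) (cp x) :=
    Hol.comp hβ (by simpa [hp, hx] using h2) h4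
  have h6 : Hol (min (r - 1) 1) (cq ∘ f ∘ cp.symm) (cp x) := h5.congr (by
    filter_upwards [cp.tendsto_symm hp (cx.open_source.mem_nhds hx),
      (hf.1.tendsto x).comp (cp.tendsto_symm hp) (cy.open_source.mem_nhds hy)] with w a1 a2
    simp only [Function.comp_apply]
    rw [cx.left_inv a1, cy.left_inv (show f (cp.symm w) ∈ cy.source from a2)])
  have h7 : Hol (min (r - 1) 1) ((cq ∘ f ∘ cp.symm) ∘ L.symm) (L (cp x)) :=
    Hol.comp hβ (by simpa using h6) (hol_of_two hβ hβ1 L.symm.contDiff.contDiffAt)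
  exact Hol.comp (G := L) hβ (hol_of_two hβ hβ1 L.contDiff.contDiffAt) h7

theorem unique_mme {r : ℝ} (hr : 1 < r) (f : X ≃ₜ X) (hf : IsCr r f) (hg : IsCr r f.symm)
    (htr : ∀ U W : Set X, IsOpen U → IsOpen W → U.Nonempty → W.Nonempty →
      ∃ n : ℤ, ((f ^ n : X ≃ₜ X) '' U ∩ W).Nonempty)
    (hpos : 0 < Dynamics.coverEntropy f univ) {μ ν : Measure X} (hμ : IsMME f μ)
    (hν : IsMME f ν) : μ = ν := by
  obtain ⟨L⟩ : Nonempty (EuclideanSpace ℝ (Fin 2) ≃L[ℝ] V) :=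
    FiniteDimensional.nonempty_continuousLinearEquiv_of_finrank_eq (by simp)
  obtain ⟨T, C, A, B, hA, hB⟩ := exists_model
    (fun p => (chartAt (EuclideanSpace ℝ (Fin 2)) p).transHomeomorph L.toHomeomorph)
    (fun x => mem_chart_source _ x) hf.1 hg.1 (lt_min (by linarith) one_pos)
    (hf.hol hr L) (hg.hol hr L)
  obtain ⟨i1, m1, e1⟩ := hμ
  obtain ⟨i2, m2, e2⟩ := hν
  have hfin : Dynamics.coverEntropy f univ ≠ ⊤ := by
    have := ksEntropy_le_of_entLE (ruelle hA μ m1 1 (S := univ) (Eventually.of_forall fun _ => trivial)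
      (N := fun _ => C) (fun _ => hA.one_le) (integrable_const _) fun x _ v => hA.norm x v)
    rw [Function.iterate_one, e1] at this
    exact ne_top_of_le_ne_top (EReal.coe_ne_top _) this
  obtain ⟨h, hh⟩ : ∃ h : ℝ, Dynamics.coverEntropy f univ = h :=
    ⟨_, (EReal.coe_toReal hfin (ne_bot_of_gt hpos)).symm⟩
  rw [hh] at hpos e1 e2
  refine unique_model hA hB hf.1 hg.1 f.symm_apply_apply f.apply_symm_apply
    (topLE_of_coverEntropy hh.le) (by exact_mod_cast hpos)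
    (forward_trans f (fun U => T.infinite) htr) m1 m2 (fun d hd hE => ?_) fun d hd hE => ?_
  · have := ksEntropy_le_of_entLE hE
    rw [e1, EReal.coe_le_coe_iff] at this
    linarith
  · have := ksEntropy_le_of_entLE hE
    rw [e2, EReal.coe_le_coe_iff] at this
    linarith

end Mfd

end Pool.Agent.MP_369096_an

end
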