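import Pool.Agent.MP_369096_an.Mg.H89_Meas
import Pool.Agent.Lib.Birkhoff.Pointwise

-- part MP_369096_an.Model
section

/-!
The local model: a finite atlas with uniform constants, the derivative cocycle, and the weak
Ruelle inequality.
-/

set_option autoImplicit false
set_option linter.unusedSectionVars false
set_option linter.unusedVariables false

open MeasureTheory Filter Set Topology Real Metric

namespace Pool.Agent.MP_369096_an

/-- The plane with the sup norm. -/
abbrev V : Type := ℝ × ℝ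

/-- A finite atlas with a measurable choice of chart and uniform constants. -/
structure Atlas (X : Type*) [MetricSpace X] [MeasurableSpace X] where
  n : ℕ
  c : Fin n → OpenPartialHomeomorph X V
  ι : X → Fin n
  ι_mp : MP ι
  ρ : ℝ
  ρ_pos : 0 < ρ
  mem : ∀ x, x ∈ (c (ι x)).source
  ball : ∀ x w, dist w (c (ι x) x) ≤ ρ → w ∈ (c (ι x)).target
  bdd : ∃ R : ℝ, ∀ x, ‖c (ι x) x‖ ≤ R
  uc : ∀ η > 0, ∃ δ > 0, ∀ x w, dist w (c (ι x) x) < δ → dist ((c (ι x)).symm w) x < η

variable {X : Type*} [MetricSpace X] [MeasurableSpace X]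

/-- The coordinates of a point in its chart. -/
def Atlas.pos (T : Atlas X) (x : X) : V := T.c (T.ι x) x

/-- The inverse chart at a point. -/
def Atlas.inv (T : Atlas X) (x : X) (w : V) : X := (T.c (T.ι x)).symm w

theorem Atlas.inv_pos (T : Atlas X) (x : X) : T.inv x (T.pos x) = x :=
  (T.c (T.ι x)).left_inv (T.mem x)

theorem Atlas.measurable_pos [BorelSpace X] (T : Atlas X) : Measurable T.pos := by
  intro s hs
  have : T.pos ⁻¹' s = ⋃ i, (T.ι ⁻¹' {i} ∩ ((T.c i).source ∩ T.c i ⁻¹' s)) := by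
    ext x
    simp only [mem_preimage, mem_iUnion, mem_inter_iff, mem_singleton_iff]
    constructor
    · intro h; exact ⟨T.ι x, rfl, T.mem x, h⟩
    · rintro ⟨i, rfl, -, h⟩; exact h
  rw [this]
  refine MeasurableSet.iUnion fun i => (T.ι_mp i).inter ?_
  have h1 : Measurable ((T.c i).source.domRestrict (T.c i)) :=
    (continuousOn_iff_continuous_domRestrict.1 (T.c i).continuousOn).measurable
  have h2 := (MeasurableEmbedding.subtype_coe (T.c i).open_source.measurableSet).measurableSet_image.2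
    (h1 hs)
  convert h2 using 1
  ext x; simp [and_comm]

/-- Uniform first-order expansion of a map in the charts, with Hölder remainder. -/
structure Sm (T : Atlas X) (f : X → X) (C β : ℝ) (A : X → V →L[ℝ] V) : Prop where
  one_le : 1 ≤ C
  β_pos : 0 < β
  meas : ∀ v, Measurable fun x => A x v
  norm : ∀ x v, ‖A x v‖ ≤ C * ‖v‖
  src : ∀ x w, dist w (T.pos x) ≤ T.ρ → f (T.inv x w) ∈ (T.c (T.ι (f x))).source
  est : ∀ x r w w', r ≤ T.ρ → dist w (T.pos x) ≤ r → dist w' (T.pos x) ≤ r →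
    ‖T.c (T.ι (f x)) (f (T.inv x w)) - T.c (T.ι (f x)) (f (T.inv x w')) - A x (w - w')‖ ≤
      C * r ^ β * ‖w - w'‖

/-- The derivative cocycle. -/
noncomputable def An (f : X → X) (A : X → V →L[ℝ] V) : ℕ → X → V →L[ℝ] V
  | 0 => fun _ => ContinuousLinearMap.id ℝ V
  | n + 1 => fun x => (A (f^[n] x)).comp (An f A n x)

section An

variable {f g : X → X} {A B : X → V →L[ℝ] V}

@[simp] theorem An_zero (x : X) (v : V) : An f A 0 x v = v := rfl

theorem An_succ (n : ℕ) (x : X) (v : V) : An f A (n + 1) x v = A (f^[n] x) (An f A n x v) := rfl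

theorem An_add (m n : ℕ) (x : X) (v : V) :
    An f A (m + n) x v = An f A n (f^[m] x) (An f A m x v) := by
  induction n with
  | zero => rfl
  | succ n ih =>
    rw [← Nat.add_assoc, An_succ, An_succ, ih, ← Function.iterate_add_apply, Nat.add_comm n m]

theorem An_succ' (n : ℕ) (x : X) (v : V) : An f A (n + 1) x v = An f A n (f x) (A x v) := by
  rw [Nat.add_comm, An_add]; rfl

theorem An_norm_le {C : ℝ} (hC : 0 ≤ C) (h : ∀ x v, ‖A x v‖ ≤ C * ‖v‖) (n : ℕ) (x : X) (v : V) :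
    ‖An f A n x v‖ ≤ C ^ n * ‖v‖ := by
  induction n with
  | zero => simp
  | succ n ih =>
    rw [An_succ, pow_succ]
    refine (h _ _).trans ?_
    nlinarith

theorem apply_eq_basis (L : V →L[ℝ] V) (v : V) : L v = v.1 • L (1, 0) + v.2 • L (0, 1) := by
  rw [← map_smul, ← map_smul, ← map_add]
  congr 1
  ext <;> simp

theorem measurable_apply_meas {L : X → V →L[ℝ] V} (hL : ∀ v, Measurable fun x => L x v)
    {u : X → V} (hu : Measurable u) : Measurable fun x => L x (u x) := by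
  have : (fun x => L x (u x)) = fun x => (u x).1 • L x (1, 0) + (u x).2 • L x (0, 1) := by
    funext x; exact apply_eq_basis _ _
  rw [this]
  exact (hu.fst.smul (hL _)).add (hu.snd.smul (hL _))

theorem measurable_An (hf : Measurable f) (hA : ∀ v, Measurable fun x => A x v) (n : ℕ) (v : V) :
    Measurable fun x => An f A n x v := by
  induction n with
  | zero => exact measurable_const
  | succ n ih =>
    exact measurable_apply_meas (L := fun x => A (f^[n] x))
      (fun v => (hA v).comp (hf.iterate n)) ih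

theorem An_inv (hgf : ∀ x, g (f x) = x) (hBA : ∀ x v, B (f x) (A x v) = v) (n : ℕ) (x : X)
    (v : V) : An g B n (f^[n] x) (An f A n x v) = v := by
  induction n with
  | zero => rfl
  | succ n ih =>
    rw [An_succ', An_succ, Function.iterate_succ_apply', hgf, hBA, ih]

end An

variable {T : Atlas X} {f g : X → X} {C β : ℝ} {A B : X → V →L[ℝ] V}

theorem exists_rpow_le (hβ : 0 < β) {ε : ℝ} (hε : 0 < ε) :
    ∃ δ > 0, ∀ r, 0 ≤ r → r ≤ δ → r ^ β ≤ ε := by
  refine ⟨ε ^ β⁻¹, rpow_pos_of_pos hε _, fun r hr hrδ => ?_⟩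
  have := rpow_le_rpow hr hrδ hβ.le
  rwa [← rpow_mul hε.le, inv_mul_cancel₀ hβ.ne', rpow_one] at this

theorem Sm.iter_est (hA : Sm T f C β A) (n : ℕ) {ε : ℝ} (hε : 0 < ε) :
    ∃ δ > 0, δ ≤ T.ρ ∧ ∀ x w, dist w (T.pos x) ≤ δ →
      f^[n] (T.inv x w) ∈ (T.c (T.ι (f^[n] x))).source ∧
      ‖T.c (T.ι (f^[n] x)) (f^[n] (T.inv x w)) - T.pos (f^[n] x) - An f A n x (w - T.pos x)‖ ≤
        ε * ‖w - T.pos x‖ := by
  have hC := hA.one_le
  induction n generalizing ε with
  | zero =>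
    refine ⟨T.ρ, T.ρ_pos, le_rfl, fun x w hw => ⟨(T.c _).map_target (T.ball x w hw), ?_⟩⟩
    simp only [Function.iterate_zero, id, An_zero, Atlas.inv]
    rw [(T.c _).right_inv (T.ball x w hw)]
    simp only [sub_self, norm_zero]
    positivity
  | succ n ih =>
    obtain ⟨δ1, hδ1, hδ1ρ, h1⟩ := ih (ε := min 1 (ε / (2 * C))) (lt_min one_pos (by positivity))
    have hD : 0 < C ^ n + 1 := by positivity
    obtain ⟨δ2, hδ2, h2⟩ := exists_rpow_le hA.β_pos (ε := ε / (2 * C * (C ^ n + 1)))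
      (by positivity)
    have hρ := T.ρ_pos
    refine ⟨min δ1 (min δ2 T.ρ / (C ^ n + 1)), lt_min hδ1 (div_pos (lt_min hδ2 hρ) hD),
      (min_le_left _ _).trans hδ1ρ, fun x w hw => ?_⟩
    obtain ⟨k1, k2⟩ := h1 x w (hw.trans (min_le_left _ _))
    set y := f^[n] x with hy
    set w1 := T.c (T.ι y) (f^[n] (T.inv x w)) with hw1
    have e1 : T.inv y w1 = f^[n] (T.inv x w) := (T.c _).left_inv k1
    have k3 := An_norm_le (f := f) (by linarith) hA.norm n x (w - T.pos x)
    have hn0 := norm_nonneg (w - T.pos x)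
    have k4 : ‖w1 - T.pos y‖ ≤ (C ^ n + 1) * ‖w - T.pos x‖ := by
      have := norm_add_le (w1 - T.pos y - An f A n x (w - T.pos x)) (An f A n x (w - T.pos x))
      rw [sub_add_cancel] at this
      have h5 : min 1 (ε / (2 * C)) * ‖w - T.pos x‖ ≤ 1 * ‖w - T.pos x‖ :=
        mul_le_mul_of_nonneg_right (min_le_left _ _) hn0
      linarith
    have k5 : (C ^ n + 1) * ‖w - T.pos x‖ ≤ min δ2 T.ρ := by
      have := hw.trans (min_le_right _ _)
      rw [dist_eq_norm, le_div_iff₀ hD] at this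
      linarith
    have k6 : ‖w1 - T.pos y‖ ≤ min δ2 T.ρ := k4.trans k5
    have k7 := hA.src y w1 (by rw [dist_eq_norm]; exact k6.trans (min_le_right _ _))
    have k8 := hA.est y (min δ2 T.ρ) w1 (T.pos y) (min_le_right _ _)
      (by rw [dist_eq_norm]; exact k6) (by rw [dist_self]; exact (lt_min hδ2 hρ).le)
    rw [e1, T.inv_pos] at k8
    rw [e1] at k7
    rw [Function.iterate_succ_apply', Function.iterate_succ_apply', ← hy]
    refine ⟨k7, ?_⟩
    rw [An_succ, ← hy]
    have k9 := h2 (min δ2 T.ρ) (lt_min hδ2 hρ).le (min_le_left _ _)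
    have k10 := hA.norm y (w1 - T.pos y - An f A n x (w - T.pos x))
    have e2 : T.c (T.ι (f y)) (f (f^[n] (T.inv x w))) - T.pos (f y) -
        A y (An f A n x (w - T.pos x)) =
        (T.c (T.ι (f y)) (f (f^[n] (T.inv x w))) - T.c (T.ι (f y)) (f y) - A y (w1 - T.pos y)) +
          A y (w1 - T.pos y - An f A n x (w - T.pos x)) := by
      rw [map_sub (A y) (w1 - T.pos y)]
      simp only [Atlas.pos]
      abel
    rw [e2]
    refine (norm_add_le _ _).trans ?_
    have k11 : C * min δ2 T.ρ ^ β * ‖w1 - T.pos y‖ ≤ ε / 2 * ‖w - T.pos x‖ := by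
      calc C * min δ2 T.ρ ^ β * ‖w1 - T.pos y‖
          ≤ C * (ε / (2 * C * (C ^ n + 1))) * ((C ^ n + 1) * ‖w - T.pos x‖) := by gcongr
        _ = ε / 2 * ‖w - T.pos x‖ := by field_simp
    have k12 : C * ‖w1 - T.pos y - An f A n x (w - T.pos x)‖ ≤ ε / 2 * ‖w - T.pos x‖ := by
      calc C * ‖w1 - T.pos y - An f A n x (w - T.pos x)‖
          ≤ C * (ε / (2 * C) * ‖w - T.pos x‖) := by
            gcongr
            exact k2.trans (mul_le_mul_of_nonneg_right (min_le_right _ _) hn0)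
        _ = ε / 2 * ‖w - T.pos x‖ := by field_simp
    linarith

theorem Sm.inv_eq (hA : Sm T f C β A) (hB : Sm T g C β B) (hgf : ∀ x, g (f x) = x) (x : X)
    (v : V) : B (f x) (A x v) = v := by
  have hC := hA.one_le
  have key : ∀ ε > 0, ‖B (f x) (A x v) - v‖ ≤ ε * ((2 * C + ε) * ‖v‖) := by
    intro ε hε
    obtain ⟨δ1, hδ1, hρ1, h1⟩ := hA.iter_est 1 hε
    obtain ⟨δ2, hδ2, hρ2, h2⟩ := hB.iter_est 1 hε
    have hv := norm_nonneg v
    set t := min δ1 δ2 / ((C + ε) * (‖v‖ + 1)) with ht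
    have hm : 0 < min δ1 δ2 := lt_min hδ1 hδ2
    have ht0 : 0 < t := by positivity
    have ht1 : (C + ε) * (t * ‖v‖) ≤ min δ1 δ2 := by
      rw [ht, div_mul_eq_mul_div, mul_div_assoc', div_le_iff₀ (by positivity)]
      have : 0 ≤ min δ1 δ2 * (C + ε) := by positivity
      nlinarith
    have ht2 : t * ‖v‖ ≤ min δ1 δ2 := by
      have : 0 ≤ t * ‖v‖ := by positivity
      nlinarith
    have e0 : ‖t • v‖ = t * ‖v‖ := by rw [norm_smul, Real.norm_of_nonneg ht0.le]
    have hw : dist (T.pos x + t • v) (T.pos x) ≤ δ1 := by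
      rw [dist_eq_norm, add_sub_cancel_left, e0]; exact ht2.trans (min_le_left _ _)
    obtain ⟨k1, k2⟩ := h1 x _ hw
    simp only [Function.iterate_one, add_sub_cancel_left, e0] at k1 k2
    rw [show An f A 1 x (t • v) = A x (t • v) from rfl] at k2
    set w1 := T.c (T.ι (f x)) (f (T.inv x (T.pos x + t • v))) with hw1
    have k3 := hA.norm x (t • v)
    rw [e0] at k3
    have k4 : ‖w1 - T.pos (f x)‖ ≤ (C + ε) * (t * ‖v‖) := by
      have := norm_add_le (w1 - T.pos (f x) - A x (t • v)) (A x (t • v))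
      rw [sub_add_cancel] at this
      linarith
    obtain ⟨k5, k6⟩ := h2 (f x) w1
      (by rw [dist_eq_norm]; exact k4.trans (ht1.trans (min_le_right _ _)))
    simp only [Function.iterate_one] at k6
    rw [show An g B 1 (f x) (w1 - T.pos (f x)) = B (f x) (w1 - T.pos (f x)) from rfl] at k6
    have e1 : T.inv (f x) w1 = f (T.inv x (T.pos x + t • v)) := (T.c _).left_inv k1
    rw [e1, hgf, hgf] at k6
    have e2 : T.c (T.ι x) (T.inv x (T.pos x + t • v)) = T.pos x + t • v :=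
      (T.c _).right_inv (T.ball x _ (hw.trans hρ1))
    rw [e2, add_sub_cancel_left] at k6
    have k7 := hB.norm (f x) (w1 - T.pos (f x) - A x (t • v))
    have e3 : t • (B (f x) (A x v) - v) =
        -(t • v - B (f x) (w1 - T.pos (f x))) - B (f x) (w1 - T.pos (f x) - A x (t • v)) := by
      rw [map_sub (B (f x)) (w1 - T.pos (f x)), map_smul, map_smul, smul_sub]
      abel
    have k8 : t * ‖B (f x) (A x v) - v‖ ≤ t * (ε * ((2 * C + ε) * ‖v‖)) := by
      rw [← Real.norm_of_nonneg ht0.le, ← norm_smul, e3, Real.norm_of_nonneg ht0.le]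
      refine (norm_sub_le _ _).trans ?_
      rw [norm_neg]
      have k9 : ε * ‖w1 - T.pos (f x)‖ ≤ ε * ((C + ε) * (t * ‖v‖)) := by gcongr
      have k10 : C * ‖w1 - T.pos (f x) - A x (t • v)‖ ≤ C * (ε * (t * ‖v‖)) := by gcongr
      nlinarith
    exact le_of_mul_le_mul_left k8 ht0
  have h0 : Tendsto (fun ε : ℝ => ε * ((2 * C + ε) * ‖v‖)) (𝓝[>] 0) (𝓝 0) := by
    have : Continuous fun ε : ℝ => ε * ((2 * C + ε) * ‖v‖) := by fun_prop
    have h := this.tendsto 0
    simp only [zero_mul] at h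
    exact h.mono_left nhdsWithin_le_nhds
  have := ge_of_tendsto h0 (by
    filter_upwards [self_mem_nhdsWithin] with ε hε using key ε hε)
  exact sub_eq_zero.1 (norm_le_zero_iff.1 this)

section Ruelle

theorem Ec_le_integral {Y : Type*} [MeasurableSpace Y] {P Q D : Type*} [Finite P] [Finite Q]
    (ν : Measure Y) [IsFiniteMeasure ν] {ξ : Y → P} {η : Y → Q} (hξ : MP ξ) (hη : MP η)
    {S : Set Y} (hS : ∀ᵐ x ∂ν, x ∈ S) {N : Y → ℝ} (hN1 : ∀ x, 1 ≤ N x)
    (hN : Integrable (fun x => log (N x)) ν) (e : P → D) (he : Function.Injective e)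
    (ht : ∀ x ∈ S, ∃ t : Finset D, (∀ y ∈ S, η y = η x → e (ξ y) ∈ t) ∧ (t.card : ℝ) ≤ N x) :
    Ec ν ξ η ≤ ∫ x, log (N x) ∂ν := by
  classical
  cases nonempty_fintype P
  cases nonempty_fintype Q
  let t : Q → Finset P := fun b => Finset.univ.filter fun a => ∃ y ∈ S, η y = b ∧ ξ y = a
  have k := Ec_le_count ν hξ hη (fun b => max 1 (t b).card) (fun b => by positivity) hS
    (fun b => ⟨t b, fun x hx hb => Finset.mem_filter.2 ⟨Finset.mem_univ _, x, hx, hb, rfl⟩,
      le_max_right _ _⟩)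
  refine k.trans ?_
  have e1 : ∫ x, log (N x) ∂ν = ∑ b, ∫ x in η ⁻¹' {b}, log (N x) ∂ν := by
    rw [← integral_iUnion_fintype (fun b => hη b) ?_ (fun b => hN.integrableOn)]
    · have : ⋃ b, η ⁻¹' {b} = univ := by ext x; simp
      rw [this, Measure.restrict_univ]
    · intro a b hab
      exact Set.disjoint_left.2 fun x hx hx' => hab ((show η x = a from hx).symm.trans hx')
  rw [e1]
  refine Finset.sum_le_sum fun b _ => ?_
  rw [← smul_eq_mul, ← setIntegral_const]
  refine setIntegral_mono_on_ae (integrableOn_const (measure_ne_top _ _)) hN.integrableOn (hη b) ?_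
  filter_upwards [hS] with x hx hxb
  obtain ⟨s, hs1, hs2⟩ := ht x hx
  refine log_le_log (by positivity) (max_le (hN1 x) (le_trans ?_ hs2))
  have : (t b).card ≤ s.card := by
    refine Finset.card_le_card_of_injOn e (fun a ha => ?_) he.injOn
    obtain ⟨y, hy, h1, h2⟩ := (Finset.mem_filter.1 ha).2
    rw [← h2]
    exact hs1 y hy (h1.trans (show η x = b from hxb).symm)
  exact_mod_cast this

/-- The grid partition of mesh `1 / (k + 1)`. -/
noncomputable def grid (T : Atlas X) (k : ℕ) (x : X) : Fin T.n × ℤ × ℤ :=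
  (T.ι x, ⌊(T.pos x).1 * (k + 1)⌋, ⌊(T.pos x).2 * (k + 1)⌋)

theorem finite_grid (T : Atlas X) (k : ℕ) : (range (grid T k)).Finite := by
  obtain ⟨R, hR⟩ := T.bdd
  refine ((finite_univ (α := Fin T.n)).prod
    ((finite_Icc ⌊-R * (k + 1)⌋ ⌊R * (k + 1)⌋).prod
      (finite_Icc ⌊-R * (k + 1)⌋ ⌊R * (k + 1)⌋))).subset ?_
  rintro _ ⟨x, rfl⟩
  have h1 : |(T.pos x).1| ≤ R := (norm_fst_le (T.pos x)).trans (hR x)
  have h2 : |(T.pos x).2| ≤ R := (norm_snd_le (T.pos x)).trans (hR x)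
  rw [abs_le] at h1 h2
  have hk : (0 : ℝ) ≤ k + 1 := by positivity
  refine ⟨trivial, ⟨Int.floor_mono ?_, Int.floor_mono ?_⟩, Int.floor_mono ?_, Int.floor_mono ?_⟩ <;>
    nlinarith

instance (T : Atlas X) (k : ℕ) : Finite (range (grid T k)) := (finite_grid T k).to_subtype

theorem mp_grid [BorelSpace X] (T : Atlas X) (k : ℕ) :
    MP (Set.rangeFactorization (grid T k)) := by
  have h1 : MP (grid T k) := by
    refine T.ι_mp.pair (MP.pair ?_ ?_)
    · intro a
      exact ((T.measurable_pos.fst.mul_const _).floor) (measurableSet_singleton a)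
    · intro a
      exact ((T.measurable_pos.snd.mul_const _).floor) (measurableSet_singleton a)
  intro a
  convert h1 a.1 using 1
  ext x
  simp [Subtype.ext_iff]

theorem grid_close {k : ℕ} {x y : X} (h : grid T k y = grid T k x) :
    T.ι y = T.ι x ∧ dist (T.pos y) (T.pos x) < 1 / (k + 1) := by
  simp only [grid, Prod.mk.injEq] at h
  refine ⟨h.1, ?_⟩
  have hk : (0 : ℝ) < k + 1 := by positivity
  have a1 := Int.abs_sub_lt_one_of_floor_eq_floor h.2.1
  have a2 := Int.abs_sub_lt_one_of_floor_eq_floor h.2.2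
  rw [← sub_mul, abs_mul, abs_of_pos hk, ← lt_div_iff₀ hk] at a1 a2
  rw [Prod.dist_eq, max_lt_iff, Real.dist_eq, Real.dist_eq]
  exact ⟨a1, a2⟩

theorem floor_mem_Icc {a b M : ℝ} (h : |a - b| ≤ M) :
    ⌊a⌋ ∈ Finset.Icc (⌊b⌋ - ⌈M⌉) (⌊b⌋ + ⌈M⌉) := by
  rw [abs_le] at h
  have := Int.le_ceil M
  rw [Finset.mem_Icc, ← Int.floor_sub_intCast, ← Int.floor_add_intCast]
  exact ⟨Int.floor_mono (by linarith), Int.floor_mono (by linarith)⟩

/-- Weak Ruelle inequality. -/
theorem ruelle [CompactSpace X] [BorelSpace X] (hA : Sm T f C β A) (ν : Measure X)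
    [IsFiniteMeasure ν] (hf : MeasurePreserving f ν ν) (n : ℕ) {S : Set X} (hS : ∀ᵐ x ∂ν, x ∈ S)
    {N : X → ℝ} (hN1 : ∀ x, 1 ≤ N x) (hN : Integrable (fun x => log (N x)) ν)
    (hb : ∀ x ∈ S, ∀ v, ‖An f A n x v‖ ≤ N x * ‖v‖) :
    EntLE ν f^[n] (ν.real univ * (log (T.n + 1) + log 49) + 2 * ∫ x, log (N x) ∂ν) := by
  classical
  have hg := hf.iterate n
  refine entLE_of_shrink ν hg (fun k => Set.rangeFactorization (grid T k)) (mp_grid T)
    (S := univ) (Eventually.of_forall fun _ => trivial) (Eventually.of_forall fun x δ hδ => ?_) ?_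
  · obtain ⟨δ', hδ', h⟩ := T.uc δ hδ
    filter_upwards [tendsto_one_div_add_atTop_nhds_zero_nat.eventually_lt_const hδ'] with k hk
      y _ hy
    obtain ⟨h1, h2⟩ := grid_close (congrArg Subtype.val hy)
    have := h x (T.pos y) (h2.trans hk)
    rwa [← h1, show (T.c (T.ι y)).symm (T.pos y) = y from T.inv_pos y] at this
  · obtain ⟨δ, hδ, hρ, h⟩ := hA.iter_est n one_pos
    filter_upwards [tendsto_one_div_add_atTop_nhds_zero_nat.eventually_lt_const hδ] with k hk
    refine (rateLE_next hg (mp_grid T k)).mono ?_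
    have hι : MP fun x => T.ι (f^[n] x) := T.ι_mp.pull hg.measurable
    have k1 := Ec_le_add ν ((mp_grid T k).pull hg.measurable) (mp_grid T k) hι
    have k2 := E_le_log ν hι (N := T.n + 1) (by positivity) Finset.univ
      (fun _ _ => Finset.mem_univ _) (by simp)
    have e1 : ∀ x, log (49 * N x ^ 2) = log 49 + 2 * log (N x) := fun x => by
      have := hN1 x
      rw [log_mul (by norm_num) (by positivity), log_pow]; norm_num
    have k3 := Ec_le_integral ν ((mp_grid T k).pull hg.measurable) ((mp_grid T k).pair hι) hS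
      (N := fun x => 49 * N x ^ 2) (fun x => by have := hN1 x; nlinarith)
      (by simp only [e1]; exact (integrable_const _).add (hN.const_mul 2))
      Subtype.val Subtype.val_injective (fun x hx => ?_)
    · simp only [e1] at k3
      rw [integral_add (integrable_const _) (hN.const_mul 2), integral_const, integral_const_mul,
        smul_eq_mul] at k3
      linarith
    · have hk0 : (0 : ℝ) < k + 1 := by positivity
      refine ⟨{T.ι (f^[n] x)} ×ˢ
        (Finset.Icc (⌊(T.pos (f^[n] x)).1 * (k + 1)⌋ - ⌈N x + 1⌉)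
          (⌊(T.pos (f^[n] x)).1 * (k + 1)⌋ + ⌈N x + 1⌉) ×ˢ
        Finset.Icc (⌊(T.pos (f^[n] x)).2 * (k + 1)⌋ - ⌈N x + 1⌉)
          (⌊(T.pos (f^[n] x)).2 * (k + 1)⌋ + ⌈N x + 1⌉)), fun y hy hxy => ?_, ?_⟩
      · simp only [Prod.mk.injEq] at hxy
        obtain ⟨h1, h2⟩ := grid_close (congrArg Subtype.val hxy.1)
        obtain ⟨-, h3⟩ := h x (T.pos y) (h2.trans hk).le
        have e2 : T.inv x (T.pos y) = y := by
          rw [Atlas.inv, ← h1]; exact T.inv_pos y
        rw [e2, ← hxy.2] at h3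
        have h4 := hb x hx (T.pos y - T.pos x)
        have h5 : ‖T.pos (f^[n] y) - T.pos (f^[n] x)‖ * (k + 1) ≤ N x + 1 := by
          have := norm_add_le (T.pos (f^[n] y) - T.pos (f^[n] x) - An f A n x (T.pos y - T.pos x))
            (An f A n x (T.pos y - T.pos x))
          rw [sub_add_cancel] at this
          have h6 : ‖T.pos y - T.pos x‖ * (k + 1) ≤ 1 := by
            rw [dist_eq_norm, lt_div_iff₀ hk0] at h2; exact h2.le
          have h7 : ‖T.pos (f^[n] y) - T.pos (f^[n] x)‖ ≤ (N x + 1) * ‖T.pos y - T.pos x‖ := by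
            change ‖T.pos (f^[n] y) - _ - _‖ ≤ _ at h3
            linarith
          have := hN1 x
          nlinarith
        simp only [Finset.mem_product, Finset.mem_singleton]
        refine ⟨hxy.2, floor_mem_Icc ?_, floor_mem_Icc ?_⟩
        · rw [← sub_mul, abs_mul, abs_of_pos hk0]
          refine le_trans (mul_le_mul_of_nonneg_right ?_ hk0.le) h5
          exact norm_fst_le (T.pos (f^[n] y) - T.pos (f^[n] x))
        · rw [← sub_mul, abs_mul, abs_of_pos hk0]
          refine le_trans (mul_le_mul_of_nonneg_right ?_ hk0.le) h5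
          exact norm_snd_le (T.pos (f^[n] y) - T.pos (f^[n] x))
      · have h1 := hN1 x
        have h2 : (0 : ℤ) ≤ ⌈N x + 1⌉ := Int.ceil_nonneg (by linarith)
        have h3 : ∀ a : ℤ, ((Finset.Icc (a - ⌈N x + 1⌉) (a + ⌈N x + 1⌉)).card : ℝ) ≤ 7 * N x := by
          intro a
          have h4 : ((Finset.Icc (a - ⌈N x + 1⌉) (a + ⌈N x + 1⌉)).card : ℤ) = 2 * ⌈N x + 1⌉ + 1 := by
            rw [Int.card_Icc_of_le _ _ (by omega)]; ring
          have h5 : ((Finset.Icc (a - ⌈N x + 1⌉) (a + ⌈N x + 1⌉)).card : ℝ) =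
              2 * (⌈N x + 1⌉ : ℝ) + 1 := by exact_mod_cast h4
          have := Int.ceil_lt_add_one (N x + 1)
          linarith
        rw [Finset.card_product, Finset.card_product, Finset.card_singleton]
        push_cast
        have h6 := mul_le_mul (h3 ⌊(T.pos (f^[n] x)).1 * (k + 1)⌋)
          (h3 ⌊(T.pos (f^[n] x)).2 * (k + 1)⌋) (Nat.cast_nonneg _) (by linarith)
        nlinarith

end Ruelle

end Pool.Agent.MP_369096_an

end

-- part MP_369096_an.Stable
section

/-!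
Stable vectors of the derivative cocycle: existence from positive entropy, transversality.
-/

set_option autoImplicit false
set_option linter.unusedSectionVars false
set_option linter.unusedVariables false

open MeasureTheory Filter Set Topology Real Metric

namespace Pool.Agent.MP_369096_an

variable {X : Type*} [MetricSpace X] [MeasurableSpace X]

/-- A bounded invertible measurable cocycle over an invertible map. -/
structure Coc (f g : X → X) (A B : X → V →L[ℝ] V) (C : ℝ) : Prop where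
  mf : Measurable f
  mg : Measurable g
  gf : ∀ x, g (f x) = x
  fg : ∀ x, f (g x) = x
  one_le : 1 ≤ C
  measA : ∀ v, Measurable fun x => A x v
  measB : ∀ v, Measurable fun x => B x v
  normA : ∀ x v, ‖A x v‖ ≤ C * ‖v‖
  normB : ∀ x v, ‖B x v‖ ≤ C * ‖v‖
  BA : ∀ x v, B (f x) (A x v) = v
  AB : ∀ x v, A (g x) (B x v) = v

variable {f g : X → X} {A B : X → V →L[ℝ] V} {C χ : ℝ}

theorem Coc.symm (h : Coc f g A B C) : Coc g f B A C :=
  ⟨h.mg, h.mf, h.fg, h.gf, h.one_le, h.measB, h.measA, h.normB, h.normA, h.AB, h.BA⟩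

theorem Sm.coc {T : Atlas X} {β : ℝ} (hA : Sm T f C β A) (hB : Sm T g C β B) (mf : Measurable f)
    (mg : Measurable g) (gf : ∀ x, g (f x) = x) (fg : ∀ x, f (g x) = x) : Coc f g A B C :=
  ⟨mf, mg, gf, fg, hA.one_le, hA.meas, hB.meas, hA.norm, hB.norm, hA.inv_eq hB gf,
    hB.inv_eq hA fg⟩

theorem Coc.iter_gf (h : Coc f g A B C) (n : ℕ) (x : X) : g^[n] (f^[n] x) = x :=
  Function.LeftInverse.iterate h.gf n x

theorem Coc.AB' (h : Coc f g A B C) (x : X) (v : V) : A x (B (f x) v) = v := by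
  have := h.AB (f x) v
  rwa [h.gf] at this

theorem Coc.An_AB (h : Coc f g A B C) (n : ℕ) (x : X) (v : V) :
    An f A n x (An g B n (f^[n] x) v) = v := by
  have := An_inv (f := g) (g := f) (A := B) (B := A) h.fg h.AB n (f^[n] x) v
  rwa [h.iter_gf] at this

theorem Coc.norm_le_An (h : Coc f g A B C) (n : ℕ) (x : X) (v : V) :
    ‖v‖ ≤ C ^ n * ‖An f A n x v‖ := by
  have := An_norm_le (f := g) (by linarith [h.one_le]) h.normB n (f^[n] x) (An f A n x v)
  rwa [An_inv h.gf h.BA] at this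

/-- Stable vectors. -/
def St (f : X → X) (A : X → V →L[ℝ] V) (χ : ℝ) (x : X) (v : V) : Prop :=
  ∃ K : ℝ, ∀ n : ℕ, exp (χ * n) * ‖An f A n x v‖ ≤ K

/-- The stable subspace. -/
def stSub (f : X → X) (A : X → V →L[ℝ] V) (χ : ℝ) (x : X) : Submodule ℝ V where
  carrier := {v | St f A χ x v}
  zero_mem' := ⟨0, fun n => by simp⟩
  add_mem' := by
    rintro v w ⟨K, hK⟩ ⟨L, hL⟩
    refine ⟨K + L, fun n => ?_⟩
    have := norm_add_le (An f A n x v) (An f A n x w)
    have := hK n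
    have := hL n
    have := exp_pos (χ * n)
    rw [map_add]
    nlinarith
  smul_mem' := by
    rintro c v ⟨K, hK⟩
    refine ⟨|c| * K, fun n => ?_⟩
    rw [map_smul, norm_smul, Real.norm_eq_abs, mul_left_comm]
    exact mul_le_mul_of_nonneg_left (hK n) (abs_nonneg c)

theorem St.smul {x : X} {v : V} (h : St f A χ x v) (c : ℝ) : St f A χ x (c • v) :=
  (stSub f A χ x).smul_mem c h

theorem St_next {x : X} {v : V} : St f A χ (f x) (A x v) ↔ St f A χ x v := by
  constructor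
  · rintro ⟨K, hK⟩
    refine ⟨max ‖v‖ (exp χ * K), fun n => ?_⟩
    cases n with
    | zero => simp
    | succ n =>
      refine le_trans ?_ (le_max_right _ _)
      rw [An_succ']
      push_cast
      rw [mul_add, mul_one, exp_add, mul_comm (exp (χ * n)), mul_assoc]
      exact mul_le_mul_of_nonneg_left (hK n) (exp_pos _).le
  · rintro ⟨K, hK⟩
    refine ⟨exp (-χ) * K, fun n => ?_⟩
    have := mul_le_mul_of_nonneg_left (hK (n + 1)) (exp_pos (-χ)).le
    rw [An_succ', ← mul_assoc, ← exp_add] at this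
    rwa [show -χ + χ * ((n + 1 : ℕ) : ℝ) = χ * n by push_cast; ring] at this

theorem St_iter {x : X} {v : V} (m : ℕ) : St f A χ (f^[m] x) (An f A m x v) ↔ St f A χ x v := by
  induction m with
  | zero => rfl
  | succ m ih => rw [An_succ, Function.iterate_succ_apply', St_next, ih]

theorem St_unif (x : X) : ∃ K : ℝ, 0 ≤ K ∧ ∀ v, St f A χ x v →
    ∀ n : ℕ, exp (χ * n) * ‖An f A n x v‖ ≤ K * ‖v‖ := by
  have : CompleteSpace (stSub f A χ x) := FiniteDimensional.complete ℝ _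
  obtain ⟨K, hK⟩ := banach_steinhaus
    (g := fun n : ℕ => exp (χ * n) • (An f A n x).comp (stSub f A χ x).subtypeL) (fun v => by
      obtain ⟨K, hK⟩ := v.2
      refine ⟨K, fun n => ?_⟩
      simpa [norm_smul] using hK n)
  refine ⟨K, (norm_nonneg _).trans (hK 0), fun v hv n => ?_⟩
  have := (ContinuousLinearMap.le_opNorm _ (⟨v, hv⟩ : stSub f A χ x)).trans
    (mul_le_mul_of_nonneg_right (hK n) (norm_nonneg _))
  simpa [norm_smul] using this

/-- A path through all directions of the plane. -/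
def ev (t : ℝ) : V := (t, 1 - |t|)

theorem continuous_ev : Continuous ev := by unfold ev; fun_prop

theorem norm_ev {t : ℝ} (ht : t ∈ Icc (-1 : ℝ) 1) : 1 / 2 ≤ ‖ev t‖ ∧ ‖ev t‖ ≤ 1 := by
  have h1 : |t| ≤ 1 := abs_le.2 ht
  have h0 := abs_nonneg t
  rw [ev, Prod.norm_mk, Real.norm_eq_abs, Real.norm_eq_abs, abs_of_nonneg (by linarith : 0 ≤ 1 - |t|)]
  refine ⟨?_, max_le h1 (by linarith)⟩
  rcases le_total |t| (1 / 2) with h | h
  · exact le_max_of_le_right (by linarith)
  · exact le_max_of_le_left h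

theorem ev_ne_zero {t : ℝ} (ht : t ∈ Icc (-1 : ℝ) 1) : ev t ≠ 0 := by
  intro h
  have := (norm_ev ht).1
  rw [h, norm_zero] at this
  linarith

theorem exists_ev {v : V} (hv : v ≠ 0) : ∃ t ∈ Icc (-1 : ℝ) 1, ∃ c : ℝ, ev t = c • v := by
  obtain ⟨a, b⟩ := v
  have hs : 0 < |a| + |b| := by
    by_contra h
    have h1 := abs_nonneg a
    have h2 := abs_nonneg b
    have ha : a = 0 := abs_eq_zero.1 (by linarith)
    have hb : b = 0 := abs_eq_zero.1 (by linarith)
    exact hv (by simp [ha, hb])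
  have key : ∀ s : ℝ, |s| = 1 → s * b = |b| →
      ∃ t ∈ Icc (-1 : ℝ) 1, ∃ c : ℝ, ev t = c • ((a, b) : V) := by
    intro s hs1 hsb
    have e : |s * a / (|a| + |b|)| = |a| / (|a| + |b|) := by
      rw [abs_div, abs_mul, hs1, one_mul, abs_of_pos hs]
    refine ⟨s * a / (|a| + |b|), abs_le.1 ?_, s / (|a| + |b|), ?_⟩
    · rw [e, div_le_one hs]; linarith [abs_nonneg b]
    · rw [ev, e, Prod.smul_mk, smul_eq_mul, smul_eq_mul]
      congr 1
      · ring
      · rw [div_mul_eq_mul_div, hsb]; field_simp; ring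
  rcases le_total 0 b with hb | hb
  · exact key 1 (by simp) (by rw [abs_of_nonneg hb, one_mul])
  · exact key (-1) (by simp) (by rw [abs_of_nonpos hb]; ring)

theorem meas_exists {Y : Type*} [MeasurableSpace Y] (G : ℕ → Y → ℝ → ℝ)
    (hm : ∀ n t, Measurable fun x => G n x t) (hc : ∀ n x, Continuous (G n x)) (a b K : ℝ) :
    MeasurableSet {x | ∃ t ∈ Icc a b, ∀ n, G n x t ≤ K} := by
  obtain ⟨D, hD1, hD2, hD3⟩ := 
    (TopologicalSpace.IsSeparable.of_separableSpace (Icc a b)).exists_countable_dense_subset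
  have : {x | ∃ t ∈ Icc a b, ∀ n, G n x t ≤ K} =
      ⋂ N : ℕ, ⋃ t ∈ D, ⋂ n : ℕ, ⋂ (_ : n < N), {x | G n x t < K + 1 / (N + 1)} := by
    ext x
    simp only [mem_ofPred_eq, mem_iInter, mem_iUnion, exists_prop]
    constructor
    · rintro ⟨t, ht, h⟩ N
      have ho : IsOpen (⋂ n ∈ Finset.range N, {t | G n x t < K + 1 / (N + 1)}) :=
        isOpen_biInter_finset fun n _ => isOpen_lt (hc n x) continuous_const
      obtain ⟨s, hs1, hs2⟩ := mem_closure_iff.1 (hD3 ht) _ ho (by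
        simp only [mem_iInter, mem_ofPred_eq]
        intro n _
        have : (0 : ℝ) < 1 / (N + 1) := by positivity
        linarith [h n])
      simp only [mem_iInter, mem_ofPred_eq, Finset.mem_range] at hs1
      exact ⟨s, hs2, hs1⟩
    · intro h
      let Z : ℕ → Set ℝ := fun N =>
        Icc a b ∩ ⋂ n ∈ Finset.range N, {t | G n x t ≤ K + 1 / (N + 1)}
      have hZc : ∀ N, IsClosed (Z N) := fun N =>
        isClosed_Icc.inter (isClosed_biInter fun n _ => isClosed_le (hc n x) continuous_const)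
      obtain ⟨t, ht⟩ := IsCompact.nonempty_iInter_of_sequence_nonempty_isCompact_isClosed Z
        (fun N t ht => by
          refine ⟨ht.1, ?_⟩
          have h2 := ht.2
          simp only [mem_iInter, mem_ofPred_eq, Finset.mem_range] at h2 ⊢
          intro n hn
          refine (h2 n (by omega)).trans ?_
          have : (1 : ℝ) / ((N + 1 : ℕ) + 1) ≤ 1 / (N + 1) :=
            one_div_le_one_div_of_le (by positivity) (by push_cast; linarith)
          linarith)
        (fun N => by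
          obtain ⟨t, ht, h1⟩ := h N
          refine ⟨t, hD1 ht, ?_⟩
          simp only [mem_iInter, mem_ofPred_eq, Finset.mem_range]
          exact fun n hn => (h1 n hn).le)
        (isCompact_Icc.of_isClosed_subset (hZc 0) inter_subset_left) hZc
      rw [mem_iInter] at ht
      refine ⟨t, (ht 0).1, fun n => ?_⟩
      have h1 : Tendsto (fun N : ℕ => K + 1 / ((N : ℝ) + 1)) atTop (𝓝 (K + 0)) :=
        tendsto_one_div_add_atTop_nhds_zero_nat.const_add K
      rw [add_zero] at h1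
      refine ge_of_tendsto h1 ?_
      filter_upwards [eventually_gt_atTop n] with N hN
      have h2 := (ht N).2
      simp only [mem_iInter, mem_ofPred_eq, Finset.mem_range] at h2
      exact h2 n hN
  rw [this]
  exact MeasurableSet.iInter fun N => MeasurableSet.biUnion hD2 fun t _ =>
    MeasurableSet.iInter fun n => MeasurableSet.iInter fun _ =>
      measurableSet_lt (hm n t) measurable_const

theorem measurable_term (hf : Measurable f) (hA : ∀ v, Measurable fun x => A x v) (n : ℕ)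
    (v : V) : Measurable fun x => exp (χ * n) * ‖An f A n x v‖ :=
  (measurable_An hf hA n v).norm.const_mul _

theorem continuous_term (n : ℕ) (x : X) :
    Continuous fun t => exp (χ * n) * ‖An f A n x (ev t)‖ := by
  have := continuous_ev
  fun_prop

theorem measurableSet_St_Icc (hf : Measurable f) (hA : ∀ v, Measurable fun x => A x v) (a b : ℝ) :
    MeasurableSet {x | ∃ t ∈ Icc a b, St f A χ x (ev t)} := by
  have : {x | ∃ t ∈ Icc a b, St f A χ x (ev t)} =
      ⋃ K : ℕ, {x | ∃ t ∈ Icc a b, ∀ n : ℕ, exp (χ * n) * ‖An f A n x (ev t)‖ ≤ K} := by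
    ext x
    simp only [mem_ofPred_eq, mem_iUnion]
    constructor
    · rintro ⟨t, ht, K, hK⟩
      obtain ⟨L, hL⟩ := exists_nat_ge K
      exact ⟨L, t, ht, fun n => (hK n).trans hL⟩
    · rintro ⟨K, t, ht, hK⟩
      exact ⟨t, ht, K, hK⟩
  rw [this]
  exact MeasurableSet.iUnion fun K => meas_exists _
    (fun n t => measurable_term hf hA n _) (fun n x => continuous_term n x) a b K

/-- Points with a nonzero stable vector. -/
def HasSt (f : X → X) (A : X → V →L[ℝ] V) (χ : ℝ) : Set X := {x | ∃ v ≠ 0, St f A χ x v}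

theorem hasSt_eq : HasSt f A χ = {x | ∃ t ∈ Icc (-1 : ℝ) 1, St f A χ x (ev t)} := by
  ext x
  constructor
  · rintro ⟨v, hv, h⟩
    obtain ⟨t, ht, c, hc⟩ := exists_ev hv
    exact ⟨t, ht, hc ▸ h.smul c⟩
  · rintro ⟨t, ht, h⟩
    exact ⟨_, ev_ne_zero ht, h⟩

theorem Coc.measurableSet_hasSt (h : Coc f g A B C) : MeasurableSet (HasSt f A χ) := by
  rw [hasSt_eq]; exact measurableSet_St_Icc h.mf h.measA _ _

theorem Coc.A_ne (h : Coc f g A B C) {x : X} {v : V} (hv : v ≠ 0) : A x v ≠ 0 := fun h0 =>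
  hv (by rw [← h.BA x v, h0, map_zero])

theorem Coc.preimage_hasSt (h : Coc f g A B C) : f ⁻¹' HasSt f A χ = HasSt f A χ := by
  ext x
  constructor
  · rintro ⟨v, hv, hs⟩
    refine ⟨B (f x) v, h.symm.A_ne hv, ?_⟩
    rwa [← St_next, h.AB']
  · rintro ⟨v, hv, hs⟩
    exact ⟨A x v, h.A_ne hv, St_next.2 hs⟩

/-- Every vector is expanded at the rate `-χ` within time `K`. -/
def Good (f : X → X) (A : X → V →L[ℝ] V) (χ : ℝ) (K : ℕ) : Set X :=
  {x | ∀ v, ∃ n ∈ Finset.Icc 1 K, ‖v‖ ≤ exp (χ * n) * ‖An f A n x v‖}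

theorem measurableSet_good (hf : Measurable f) (hA : ∀ v, Measurable fun x => A x v) (K : ℕ) :
    MeasurableSet (Good f A χ K) := by
  obtain ⟨D, hD1, hD2⟩ := TopologicalSpace.exists_countable_dense V
  have : Good f A χ K =
      ⋂ v ∈ D, ⋃ n ∈ Finset.Icc 1 K, {x | ‖v‖ ≤ exp (χ * n) * ‖An f A n x v‖} := by
    ext x
    simp only [Good, mem_ofPred_eq, mem_iInter, mem_iUnion, exists_prop]
    refine ⟨fun h v _ => h v, fun h v => ?_⟩
    have hcl : IsClosed (⋃ n ∈ Finset.Icc 1 K, {v : V | ‖v‖ ≤ exp (χ * n) * ‖An f A n x v‖}) :=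
      (Finset.Icc 1 K).finite_toSet.isClosed_biUnion fun n _ =>
        isClosed_le continuous_norm (by fun_prop)
    have := (hcl.closure_subset_iff (s := D)).2 (fun v hv => by
      simp only [mem_iUnion, mem_ofPred_eq, exists_prop]
      exact h v hv) (hD2 v)
    simpa only [mem_iUnion, mem_ofPred_eq, exists_prop] using this
  rw [this]
  exact MeasurableSet.biInter hD1 fun v _ => Finset.measurableSet_biUnion _ fun n _ =>
    measurableSet_le measurable_const (measurable_term hf hA n v)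

theorem eventually_good {x : X} (hx : x ∉ HasSt f A χ) : ∀ᶠ K in atTop, x ∈ Good f A χ K := by
  have hcov : sphere (0 : V) 1 ⊆ ⋃ n : ℕ, {v : V | 1 < exp (χ * n) * ‖An f A n x v‖} := by
    intro v hv
    rw [mem_sphere_zero_iff_norm] at hv
    by_contra hcon
    simp only [mem_iUnion, mem_ofPred_eq, not_exists, not_lt] at hcon
    exact hx ⟨v, by rintro rfl; simp at hv, 1, hcon⟩
  obtain ⟨s, hs⟩ := (isCompact_sphere (0 : V) 1).elim_finite_subcover _
    (fun n => isOpen_lt continuous_const (by fun_prop)) hcov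
  filter_upwards [eventually_ge_atTop (s.sup id), eventually_ge_atTop 1] with K hK hK1 v
  by_cases hv : v = 0
  · exact ⟨1, by simp [hK1], by simp [hv]⟩
  · have hn : 0 < ‖v‖ := norm_pos_iff.2 hv
    have h1 : ‖v‖⁻¹ • v ∈ sphere (0 : V) 1 := by
      rw [mem_sphere_zero_iff_norm, norm_smul, norm_inv, norm_norm, inv_mul_cancel₀ hn.ne']
    have h2 := hs h1
    simp only [mem_iUnion, mem_ofPred_eq, exists_prop] at h2
    obtain ⟨n, hn1, hn2⟩ := h2
    rw [map_smul, norm_smul, norm_inv, norm_norm, mul_left_comm, lt_inv_mul_iff₀ hn,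
      mul_one] at hn2
    refine ⟨n, Finset.mem_Icc.2 ⟨?_, (Finset.le_sup (f := id) hn1).trans hK⟩, hn2.le⟩
    rcases Nat.eq_zero_or_pos n with rfl | h
    · simp at hn2
    · exact h

theorem Coc.greedy (h : Coc f g A B C) (hχ : 0 ≤ χ) (K : ℕ) (n : ℕ) : ∀ x v, ‖v‖ ≤
    exp (χ * n + log C * (K + birkhoffSum f ((Good f A χ K)ᶜ.indicator 1) n x)) *
      ‖An f A n x v‖ := by
  have hC := h.one_le
  have hL : 0 ≤ log C := log_nonneg hC
  set b : X → ℝ := (Good f A χ K)ᶜ.indicator 1 with hb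
  have hb0 : ∀ x, 0 ≤ b x := fun x => indicator_nonneg (fun _ _ => zero_le_one) x
  have hS : ∀ n x, 0 ≤ birkhoffSum f b n x := fun n x => Finset.sum_nonneg fun _ _ => hb0 _
  induction n using Nat.strong_induction_on with
  | _ n ih =>
    intro x v
    rcases le_or_gt n K with hn | hn
    · refine (h.norm_le_An n x v).trans (mul_le_mul_of_nonneg_right ?_ (norm_nonneg _))
      rw [← exp_log (x := C ^ n) (by positivity), exp_le_exp, log_pow]
      have : (n : ℝ) ≤ K := by exact_mod_cast hn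
      have := hS n x
      have : 0 ≤ χ * n := by positivity
      nlinarith
    · by_cases hx : x ∈ Good f A χ K
      · obtain ⟨m, hm, hv⟩ := hx v
        rw [Finset.mem_Icc] at hm
        obtain ⟨l, rfl⟩ : ∃ l, n = m + l := ⟨n - m, by omega⟩
        have h1 := ih l (by omega) (f^[m] x) (An f A m x v)
        rw [← An_add] at h1
        refine hv.trans ((mul_le_mul_of_nonneg_left h1 (exp_pos _).le).trans ?_)
        rw [← mul_assoc, ← exp_add]
        refine mul_le_mul_of_nonneg_right ?_ (norm_nonneg _)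
        rw [exp_le_exp, birkhoffSum_add]
        have := hS m x
        push_cast
        nlinarith
      · obtain ⟨l, rfl⟩ : ∃ l, n = l + 1 := ⟨n - 1, by omega⟩
        have h1 := ih l (by omega) (f x) (A x v)
        rw [← An_succ'] at h1
        have h2 : ‖v‖ ≤ C * ‖A x v‖ := by
          have := h.normB (f x) (A x v)
          rwa [h.BA] at this
        refine h2.trans ((mul_le_mul_of_nonneg_left h1 (by linarith)).trans ?_)
        rw [← mul_assoc]
        refine mul_le_mul_of_nonneg_right ?_ (norm_nonneg _)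
        conv_lhs => rw [← exp_log (x := C) (by linarith), log_exp, ← exp_add]
        rw [exp_le_exp, birkhoffSum_succ']
        have : b x = 1 := by rw [hb, indicator_of_mem (mem_compl hx)]; rfl
        rw [this]
        push_cast
        nlinarith

/-- Every invariant part of the measure has entropy at least `h` times its mass. -/
def HMax (ν : Measure X) (f : X → X) (h : ℝ) : Prop :=
  ∀ T, MeasurableSet T → f ⁻¹' T = T → ∀ c < ν.real T * h, ¬ EntLE (ν.restrict T) f c

theorem MeasurePreserving.restrict_inv {ν : Measure X} (hf : MeasurePreserving f ν ν) {T : Set X}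
    (hT : MeasurableSet T) (hinv : f ⁻¹' T = T) :
    MeasurePreserving f (ν.restrict T) (ν.restrict T) := by
  have := hf.restrict_preimage hT
  rwa [hinv] at this

theorem preimage_inv (gf : ∀ x, g (f x) = x) (fg : ∀ x, f (g x) = x) {T : Set X}
    (h : f ⁻¹' T = T) : g ⁻¹' T = T := by
  ext x
  rw [mem_preimage, ← h, mem_preimage, fg, h]

theorem measurePreserving_inv {ν : Measure X} (hf : MeasurePreserving f ν ν) (mg : Measurable g)
    (gf : ∀ x, g (f x) = x) : MeasurePreserving g ν ν := by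
  refine ⟨mg, ?_⟩
  conv_lhs => rw [← hf.map_eq]
  rw [Measure.map_map mg hf.measurable, show g ∘ f = id from funext gf, Measure.map_id]

theorem HMax.symm {ν : Measure X} [IsFiniteMeasure ν] {h : ℝ} (hm : HMax ν f h)
    (hf : MeasurePreserving f ν ν) (mg : Measurable g) (gf : ∀ x, g (f x) = x)
    (fg : ∀ x, f (g x) = x) : HMax ν g h := by
  intro T hT hinv c hc hE
  have hinv' := preimage_inv fg gf hinv
  exact hm T hT hinv' c hc (hE.inv (MeasurePreserving.restrict_inv hf hT hinv') mg gf)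

theorem integral_comp_mp {Y : Type*} [MeasurableSpace Y] {μ : Measure Y} {f : Y → Y}
    (hf : MeasurePreserving f μ μ) {φ : Y → ℝ} (hφ : Measurable φ) :
    ∫ x, φ (f x) ∂μ = ∫ x, φ x ∂μ := by
  conv_rhs => rw [← hf.map_eq]
  rw [integral_map hf.measurable.aemeasurable hφ.aestronglyMeasurable]

theorem integrable_bS {Y : Type*} [MeasurableSpace Y] {μ : Measure Y} {f : Y → Y}
    (hf : MeasurePreserving f μ μ) {φ : Y → ℝ} (hφ : Integrable φ μ) (n : ℕ) :
    Integrable (birkhoffSum f φ n) μ := by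
  unfold birkhoffSum
  exact integrable_finsetSum _ fun k _ => (hf.iterate k).integrable_comp_of_integrable hφ

theorem measurable_bS {Y : Type*} [MeasurableSpace Y] {f : Y → Y}
    (hf : Measurable f) {φ : Y → ℝ} (hφ : Measurable φ) (n : ℕ) :
    Measurable (birkhoffSum f φ n) := by
  unfold birkhoffSum
  exact Finset.measurable_sum _ fun k _ => hφ.comp (hf.iterate k)

theorem integral_bS {Y : Type*} [MeasurableSpace Y] {μ : Measure Y} {f : Y → Y}
    (hf : MeasurePreserving f μ μ) {φ : Y → ℝ} (hm : Measurable φ) (hφ : Integrable φ μ) (n : ℕ) :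
    ∫ x, birkhoffSum f φ n x ∂μ = n * ∫ x, φ x ∂μ := by
  unfold birkhoffSum
  rw [integral_finsetSum (f := fun k x => φ (f^[k] x)) _
    fun k _ => (hf.iterate k).integrable_comp_of_integrable hφ]
  simp [integral_comp_mp (hf.iterate _) hm]

/-- Positive entropy gives nonzero stable vectors almost everywhere. -/
theorem ae_hasSt [CompactSpace X] [BorelSpace X] {T : Atlas X} {β : ℝ} (h : Coc f g A B C)
    (hB : Sm T g C β B) {ν : Measure X} [IsFiniteMeasure ν] (hf : MeasurePreserving f ν ν)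
    {h0 : ℝ} (hm : HMax ν f h0) (hχ : 0 ≤ χ) (hχh : 2 * χ < h0) :
    ∀ᵐ x ∂ν, x ∈ HasSt f A χ := by
  have hC := h.one_le
  have hL : 0 ≤ log C := log_nonneg hC
  set Z := (HasSt f A χ)ᶜ with hZ
  have hZm : MeasurableSet Z := h.measurableSet_hasSt.compl
  have hZi : f ⁻¹' Z = Z := by rw [hZ, preimage_compl, h.preimage_hasSt]
  set μ := ν.restrict Z with hμ
  have hfμ : MeasurePreserving f μ μ := MeasurePreserving.restrict_inv hf hZm hZi
  have hgμ : MeasurePreserving g μ μ := measurePreserving_inv hfμ h.mg h.gf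
  by_contra hcon
  have hw : 0 < ν.real Z := by
    refine lt_of_le_of_ne measureReal_nonneg fun h1 => hcon ?_
    exact (measureReal_eq_zero_iff (measure_ne_top _ _)).1 h1.symm
  set w := ν.real Z with hwdef
  have hwμ : μ.real univ = w := by simp [hμ, hwdef]
  have hlim := tendsto_real_of_ae μ (T := fun K => (Good f A χ K)ᶜ)
    (fun K => (measurableSet_good h.mf h.measA K).compl) (by
      filter_upwards [ae_restrict_mem hZm] with x hx
      filter_upwards [eventually_good hx] with K hK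
      exact not_not.2 hK)
  set ε := w * (h0 - 2 * χ) / 3 with hε
  have hε0 : 0 < ε := by have : 0 < h0 - 2 * χ := by linarith
                         positivity
  obtain ⟨K, hK⟩ := (hlim.eventually_lt_const (u := ε / (2 * log C + 1)) (by positivity)).exists
  set b : X → ℝ := (Good f A χ K)ᶜ.indicator 1 with hb
  have hbm : Measurable b :=
    measurable_const.indicator (measurableSet_good h.mf h.measA K).compl
  have hbi : Integrable b μ :=
    (integrable_const 1).indicator (measurableSet_good h.mf h.measA K).compl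
  have hb0 : ∀ x, 0 ≤ b x := fun x => indicator_nonneg (fun _ _ => zero_le_one) x
  have hbint : ∫ x, b x ∂μ = μ.real (Good f A χ K)ᶜ :=
    integral_indicator_one (measurableSet_good h.mf h.measA K).compl
  obtain ⟨n, hn⟩ := exists_nat_gt ((w * (log (T.n + 1) + log 49) + 2 * (log C * (K * w))) / ε)
  have hl1 : 0 ≤ log (T.n + 1) := log_nonneg (by have : (0 : ℝ) ≤ T.n := Nat.cast_nonneg _
                                                 linarith)
  have hl2 : 0 ≤ log 49 := log_nonneg (by norm_num)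
  have hn0 : (0 : ℝ) < n := lt_of_le_of_lt (by positivity) hn
  have hSi : Integrable (birkhoffSum f b n) μ := integrable_bS hfμ hbi n
  have hSm : Measurable (birkhoffSum f b n) := measurable_bS h.mf hbm n
  have hSint : ∫ x, birkhoffSum f b n x ∂μ = n * μ.real (Good f A χ K)ᶜ := by
    rw [integral_bS hfμ hbm hbi, hbint]
  have hS0 : ∀ x, 0 ≤ birkhoffSum f b n x := fun x => Finset.sum_nonneg fun _ _ => hb0 _
  have hSi' : Integrable (fun x => birkhoffSum f b n (g^[n] x)) μ :=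
    (hgμ.iterate n).integrable_comp_of_integrable hSi
  have hI0 : Integrable (fun x => log C * (K + birkhoffSum f b n (g^[n] x))) μ :=
    ((integrable_const _).add hSi').const_mul _
  have hI : Integrable (fun x => χ * n + log C * (K + birkhoffSum f b n (g^[n] x))) μ :=
    (integrable_const _).add hI0
  have hR := ruelle hB μ hgμ n (S := univ) (Eventually.of_forall fun _ => trivial)
    (N := fun x => exp (χ * n + log C * (K + birkhoffSum f b n (g^[n] x))))
    (fun x => one_le_exp (by have := hS0 (g^[n] x); positivity))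
    (by simpa only [log_exp] using hI) (fun x _ v => by
      have := h.greedy hχ K n (g^[n] x) (An g B n x v)
      rwa [An_inv h.fg h.AB] at this)
  simp only [log_exp] at hR
  rw [integral_add (integrable_const _) hI0,
    integral_const_mul (log C), integral_add (integrable_const _) hSi', integral_const,
    integral_const, integral_comp_mp (hgμ.iterate n) hSm, hSint, hwμ, smul_eq_mul,
    smul_eq_mul] at hR
  have hn0' : 0 < n := by exact_mod_cast hn0
  have hR2 := (hR.of_pow h.mg hn0').inv hfμ h.mg h.gf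
  refine hm Z hZm hZi _ ?_ hR2
  rw [div_lt_iff₀ hn0]
  rw [div_lt_iff₀ hε0] at hn
  rw [lt_div_iff₀ (by positivity)] at hK
  have h1 : 0 ≤ μ.real (Good f A χ K)ᶜ := measureReal_nonneg
  have h2 : 2 * log C * μ.real (Good f A χ K)ᶜ * n ≤ ε * n :=
    mul_le_mul_of_nonneg_right (by nlinarith) hn0.le
  have h3 : w * h0 * n = 2 * (w * (χ * n)) + 3 * (ε * n) := by rw [hε]; ring
  have h4 : 0 < ε * n := by positivity
  rw [← hwdef, h3]
  nlinarith

/-- Points with a vector that is stable in both directions. -/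
def BiSt (f g : X → X) (A B : X → V →L[ℝ] V) (χ : ℝ) : Set X :=
  {x | ∃ v ≠ 0, St f A χ x v ∧ St g B χ x v}

/-- Quantitative version. -/
def BiK (f g : X → X) (A B : X → V →L[ℝ] V) (χ : ℝ) (K : ℕ) : Set X :=
  {x | ∃ t ∈ Icc (-1 : ℝ) 1, ∀ n : ℕ,
    max (exp (χ * n) * ‖An f A n x (ev t)‖) (exp (χ * n) * ‖An g B n x (ev t)‖) ≤ K}

theorem biSt_eq : BiSt f g A B χ = ⋃ K, BiK f g A B χ K := by
  ext x
  simp only [BiSt, BiK, mem_ofPred_eq, mem_iUnion, max_le_iff]
  constructor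
  · rintro ⟨v, hv, h1, h2⟩
    obtain ⟨t, ht, c, hc⟩ := exists_ev hv
    obtain ⟨K1, hK1⟩ := h1.smul c
    obtain ⟨K2, hK2⟩ := h2.smul c
    obtain ⟨L, hL⟩ := exists_nat_ge (max K1 K2)
    rw [← hc] at hK1 hK2
    exact ⟨L, t, ht, fun n => ⟨(hK1 n).trans ((le_max_left _ _).trans hL),
      (hK2 n).trans ((le_max_right _ _).trans hL)⟩⟩
  · rintro ⟨K, t, ht, h⟩
    exact ⟨_, ev_ne_zero ht, ⟨K, fun n => (h n).1⟩, ⟨K, fun n => (h n).2⟩⟩

theorem Coc.measurableSet_biK (h : Coc f g A B C) (K : ℕ) : MeasurableSet (BiK f g A B χ K) :=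
  meas_exists _ (fun n t => (measurable_term h.mf h.measA n _).max
    (measurable_term h.mg h.measB n _))
    (fun n x => (continuous_term n x).max (continuous_term n x)) _ _ _

theorem Coc.measurableSet_biSt (h : Coc f g A B C) : MeasurableSet (BiSt f g A B χ) := by
  rw [biSt_eq]; exact MeasurableSet.iUnion h.measurableSet_biK

theorem Coc.St_back (h : Coc f g A B C) {x : X} {v : V} :
    St g B χ (f x) (A x v) ↔ St g B χ x v := by
  rw [← St_next (f := g), h.gf, h.BA]

theorem Coc.preimage_biSt (h : Coc f g A B C) : f ⁻¹' BiSt f g A B χ = BiSt f g A B χ := by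
  ext x
  constructor
  · rintro ⟨v, hv, h1, h2⟩
    refine ⟨B (f x) v, h.symm.A_ne hv, ?_, ?_⟩
    · rwa [← St_next, h.AB']
    · rwa [← h.St_back, h.AB']
  · rintro ⟨v, hv, h1, h2⟩
    exact ⟨A x v, h.A_ne hv, St_next.2 h1, h.St_back.2 h2⟩

theorem ae_not_biSt (h : Coc f g A B C) {ν : Measure X} [IsFiniteMeasure ν]
    (hf : MeasurePreserving f ν ν) (hχ : 0 < χ) : ∀ᵐ x ∂ν, x ∉ BiSt f g A B χ := by
  have h1 : ∀ K, ∀ᵐ x ∂ν, x ∈ BiK f g A B χ K → ∃ᶠ n in atTop, f^[n] x ∈ BiK f g A B χ K :=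
    fun K => hf.conservative.ae_mem_imp_frequently_image_mem
      (h.measurableSet_biK K).nullMeasurableSet
  filter_upwards [ae_all_iff.2 h1] with x hx hb
  rw [biSt_eq, mem_iUnion] at hb
  obtain ⟨K, hK⟩ := hb
  obtain ⟨L, hL0, hL⟩ := St_unif (f := f) (A := A) (χ := χ) x
  have h2 : Tendsto (fun m : ℕ => exp (χ * m)) atTop atTop :=
    tendsto_exp_atTop.comp (tendsto_natCast_atTop_atTop.const_mul_atTop hχ)
  obtain ⟨m, ⟨t, ht, hm1⟩, hm2⟩ :=
    ((hx K hK).and_eventually (h2.eventually_gt_atTop (2 * L * K + 1))).exists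
  have hst : St f A χ x (An g B m (f^[m] x) (ev t)) := by
    rw [← St_iter m, h.An_AB]
    exact ⟨K, fun n => (le_max_left _ _).trans (hm1 n)⟩
  have k1 := hL _ hst m
  rw [h.An_AB] at k1
  have k2 := (le_max_right _ _).trans (hm1 m)
  have k3 := (norm_ev ht).1
  have k4 : (0 : ℝ) ≤ K := Nat.cast_nonneg K
  have k5 : 0 ≤ L * K := by positivity
  set e := exp (χ * m)
  have k6 : e * (e * ‖ev t‖) ≤ L * K := by
    calc e * (e * ‖ev t‖) ≤ e * (L * ‖An g B m (f^[m] x) (ev t)‖) :=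
          mul_le_mul_of_nonneg_left k1 (by linarith)
      _ = L * (e * ‖An g B m (f^[m] x) (ev t)‖) := by ring
      _ ≤ L * K := mul_le_mul_of_nonneg_left k2 hL0
  have k7 : e * (e * (1 / 2)) ≤ e * (e * ‖ev t‖) := by
    have : 0 ≤ e := by linarith
    gcongr
  nlinarith

end Pool.Agent.MP_369096_an

end

-- part MP_369096_an.Lyap
section

/-!
Lyapunov frames and tempering.
-/

set_option autoImplicit false
set_option linter.unusedSectionVars false
set_option linter.unusedVariables false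

open MeasureTheory Filter Set Topology Real Metric

namespace Pool.Agent.MP_369096_an

variable {X : Type*} [MetricSpace X] [MeasurableSpace X]
variable {f g : X → X} {A B : X → V →L[ℝ] V} {C χ : ℝ}

/-- A stable vector of Lyapunov norm one. -/
def LyapUnit (f : X → X) (A : X → V →L[ℝ] V) (χ : ℝ) (x : X) (v : V) : Prop :=
  (∀ n : ℕ, exp (χ * n) * ‖An f A n x v‖ ≤ 1) ∧
    ∀ K : ℝ, (∀ n : ℕ, exp (χ * n) * ‖An f A n x v‖ ≤ K) → 1 ≤ K

theorem LyapUnit.st {x : X} {v : V} (h : LyapUnit f A χ x v) : St f A χ x v := ⟨1, h.1⟩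

theorem LyapUnit.ne_zero {x : X} {v : V} (h : LyapUnit f A χ x v) : v ≠ 0 := by
  rintro rfl
  have := h.2 0 fun n => by simp
  linarith

theorem LyapUnit.norm_le {x : X} {v : V} (h : LyapUnit f A χ x v) : ‖v‖ ≤ 1 := by
  simpa using h.1 0

theorem Coc.exists_lyapUnit (h : Coc f g A B C) : ∃ c : X → V, Measurable c ∧
    ∀ x ∈ HasSt f A χ, LyapUnit f A χ x (c x) := by
  let Z : X → Set ℝ := fun x => {t ∈ Icc (-1 : ℝ) 1 | St f A χ x (ev t)}
  have hZ : ∀ x, IsCompact (Z x) := fun x => by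
    have h1 : IsClosed (stSub f A χ x : Set V) := (stSub f A χ x).closed_of_finiteDimensional
    exact isCompact_Icc.inter_right (h1.preimage continuous_ev)
  let t : X → ℝ := fun x => sSup (Z x)
  have ht : Measurable t := by
    refine measurable_of_Ici fun a => ?_
    have : t ⁻¹' Ici a = {x | ∃ s ∈ Icc (max a (-1)) 1, St f A χ x (ev s)} ∪
        ((HasSt f A χ)ᶜ ∩ {_x | a ≤ 0}) := by
      ext x
      simp only [mem_preimage, mem_Ici, mem_union, mem_ofPred_eq, mem_inter_iff, mem_compl_iff]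
      by_cases hx : x ∈ HasSt f A χ
      · have hne : (Z x).Nonempty := by
          rw [hasSt_eq] at hx
          obtain ⟨s, hs, h1⟩ := hx
          exact ⟨s, hs, h1⟩
        have hg := (hZ x).isGreatest_sSup hne
        simp only [hx, not_true, false_and, or_false]
        constructor
        · intro ha
          exact ⟨_, ⟨max_le ha hg.1.1.1, hg.1.1.2⟩, hg.1.2⟩
        · rintro ⟨s, hs, h1⟩
          exact ((le_max_left _ _).trans hs.1).trans
            (hg.2 ⟨⟨(le_max_right _ _).trans hs.1, hs.2⟩, h1⟩)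
      · have he : Z x = ∅ := by
          rw [hasSt_eq] at hx
          exact eq_empty_of_forall_notMem fun s hs => hx ⟨s, hs.1, hs.2⟩
        have h0 : t x = 0 := by simp only [t, he, Real.sSup_empty]
        simp only [h0, hx, not_false_iff, true_and]
        refine ⟨Or.inr, fun hh => hh.elim ?_ id⟩
        rintro ⟨s, hs, h1⟩
        rw [hasSt_eq] at hx
        exact absurd ⟨s, ⟨(le_max_right _ _).trans hs.1, hs.2⟩, h1⟩ hx
    rw [this]
    exact (measurableSet_St_Icc h.mf h.measA _ _).union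
      (h.measurableSet_hasSt.compl.inter (MeasurableSet.const _))
  have he : Measurable fun x => ev (t x) := continuous_ev.measurable.comp ht
  let s : X → ℝ := fun x => ⨆ n : ℕ, exp (χ * n) * ‖An f A n x (ev (t x))‖
  have hs : Measurable s := Measurable.iSup fun n =>
    (measurable_apply_meas (L := An f A n) (measurable_An h.mf h.measA n) he).norm.const_mul _
  refine ⟨fun x => (s x)⁻¹ • ev (t x), hs.inv.smul he, fun x hx => ?_⟩
  have hne : (Z x).Nonempty := by
    rw [hasSt_eq] at hx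
    obtain ⟨s, hs, h1⟩ := hx
    exact ⟨s, hs, h1⟩
  obtain ⟨h1, K, hK⟩ := (hZ x).sSup_mem hne
  have hb : BddAbove (range fun n : ℕ => exp (χ * n) * ‖An f A n x (ev (t x))‖) :=
    ⟨K, by rintro _ ⟨n, rfl⟩; exact hK n⟩
  have hle : ∀ n : ℕ, exp (χ * n) * ‖An f A n x (ev (t x))‖ ≤ s x := fun n => le_ciSup hb n
  have hpos : 0 < s x := by
    have := hle 0
    have h2 := (norm_ev h1).1
    simp only [Nat.cast_zero, mul_zero, exp_zero, An_zero, one_mul] at this
    change 1 / 2 ≤ ‖ev (t x)‖ at h2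
    linarith
  have e : ∀ n : ℕ, exp (χ * n) * ‖An f A n x ((s x)⁻¹ • ev (t x))‖ =
      (s x)⁻¹ * (exp (χ * n) * ‖An f A n x (ev (t x))‖) := fun n => by
    rw [map_smul, norm_smul, norm_inv, Real.norm_of_nonneg hpos.le]; ring
  refine ⟨fun n => ?_, fun L hL => ?_⟩
  · rw [e, inv_mul_le_iff₀ hpos, mul_one]; exact hle n
  · have : s x ≤ s x * L := ciSup_le fun n => by
      have := hL n
      rwa [e, inv_mul_le_iff₀ hpos] at this
    nlinarith

/-- The determinant of two plane vectors. -/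
def dt (v w : V) : ℝ := v.1 * w.2 - v.2 * w.1

theorem cramer (p q w : V) : dt p q • w = dt w q • p + dt p w • q := by
  ext <;> simp [dt] <;> ring

theorem exists_smul_of_dt {v w : V} (h : dt v w = 0) (hw : w ≠ 0) : ∃ a : ℝ, v = a • w := by
  obtain ⟨a, b⟩ := v
  obtain ⟨c, d⟩ := w
  simp only [dt] at h
  by_cases hc : c = 0
  · have hd : d ≠ 0 := fun hd => hw (by simp [hc, hd])
    refine ⟨b / d, ?_⟩
    subst hc
    have : a = 0 := by simpa [hd] using h
    simp [this, hd]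
  · refine ⟨a / c, ?_⟩
    ext
    · simp [hc]
    · simp only [Prod.smul_mk, smul_eq_mul]
      field_simp
      linarith

theorem dt_map (L : V →L[ℝ] V) (v w : V) : dt (L v) (L w) = dt (L (1, 0)) (L (0, 1)) * dt v w := by
  rw [apply_eq_basis L v, apply_eq_basis L w]
  simp only [dt, Prod.fst_add, Prod.snd_add, Prod.smul_fst, Prod.smul_snd, smul_eq_mul]
  ring

theorem abs_dt_le (v w : V) : |dt v w| ≤ 2 * (‖v‖ * ‖w‖) := by
  have h1 : |v.1| ≤ ‖v‖ := norm_fst_le v
  have h2 : |v.2| ≤ ‖v‖ := norm_snd_le v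
  have h3 : |w.1| ≤ ‖w‖ := norm_fst_le w
  have h4 : |w.2| ≤ ‖w‖ := norm_snd_le w
  have h5 := abs_sub (v.1 * w.2) (v.2 * w.1)
  rw [abs_mul, abs_mul] at h5
  have := mul_le_mul h1 h4 (abs_nonneg _) (norm_nonneg _)
  have := mul_le_mul h2 h3 (abs_nonneg _) (norm_nonneg _)
  unfold dt
  linarith

theorem abs_dt_map_le {L : V →L[ℝ] V} {C : ℝ} (hC : 0 ≤ C) (hL : ∀ v, ‖L v‖ ≤ C * ‖v‖) (v w : V) :
    |dt (L v) (L w)| ≤ 2 * C ^ 2 * |dt v w| := by
  rw [dt_map, abs_mul]
  refine mul_le_mul_of_nonneg_right ((abs_dt_le _ _).trans ?_) (abs_nonneg _)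
  have h1 := hL (1, 0)
  have h2 := hL (0, 1)
  simp only [Prod.norm_mk, norm_one, norm_zero, zero_le_one, max_eq_left, max_eq_right,
    mul_one] at h1 h2
  have := mul_le_mul h1 h2 (norm_nonneg _) hC
  nlinarith

theorem dt_smul (a b : ℝ) (v w : V) : dt (a • v) (b • w) = a * b * dt v w := by
  simp only [dt, Prod.smul_fst, Prod.smul_snd, smul_eq_mul]; ring

theorem measurable_dt {Y : Type*} [MeasurableSpace Y] {p q : Y → V} (hp : Measurable p)
    (hq : Measurable q) : Measurable fun x => dt (p x) (q x) :=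
  (hp.fst.mul hq.snd).sub (hp.snd.mul hq.fst)

theorem Coc.lyap_step (h : Coc f g A B C) {x : X} {v w : V} (hv : LyapUnit f A χ x v)
    (hw : LyapUnit f A χ (f x) w) (h1 : ∃ u, St g B χ (f x) u ∧ ¬ St f A χ (f x) u) :
    ∃ a : ℝ, A x v = a • w ∧ 1 ≤ max C (exp χ) * |a| ∧ |a| ≤ exp (-χ) := by
  have hst : St f A χ (f x) (A x v) := St_next.2 hv.st
  have hd : dt (A x v) w = 0 := by
    by_contra hd
    obtain ⟨u, -, hu⟩ := h1
    apply hu
    have h2 : St f A χ (f x) (dt (A x v) w • u) := by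
      rw [cramer]
      exact (stSub f A χ (f x)).add_mem (hst.smul _) (hw.st.smul _)
    have := h2.smul (dt (A x v) w)⁻¹
    rwa [smul_smul, inv_mul_cancel₀ hd, one_smul] at this
  obtain ⟨a, ha⟩ := exists_smul_of_dt hd hw.ne_zero
  have e : ∀ n : ℕ, exp (χ * (n + 1 : ℕ)) * ‖An f A (n + 1) x v‖ =
      exp χ * |a| * (exp (χ * n) * ‖An f A n (f x) w‖) := fun n => by
    rw [An_succ', ha, map_smul, norm_smul, Real.norm_eq_abs]
    push_cast
    rw [mul_add, mul_one, exp_add]; ring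
  refine ⟨a, ha, hv.2 _ fun n => ?_, ?_⟩
  · cases n with
    | zero =>
      have h2 := h.normB (f x) (A x v)
      rw [h.BA, ha, norm_smul, Real.norm_eq_abs] at h2
      have h3 := hw.norm_le
      have h4 := h.one_le
      have h5 : C * |a| ≤ max C (exp χ) * |a| :=
        mul_le_mul_of_nonneg_right (le_max_left _ _) (abs_nonneg _)
      have h6 : C * (|a| * ‖w‖) ≤ C * (|a| * 1) := by gcongr
      simp only [Nat.cast_zero, mul_zero, exp_zero, An_zero, one_mul]
      linarith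
    | succ n =>
      rw [e]
      have h5 : exp χ * |a| ≤ max C (exp χ) * |a| :=
        mul_le_mul_of_nonneg_right (le_max_right _ _) (abs_nonneg _)
      have h6 := mul_le_mul_of_nonneg_left (hw.1 n) (by positivity : 0 ≤ exp χ * |a|)
      linarith
  · rcases (abs_nonneg a).eq_or_lt with h0 | h0
    · rw [← h0]; exact (exp_pos _).le
    · have hp : 0 < exp χ * |a| := by positivity
      have := hw.2 (exp χ * |a|)⁻¹ fun n => by
        have := hv.1 (n + 1)
        rw [e] at this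
        rw [← one_div, le_div_iff₀ hp]
        linarith
      rw [← one_div, le_div_iff₀ hp, one_mul] at this
      rw [exp_neg, ← one_div, le_div_iff₀ (exp_pos _)]
      linarith

/-- A measurable frame that diagonalises the cocycle on an invariant set. -/
structure Frame (f : X → X) (A : X → V →L[ℝ] V) (χ D : ℝ) (S : Set X) (cs cu : X → V) : Prop where
  meas : MeasurableSet S
  inv : f ⁻¹' S = S
  mcs : Measurable cs
  mcu : Measurable cu
  ncs : ∀ x ∈ S, ‖cs x‖ ≤ 1
  ncu : ∀ x ∈ S, ‖cu x‖ ≤ 1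
  det : ∀ x ∈ S, dt (cs x) (cu x) ≠ 0
  diag : ∀ x ∈ S, ∃ a b : ℝ, A x (cs x) = a • cs (f x) ∧ A x (cu x) = b • cu (f x) ∧
    |a| ≤ exp (-χ) ∧ exp χ ≤ |b| ∧ |b| ≤ D
  slow : ∀ x ∈ S, abs (log |dt (cs (f x)) (cu (f x))| - log |dt (cs x) (cu x)|) ≤ D

theorem Coc.exists_frame (h : Coc f g A B C) (hχ : 0 < χ) : ∃ D cs cu, 1 ≤ D ∧
    Frame f A χ D (HasSt f A χ ∩ HasSt g B χ ∩ (BiSt f g A B χ)ᶜ) cs cu := by
  obtain ⟨cs, hcs, h1⟩ := h.exists_lyapUnit (χ := χ)
  obtain ⟨cu, hcu, h2⟩ := h.symm.exists_lyapUnit (χ := χ)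
  have hC := h.one_le
  set M := max C (exp χ) with hM
  have hM1 : 1 ≤ M := hC.trans (le_max_left _ _)
  have hinv : f ⁻¹' (HasSt f A χ ∩ HasSt g B χ ∩ (BiSt f g A B χ)ᶜ) =
      HasSt f A χ ∩ HasSt g B χ ∩ (BiSt f g A B χ)ᶜ := by
    rw [preimage_inter, preimage_inter, preimage_compl, h.preimage_hasSt, h.preimage_biSt,
      preimage_inv h.fg h.gf h.symm.preimage_hasSt]
  have hdet : ∀ x ∈ HasSt f A χ ∩ HasSt g B χ ∩ (BiSt f g A B χ)ᶜ, dt (cs x) (cu x) ≠ 0 := by
    intro x hx hd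
    obtain ⟨a, ha⟩ := exists_smul_of_dt hd (h2 x hx.1.2).ne_zero
    exact hx.2 ⟨cs x, (h1 x hx.1.1).ne_zero, (h1 x hx.1.1).st, ha ▸ (h2 x hx.1.2).st.smul a⟩
  have hdiag : ∀ x ∈ HasSt f A χ ∩ HasSt g B χ ∩ (BiSt f g A B χ)ᶜ, ∃ a b : ℝ,
      A x (cs x) = a • cs (f x) ∧ A x (cu x) = b • cu (f x) ∧
      1 ≤ M * |a| ∧ |a| ≤ exp (-χ) ∧ exp χ ≤ |b| ∧ |b| ≤ M := by
    intro x hx
    have hfx : f x ∈ HasSt f A χ ∩ HasSt g B χ ∩ (BiSt f g A B χ)ᶜ := by
      rw [← hinv] at hx; exact hx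
    obtain ⟨a, ha1, ha2, ha3⟩ := h.lyap_step (h1 x hx.1.1) (h1 _ hfx.1.1)
      ⟨cu (f x), (h2 _ hfx.1.2).st, fun hs =>
        hfx.2 ⟨_, (h2 _ hfx.1.2).ne_zero, hs, (h2 _ hfx.1.2).st⟩⟩
    obtain ⟨b, hb1, hb2, hb3⟩ := h.symm.lyap_step (x := f x) (w := cu x) (h2 _ hfx.1.2)
      (by rw [h.gf]; exact h2 x hx.1.2)
      (by
        rw [h.gf]
        exact ⟨cs x, (h1 _ hx.1.1).st, fun hs =>
          hx.2 ⟨_, (h1 _ hx.1.1).ne_zero, (h1 _ hx.1.1).st, hs⟩⟩)
    have hb0 : 0 < |b| := by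
      by_contra hcon
      have : |b| = 0 := le_antisymm (not_lt.1 hcon) (abs_nonneg b)
      rw [this, mul_zero] at hb2
      linarith
    have hbne : b ≠ 0 := abs_pos.1 hb0
    refine ⟨a, b⁻¹, ha1, ?_, ha2, ha3, ?_, ?_⟩
    · have := h.AB' x (cu (f x))
      rw [hb1, map_smul] at this
      rw [← this, smul_smul, inv_mul_cancel₀ hbne, one_smul]
    · rw [abs_inv, le_inv_comm₀ (exp_pos _) hb0, ← exp_neg]; exact hb3
    · rw [abs_inv, ← one_div, div_le_iff₀ hb0]; exact hb2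
  refine ⟨2 * C ^ 2 * M, cs, cu, by nlinarith, ⟨(h.measurableSet_hasSt.inter
    h.symm.measurableSet_hasSt).inter h.measurableSet_biSt.compl, hinv, hcs, hcu,
    fun x hx => (h1 x hx.1.1).norm_le, fun x hx => (h2 x hx.1.2).norm_le, hdet, fun x hx => ?_,
    fun x hx => ?_⟩⟩
  · obtain ⟨a, b, k1, k2, k3, k4, k5, k6⟩ := hdiag x hx
    have : 1 ≤ C ^ 2 := one_le_pow₀ hC
    exact ⟨a, b, k1, k2, k4, k5, k6.trans (by nlinarith)⟩
  · obtain ⟨a, b, k1, k2, k3, k4, k5, k6⟩ := hdiag x hx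
    have hfx : f x ∈ HasSt f A χ ∩ HasSt g B χ ∩ (BiSt f g A B χ)ᶜ := by
      rw [← hinv] at hx; exact hx
    have d0 := abs_pos.2 (hdet x hx)
    have d1 := abs_pos.2 (hdet _ hfx)
    have u1 := abs_dt_map_le (by linarith) (h.normA x) (cs x) (cu x)
    have u2 := abs_dt_map_le (by linarith) (h.normB (f x)) (A x (cs x)) (A x (cu x))
    rw [h.BA, h.BA] at u2
    rw [k1, k2, dt_smul, abs_mul, abs_mul] at u1 u2
    have ha1 : |a| ≤ 1 := k4.trans (exp_le_one_iff.2 (by linarith))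
    have hb1 : 1 ≤ |b| := (one_le_exp hχ.le).trans k5
    have ha0 := abs_nonneg a
    set p := |dt (cs x) (cu x)|
    set q := |dt (cs (f x)) (cu (f x))|
    have hD : 0 < 2 * C ^ 2 * M := by positivity
    have v1 : q ≤ 2 * C ^ 2 * M * p := by
      have : 1 * q ≤ (M * |a|) * (|b| * q) := by
        have : q ≤ |b| * q := by nlinarith
        exact mul_le_mul k3 this d1.le (by linarith)
      have h7 : M * (|a| * |b| * q) ≤ M * (2 * C ^ 2 * p) := by gcongr
      nlinarith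
    have v2 : p ≤ 2 * C ^ 2 * M * q := by
      have : |a| * |b| * q ≤ 1 * M * q := by gcongr
      have h7 : 2 * C ^ 2 * (|a| * |b| * q) ≤ 2 * C ^ 2 * (1 * M * q) := by gcongr
      nlinarith
    have w1 := log_le_log d1 v1
    have w2 := log_le_log d0 v2
    rw [log_mul hD.ne' d0.ne'] at w1
    rw [log_mul hD.ne' d1.ne'] at w2
    have w3 := log_le_sub_one_of_pos hD
    rw [abs_le]
    constructor <;> linarith

/-- A function with bounded increments along orbits grows sublinearly. -/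
theorem ae_bdd {Y : Type*} [MeasurableSpace Y] {ν : Measure Y} [IsFiniteMeasure ν] {f : Y → Y}
    (hf : MeasurePreserving f ν ν) {U : Y → ℝ} (hU : Measurable U) {S : Set Y}
    (hS : MeasurableSet S) (hinv : f ⁻¹' S = S) {D : ℝ} (hD : ∀ x ∈ S, |U (f x) - U x| ≤ D)
    {ε : ℝ} (hε : 0 < ε) :
    ∀ᵐ x ∂ν, x ∈ S → ∃ K : ℝ, ∀ n : ℕ, U (f^[n] x) - ε * n ≤ K := by
  let φ : Y → ℝ := S.indicator fun x => U (f x) - U x
  have hφ : Measurable φ := ((hU.comp hf.measurable).sub hU).indicator hS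
  have hφb : ∀ x, |φ x| ≤ |D| := fun x => by
    by_cases hx : x ∈ S
    · simp only [φ, indicator_of_mem hx]; exact (hD x hx).trans (le_abs_self D)
    · simp [φ, indicator_of_notMem hx]
  have h1 := Pool.Agent.Lib.Birkhoff.ae_tendsto hf hφ hφb
  have h2 : ∀ k : ℕ, ∀ᵐ x ∂ν, x ∈ {x | U x ≤ k} → ∃ᶠ n in atTop, f^[n] x ∈ {x | U x ≤ k} :=
    fun k => hf.conservative.ae_mem_imp_frequently_image_mem
      (measurableSet_le hU measurable_const).nullMeasurableSet
  filter_upwards [h1, ae_all_iff.2 h2] with x hx1 hx2 hxS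
  have hit : ∀ n, f^[n] x ∈ S := fun n => by
    induction n with
    | zero => exact hxS
    | succ n ih => rw [Function.iterate_succ_apply', ← mem_preimage, hinv]; exact ih
  have e : ∀ n, birkhoffSum f φ n x = U (f^[n] x) - U x := fun n => by
    induction n with
    | zero => simp
    | succ n ih =>
      rw [birkhoffSum_succ, ih, Function.iterate_succ_apply']
      simp only [φ, indicator_of_mem (hit n)]
      ring
  obtain ⟨c, hc⟩ := hx1
  simp only [e] at hc
  obtain ⟨k, hk⟩ := exists_nat_ge (U x)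
  have hc0 : c ≤ 0 := by
    by_contra hcon
    push Not at hcon
    have h3 := hc.eventually_const_lt (half_lt_self hcon)
    have h4 : Tendsto (fun n : ℕ => c / 2 * n) atTop atTop :=
      tendsto_natCast_atTop_atTop.const_mul_atTop (half_pos hcon)
    obtain ⟨n, ⟨h5, h6⟩, h7, h8⟩ := (((hx2 k hk).and_eventually h3).and_eventually
      ((h4.eventually_gt_atTop (k - U x)).and (eventually_gt_atTop 0))).exists
    have hn : (0 : ℝ) < n := by exact_mod_cast h8
    rw [lt_div_iff₀ hn] at h6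
    have : U (f^[n] x) ≤ k := h5
    linarith
  obtain ⟨n0, hn0⟩ := eventually_atTop.1
    ((hc.eventually_lt_const (hc0.trans_lt hε)).and (eventually_gt_atTop 0))
  obtain ⟨K, hK⟩ := (((finite_lt_nat n0).image fun n => U (f^[n] x) - ε * n)).bddAbove
  refine ⟨max K (U x), fun n => ?_⟩
  rcases lt_or_ge n n0 with hn | hn
  · exact le_max_of_le_left (hK ⟨n, hn, rfl⟩)
  · obtain ⟨h5, h6⟩ := hn0 n hn
    have hn : (0 : ℝ) < n := by exact_mod_cast h6
    rw [div_lt_iff₀ hn] at h5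
    exact le_max_of_le_right (by linarith)

/-- Tempering. -/
theorem exists_tempered {Y : Type*} [MeasurableSpace Y] {f g : Y → Y} (mf : Measurable f)
    (mg : Measurable g) (gf : ∀ x, g (f x) = x) (fg : ∀ x, f (g x) = x) {U : Y → ℝ}
    (hU : Measurable U) {S : Set Y} (hS : MeasurableSet S) (hinv : f ⁻¹' S = S) {D : ℝ}
    (hD : ∀ x ∈ S, |U (f x) - U x| ≤ D) {ε : ℝ} (hε : 0 < ε) :
    ∃ (S' : Set Y) (R : Y → ℝ), MeasurableSet S' ∧ f ⁻¹' S' = S' ∧ S' ⊆ S ∧ Measurable R ∧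
      (∀ x ∈ S', U x ≤ R x ∧ |R (f x) - R x| ≤ ε) ∧
      ∀ (ν : Measure Y) [IsFiniteMeasure ν], MeasurePreserving f ν ν → MeasurePreserving g ν ν →
        ∀ᵐ x ∂ν, x ∈ S → x ∈ S' := by
  let F : Equiv.Perm Y := ⟨f, g, gf, fg⟩
  have hF : ∀ n : ℤ, Measurable (F ^ n : Equiv.Perm Y) := by
    intro n
    induction n using Int.induction_on with
    | zero => exact measurable_id
    | succ n ih => rw [zpow_add_one]; exact ih.comp mf
    | pred n ih => rw [zpow_sub_one]; exact ih.comp mg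
  let G : ℤ → Y → ℝ := fun n x => U ((F ^ n) x) - ε * |(n : ℝ)|
  have hG : ∀ n, Measurable (G n) := fun n => (hU.comp (hF n)).sub_const _
  have e1 : ∀ n x, G n (f x) ≤ G (n + 1) x + ε := fun n x => by
    simp only [G, zpow_add_one]
    have h1 : |((n + 1 : ℤ) : ℝ)| ≤ |(n : ℝ)| + 1 := by
      push_cast; exact (abs_add_le _ _).trans (by simp)
    have : ((F ^ n * F) x) = (F ^ n) (f x) := rfl
    rw [this]
    nlinarith
  have e2 : ∀ n x, G n x ≤ G (n - 1) (f x) + ε := fun n x => by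
    simp only [G, zpow_sub_one]
    have h1 : |((n - 1 : ℤ) : ℝ)| ≤ |(n : ℝ)| + 1 := by
      push_cast; exact (abs_sub _ _).trans (by simp)
    have : ((F ^ n * F⁻¹) (f x)) = (F ^ n) (g (f x)) := rfl
    rw [this, gf]
    nlinarith
  have hb : ∀ x, BddAbove (range fun n => G n (f x)) ↔ BddAbove (range fun n => G n x) := by
    intro x
    constructor
    · rintro ⟨K, hK⟩
      refine ⟨K + ε, ?_⟩
      rintro _ ⟨n, rfl⟩
      have := hK ⟨n - 1, rfl⟩
      have := e2 n x
      dsimp only at *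
      linarith
    · rintro ⟨K, hK⟩
      refine ⟨K + ε, ?_⟩
      rintro _ ⟨n, rfl⟩
      have := hK ⟨n + 1, rfl⟩
      have := e1 n x
      dsimp only at *
      linarith
  refine ⟨S ∩ {x | BddAbove (range fun n => G n x)}, fun x => ⨆ n, G n x,
    hS.inter (measurableSet_bddAbove_range hG), ?_, inter_subset_left, Measurable.iSup hG,
    fun x hx => ⟨?_, ?_⟩, fun ν _ hf hg => ?_⟩
  · ext x
    simp only [mem_preimage, mem_inter_iff, mem_ofPred_eq, hb]
    rw [← mem_preimage, hinv]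
  · have := le_ciSup hx.2 0
    simpa [G] using this
  · have h1 : ⨆ n, G n (f x) ≤ (⨆ n, G n x) + ε := ciSup_le fun n =>
      (e1 n x).trans (by have := le_ciSup hx.2 (n + 1); linarith)
    have h2 : ⨆ n, G n x ≤ (⨆ n, G n (f x)) + ε := ciSup_le fun n =>
      (e2 n x).trans (by have := le_ciSup ((hb x).2 hx.2) (n - 1); linarith)
    rw [abs_le]
    constructor <;> linarith
  · have hinv' : g ⁻¹' S = S := by
      ext x
      rw [mem_preimage, ← hinv, mem_preimage, fg, hinv]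
    have h1 := ae_bdd hf hU hS hinv hD hε
    have h2 := ae_bdd hg hU hS hinv' (D := D) (fun x hx => by
      have := hD (g x) (by rw [← mem_preimage, hinv']; exact hx)
      rwa [fg, abs_sub_comm] at this) hε
    filter_upwards [h1, h2] with x hx1 hx2 hxS
    obtain ⟨K1, hK1⟩ := hx1 hxS
    obtain ⟨K2, hK2⟩ := hx2 hxS
    refine ⟨hxS, max K1 K2, ?_⟩
    rintro _ ⟨n, rfl⟩
    obtain ⟨m, rfl | rfl⟩ := n.eq_nat_or_neg
    · refine le_max_of_le_left (le_of_eq_of_le ?_ (hK1 m))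
      simp only [G, zpow_natCast, Equiv.Perm.coe_pow, Int.cast_natCast, Nat.abs_cast]
      rfl
    · refine le_max_of_le_right (le_of_eq_of_le ?_ (hK2 m))
      simp only [G, zpow_neg, zpow_natCast, ← inv_pow, Equiv.Perm.coe_pow, Int.cast_neg,
        Int.cast_natCast, abs_neg, Nat.abs_cast]
      rfl

end Pool.Agent.MP_369096_an

end

-- part MP_369096_an.Box
section

/-!
Boxes, hyperbolic branches between boxes and topological covering relations.
-/

set_option autoImplicit false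
set_option linter.unusedSectionVars false
set_option linter.unusedVariables false

open Filter Set Topology Real Metric

namespace Pool.Agent.MP_369096_an

/-- The closed unit square. -/
def Sq : Set V := {w | |w.1| ≤ 1 ∧ |w.2| ≤ 1}

theorem Sq_eq : Sq = closedBall 0 1 := by
  ext w
  simp [Sq, Prod.norm_def]

theorem isCompact_Sq : IsCompact Sq := by rw [Sq_eq]; exact isCompact_closedBall _ _

theorem zero_mem_Sq : (0 : V) ∈ Sq := by simp [Sq]

theorem Sq.norm_le {w : V} (h : w ∈ Sq) : ‖w‖ ≤ 1 := by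
  rw [Sq_eq, mem_closedBall_zero_iff] at h; exact h

theorem Sq.sub_fst {w w' : V} (h : w ∈ Sq) (h' : w' ∈ Sq) : |w.1 - w'.1| ≤ 2 :=
  (abs_sub _ _).trans (by linarith [h.1, h'.1])

theorem Sq.sub_snd {w w' : V} (h : w ∈ Sq) (h' : w' ∈ Sq) : |w.2 - w'.2| ≤ 2 :=
  (abs_sub _ _).trans (by linarith [h.2, h'.2])

variable {X : Type*} [MetricSpace X]

/-- The box of a chart. -/
def Bx (e : OpenPartialHomeomorph X V) : Set X := {y | y ∈ e.source ∧ e y ∈ Sq}

variable {f : X → X} {μ : ℝ} {e e' e'' : OpenPartialHomeomorph X V} {m m' : ℕ} {H H' : Set X}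

theorem symm_mem_Bx (h : Sq ⊆ e.target) {w : V} (hw : w ∈ Sq) : e.symm w ∈ Bx e :=
  ⟨e.map_target (h hw), by rw [e.right_inv (h hw)]; exact hw⟩

theorem isCompact_Bx (h : Sq ⊆ e.target) : IsCompact (Bx e) := by
  have : Bx e = e.symm '' Sq := by
    ext y
    constructor
    · rintro ⟨h1, h2⟩; exact ⟨_, h2, e.left_inv h1⟩
    · rintro ⟨w, hw, rfl⟩; exact symm_mem_Bx h hw
  rw [this]
  exact isCompact_Sq.image_of_continuousOn (e.continuousOn_symm.mono h)

theorem continuousOn_Bx : ContinuousOn e (Bx e) := e.continuousOn.mono fun _ h => h.1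

theorem Bx_ext {y z : X} (hy : y ∈ Bx e) (hz : z ∈ Bx e) (h : e y = e z) : y = z :=
  e.injOn hy.1 hz.1 h

theorem Bx_mem_nhds {y : X} (hy : y ∈ e.source) (h1 : |(e y).1| < 1) (h2 : |(e y).2| < 1) :
    Bx e ∈ 𝓝 y := by
  have ho : IsOpen {w : V | |w.1| < 1 ∧ |w.2| < 1} :=
    (isOpen_lt continuous_fst.abs continuous_const).inter
      (isOpen_lt continuous_snd.abs continuous_const)
  filter_upwards [e.open_source.mem_nhds hy, e.continuousAt hy (ho.mem_nhds ⟨h1, h2⟩)] with z k1 k2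
  exact ⟨k1, k2.1.le, k2.2.le⟩

/-- A hyperbolic branch of `f^[m]` from the box of `e` to the box of `e'`. -/
structure Branch (f : X → X) (μ : ℝ) (e e' : OpenPartialHomeomorph X V) (m : ℕ) (H : Set X) :
    Prop where
  tgt : Sq ⊆ e.target
  tgt' : Sq ⊆ e'.target
  pos : 0 < m
  closed : IsClosed H
  src : ∀ y ∈ H, y ∈ Bx e ∧ |(e y).2| < 1
  img : ∀ y ∈ H, f^[m] y ∈ Bx e' ∧ |(e' (f^[m] y)).1| < 1
  vert : ∀ y ∈ H, ∀ z ∈ H, |(e y).1 - (e z).1| ≤ |(e y).2 - (e z).2| →
    |(e' (f^[m] y)).1 - (e' (f^[m] z)).1| ≤ μ * |(e' (f^[m] y)).2 - (e' (f^[m] z)).2| ∧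
    |(e y).2 - (e z).2| ≤ μ ^ m * |(e' (f^[m] y)).2 - (e' (f^[m] z)).2|
  horiz : ∀ y ∈ H, ∀ z ∈ H,
    |(e' (f^[m] y)).2 - (e' (f^[m] z)).2| ≤ |(e' (f^[m] y)).1 - (e' (f^[m] z)).1| →
    |(e' (f^[m] y)).1 - (e' (f^[m] z)).1| ≤ μ ^ m * |(e y).1 - (e z).1|
  relopen : ∀ y ∈ H, ∀ᶠ z in 𝓝 y, z ∈ Bx e → f^[m] z ∈ Bx e' → z ∈ H
  ext : ∃ Γ : V → V, ContinuousOn Γ Sq ∧ MapsTo Γ Sq Sq ∧ (∀ y ∈ H, Γ (e y) = e' (f^[m] y)) ∧
    (∀ w ∈ Sq, |(Γ w).2| < 1 → e.symm w ∈ H) ∧
    ∃ σ : ℝ, |σ| = 1 ∧ ∀ w ∈ Sq, |w.2| = 1 → (Γ w).2 = σ * w.2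

theorem Branch.isCompact (h : Branch f μ e e' m H) : IsCompact H :=
  (isCompact_Bx h.tgt).of_isClosed_subset h.closed fun y hy => (h.src y hy).1

theorem Branch.comp (hf : Continuous f) (hμ0 : 0 ≤ μ) (hμ : μ < 1) (h : Branch f μ e e' m H)
    (h' : Branch f μ e' e'' m' H') : Branch f μ e e'' (m + m') (H ∩ f^[m] ⁻¹' H') := by
  have it : ∀ y, f^[m + m'] y = f^[m'] (f^[m] y) := fun y => by
    rw [Nat.add_comm, Function.iterate_add_apply]
  have hp : ∀ n : ℕ, 0 ≤ μ ^ n := fun n => pow_nonneg hμ0 n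
  refine ⟨h.tgt, h'.tgt', Nat.add_pos_left h.pos _, h.closed.inter
    (h'.closed.preimage (hf.iterate m)), fun y hy => h.src y hy.1, fun y hy => ?_,
    fun y hy z hz hc => ?_, fun y hy z hz hc => ?_, fun y hy => ?_, ?_⟩
  · rw [it]; exact h'.img _ hy.2
  · obtain ⟨k1, k2⟩ := h.vert y hy.1 z hz.1 hc
    obtain ⟨k3, k4⟩ := h'.vert _ hy.2 _ hz.2 (k1.trans (by
      have := abs_nonneg ((e' (f^[m] y)).2 - (e' (f^[m] z)).2)
      nlinarith))
    rw [it, it]
    refine ⟨k3, k2.trans ?_⟩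
    rw [pow_add, mul_assoc]
    exact mul_le_mul_of_nonneg_left k4 (hp m)
  · rw [it, it] at hc ⊢
    have k1 := h'.horiz _ hy.2 _ hz.2 hc
    have k2 : |(e' (f^[m] y)).2 - (e' (f^[m] z)).2| ≤ |(e' (f^[m] y)).1 - (e' (f^[m] z)).1| := by
      by_contra hcon
      push Not at hcon
      obtain ⟨k3, k4⟩ := h'.vert _ hy.2 _ hz.2 hcon.le
      have a1 := abs_nonneg ((e'' (f^[m'] (f^[m] y))).2 - (e'' (f^[m'] (f^[m] z))).2)
      have a2 := abs_nonneg ((e' (f^[m] y)).1 - (e' (f^[m] z)).1)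
      have k5 : |(e'' (f^[m'] (f^[m] y))).2 - (e'' (f^[m'] (f^[m] z))).2| = 0 := by nlinarith
      rw [k5, mul_zero] at k4
      linarith
    have k3 := h.horiz y hy.1 z hz.1 k2
    refine k1.trans ?_
    rw [pow_add, mul_comm (μ ^ m), mul_assoc]
    exact mul_le_mul_of_nonneg_left k3 (hp m')
  · have k1 := h.img y hy.1
    have k2 := h'.src _ hy.2
    have hc := (hf.iterate m).continuousAt (x := y)
    filter_upwards [h.relopen y hy.1, hc (Bx_mem_nhds k1.1.1 k1.2 k2.2),
      hc (h'.relopen _ hy.2)] with z a1 a2 a3 b1 b2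
    rw [it] at b2
    exact ⟨a1 b1 a2, a3 a2 b2⟩
  · obtain ⟨Γ, c1, m1, e1, i1, σ, s1, t1⟩ := h.ext
    obtain ⟨Γ', c2, m2, e2, i2, σ', s2, t2⟩ := h'.ext
    refine ⟨Γ' ∘ Γ, c2.comp c1 m1, m2.comp m1, fun y hy => ?_, fun w hw hlt => ?_, σ' * σ, ?_,
      fun w hw h1 => ?_⟩
    · rw [Function.comp_apply, e1 y hy.1, e2 _ hy.2, it]
    · have k1 := i2 _ (m1 hw) hlt
      have k2 := (h'.src _ k1).2
      rw [e'.right_inv (h'.tgt (m1 hw))] at k2
      have k3 := i1 w hw k2
      refine ⟨k3, ?_⟩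
      have k4 := e1 _ k3
      rw [e.right_inv (h.tgt hw)] at k4
      rw [k4, e'.left_inv (h.img _ k3).1.1] at k1
      exact k1
    · rw [abs_mul, s1, s2, one_mul]
    · have k1 := t1 w hw h1
      rw [Function.comp_apply, t2 _ (m1 hw) (by rw [k1, abs_mul, s1, h1, one_mul]), k1, mul_assoc]

/-- One hyperbolic step between two boxes. -/
structure Step (f : X → X) (lam eps : ℝ) (e e' : OpenPartialHomeomorph X V) : Prop where
  tgt : Sq ⊆ e.target
  tgt' : Sq ⊆ e'.target
  src : ∀ w ∈ Sq, f (e.symm w) ∈ e'.source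
  est : ∃ a b : ℝ, |a| ≤ lam ∧ lam⁻¹ ≤ |b| ∧ ‖e' (f (e.symm 0))‖ ≤ eps ∧ ∀ w ∈ Sq, ∀ w' ∈ Sq,
    ‖e' (f (e.symm w)) - e' (f (e.symm w')) - (a * (w.1 - w'.1), b * (w.2 - w'.2))‖ ≤
      eps * ‖w - w'‖

theorem Step.branch {lam eps : ℝ} (hf : Continuous f) (hl : 0 < lam) (he : 0 ≤ eps)
    (hle : lam + 2 * eps < 1) (h : Step f lam eps e e') :
    Branch f (lam + 2 * eps) e e' 1 (Bx e ∩ f ⁻¹' Bx e') := by
  obtain ⟨a, b, ha, hb, h0, hest⟩ := h.est
  set G : V → V := fun w => e' (f (e.symm w)) with hG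
  have hGc : ContinuousOn G Sq :=
    e'.continuousOn.comp (hf.comp_continuousOn (e.continuousOn_symm.mono h.tgt)) h.src
  have hu : ∀ w ∈ Sq, ∀ w' ∈ Sq, |(G w).1 - (G w').1 - a * (w.1 - w'.1)| ≤ eps * ‖w - w'‖ :=
    fun w hw w' hw' => (norm_fst_le _).trans (hest w hw w' hw')
  have hv : ∀ w ∈ Sq, ∀ w' ∈ Sq, |(G w).2 - (G w').2 - b * (w.2 - w'.2)| ≤ eps * ‖w - w'‖ :=
    fun w hw w' hw' => (norm_snd_le _).trans (hest w hw w' hw')
  have h01 : |(G 0).1| ≤ eps := (norm_fst_le _).trans h0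
  have h02 : |(G 0).2| ≤ eps := (norm_snd_le _).trans h0
  have hinv : lam * lam⁻¹ = 1 := mul_inv_cancel₀ hl.ne'
  have hi0 : 0 < lam⁻¹ := inv_pos.2 hl
  have hb1 : 1 + 2 * eps < |b| := by nlinarith [sq_nonneg (lam - 1)]
  have hG1 : ∀ w ∈ Sq, |(G w).1| < 1 := fun w hw => by
    have k1 := hu w hw 0 zero_mem_Sq
    have k2 := Sq.norm_le hw
    simp only [Prod.fst_zero, sub_zero] at k1
    have k3 : |a * w.1| ≤ lam := by
      rw [abs_mul]
      have := hw.1
      have := abs_nonneg a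
      nlinarith
    have k4 := abs_add_three ((G w).1 - (G 0).1 - a * w.1) (G 0).1 (a * w.1)
    rw [show (G w).1 - (G 0).1 - a * w.1 + (G 0).1 + a * w.1 = (G w).1 by ring] at k4
    nlinarith
  have hG2 : ∀ w ∈ Sq, |(G w).2 - b * w.2| ≤ 2 * eps := fun w hw => by
    have k1 := hv w hw 0 zero_mem_Sq
    have k2 := Sq.norm_le hw
    simp only [Prod.snd_zero, sub_zero] at k1
    have k4 := abs_add_le ((G w).2 - (G 0).2 - b * w.2) (G 0).2
    rw [show (G w).2 - (G 0).2 - b * w.2 + (G 0).2 = (G w).2 - b * w.2 by ring] at k4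
    nlinarith
  have hGy : ∀ y ∈ Bx e, G (e y) = e' (f y) := fun y hy => by simp only [hG, e.left_inv hy.1]
  have hnorm : ∀ w w' : V, ‖w - w'‖ = max |w.1 - w'.1| |w.2 - w'.2| := fun w w' => rfl
  have hvert : ∀ w ∈ Sq, ∀ w' ∈ Sq, |w.1 - w'.1| ≤ |w.2 - w'.2| →
      |(G w).1 - (G w').1| ≤ (lam + eps) * |w.2 - w'.2| ∧
        |w.2 - w'.2| ≤ (lam + 2 * eps) * |(G w).2 - (G w').2| := by
    intro w hw w' hw' hc
    have k1 := hu w hw w' hw'
    have k2 := hv w hw w' hw'
    rw [hnorm, max_eq_right hc] at k1 k2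
    have a0 := abs_nonneg (w.1 - w'.1)
    have a1 := abs_nonneg a
    have k3 := abs_add_le ((G w).1 - (G w').1 - a * (w.1 - w'.1)) (a * (w.1 - w'.1))
    rw [sub_add_cancel, abs_mul] at k3
    have k4 := abs_sub ((G w).2 - (G w').2) ((G w).2 - (G w').2 - b * (w.2 - w'.2))
    rw [sub_sub_cancel, abs_mul] at k4
    have k5 : |a| * |w.1 - w'.1| ≤ lam * |w.2 - w'.2| := by gcongr
    refine ⟨by linarith, ?_⟩
    have k6 : lam⁻¹ * |w.2 - w'.2| ≤ |b| * |w.2 - w'.2| := by gcongr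
    have k7 : (lam⁻¹ - eps) * |w.2 - w'.2| ≤ |(G w).2 - (G w').2| := by linarith
    have k8 : 1 ≤ (lam + 2 * eps) * (lam⁻¹ - eps) := by
      have : 1 < lam⁻¹ := by nlinarith
      nlinarith
    calc |w.2 - w'.2| = 1 * |w.2 - w'.2| := (one_mul _).symm
      _ ≤ (lam + 2 * eps) * (lam⁻¹ - eps) * |w.2 - w'.2| := by gcongr
      _ = (lam + 2 * eps) * ((lam⁻¹ - eps) * |w.2 - w'.2|) := by ring
      _ ≤ _ := by gcongr
  refine ⟨h.tgt, h.tgt', one_pos, (isCompact_Bx h.tgt).isClosed.inter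
    ((isCompact_Bx h.tgt').isClosed.preimage hf), fun y hy => ⟨hy.1, ?_⟩,
    fun y hy => ⟨hy.2, ?_⟩, fun y hy z hz hc => ?_, fun y hy z hz hc => ?_,
    fun y hy => Eventually.of_forall fun z h1 h2 => ⟨h1, h2⟩, ?_⟩
  · refine lt_of_le_of_ne hy.1.2.2 fun h1 => ?_
    have k1 := hG2 _ hy.1.2
    rw [hGy y hy.1] at k1
    have k2 := hy.2.2.2
    have k3 := abs_sub (e' (f y)).2 ((e' (f y)).2 - b * (e y).2)
    rw [sub_sub_cancel, abs_mul, h1] at k3
    linarith
  · have := hG1 _ hy.1.2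
    rwa [hGy y hy.1] at this
  · obtain ⟨k1, k2⟩ := hvert _ hy.1.2 _ hz.1.2 hc
    rw [hGy y hy.1, hGy z hz.1] at k1 k2
    simp only [Function.iterate_one, pow_one]
    refine ⟨k1.trans ?_, k2⟩
    have a1 := abs_nonneg ((e y).2 - (e z).2)
    have a2 := abs_nonneg ((e' (f y)).2 - (e' (f z)).2)
    nlinarith
  · simp only [Function.iterate_one, pow_one] at hc ⊢
    rcases le_total |(e y).1 - (e z).1| |(e y).2 - (e z).2| with h1 | h1
    · obtain ⟨k1, k2⟩ := hvert _ hy.1.2 _ hz.1.2 h1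
      rw [hGy y hy.1, hGy z hz.1] at k1 k2
      have a1 := abs_nonneg ((e y).2 - (e z).2)
      have a2 := abs_nonneg ((e' (f y)).2 - (e' (f z)).2)
      have a3 := abs_nonneg ((e y).1 - (e z).1)
      have a4 : |(e y).2 - (e z).2| = 0 := by
        have : |(e y).2 - (e z).2| ≤ (lam + 2 * eps) * ((lam + eps) * |(e y).2 - (e z).2|) :=
          k2.trans (mul_le_mul_of_nonneg_left (hc.trans k1) (by linarith))
        have h5 : (lam + 2 * eps) * (lam + eps) < 1 := by nlinarith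
        nlinarith
      rw [a4, mul_zero] at k1
      exact k1.trans (by positivity)
    · have k1 := hu _ hy.1.2 _ hz.1.2
      rw [hnorm, max_eq_left h1, hGy y hy.1, hGy z hz.1] at k1
      have k3 := abs_add_le ((e' (f y)).1 - (e' (f z)).1 - a * ((e y).1 - (e z).1))
        (a * ((e y).1 - (e z).1))
      rw [sub_add_cancel, abs_mul] at k3
      have a3 := abs_nonneg ((e y).1 - (e z).1)
      have k5 : |a| * |(e y).1 - (e z).1| ≤ lam * |(e y).1 - (e z).1| := by gcongr
      nlinarith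
  · have hb0 : 0 < |b| := by linarith
    refine ⟨fun w => ((G w).1, max (-1) (min 1 (G w).2)), ?_, fun w hw => ⟨(hG1 w hw).le, ?_⟩,
      fun y hy => ?_, fun w hw hlt => ?_, b / |b|, ?_, fun w hw h1 => ?_⟩
    · exact hGc.fst.prodMk ((continuous_const.max (continuous_const.min
        continuous_id)).comp_continuousOn hGc.snd)
    · rw [abs_le]
      exact ⟨le_max_left _ _, max_le (by norm_num) (min_le_left _ _)⟩
    · have := abs_le.1 hy.2.2.2
      simp only [hGy y hy.1, Function.iterate_one]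
      rw [min_eq_right this.2, max_eq_right this.1]
    · refine ⟨symm_mem_Bx h.tgt hw, h.src w hw, (hG1 w hw).le, ?_⟩
      change |(G w).2| ≤ 1
      rw [abs_lt] at hlt
      dsimp only at hlt
      rw [abs_le]
      constructor
      · by_contra hcon
        push Not at hcon
        rw [max_eq_left ((min_le_right _ _).trans hcon.le)] at hlt
        linarith
      · by_contra hcon
        push Not at hcon
        rw [min_eq_left hcon.le, max_eq_right (by norm_num)] at hlt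
        linarith
    · rw [abs_div, abs_abs, div_self hb0.ne']
    · have k1 := abs_le.1 (hG2 w hw)
      dsimp only
      rcases le_total 0 b with hb' | hb'
      · rw [abs_of_nonneg hb'] at hb1 hb0 ⊢
        rw [div_self hb0.ne', one_mul]
        rcases abs_eq (zero_le_one) |>.1 h1 with h2 | h2
        · rw [h2] at k1 ⊢
          rw [min_eq_left (by linarith), max_eq_right (by norm_num)]
        · rw [h2] at k1 ⊢
          rw [max_eq_left ((min_le_right _ _).trans (by linarith))]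
      · rw [abs_of_nonpos hb'] at hb1 hb0 ⊢
        rw [div_neg, div_self (by linarith), neg_mul, one_mul]
        rcases abs_eq (zero_le_one) |>.1 h1 with h2 | h2
        · rw [h2] at k1 ⊢
          rw [max_eq_left ((min_le_right _ _).trans (by linarith))]
        · rw [h2] at k1 ⊢
          rw [min_eq_left (by linarith), max_eq_right (by norm_num)]
          norm_num

theorem exists_sub_interval {φ : ℝ → ℝ} {s t c : ℝ} (hst : s ≤ t) (hc : ContinuousOn φ (Icc s t))
    (hb : ∀ τ ∈ Icc s t, |φ τ| ≤ 1) (hc1 : |c| = 1) (h1 : φ s = c) (h2 : φ t = -c) :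
    ∃ s' t', s ≤ s' ∧ s' < t' ∧ t' ≤ t ∧ φ s' = c ∧ φ t' = -c ∧ ∀ τ ∈ Ioo s' t', |φ τ| < 1 := by
  have k1 : IsCompact (Icc s t ∩ φ ⁻¹' {c}) :=
    isCompact_Icc.of_isClosed_subset
      (hc.preimage_isClosed_of_isClosed isClosed_Icc isClosed_singleton) inter_subset_left
  obtain ⟨s', hs', hs1⟩ := k1.exists_isGreatest ⟨s, left_mem_Icc.2 hst, h1⟩
  have k2 : IsCompact (Icc s' t ∩ φ ⁻¹' {-c}) :=
    isCompact_Icc.of_isClosed_subset
      ((hc.mono (Icc_subset_Icc_left hs'.1.1)).preimage_isClosed_of_isClosed isClosed_Icc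
        isClosed_singleton) inter_subset_left
  obtain ⟨t', ht', ht1⟩ := k2.exists_isLeast ⟨t, right_mem_Icc.2 hs'.1.2, h2⟩
  have e1 : φ s' = c := hs'.2
  have e2 : φ t' = -c := ht'.2
  refine ⟨s', t', hs'.1.1, lt_of_le_of_ne ht'.1.1 ?_, ht'.1.2, e1, e2, fun τ hτ => ?_⟩
  · rintro rfl
    have : c = 0 := by linarith
    rw [this] at hc1
    simp at hc1
  · have hm : τ ∈ Icc s t := ⟨hs'.1.1.trans hτ.1.le, hτ.2.le.trans ht'.1.2⟩
    refine lt_of_le_of_ne (hb τ hm) fun h => ?_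
    rcases abs_eq_abs.1 (h.trans hc1.symm) with h3 | h3
    · exact absurd (hs1 ⟨hm, h3⟩) (not_le.2 hτ.1)
    · exact absurd (ht1 ⟨⟨hτ.1.le, hm.2⟩, h3⟩) (not_le.2 hτ.2)

/-- A curve that crosses the box between its horizontal sides. -/
def Cross (e : OpenPartialHomeomorph X V) (γ : ℝ → X) (s t : ℝ) : Prop :=
  s ≤ t ∧ ContinuousOn γ (Icc s t) ∧ (∀ τ ∈ Icc s t, γ τ ∈ Bx e) ∧ |(e (γ s)).2| = 1 ∧
    (e (γ t)).2 = -(e (γ s)).2

/-- Every crossing of the first box has a piece in `K` whose image crosses the second box. -/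
def Covers (f : X → X) (e e' : OpenPartialHomeomorph X V) (m : ℕ) (K : Set X) : Prop :=
  ∀ γ s t, Cross e γ s t → ∃ s' t', s ≤ s' ∧ t' ≤ t ∧ (∀ τ ∈ Icc s' t', γ τ ∈ K) ∧
    Cross e' (fun τ => f^[m] (γ τ)) s' t'

theorem Covers.comp {K K' : Set X} (h : Covers f e e' m K) (h' : Covers f e' e'' m' K') :
    Covers f e e'' (m + m') (K ∩ f^[m] ⁻¹' K') := by
  intro γ s t hγ
  obtain ⟨s1, t1, a1, a2, a3, a4⟩ := h γ s t hγ
  obtain ⟨s2, t2, b1, b2, b3, b4⟩ := h' _ s1 t1 a4
  refine ⟨s2, t2, a1.trans b1, b2.trans a2, fun τ hτ =>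
    ⟨a3 τ ⟨b1.trans hτ.1, hτ.2.trans b2⟩, b3 τ hτ⟩, ?_⟩
  simpa only [Nat.add_comm m m', Function.iterate_add_apply] using b4

theorem Covers.mono {K K' : Set X} (h : Covers f e e' m K) (hK : K ⊆ K') : Covers f e e' m K' := by
  intro γ s t hγ
  obtain ⟨s1, t1, a1, a2, a3, a4⟩ := h γ s t hγ
  exact ⟨s1, t1, a1, a2, fun τ hτ => hK (a3 τ hτ), a4⟩

theorem cross_vertical (h : Sq ⊆ e.target) {u : ℝ} (hu : |u| ≤ 1) :
    Cross e (fun τ => e.symm (u, τ)) (-1) 1 := by
  have hm : ∀ τ ∈ Icc (-1 : ℝ) 1, ((u, τ) : V) ∈ Sq := fun τ hτ => ⟨hu, abs_le.2 hτ⟩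
  refine ⟨by norm_num, ?_, fun τ hτ => symm_mem_Bx h (hm τ hτ), ?_, ?_⟩
  · exact e.continuousOn_symm.comp (by fun_prop) fun τ hτ => h (hm τ hτ)
  · rw [e.right_inv (h (hm _ (by simp)))]; simp
  · rw [e.right_inv (h (hm _ (by simp))), e.right_inv (h (hm _ (by simp)))]; simp

theorem Cross.exists_snd {γ : ℝ → X} {s t : ℝ} (h : Cross e γ s t) {v : ℝ} (hv : |v| ≤ 1) :
    ∃ τ ∈ Icc s t, (e (γ τ)).2 = v := by
  obtain ⟨h1, h2, h3, h4, h5⟩ := h
  have hc : ContinuousOn (fun τ => (e (γ τ)).2) (uIcc s t) := by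
    rw [uIcc_of_le h1]
    exact (continuousOn_Bx.comp h2 h3).snd
  have := intermediate_value_uIcc hc (a := s) (b := t) (show v ∈ uIcc _ _ by
    rw [h5, mem_uIcc]
    rw [abs_le] at hv
    rcases (abs_eq zero_le_one).1 h4 with h6 | h6 <;> rw [h6]
    · right; exact hv
    · left; simpa using hv)
  rwa [uIcc_of_le h1] at this

theorem covers_words {I : Type*} (h : Sq ⊆ e.target) (K : I → Set X)
    (hK : ∀ i, Covers f e e m (K i)) (k : ℕ) (w : ℕ → I) :
    ∃ y, ∀ i < k, f^[i * m] y ∈ K (w i) := by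
  have key : ∀ k : ℕ, Covers f e e (k * m) {y | ∀ i < k, f^[i * m] y ∈ K (w i)} := by
    intro k
    induction k with
    | zero =>
      intro γ s t hγ
      exact ⟨s, t, le_rfl, le_rfl, fun τ _ i hi => absurd hi (Nat.not_lt_zero i), by simpa⟩
    | succ k ih =>
      rw [Nat.succ_mul]
      refine (ih.comp (hK (w k))).mono fun y hy i hi => ?_
      rcases Nat.lt_succ_iff_lt_or_eq.1 hi with h1 | rfl
      · exact hy.1 i h1
      · exact hy.2
  obtain ⟨s, t, -, -, h3, h4⟩ := key k _ _ _ (cross_vertical h (u := 0) (by simp))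
  exact ⟨_, h3 s (left_mem_Icc.2 h4.1)⟩

/-- The vertical segment from `w` to the side `c` avoids `H`. -/
def Out (e : OpenPartialHomeomorph X V) (H : Set X) (w : V) (c : ℝ) : Prop :=
  ∀ v ∈ uIcc w.2 c, e.symm (w.1, v) ∉ H

theorem Branch.cross_of (hf : Continuous f) (h : Branch f μ e e' m H) {γ : ℝ → X} {s t c : ℝ}
    (hst : s ≤ t) (hγ : ContinuousOn γ (Icc s t)) (hB : ∀ τ ∈ Icc s t, γ τ ∈ Bx e) (hc : |c| = 1)
    (h1 : Out e H (e (γ s)) c) (h2 : Out e H (e (γ t)) (-c)) :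
    ∃ s' t', s ≤ s' ∧ t' ≤ t ∧ (∀ τ ∈ Icc s' t', γ τ ∈ H) ∧
      Cross e' (fun τ => f^[m] (γ τ)) s' t' := by
  obtain ⟨Γ, c1, m1, e1, i1, σ, s1, t1⟩ := h.ext
  have key : ∀ w ∈ Sq, ∀ c : ℝ, |c| = 1 → Out e H w c → (Γ w).2 = σ * c := by
    intro w hw c hc ho
    have hm : ∀ v ∈ uIcc w.2 c, ((w.1, v) : V) ∈ Sq := fun v hv => by
      refine ⟨hw.1, ?_⟩
      have := abs_le.1 hw.2
      have := abs_le.1 hc.le
      rw [mem_uIcc] at hv
      rw [abs_le]
      rcases hv with hv | hv <;> constructor <;> linarith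
    have hcont : ContinuousOn (fun v => (Γ (w.1, v)).2) (uIcc w.2 c) :=
      (c1.comp (by fun_prop) hm).snd
    have hone : ∀ v ∈ uIcc w.2 c, |(Γ (w.1, v)).2| = 1 := fun v hv =>
      le_antisymm (m1 (hm v hv)).2 (not_lt.1 fun hlt => ho v hv (i1 _ (hm v hv) hlt))
    have k1 : (Γ (w.1, c)).2 = σ * c := t1 _ (hm c right_mem_uIcc) hc
    have k2 := hone _ left_mem_uIcc
    have k3 := hone _ right_mem_uIcc
    by_contra hcon
    obtain ⟨v, hv, hv0⟩ := intermediate_value_uIcc hcont (show (0 : ℝ) ∈ uIcc _ _ by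
      rw [mem_uIcc]
      change (Γ w).2 ≠ _ at hcon
      rw [← k1] at hcon
      change |(Γ w).2| = 1 at k2
      change ((Γ w).2 ≤ 0 ∧ 0 ≤ (Γ (w.1, c)).2) ∨ ((Γ (w.1, c)).2 ≤ 0 ∧ 0 ≤ (Γ w).2)
      change (Γ w).2 ≠ _ at hcon
      rcases (abs_eq zero_le_one).1 k2 with h6 | h6 <;>
        rcases (abs_eq zero_le_one).1 k3 with h7 | h7 <;> rw [h6, h7] at hcon ⊢
      · exact absurd rfl hcon
      · norm_num
      · norm_num
      · exact absurd rfl hcon)
    have := hone v hv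
    dsimp only at hv0
    rw [hv0] at this
    simp at this
  have hec : ContinuousOn (fun τ => e (γ τ)) (Icc s t) := continuousOn_Bx.comp hγ hB
  have hes : ∀ τ ∈ Icc s t, e (γ τ) ∈ Sq := fun τ hτ => (hB τ hτ).2
  obtain ⟨s', t', a1, a2, a3, a4, a5, a6⟩ := exists_sub_interval (φ := fun τ => (Γ (e (γ τ))).2)
    (c := σ * c) hst (c1.comp hec hes).snd (fun τ hτ => (m1 (hes τ hτ)).2)
    (by rw [abs_mul, s1, hc, one_mul]) (key _ (hes s (left_mem_Icc.2 hst)) c hc h1)
    (by rw [key _ (hes t (right_mem_Icc.2 hst)) (-c) (by rw [abs_neg, hc]) h2]; ring)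
  have hsub : Icc s' t' ⊆ Icc s t := Icc_subset_Icc a1 a3
  have hH : ∀ τ ∈ Icc s' t', γ τ ∈ H := by
    have hcl : IsClosed (Icc s' t' ∩ γ ⁻¹' H) :=
      (hγ.mono hsub).preimage_isClosed_of_isClosed isClosed_Icc h.closed
    have : closure (Ioo s' t') ⊆ Icc s' t' ∩ γ ⁻¹' H := hcl.closure_subset_iff.2 fun τ hτ => by
      have hm := hsub (Ioo_subset_Icc_self hτ)
      have := i1 _ (hes τ hm) (a6 τ hτ)
      rw [e.left_inv (hB τ hm).1] at this
      exact ⟨Ioo_subset_Icc_self hτ, this⟩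
    rw [closure_Ioo a2.ne] at this
    exact fun τ hτ => (this hτ).2
  refine ⟨s', t', a1, a3, hH, a2.le, (hf.iterate m).comp_continuousOn (hγ.mono hsub),
    fun τ hτ => (h.img _ (hH τ hτ)).1, ?_, ?_⟩
  · rw [← e1 _ (hH s' (left_mem_Icc.2 a2.le)), a4, abs_mul, s1, hc, one_mul]
  · rw [← e1 _ (hH s' (left_mem_Icc.2 a2.le)), ← e1 _ (hH t' (right_mem_Icc.2 a2.le)), a4, a5]

theorem Branch.covers (hf : Continuous f) (h : Branch f μ e e' m H) : Covers f e e' m H := by
  rintro γ s t ⟨h1, h2, h3, h4, h5⟩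
  have key : ∀ y ∈ Bx e, |(e y).2| = 1 → Out e H (e y) (e y).2 := by
    intro y hy hy1 v hv hH
    rw [uIcc_self, mem_singleton_iff] at hv
    rw [hv, Prod.mk.eta, e.left_inv hy.1] at hH
    exact absurd hy1 (h.src y hH).2.ne
  refine h.cross_of hf h1 h2 h3 h4 (key _ (h3 s (left_mem_Icc.2 h1)) h4) ?_
  rw [← h5]
  exact key _ (h3 t (right_mem_Icc.2 h1)) (by rw [h5, abs_neg, h4])

theorem Branch.exists_point (hf : Continuous f) (h : Branch f μ e e' m H) {u v : ℝ} (hu : |u| ≤ 1)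
    (hv : |v| ≤ 1) : ∃ y ∈ H, (e y).1 = u ∧ (e' (f^[m] y)).2 = v := by
  obtain ⟨s, t, a1, a2, a3, a4⟩ := h.covers hf _ _ _ (cross_vertical h.tgt hu)
  obtain ⟨τ, hτ, h1⟩ := a4.exists_snd hv
  refine ⟨_, a3 τ hτ, ?_, h1⟩
  rw [e.right_inv (h.tgt ⟨hu, abs_le.2 ⟨a1.trans hτ.1, hτ.2.trans a2⟩⟩)]

theorem Branch.nonempty (hf : Continuous f) (h : Branch f μ e e' m H) : H.Nonempty := by
  obtain ⟨y, hy, -⟩ := h.exists_point hf (u := 0) (v := 0) (by simp) (by simp)
  exact ⟨y, hy⟩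

theorem Branch.isPreconnected (hf : Continuous f) (h : Branch f μ e e' m H) :
    IsPreconnected H := by
  have : CompactSpace H := isCompact_iff_compactSpace.1 h.isCompact
  let Φ : H → Sq := fun y => ⟨((e y).1, (e' (f^[m] y)).2), (h.src y y.2).1.2.1, (h.img y y.2).1.2.2⟩
  have hΦc : Continuous Φ := by
    refine Continuous.subtype_mk (Continuous.prodMk ?_ ?_) _
    · exact (continuousOn_Bx.comp_continuous continuous_subtype_val
        fun y => (h.src y y.2).1).fst
    · exact (continuousOn_Bx.comp_continuous ((hf.iterate m).comp continuous_subtype_val)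
        fun y => (h.img y y.2).1).snd
  have hΦb : Function.Bijective Φ := by
    constructor
    · intro y z hyz
      have k := congrArg Subtype.val hyz
      simp only [Φ, Prod.mk.injEq] at k
      have k1 := (h.vert y y.2 z z.2 (by rw [k.1, sub_self, abs_zero]; exact abs_nonneg _)).2
      rw [k.2, sub_self, abs_zero, mul_zero, abs_nonpos_iff, sub_eq_zero] at k1
      exact Subtype.ext (Bx_ext (h.src y y.2).1 (h.src z z.2).1 (Prod.ext k.1 k1))
    · rintro ⟨w, hw⟩
      obtain ⟨y, hy, h1, h2⟩ := h.exists_point hf hw.1 hw.2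
      exact ⟨⟨y, hy⟩, Subtype.ext (Prod.ext h1 h2)⟩
  let Ψ := (Equiv.ofBijective Φ hΦb).toHomeomorphOfContinuousClosed hΦc hΦc.isClosedMap
  have hS : IsPreconnected Sq := by rw [Sq_eq]; exact (convex_closedBall _ _).isPreconnected
  have : PreconnectedSpace Sq := isPreconnected_iff_preconnectedSpace.1 hS
  have h3 := isPreconnected_range (continuous_subtype_val.comp Ψ.symm.continuous)
  rwa [range_comp, Ψ.symm.surjective.range_eq, image_univ, Subtype.range_coe] at h3

theorem Branch.subset_of_inter (hf : Continuous f) (h : Branch f μ e e' m H)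
    (h' : Branch f μ e e' m H') (hne : (H ∩ H').Nonempty) : H ⊆ H' := by
  let U := interior {z | z ∈ Bx e → f^[m] z ∈ Bx e' → z ∈ H'}
  have hU : H' ⊆ U := fun y hy => mem_interior_iff_mem_nhds.2 (h'.relopen y hy)
  intro y hy
  by_contra hy'
  obtain ⟨z, hz1, hz2⟩ := hne
  obtain ⟨x, hx1, hx2, hx3⟩ := h.isPreconnected hf U H'ᶜ isOpen_interior h'.closed.isOpen_compl
    (fun x _ => by
      by_cases hx : x ∈ H'
      · exact Or.inl (hU hx)
      · exact Or.inr hx) ⟨z, hz1, hU hz2⟩ ⟨y, hy, hy'⟩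
  exact hx3 (interior_subset hx2 (h.src x hx1).1 (h.img x hx1).1)

theorem Branch.eq_or_disjoint (hf : Continuous f) (h : Branch f μ e e' m H)
    (h' : Branch f μ e e' m H') (hne : H ≠ H') : Disjoint H H' := by
  by_contra hd
  rw [Set.not_disjoint_iff_nonempty_inter] at hd
  exact hne (Subset.antisymm (h.subset_of_inter hf h' hd)
    (h'.subset_of_inter hf h (by rwa [inter_comm])))

/-- Points that follow two consecutive branches are close in the middle box. -/
theorem Branch.mid_close (hμ0 : 0 ≤ μ) (h : Branch f μ e e' m H) (h' : Branch f μ e' e'' m' H')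
    {y z : X} (hy : y ∈ H) (hz : z ∈ H) (hy' : f^[m] y ∈ H') (hz' : f^[m] z ∈ H') :
    ‖e' (f^[m] y) - e' (f^[m] z)‖ ≤ 2 * max (μ ^ m) (μ ^ m') := by
  change max |(e' (f^[m] y)).1 - (e' (f^[m] z)).1| |(e' (f^[m] y)).2 - (e' (f^[m] z)).2| ≤ _
  have hp : ∀ n : ℕ, 0 ≤ μ ^ n := fun n => pow_nonneg hμ0 n
  rcases le_total |(e' (f^[m] y)).1 - (e' (f^[m] z)).1| |(e' (f^[m] y)).2 - (e' (f^[m] z)).2|
    with hc | hc
  · rw [max_eq_right hc]
    have k1 := (h'.vert _ hy' _ hz' hc).2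
    have k2 := mul_le_mul_of_nonneg_left (Sq.sub_snd (h'.img _ hy').1.2 (h'.img _ hz').1.2) (hp m')
    have := le_max_right (μ ^ m) (μ ^ m')
    linarith
  · rw [max_eq_left hc]
    have k1 := h.horiz _ hy _ hz hc
    have k2 := mul_le_mul_of_nonneg_left (Sq.sub_fst (h.src _ hy).1.2 (h.src _ hz).1.2) (hp m)
    have := le_max_left (μ ^ m) (μ ^ m')
    linarith

end Pool.Agent.MP_369096_an

end

-- part MP_369096_an.Pesin
section

/-!
Pesin boxes: along almost every orbit there is a chain of hyperbolic steps, with one common box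
on a set of positive measure.
-/

set_option autoImplicit false
set_option linter.unusedSectionVars false
set_option linter.unusedVariables false

open MeasureTheory Filter Set Topology Real Metric

namespace Pool.Agent.MP_369096_an

/-- The linear map with columns `p`, `q`. -/
def lin (p q u : V) : V := u.1 • p + u.2 • q

/-- Coordinates in the basis `p`, `q`. -/
noncomputable def co (p q w : V) : V := (dt w q / dt p q, dt p w / dt p q)

theorem co_lin {p q : V} (h : dt p q ≠ 0) (u : V) : co p q (lin p q u) = u := by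
  ext
  · simp only [co]
    rw [div_eq_iff h]
    simp [dt, lin]; ring
  · simp only [co]
    rw [div_eq_iff h]
    simp [dt, lin]; ring

theorem lin_co {p q : V} (h : dt p q ≠ 0) (w : V) : lin p q (co p q w) = w := by
  have := cramer p q w
  apply smul_right_injective V h
  simp only [lin, co, smul_add, smul_smul, this]
  rw [mul_div_cancel₀ _ h, mul_div_cancel₀ _ h]

theorem co_add (p q w w' : V) : co p q (w + w') = co p q w + co p q w' := by
  ext <;> simp [co, dt] <;> ring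

theorem co_sub (p q w w' : V) : co p q (w - w') = co p q w - co p q w' := by
  ext <;> simp [co, dt] <;> ring

theorem co_smul (p q w : V) (c : ℝ) : co p q (c • w) = c • co p q w := by
  ext <;> simp [co, dt] <;> ring

theorem lin_sub (p q u u' : V) : lin p q (u - u') = lin p q u - lin p q u' := by
  simp only [lin, Prod.fst_sub, Prod.snd_sub, sub_smul]; abel

theorem norm_lin_le {p q : V} {r : ℝ} (hp : ‖p‖ ≤ r) (hq : ‖q‖ ≤ r) (u : V) :
    ‖lin p q u‖ ≤ 2 * r * ‖u‖ := by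
  refine (norm_add_le _ _).trans ?_
  rw [norm_smul, norm_smul]
  have := mul_le_mul (norm_fst_le u) hp (norm_nonneg _) (norm_nonneg _)
  have := mul_le_mul (norm_snd_le u) hq (norm_nonneg _) (norm_nonneg _)
  linarith

theorem norm_co_le {p q : V} {r : ℝ} (hp : ‖p‖ ≤ r) (hq : ‖q‖ ≤ r) (w : V) :
    ‖co p q w‖ ≤ 2 * r / |dt p q| * ‖w‖ := by
  rw [co, Prod.norm_mk, Real.norm_eq_abs, Real.norm_eq_abs, abs_div, abs_div, div_mul_eq_mul_div]
  have h1 := abs_dt_le w q
  have h2 := abs_dt_le p w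
  have := norm_nonneg w
  refine max_le (div_le_div_of_nonneg_right ?_ (abs_nonneg _))
    (div_le_div_of_nonneg_right ?_ (abs_nonneg _)) <;> nlinarith

theorem continuous_co (p q : V) : Continuous (co p q) := by
  unfold co dt; fun_prop

theorem step_of_pert {Gx θ θ' G : V → V} {a b D ε δ eps : ℝ} (hδ0 : 0 ≤ δ) (hδ : δ ≤ 1 / 4)
    (hε0 : 0 ≤ ε) (hε1 : ε ≤ 1) (hε : 4 * ε ≤ eps) (hD : δ * (16 * D + 16) ≤ eps) (ha : |a| ≤ D)
    (hb : |b| ≤ D)
    (h1 : ∀ u u', ‖θ u - θ u' - (u - u')‖ ≤ 2 * δ * ‖u - u'‖) (h2 : ‖θ 0‖ ≤ δ)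
    (h1' : ∀ u u', ‖θ' u - θ' u' - (u - u')‖ ≤ 2 * δ * ‖u - u'‖) (h2' : ‖θ' 0‖ ≤ δ)
    (hG : ∀ u ∈ Sq, θ' (G u) = Gx (θ u)) (h0 : Gx 0 = 0)
    (hx : ∀ v v', ‖v‖ ≤ 2 → ‖v'‖ ≤ 2 →
      ‖Gx v - Gx v' - (a * (v.1 - v'.1), b * (v.2 - v'.2))‖ ≤ ε * ‖v - v'‖) :
    ‖G 0‖ ≤ eps ∧ ∀ u ∈ Sq, ∀ u' ∈ Sq,
      ‖G u - G u' - (a * (u.1 - u'.1), b * (u.2 - u'.2))‖ ≤ eps * ‖u - u'‖ := by
  have hD0 : 0 ≤ D := (abs_nonneg a).trans ha
  have dg : ∀ v : V, ‖((a * v.1, b * v.2) : V)‖ ≤ D * ‖v‖ := fun v => by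
    rw [Prod.norm_mk, norm_mul, norm_mul]
    exact max_le (mul_le_mul ha (norm_fst_le v) (norm_nonneg _) hD0)
      (mul_le_mul hb (norm_snd_le v) (norm_nonneg _) hD0)
  have k1 : ∀ u u', ‖θ u - θ u'‖ ≤ 3 / 2 * ‖u - u'‖ := fun u u' => by
    have := norm_add_le (θ u - θ u' - (u - u')) (u - u')
    rw [sub_add_cancel] at this
    have := h1 u u'
    have := norm_nonneg (u - u')
    nlinarith
  have k2 : ∀ u u', ‖u - u'‖ ≤ 2 * ‖θ' u - θ' u'‖ := fun u u' => by
    have := norm_sub_le (θ' u - θ' u') (θ' u - θ' u' - (u - u'))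
    rw [sub_sub_cancel] at this
    have := h1' u u'
    have := norm_nonneg (u - u')
    nlinarith
  have k3 : ∀ u ∈ Sq, ‖θ u‖ ≤ 2 := fun u hu => by
    have := norm_add_le (θ u - θ 0) (θ 0)
    rw [sub_add_cancel] at this
    have := k1 u 0
    rw [sub_zero] at this
    have := Sq.norm_le hu
    linarith
  have k4 : ∀ v v', ‖v‖ ≤ 2 → ‖v'‖ ≤ 2 → ‖Gx v - Gx v'‖ ≤ (D + 1) * ‖v - v'‖ := fun v v' hv hv' => by
    have := norm_add_le (Gx v - Gx v' - (a * (v.1 - v'.1), b * (v.2 - v'.2)))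
      (a * (v.1 - v'.1), b * (v.2 - v'.2))
    rw [sub_add_cancel] at this
    have := hx v v' hv hv'
    have h3 := dg (v - v')
    simp only [Prod.fst_sub, Prod.snd_sub] at h3
    have := norm_nonneg (v - v')
    nlinarith
  constructor
  · have a1 := k2 (G 0) 0
    rw [sub_zero, hG 0 zero_mem_Sq] at a1
    have a2 := k4 (θ 0) 0 (k3 0 zero_mem_Sq) (by simp)
    rw [h0, sub_zero, sub_zero] at a2
    have a3 := norm_sub_le (Gx (θ 0)) (θ' 0)
    have a4 : (D + 1) * ‖θ 0‖ ≤ (D + 1) * δ := by gcongr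
    nlinarith
  · intro u hu u' hu'
    have a1 := k2 (G u) (G u')
    have a2 := h1' (G u) (G u')
    rw [hG u hu, hG u' hu'] at a1 a2
    have a3 := k4 _ _ (k3 u hu) (k3 u' hu')
    have a4 := hx _ _ (k3 u hu) (k3 u' hu')
    have a5 := dg (θ u - θ u' - (u - u'))
    have a6 := h1 u u'
    have a7 := k1 u u'
    have e : G u - G u' - (a * (u.1 - u'.1), b * (u.2 - u'.2)) =
        -(Gx (θ u) - Gx (θ u') - (G u - G u')) +
        (Gx (θ u) - Gx (θ u') - (a * ((θ u).1 - (θ u').1), b * ((θ u).2 - (θ u').2))) +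
        (a * (θ u - θ u' - (u - u')).1, b * (θ u - θ u' - (u - u')).2) := by
      ext <;> simp <;> ring
    rw [e]
    refine (norm_add₃_le).trans ?_
    rw [norm_neg]
    have n0 := norm_nonneg (u - u')
    set n := ‖u - u'‖
    have b1 : ‖Gx (θ u) - Gx (θ u')‖ ≤ (D + 1) * (3 / 2 * n) := a3.trans (by gcongr)
    have b2 : 2 * δ * ‖G u - G u'‖ ≤ 2 * δ * (2 * ((D + 1) * (3 / 2 * n))) := by
      gcongr; linarith
    have b3 : ε * ‖θ u - θ u'‖ ≤ ε * (3 / 2 * n) := by gcongr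
    have b4 : D * ‖θ u - θ u' - (u - u')‖ ≤ D * (2 * δ * n) := by gcongr
    have b5 : δ * (16 * D + 16) * n ≤ eps * n := by gcongr
    have b6 : 4 * ε * n ≤ eps * n := by gcongr
    have b7 : 0 ≤ δ * n := by positivity
    have b8 : 0 ≤ ε * n := by positivity
    nlinarith

variable {X : Type*} [MetricSpace X] [MeasurableSpace X]

/-- The chart `e` is chart `i` of the atlas followed by affine coordinates. -/
structure IsChart (T : Atlas X) (i : Fin T.n) (z p q : V) (e : OpenPartialHomeomorph X V) :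
    Prop where
  source : e.source = (T.c i).source
  target : ∀ u, u ∈ e.target ↔ z + lin p q u ∈ (T.c i).target
  app : ∀ y, e y = co p q (T.c i y - z)
  symm : ∀ u, e.symm u = (T.c i).symm (z + lin p q u)

theorem exists_chart (T : Atlas X) (i : Fin T.n) (z p q : V) :
    ∃ e, dt p q ≠ 0 → IsChart T i z p q e := by
  by_cases h : dt p q = 0
  · exact ⟨T.c i, fun h' => absurd h h'⟩
  · let a : V ≃ₜ V :=
      { toFun := fun w => co p q (w - z)
        invFun := fun u => z + lin p q u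
        left_inv := fun w => by simp [lin_co h]
        right_inv := fun u => by simp [co_lin h]
        continuous_toFun := (continuous_co p q).comp (by fun_prop)
        continuous_invFun := by unfold lin; fun_prop }
    exact ⟨(T.c i).transHomeomorph a, fun _ => ⟨rfl, fun u => Iff.rfl, fun y => rfl, fun u => rfl⟩⟩

/-- Affine data close to the data `(z0, p0, q0)`. -/
def Near (δ : ℝ) (z0 p0 q0 z p q : V) : Prop :=
  ‖co p0 q0 (z - z0)‖ ≤ δ ∧ ‖co p0 q0 p - (1, 0)‖ ≤ δ ∧ ‖co p0 q0 q - (0, 1)‖ ≤ δ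

theorem co_self_fst {p q : V} (h : dt p q ≠ 0) : co p q p = (1, 0) := by
  have := co_lin h (1, 0)
  simpa [lin] using this

theorem co_self_snd {p q : V} (h : dt p q ≠ 0) : co p q q = (0, 1) := by
  have := co_lin h (0, 1)
  simpa [lin] using this

theorem co_zero (p q : V) : co p q 0 = 0 := by simp [co, dt]

theorem near_self {δ : ℝ} (hδ : 0 ≤ δ) (z : V) {p q : V} (h : dt p q ≠ 0) : Near δ z p q z p q := by
  simp [Near, co_zero, co_self_fst h, co_self_snd h, hδ]

theorem Near.pert {δ : ℝ} {z0 p0 q0 z p q : V} (h : Near δ z0 p0 q0 z p q) (u u' : V) :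
    ‖co p0 q0 (z + lin p q u - z0) - co p0 q0 (z + lin p q u' - z0) - (u - u')‖ ≤
      2 * δ * ‖u - u'‖ := by
  have e : co p0 q0 (z + lin p q u - z0) - co p0 q0 (z + lin p q u' - z0) - (u - u') =
      lin (co p0 q0 p - (1, 0)) (co p0 q0 q - (0, 1)) (u - u') := by
    rw [← co_sub, show z + lin p q u - z0 - (z + lin p q u' - z0) = lin p q (u - u') by
      rw [lin_sub]; abel, lin, co_add, co_smul, co_smul]
    ext <;> simp [lin] <;> ring
  rw [e]
  exact norm_lin_le h.2.1 h.2.2 _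

theorem Near.zero {δ : ℝ} {z0 p0 q0 z p q : V} (h : Near δ z0 p0 q0 z p q) :
    ‖co p0 q0 (z + lin p q 0 - z0)‖ ≤ δ := by
  simpa [lin] using h.1

theorem Near.norm_le {δ : ℝ} {z0 p0 q0 z p q : V} (hδ : δ ≤ 1 / 4) (h : Near δ z0 p0 q0 z p q)
    {u : V} (hu : u ∈ Sq) : ‖co p0 q0 (z + lin p q u - z0)‖ ≤ 2 := by
  have h1 := h.pert u 0
  have h2 := h.zero
  have h3 := Sq.norm_le hu
  have h0 : 0 ≤ δ := (norm_nonneg _).trans h2
  rw [sub_zero] at h1
  have := norm_add₃_le (a := co p0 q0 (z + lin p q u - z0) - co p0 q0 (z + lin p q 0 - z0) - u)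
    (b := co p0 q0 (z + lin p q 0 - z0)) (c := u)
  rw [show co p0 q0 (z + lin p q u - z0) - co p0 q0 (z + lin p q 0 - z0) - u +
    co p0 q0 (z + lin p q 0 - z0) + u = co p0 q0 (z + lin p q u - z0) by abel] at this
  nlinarith

/-- A system of boxes along the orbits in `S`, with the common box `e0` on `P`. -/
structure Boxes (f : X → X) (lam eps : ℝ) (S P : Set X) (bx : X → OpenPartialHomeomorph X V)
    (e0 : OpenPartialHomeomorph X V) : Prop where
  mS : MeasurableSet S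
  inv : f ⁻¹' S = S
  mP : MeasurableSet P
  sub : P ⊆ S
  eq : ∀ x ∈ P, bx x = e0
  step : ∀ x ∈ S, Step f lam eps (bx x) (bx (f x))
  mem : ∀ x ∈ S, x ∈ Bx (bx x)
  uc : ∀ η > 0, ∃ δ > 0, ∀ x ∈ S, ∀ y ∈ Bx (bx x), ‖bx x y - bx x x‖ < δ → dist y x < η

variable {T : Atlas X} {f g : X → X} {C β χ : ℝ} {A B : X → V →L[ℝ] V}

theorem exists_scaled [BorelSpace X] (hA : Sm T f C β A) (h : Coc f g A B C) (hχ : 0 < χ)
    {ε : ℝ} (hε : 0 < ε) : ∃ (S : Set X) (p q : X → V) (D r0 : ℝ), MeasurableSet S ∧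
      f ⁻¹' S = S ∧ Measurable p ∧ Measurable q ∧ 1 ≤ D ∧ 4 * r0 ≤ T.ρ ∧ r0 ≤ 1 ∧
      (∀ x ∈ S, dt (p x) (q x) ≠ 0 ∧ ‖p x‖ ≤ r0 ∧ ‖q x‖ ≤ r0 ∧ ∃ a b : ℝ,
        |a| ≤ exp (-(χ / 2)) ∧ exp (χ / 2) ≤ |b| ∧ |b| ≤ D ∧ ∀ v v' : V, ‖v‖ ≤ 2 → ‖v'‖ ≤ 2 →
        ‖co (p (f x)) (q (f x)) (T.c (T.ι (f x)) (f (T.inv x (T.pos x + lin (p x) (q x) v))) -
            T.pos (f x)) -
          co (p (f x)) (q (f x)) (T.c (T.ι (f x)) (f (T.inv x (T.pos x + lin (p x) (q x) v'))) -
            T.pos (f x)) - (a * (v.1 - v'.1), b * (v.2 - v'.2))‖ ≤ ε * ‖v - v'‖) ∧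
      ∀ (ν : Measure X) [IsFiniteMeasure ν], MeasurePreserving f ν ν →
        ∀ᵐ x ∂ν, x ∈ HasSt f A χ ∩ HasSt g B χ ∩ (BiSt f g A B χ)ᶜ → x ∈ S := by
  obtain ⟨D, cs, cu, hD, F⟩ := h.exists_frame hχ
  have hβ := hA.β_pos
  have hC := hA.one_le
  let U : X → ℝ := fun x => max 0 (-log |dt (cs x) (cu x)|)
  have hU : Measurable U := measurable_const.max (measurable_dt F.mcs F.mcu).abs.log.neg
  obtain ⟨S, R, hS, hinv, hsub, hR, hRx, hae⟩ := exists_tempered h.mf h.mg h.gf h.fg hU F.meas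
    F.inv (D := D) (fun x hx => by
      refine (abs_max_sub_max_le_max _ _ _ _).trans (max_le (by simp; linarith) ?_)
      have := F.slow x hx
      rwa [← abs_neg, neg_sub, ← neg_sub_neg, ← abs_neg, neg_sub, abs_sub_comm] at this)
    (ε := β * (χ / 2)) (by positivity)
  obtain ⟨r1, hr1, h1⟩ := exists_rpow_le hβ
    (ε := ε / (4 * C * exp (χ / 2) * exp (β * (χ / 2)))) (by positivity)
  have hρ := T.ρ_pos
  set r0 := min 1 (min r1 T.ρ / 4) with hr0
  have hr00 : 0 < r0 := lt_min one_pos (by have := lt_min hr1 hρ; positivity)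
  have hr01 : 4 * r0 ≤ min r1 T.ρ := by
    have := min_le_right 1 (min r1 T.ρ / 4); linarith
  let r : X → ℝ := fun x => r0 * exp (-R x / β)
  have hr : Measurable r := ((hR.neg.div_const β).exp).const_mul _
  have hrpos : ∀ x, 0 < r x := fun x => by positivity
  have hrle : ∀ x ∈ S, r x ≤ r0 := fun x hx => by
    have : 0 ≤ R x := (le_max_left _ _).trans (hRx x hx).1
    have : exp (-R x / β) ≤ 1 := exp_le_one_iff.2 (div_nonpos_of_nonpos_of_nonneg (by linarith) hβ.le)
    simp only [r]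
    nlinarith
  have hnorm : ∀ x ∈ S, ‖r x • cs x‖ ≤ r x ∧ ‖r x • cu x‖ ≤ r x := fun x hx => by
    rw [norm_smul, norm_smul, Real.norm_of_nonneg (hrpos x).le]
    have := F.ncs x (hsub hx)
    have := F.ncu x (hsub hx)
    have := hrpos x
    constructor <;> nlinarith
  have hdt : ∀ x ∈ S, dt (r x • cs x) (r x • cu x) ≠ 0 := fun x hx => by
    rw [dt_smul]
    exact mul_ne_zero (mul_ne_zero (hrpos x).ne' (hrpos x).ne') (F.det x (hsub hx))
  refine ⟨S, fun x => r x • cs x, fun x => r x • cu x, D * exp (χ / 2), r0, hS, hinv,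
    hr.smul F.mcs, hr.smul F.mcu, by nlinarith [one_le_exp (half_pos hχ).le],
    hr01.trans (min_le_right _ _), min_le_left _ _, fun x hx => ⟨hdt x hx,
      (hnorm x hx).1.trans (hrle x hx), (hnorm x hx).2.trans (hrle x hx), ?_⟩,
    fun ν _ hf => hae ν hf (measurePreserving_inv hf h.mg h.gf)⟩
  have hfx : f x ∈ S := by rw [← mem_preimage, hinv]; exact hx
  obtain ⟨a, b, k1, k2, k3, k4, k5⟩ := F.diag x (hsub hx)
  have hRR := abs_le.1 (hRx x hx).2
  have hrat : r x / r (f x) = exp ((R (f x) - R x) / β) := by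
    simp only [r]
    rw [mul_div_mul_left _ _ hr00.ne', ← exp_sub]
    congr 1; ring
  have rat1 : r x / r (f x) ≤ exp (χ / 2) := by
    rw [hrat, exp_le_exp, div_le_iff₀ hβ]; linarith
  have rat2 : exp (-(χ / 2)) ≤ r x / r (f x) := by
    rw [hrat, exp_le_exp, le_div_iff₀ hβ]; linarith
  have rat0 : 0 < r x / r (f x) := div_pos (hrpos _) (hrpos _)
  refine ⟨a * (r x / r (f x)), b * (r x / r (f x)), ?_, ?_, ?_, fun v v' hv hv' => ?_⟩
  · rw [abs_mul, abs_of_pos rat0]
    calc |a| * (r x / r (f x)) ≤ exp (-χ) * exp (χ / 2) := by gcongr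
      _ = exp (-(χ / 2)) := by rw [← exp_add]; congr 1; ring
  · rw [abs_mul, abs_of_pos rat0]
    calc exp (χ / 2) = exp χ * exp (-(χ / 2)) := by rw [← exp_add]; congr 1; ring
      _ ≤ |b| * (r x / r (f x)) := by gcongr
  · rw [abs_mul, abs_of_pos rat0]
    gcongr
  · have l1 : ∀ v : V, ‖v‖ ≤ 2 →
        dist (T.pos x + lin (r x • cs x) (r x • cu x) v) (T.pos x) ≤ 4 * r x := fun v hv => by
      rw [dist_eq_norm, add_sub_cancel_left]
      have := norm_lin_le (hnorm x hx).1 (hnorm x hx).2 v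
      have := hrpos x
      nlinarith
    have hr4 : 4 * r x ≤ min r1 T.ρ := by have := hrle x hx; linarith
    have l2 := hA.est x (4 * r x) _ _ (hr4.trans (min_le_right _ _)) (l1 v hv) (l1 v' hv')
    rw [add_sub_add_left_eq_sub, ← lin_sub] at l2
    have l3 : ((a * (r x / r (f x)) * (v.1 - v'.1), b * (r x / r (f x)) * (v.2 - v'.2)) : V) =
        co (r (f x) • cs (f x)) (r (f x) • cu (f x))
          (A x (lin (r x • cs x) (r x • cu x) (v - v'))) := by
      rw [← co_lin (hdt _ hfx)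
        (a * (r x / r (f x)) * (v.1 - v'.1), b * (r x / r (f x)) * (v.2 - v'.2))]
      congr 1
      simp only [lin, map_add, map_smul, k1, k2, smul_smul, Prod.fst_sub, Prod.snd_sub]
      have := (hrpos (f x)).ne'
      congr 2 <;> field_simp
    rw [l3, ← co_sub, ← co_sub, sub_sub_sub_cancel_right]
    refine (norm_co_le (hnorm _ hfx).1 (hnorm _ hfx).2 _).trans ?_
    have l4 := norm_lin_le (hnorm x hx).1 (hnorm x hx).2 (v - v')
    have d0 := abs_pos.2 (F.det _ (hsub hfx))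
    have l5 : 2 * r (f x) / |dt (r (f x) • cs (f x)) (r (f x) • cu (f x))| ≤
        2 / r (f x) * exp (R x + β * (χ / 2)) := by
      rw [dt_smul, abs_mul, abs_of_pos (mul_pos (hrpos _) (hrpos _))]
      have l6 : 1 / |dt (cs (f x)) (cu (f x))| ≤ exp (R x + β * (χ / 2)) := by
        rw [one_div, ← exp_log (inv_pos.2 d0), log_inv, exp_le_exp]
        have := (le_max_right _ _).trans (hRx _ hfx).1
        linarith
      have := hrpos (f x)
      calc 2 * r (f x) / (r (f x) * r (f x) * |dt (cs (f x)) (cu (f x))|)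
          = 2 / r (f x) * (1 / |dt (cs (f x)) (cu (f x))|) := by field_simp
        _ ≤ _ := by gcongr
    have l7 : (4 * r x) ^ β = (4 * r0) ^ β * exp (-R x) := by
      simp only [r]
      rw [← mul_assoc, mul_rpow (by positivity) (exp_pos _).le, ← exp_mul,
        div_mul_cancel₀ _ hβ.ne']
    have l8 := h1 (4 * r0) (by positivity) (hr01.trans (min_le_left _ _))
    have hrx := hrpos x
    have hrfx := hrpos (f x)
    calc _ ≤ 2 / r (f x) * exp (R x + β * (χ / 2)) *
          (C * (4 * r x) ^ β * (2 * r x * ‖v - v'‖)) := by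
          refine mul_le_mul l5 (l2.trans ?_) (norm_nonneg _) (by positivity)
          gcongr
      _ = 4 * C * (r x / r (f x)) * exp (β * (χ / 2)) * (4 * r0) ^ β * ‖v - v'‖ := by
          rw [l7, exp_add, exp_neg]
          field_simp
          norm_num
      _ ≤ 4 * C * exp (χ / 2) * exp (β * (χ / 2)) *
          (ε / (4 * C * exp (χ / 2) * exp (β * (χ / 2)))) * ‖v - v'‖ := by gcongr
      _ = ε * ‖v - v'‖ := by field_simp

theorem exists_boxes [BorelSpace X] (hA : Sm T f C β A) (h : Coc f g A B C) (hχ : 0 < χ)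
    {eps : ℝ} (heps : 0 < eps) : ∃ S : Set X,
      (∀ (ν : Measure X) [IsFiniteMeasure ν], MeasurePreserving f ν ν →
        ∀ᵐ x ∂ν, x ∈ HasSt f A χ ∩ HasSt g B χ ∩ (BiSt f g A B χ)ᶜ → x ∈ S) ∧
      ∀ ν : Measure X, ν S ≠ 0 → ∃ P bx e0, ν P ≠ 0 ∧ Boxes f (exp (-(χ / 2))) eps S P bx e0 := by
  classical
  obtain ⟨S, p, q, D, r0, hS, hinv, hp, hq, hD, hρ, hr1, hx, hae⟩ :=
    exists_scaled hA h hχ (ε := min 1 (eps / 4)) (lt_min one_pos (by positivity))
  refine ⟨S, hae, fun ν hν => ?_⟩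
  set δ := min (1 / 4) (eps / (16 * D + 16)) with hδ
  have hδ0 : 0 < δ := lt_min (by norm_num) (by positivity)
  have hδ1 : δ ≤ 1 / 4 := min_le_left _ _
  have hδ2 : δ * (16 * D + 16) ≤ eps := by
    have := min_le_right (1 / 4) (eps / (16 * D + 16))
    rwa [← hδ, le_div_iff₀ (by positivity)] at this
  obtain ⟨Q, hQ1, hQ2⟩ := TopologicalSpace.exists_countable_dense (V × V × V)
  let PP : Fin T.n → V × V × V → Set X := fun i d => {x | x ∈ S ∧ T.ι x = i ∧
    dt d.2.1 d.2.2 ≠ 0 ∧ Near δ (T.pos x) (p x) (q x) d.1 d.2.1 d.2.2}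
  have mco : ∀ {w : X → V}, Measurable w → Measurable fun x => co (p x) (q x) (w x) :=
    fun hw => ((measurable_dt hw hq).div (measurable_dt hp hq)).prodMk
      ((measurable_dt hp hw).div (measurable_dt hp hq))
  have hPP : ∀ i d, MeasurableSet (PP i d) := fun i d =>
    hS.inter ((T.ι_mp i).inter ((MeasurableSet.const _).inter
      ((measurableSet_le (mco (measurable_const.sub T.measurable_pos)).norm measurable_const).inter
      ((measurableSet_le ((mco measurable_const).sub measurable_const).norm measurable_const).inter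
      (measurableSet_le ((mco measurable_const).sub measurable_const).norm measurable_const)))))
  have hcov : S ⊆ ⋃ i, ⋃ d ∈ Q, PP i d := fun x hxS => by
    have c0 := continuous_co (p x) (q x)
    have hd := (hx x hxS).1
    have ho : IsOpen {d : V × V × V | dt d.2.1 d.2.2 ≠ 0 ∧ ‖co (p x) (q x) (d.1 - T.pos x)‖ < δ ∧
        ‖co (p x) (q x) d.2.1 - (1, 0)‖ < δ ∧ ‖co (p x) (q x) d.2.2 - (0, 1)‖ < δ} := by
      have c1 : Continuous fun d : V × V × V => dt d.2.1 d.2.2 := by unfold dt; fun_prop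
      have c2 : Continuous fun d : V × V × V => ‖co (p x) (q x) (d.1 - T.pos x)‖ := by fun_prop
      have c3 : Continuous fun d : V × V × V => ‖co (p x) (q x) d.2.1 - (1, 0)‖ := by fun_prop
      have c4 : Continuous fun d : V × V × V => ‖co (p x) (q x) d.2.2 - (0, 1)‖ := by fun_prop
      exact (isOpen_ne_fun c1 continuous_const).inter ((isOpen_lt c2 continuous_const).inter
        ((isOpen_lt c3 continuous_const).inter (isOpen_lt c4 continuous_const)))
    obtain ⟨d, hd1, hd2⟩ := hQ2.exists_mem_open ho ⟨(T.pos x, p x, q x), hd,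
      by simp [co_zero, hδ0], by simp [co_self_fst hd, hδ0], by simp [co_self_snd hd, hδ0]⟩
    simp only [mem_iUnion]
    exact ⟨T.ι x, d, hd1, hxS, rfl, hd2.1, hd2.2.1.le, hd2.2.2.1.le, hd2.2.2.2.le⟩
  obtain ⟨i, d, hpos⟩ : ∃ i d, ν (PP i d) ≠ 0 := by
    by_contra hcon
    push Not at hcon
    exact hν (measure_mono_null hcov (measure_iUnion_null fun i =>
      (measure_biUnion_null_iff hQ1).2 fun d _ => hcon i d))
  choose ch hch using exists_chart T
  let dd : X → V × V × V := fun x => if x ∈ PP i d then d else (T.pos x, p x, q x)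
  have hdd : ∀ x ∈ S, dt (dd x).2.1 (dd x).2.2 ≠ 0 ∧
      Near δ (T.pos x) (p x) (q x) (dd x).1 (dd x).2.1 (dd x).2.2 := fun x hxS => by
    simp only [dd]
    split_ifs with h1
    · exact h1.2.2
    · exact ⟨(hx x hxS).1, near_self hδ0.le _ (hx x hxS).1⟩
  let bx : X → OpenPartialHomeomorph X V := fun x => ch (T.ι x) (dd x).1 (dd x).2.1 (dd x).2.2
  have hbx : ∀ x ∈ S, IsChart T (T.ι x) (dd x).1 (dd x).2.1 (dd x).2.2 (bx x) := fun x hxS =>
    hch _ _ _ _ (hdd x hxS).1
  let θ : X → V → V := fun x u => co (p x) (q x) ((dd x).1 + lin (dd x).2.1 (dd x).2.2 u - T.pos x)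
  have hθ : ∀ x ∈ S, ∀ u, (dd x).1 + lin (dd x).2.1 (dd x).2.2 u =
      T.pos x + lin (p x) (q x) (θ x u) := fun x hxS u => by
    simp only [θ]
    rw [lin_co (hx x hxS).1]; abel
  have hθe : ∀ x ∈ S, ∀ y, θ x (bx x y) = co (p x) (q x) (T.c (T.ι x) y - T.pos x) :=
    fun x hxS y => by
      simp only [θ]
      rw [(hbx x hxS).app, lin_co (hdd x hxS).1, add_sub_cancel]
  have hdist : ∀ x ∈ S, ∀ u ∈ Sq, dist (T.pos x + lin (p x) (q x) (θ x u)) (T.pos x) ≤ T.ρ :=
    fun x hxS u hu => by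
      rw [dist_eq_norm, add_sub_cancel_left]
      have k1 := norm_lin_le (hx x hxS).2.1 (hx x hxS).2.2.1 (θ x u)
      have k2 := (hdd x hxS).2.norm_le hδ1 hu
      have k3 : 0 ≤ r0 := (norm_nonneg _).trans (hx x hxS).2.1
      change ‖θ x u‖ ≤ 2 at k2
      nlinarith
  have htgt : ∀ x ∈ S, Sq ⊆ (bx x).target := fun x hxS u hu => by
    rw [(hbx x hxS).target, hθ x hxS]
    exact T.ball x _ (hdist x hxS u hu)
  have hsymm : ∀ x ∈ S, ∀ u, (bx x).symm u = T.inv x (T.pos x + lin (p x) (q x) (θ x u)) :=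
    fun x hxS u => by rw [(hbx x hxS).symm, hθ x hxS]; rfl
  have hlow : ∀ x ∈ S, ∀ u u', ‖u - u'‖ ≤ 2 * ‖θ x u - θ x u'‖ := fun x hxS u u' => by
    have := norm_sub_le (θ x u - θ x u') (θ x u - θ x u' - (u - u'))
    rw [sub_sub_cancel] at this
    have k1 : ‖θ x u - θ x u' - (u - u')‖ ≤ _ := (hdd x hxS).2.pert u u'
    have := norm_nonneg (u - u')
    nlinarith
  have hθx : ∀ x ∈ S, θ x (bx x x) = 0 := fun x hxS => by
    rw [hθe x hxS, show T.c (T.ι x) x = T.pos x from rfl, sub_self, co_zero]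
  refine ⟨PP i d, bx, ch i d.1 d.2.1 d.2.2, hpos, hS, hinv, hPP i d, fun x hx => hx.1,
    fun x hxP => ?_, fun x hxS => ?_, fun x hxS => ?_, fun η hη => ?_⟩
  · simp only [bx, dd, if_pos hxP, hxP.2.1]
  · have hfx : f x ∈ S := by rw [← mem_preimage, hinv]; exact hxS
    obtain ⟨-, -, -, a, b, k1, k2, k3, k4⟩ := hx x hxS
    have k5 := step_of_pert (G := fun u => bx (f x) (f ((bx x).symm u))) (θ := θ x)
      (θ' := θ (f x)) (Gx := fun v => co (p (f x)) (q (f x))
        (T.c (T.ι (f x)) (f (T.inv x (T.pos x + lin (p x) (q x) v))) - T.pos (f x)))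
      hδ0.le hδ1 (lt_min one_pos (by positivity)).le (min_le_left _ _)
      (by have := min_le_right 1 (eps / 4); linarith) hδ2
      (k1.trans ((exp_le_one_iff.2 (by linarith)).trans hD)) k3 (hdd x hxS).2.pert
      (hdd x hxS).2.zero (hdd _ hfx).2.pert (hdd _ hfx).2.zero
      (fun u hu => by rw [hθe _ hfx, hsymm x hxS])
      (by
        simp only [lin, Prod.fst_zero, Prod.snd_zero, zero_smul, add_zero, T.inv_pos]
        rw [show T.c (T.ι (f x)) (f x) = T.pos (f x) from rfl, sub_self, co_zero]) k4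
    refine ⟨htgt x hxS, htgt _ hfx, fun u hu => ?_, a, b, k1, by rwa [← exp_neg, neg_neg], k5⟩
    rw [(hbx _ hfx).source, hsymm x hxS]
    exact hA.src x _ (hdist x hxS u hu)
  · refine ⟨by rw [(hbx x hxS).source]; exact T.mem x, ?_⟩
    rw [Sq_eq, mem_closedBall_zero_iff]
    have k1 := hlow x hxS (bx x x) 0
    rw [sub_zero, hθx x hxS, zero_sub, norm_neg] at k1
    have k2 : ‖θ x 0‖ ≤ δ := (hdd x hxS).2.zero
    linarith
  · obtain ⟨δ', hδ', h1⟩ := T.uc η hη
    refine ⟨δ' / 3, by positivity, fun x hxS y hy hyx => ?_⟩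
    have k0 := hsymm x hxS (bx x y)
    rw [(bx x).left_inv hy.1] at k0
    rw [k0]
    refine h1 x _ ?_
    change dist _ (T.pos x) < δ'
    rw [dist_eq_norm, add_sub_cancel_left]
    have k1 := norm_lin_le (hx x hxS).2.1 (hx x hxS).2.2.1 (θ x (bx x y))
    have k2 : ‖θ x (bx x y) - θ x (bx x x) - (bx x y - bx x x)‖ ≤ _ := (hdd x hxS).2.pert _ _
    rw [hθx x hxS, sub_zero] at k2
    have k3 := norm_add_le (θ x (bx x y) - (bx x y - bx x x)) (bx x y - bx x x)
    rw [sub_add_cancel] at k3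
    have k4 := norm_nonneg (bx x y - bx x x)
    have k5 := norm_nonneg (θ x (bx x y))
    have k6 : ‖θ x (bx x y)‖ ≤ 3 / 2 * ‖bx x y - bx x x‖ := by nlinarith
    nlinarith

end Pool.Agent.MP_369096_an

end
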